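import Mathlib

/-!
# The regular open algebra of a preorder and its forcing relation

`RO P` is the complete Boolean algebra of regular lower sets of the preorder `P`
(stronger conditions are smaller). `Forces p b` means `p ∈ b`, equivalently
`ι p ≤ b`. All clauses of the forcing relation are proved.
-/

universe u v

namespace M3

/-- Regular lower sets: lower sets `S` such that `p ∈ S` as soon as `S` is dense below `p`. -/
@[ext] structure RO (P : Type u) [Preorder P] where
  /-- the underlying set of conditions -/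
  carrier : Set P
  lower : ∀ p q, q ≤ p → p ∈ carrier → q ∈ carrier
  regular : ∀ p, (∀ q, q ≤ p → ∃ r, r ≤ q ∧ r ∈ carrier) → p ∈ carrier

namespace RO

variable {P : Type u} [Preorder P]

/-- `p` forces `b`. -/
def Forces (p : P) (b : RO P) : Prop := p ∈ b.carrier

theorem Forces.mono {p q : P} {b : RO P} (h : Forces p b) (hq : q ≤ p) : Forces q b := b.lower p q hq h

theorem forces_of_dense {p : P} {b : RO P} (h : ∀ q, q ≤ p → ∃ r, r ≤ q ∧ Forces r b) : Forces p b :=
  b.regular p h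

theorem ext' {a b : RO P} (h : ∀ p, Forces p a ↔ Forces p b) : a = b := by
  ext p; exact h p

instance : PartialOrder (RO P) where
  le a b := ∀ p, Forces p a → Forces p b
  le_refl a p h := h
  le_trans a b c h1 h2 p h := h2 p (h1 p h)
  le_antisymm a b h1 h2 := ext' fun p => ⟨h1 p, h2 p⟩

theorem le_iff {a b : RO P} : a ≤ b ↔ ∀ p, Forces p a → Forces p b := Iff.rfl

/-- Regular hull of an arbitrary set of conditions: `p` is in it iff the lower closure of `S`
is dense below `p`. -/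
def hull (S : Set P) : RO P where
  carrier := {p | ∀ q, q ≤ p → ∃ r, r ≤ q ∧ ∃ s ∈ S, r ≤ s}
  lower := fun _ _ hqp h r hr => h r (hr.trans hqp)
  regular := fun p h q hq => by
    obtain ⟨r, hr, hr'⟩ := h q hq
    obtain ⟨s, hs, t, ht, hst⟩ := hr' r le_rfl
    exact ⟨s, hs.trans hr, t, ht, hst⟩

theorem forces_hull {S : Set P} {p : P} :
    Forces p (hull S) ↔ ∀ q, q ≤ p → ∃ r, r ≤ q ∧ ∃ s ∈ S, r ≤ s := Iff.rfl

theorem hull_le {S : Set P} {b : RO P} : hull S ≤ b ↔ ∀ s ∈ S, Forces s b := by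
  constructor
  · intro h s hs
    exact h s fun q hq => ⟨q, le_rfl, s, hs, hq⟩
  · intro h p hp
    refine forces_of_dense fun q hq => ?_
    obtain ⟨r, hr, s, hs, hrs⟩ := hp q hq
    exact ⟨r, hr, (h s hs).mono hrs⟩

/-- The canonical dense embedding of `P` in its regular open algebra. -/
def ι (p : P) : RO P := hull {p}

theorem ι_le {p : P} {b : RO P} : ι p ≤ b ↔ Forces p b := by
  unfold ι; rw [hull_le]; simp

theorem forces_ι_self (p : P) : Forces p (ι p) := ι_le.mp le_rfl

theorem forces_ι {p q : P} : Forces p (ι q) ↔ ∀ r, r ≤ p → ∃ s, s ≤ r ∧ s ≤ q := by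
  unfold ι; rw [forces_hull]; simp

theorem ι_mono {p q : P} (h : p ≤ q) : ι p ≤ ι q := ι_le.mpr ((forces_ι_self q).mono h)

instance : CompleteLattice (RO P) where
  sup a b := hull {p | Forces p a ∨ Forces p b}
  le_sup_left a b := fun p hp q hq => ⟨q, le_rfl, q, Or.inl (hp.mono hq), le_rfl⟩
  le_sup_right a b := fun p hp q hq => ⟨q, le_rfl, q, Or.inr (hp.mono hq), le_rfl⟩
  sup_le a b c h1 h2 := by
    rw [hull_le]
    rintro s (hs | hs)
    · exact h1 s hs
    · exact h2 s hs
  inf a b :=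
    { carrier := {p | Forces p a ∧ Forces p b}
      lower := fun p q hq h => ⟨h.1.mono hq, h.2.mono hq⟩
      regular := fun p h => ⟨forces_of_dense fun q hq => (h q hq).imp fun r hr => ⟨hr.1, hr.2.1⟩,
        forces_of_dense fun q hq => (h q hq).imp fun r hr => ⟨hr.1, hr.2.2⟩⟩ }
  inf_le_left a b := fun p hp => hp.1
  inf_le_right a b := fun p hp => hp.2
  le_inf a b c h1 h2 := fun p hp => ⟨h1 p hp, h2 p hp⟩
  sSup S := hull {p | ∃ a ∈ S, Forces p a}
  isLUB_sSup S := ⟨fun a ha p hp q hq => ⟨q, le_rfl, q, ⟨a, ha, hp.mono hq⟩, le_rfl⟩,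
    fun b hb => hull_le.mpr fun s ⟨a, ha, hs⟩ => hb ha s hs⟩
  sInf S :=
    { carrier := {p | ∀ a ∈ S, Forces p a}
      lower := fun p q hq h a ha => (h a ha).mono hq
      regular := fun p h a ha =>
        forces_of_dense fun q hq => (h q hq).imp fun r hr => ⟨hr.1, hr.2 a ha⟩ }
  isGLB_sInf S := ⟨fun a ha p hp => hp a ha, fun b hb p hp a ha => hb ha p hp⟩
  top := { carrier := Set.univ, lower := fun _ _ _ _ => trivial, regular := fun _ _ => trivial }
  bot := { carrier := ∅, lower := fun _ _ _ h => h.elim,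
           regular := fun p h => (h p le_rfl).elim fun _ hr => hr.2.elim }
  le_top a := fun _ _ => trivial
  bot_le a := fun _ h => h.elim

theorem forces_inf {p : P} {a b : RO P} : Forces p (a ⊓ b) ↔ Forces p a ∧ Forces p b := Iff.rfl

theorem forces_sup {p : P} {a b : RO P} :
    Forces p (a ⊔ b) ↔ ∀ q, q ≤ p → ∃ r, r ≤ q ∧ (Forces r a ∨ Forces r b) := by
  constructor
  · intro h q hq
    obtain ⟨r, hr, s, hs, hrs⟩ := h q hq
    exact ⟨r, hr, hs.imp (fun h => h.mono hrs) (fun h => h.mono hrs)⟩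
  · intro h q hq
    obtain ⟨r, hr, h⟩ := h q hq
    exact ⟨r, hr, r, h, le_rfl⟩

theorem forces_top (p : P) : Forces p (⊤ : RO P) := trivial

theorem not_forces_bot (p : P) : ¬ Forces p (⊥ : RO P) := fun h => h.elim

theorem forces_sInf {p : P} {S : Set (RO P)} : Forces p (sInf S) ↔ ∀ a ∈ S, Forces p a := Iff.rfl

theorem forces_iInf {ι' : Sort v} {p : P} {f : ι' → RO P} : Forces p (⨅ i, f i) ↔ ∀ i, Forces p (f i) := by
  unfold iInf; rw [forces_sInf]; simp

theorem forces_sSup {p : P} {S : Set (RO P)} :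
    Forces p (sSup S) ↔ ∀ q, q ≤ p → ∃ r, r ≤ q ∧ ∃ a ∈ S, Forces r a := by
  constructor
  · intro h q hq
    obtain ⟨r, hr, s, ⟨a, ha, hs⟩, hrs⟩ := h q hq
    exact ⟨r, hr, a, ha, hs.mono hrs⟩
  · intro h q hq
    obtain ⟨r, hr, a, ha, h⟩ := h q hq
    exact ⟨r, hr, r, ⟨a, ha, h⟩, le_rfl⟩

theorem forces_iSup {ι' : Sort v} {p : P} {f : ι' → RO P} :
    Forces p (⨆ i, f i) ↔ ∀ q, q ≤ p → ∃ r, r ≤ q ∧ ∃ i, Forces r (f i) := by
  unfold iSup; rw [forces_sSup]; simp

/-- the regular complement -/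
def neg (a : RO P) : RO P where
  carrier := {p | ∀ q, q ≤ p → ¬ Forces q a}
  lower := fun p q hq h r hr => h r (hr.trans hq)
  regular := fun p h q hq hqa => by
    obtain ⟨r, hr, h⟩ := h q hq
    exact h r le_rfl (hqa.mono hr)

/-- Heyting implication -/
def imp (a b : RO P) : RO P where
  carrier := {p | ∀ q, q ≤ p → Forces q a → Forces q b}
  lower := fun p q hq h r hr => h r (hr.trans hq)
  regular := fun p h q hq hqa => by
    refine forces_of_dense fun r hr => ?_
    obtain ⟨s, hs, h⟩ := h r (hr.trans hq)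
    exact ⟨s, hs, h s le_rfl (hqa.mono (hs.trans hr))⟩

instance : CompleteBooleanAlgebra (RO P) where
  le_sup_inf a b c := by
    intro p hp
    rw [forces_inf, forces_sup, forces_sup] at hp
    rw [forces_sup]
    intro q hq
    obtain ⟨r, hr, h⟩ := hp.1 q hq
    rcases h with h | h
    · exact ⟨r, hr, Or.inl h⟩
    · obtain ⟨s, hs, h'⟩ := hp.2 r (hr.trans hq)
      rcases h' with h' | h'
      · exact ⟨s, hs.trans hr, Or.inl h'⟩
      · exact ⟨s, hs.trans hr, Or.inr ⟨h.mono hs, h'⟩⟩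
  compl := neg
  himp a b := imp a b
  sdiff a b := a ⊓ neg b
  sdiff_eq a b := rfl
  himp_eq a b := by
    refine ext' fun p => ?_
    rw [forces_sup]
    constructor
    · intro h q hq
      by_cases hc : ∃ r, r ≤ q ∧ Forces r a
      · obtain ⟨r, hr, hra⟩ := hc
        exact ⟨r, hr, Or.inl (h r (hr.trans hq) hra)⟩
      · refine ⟨q, le_rfl, Or.inr fun r hr hra => hc ⟨r, hr, hra⟩⟩
    · intro h q hq hqa
      refine forces_of_dense fun r hr => ?_
      obtain ⟨s, hs, h'⟩ := h r (hr.trans hq)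
      rcases h' with h' | h'
      · exact ⟨s, hs, h'⟩
      · exact (h' s le_rfl (hqa.mono (hs.trans hr))).elim
  inf_compl_le_bot a := fun p hp => (hp.2 p le_rfl hp.1).elim
  top_le_sup_compl a := by
    intro p _
    rw [forces_sup]
    intro q _
    by_cases hc : ∃ r, r ≤ q ∧ Forces r a
    · obtain ⟨r, hr, hra⟩ := hc
      exact ⟨r, hr, Or.inl hra⟩
    · exact ⟨q, le_rfl, Or.inr fun r hr hra => hc ⟨r, hr, hra⟩⟩

theorem forces_compl {p : P} {a : RO P} : Forces p aᶜ ↔ ∀ q, q ≤ p → ¬ Forces q a := Iff.rfl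

theorem forces_himp {p : P} {a b : RO P} : Forces p (a ⇨ b) ↔ ∀ q, q ≤ p → Forces q a → Forces q b := Iff.rfl

theorem not_forces_iff {p : P} {a : RO P} : ¬ Forces p a ↔ ∃ q, q ≤ p ∧ Forces q aᶜ := by
  constructor
  · intro h
    by_contra hc
    apply h
    refine forces_of_dense fun q hq => ?_
    by_contra hc'
    exact hc ⟨q, hq, fun r hr hra => hc' ⟨r, hr, hra⟩⟩
  · rintro ⟨q, hq, h⟩ hp
    exact h q le_rfl (hp.mono hq)

theorem exists_forces_of_ne_bot {a : RO P} (h : a ≠ ⊥) : ∃ p, Forces p a := by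
  by_contra hc
  exact h (ext' fun p => ⟨fun hp => (hc ⟨p, hp⟩).elim, fun hp => (not_forces_bot p hp).elim⟩)

theorem ne_bot_of_forces {a : RO P} {p : P} (h : Forces p a) : a ≠ ⊥ := by
  rintro rfl; exact not_forces_bot p h

theorem ι_ne_bot (p : P) : ι p ≠ ⊥ := ne_bot_of_forces (forces_ι_self p)

instance [Nonempty P] : Nontrivial (RO P) :=
  ⟨⟨⊤, ⊥, ne_bot_of_forces (forces_top (Classical.arbitrary P))⟩⟩

/-- The embedding is dense. -/
theorem dense {a : RO P} (h : a ≠ ⊥) : ∃ p, ι p ≤ a := by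
  obtain ⟨p, hp⟩ := exists_forces_of_ne_bot h
  exact ⟨p, ι_le.mpr hp⟩

theorem eq_top_iff_forces {a : RO P} : a = ⊤ ↔ ∀ p, Forces p a := by
  constructor
  · rintro rfl p; exact forces_top p
  · intro h; exact ext' fun p => ⟨fun _ => forces_top p, fun _ => h p⟩

/-- Deciding: every condition has an extension deciding `a`. -/
theorem exists_decide (p : P) (a : RO P) : ∃ q, q ≤ p ∧ (Forces q a ∨ Forces q aᶜ) := by
  by_cases h : Forces p a
  · exact ⟨p, le_rfl, Or.inl h⟩
  · obtain ⟨q, hq, h'⟩ := not_forces_iff.mp h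
    exact ⟨q, hq, Or.inr h'⟩

/-- Two conditions are compatible. -/
def Compat (p q : P) : Prop := ∃ r, r ≤ p ∧ r ≤ q

theorem inf_ι_ne_bot_iff {p q : P} : ι p ⊓ ι q ≠ ⊥ ↔ Compat p q := by
  constructor
  · intro h
    obtain ⟨r, hr⟩ := exists_forces_of_ne_bot h
    obtain ⟨s, hs, hsp⟩ := forces_ι.mp hr.1 r le_rfl
    obtain ⟨t, ht, htq⟩ := forces_ι.mp hr.2 s hs
    exact ⟨t, ht.trans hsp, htq⟩
  · rintro ⟨r, hp, hq⟩
    exact ne_bot_of_forces (p := r) ⟨(forces_ι_self p).mono hp, (forces_ι_self q).mono hq⟩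

/-- The countable chain condition for a preorder: every set of pairwise incompatible conditions
is countable. -/
def CCC (P : Type u) [Preorder P] : Prop :=
  ∀ A : Set P, (∀ p ∈ A, ∀ q ∈ A, p ≠ q → ¬ Compat p q) → A.Countable

end RO

/-- The countable chain condition for a Boolean algebra: every family of pairwise disjoint
non-zero elements is countable. -/
def BCCC (B : Type u) [BooleanAlgebra B] : Prop :=
  ∀ A : Set B, (∀ a ∈ A, a ≠ ⊥) → (∀ a ∈ A, ∀ b ∈ A, a ≠ b → a ⊓ b = ⊥) → A.Countable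

theorem RO.bccc {P : Type u} [Preorder P] (h : RO.CCC P) : BCCC (RO P) := by
  classical
  intro A hA hA'
  have hch : ∀ a : A, ∃ p, RO.Forces p a.1 := fun a => RO.exists_forces_of_ne_bot (hA a.1 a.2)
  choose f hf using hch
  have hinj : Function.Injective f := by
    intro a b hab
    by_contra hne
    have h1 : a.1 ⊓ b.1 = ⊥ := hA' a.1 a.2 b.1 b.2 (fun h => hne (Subtype.ext h))
    have h2 : RO.Forces (f a) (a.1 ⊓ b.1) := ⟨hf a, hab ▸ hf b⟩
    rw [h1] at h2
    exact RO.not_forces_bot _ h2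
  have hc : (Set.range f).Countable := by
    apply h
    rintro _ ⟨a, rfl⟩ _ ⟨b, rfl⟩ hne ⟨r, hra, hrb⟩
    have hab : a.1 ≠ b.1 := fun h => hne (by rw [Subtype.ext h])
    have h1 : a.1 ⊓ b.1 = ⊥ := hA' a.1 a.2 b.1 b.2 hab
    have h2 : RO.Forces r (a.1 ⊓ b.1) := ⟨(hf a).mono hra, (hf b).mono hrb⟩
    rw [h1] at h2
    exact RO.not_forces_bot _ h2
  have : Countable (Set.range f) := hc.to_subtype
  have h3 : Function.Injective (Set.rangeFactorization f) := fun a b hab =>
    hinj (congrArg Subtype.val hab)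
  exact Set.countable_coe_iff.mp h3.countable

/-- Under ccc, a disjoint family of elements has only countably many non-zero members. -/
theorem BCCC.countable_index {B : Type u} [BooleanAlgebra B] (h : BCCC B) {ι : Type v}
    (c : ι → B) (hc : ∀ i j, i ≠ j → c i ⊓ c j = ⊥) : {i | c i ≠ ⊥}.Countable := by
  classical
  have h1 : (c '' {i | c i ≠ ⊥}).Countable := by
    apply h
    · rintro _ ⟨i, hi, rfl⟩; exact hi
    · rintro _ ⟨i, hi, rfl⟩ _ ⟨j, hj, rfl⟩ hne
      exact hc i j fun hij => hne (by rw [hij])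
  refine Set.countable_of_injective_of_countable_image ?_ h1
  intro i hi j hj hij
  by_contra hne
  have h2 := hc i j hne
  rw [hij, inf_idem] at h2
  exact hj h2

end M3
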