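import Mathlib

/-!
# The second-order Boolean-valued form of the homeomorphism statement

This file is the interface between the parts of the independence proof.  `B` is a complete Boolean
algebra, `G` and `H` are (ground) additive groups, and we define the `B`-value `bHomeo B G H` of the
statement that there is a homeomorphism between `G` and `H` with their pro-countable topologies (the
subgroups of countable index are a base at `0`).  Subsets of `G` are `B`-valued predicates.
-/

namespace M3

open Function

/-- The type of order type the first uncountable ordinal. -/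
abbrev W1 : Type := (Ordinal.omega.{0} 1).ToType

section defs

variable {B : Type} [CompleteBooleanAlgebra B]
variable {G H : Type} [AddCommGroup G] [AddCommGroup H]

/-- Value of: `lam` is a subgroup (for groups of finite exponent it is enough to be closed under
addition and to contain `0`). -/
def bSub (lam : G → B) : B :=
  lam 0 ⊓ ⨅ x, ⨅ y, (lam x ⊓ lam y) ⇨ lam (x + y)

/-- Value of: the set of cosets of `lam` is countable. -/
def bIdx (lam : G → B) : B :=
  ⨆ r : G → ℕ → B, (⨅ x, ⨆ n, r x n) ⊓ ⨅ x, ⨅ y, ⨅ n, (r x n ⊓ r y n) ⇨ lam (x - y)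

/-- Value of: the relation `F` is (the graph of) a bijection. -/
def bBij (F : G → H → B) : B :=
  (⨅ x, ⨆ y, F x y) ⊓ (⨅ x, ⨅ y, ⨅ y', ⨅ (_ : y ≠ y'), (F x y ⊓ F x y')ᶜ) ⊓
    ((⨅ y, ⨆ x, F x y) ⊓ (⨅ y, ⨅ x, ⨅ x', ⨅ (_ : x ≠ x'), (F x y ⊓ F x' y)ᶜ))

/-- Value of: the (graph) `F` is continuous for the pro-countable topologies. -/
def bCont (F : G → H → B) : B :=
  ⨅ x, ⨅ y, F x y ⇨ ⨅ lam : H → B, (bSub lam ⊓ bIdx lam) ⇨
    ⨆ kap : G → B, bSub kap ⊓ bIdx kap ⊓
      ⨅ z, ⨅ w, (kap z ⊓ F (x + z) w) ⇨ lam (w - y)

variable (B G H)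

/-- Value of: `G` and `H` are homeomorphic in their pro-countable topologies. -/
def bHomeo : B :=
  ⨆ F : G → H → B, bBij F ⊓ bCont F ⊓ bCont (fun y x => F x y)

end defs

/-- The initial segment of length `k` of the branch `rho x`, as a node of the binary tree. -/
def pre {W : Type} (rho : W → ℕ → Bool) (x : W) (k : ℕ) : List Bool :=
  List.ofFn (fun i : Fin k => rho x i)

/-- Value of: the last initial segment of `x` in the set `R` of nodes has length `k`. -/
def Last {B : Type} [CompleteBooleanAlgebra B] {W : Type} (rho : W → ℕ → Bool)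
    (R : List Bool → B) (x : W) (k : ℕ) : B :=
  R (pre rho x k) ⊓ ⨅ j, ⨅ (_ : k < j), (R (pre rho x j))ᶜ

/-- Node refinements (interface between the forcing that gives homeomorphisms and the rest).
Every `B`-valued colouring `c` of `W` by natural numbers has a `B`-valued set `R` of nodes of the
binary tree such that the root is in `R`, every `x` has only finitely many initial segments in `R`,
and two points with the same last initial segment in `R` have the same colour. -/
def NodeRef (B : Type) [CompleteBooleanAlgebra B] (W : Type) (rho : W → ℕ → Bool) : Prop :=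
  ∀ c : W → ℕ → B, (∀ a, ⨆ n, c a n = ⊤) → (∀ a m n, m ≠ n → Disjoint (c a m) (c a n)) →
    ∃ R : List Bool → B, R [] = ⊤ ∧
      (∀ x, ⨆ k, ⨅ j, ⨅ (_ : k < j), (R (pre rho x j))ᶜ = ⊤) ∧
      (∀ x y k n, pre rho x k = pre rho y k → Last rho R x k ⊓ Last rho R y k ⊓ c x n ≤ c y n)

end M3
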