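import Pool.Agent.H.MP_8ff4bd_gt.M3.NoModel
import Pool.Agent.H.MP_8ff4bd_gt.M3.RO
import Pool.Agent.H.MP_8ff4bd_gt.M3.SO

/-!
# The negative model: the value of the homeomorphism statement is `⊥` for the Cohen algebra

`B = RO (Cond (Set W1 × W1))`, functions with finite domain in `Set W1 × W1` and values in `ℕ`.
-/

set_option autoImplicit false

namespace M3

open Classical H98m

/-- Stronger conditions are smaller. -/
instance instPreorderCond {K : Type} : Preorder (Cond K) where
  le q p := Ext q p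
  le_refl p := Ext.refl p
  le_trans _ _ _ h1 h2 := h1.trans h2

theorem cond_le_iff {K : Type} {p q : Cond K} : q ≤ p ↔ Ext q p := Iff.rfl

theorem compat_iff {K : Type} {p q : Cond K} : RO.Compat p q ↔ H98m.Compat p q := by
  constructor
  · rintro ⟨r, hp, hq⟩
    exact compat_of_ext hp hq
  · intro h
    exact ⟨un p q, ext_un_left p q, ext_un_right h⟩

theorem cond_ccc (K : Type) : RO.CCC (Cond K) := by
  intro A hA
  exact ccc A id fun p hp q hq hne h => hA p hp q hq hne (compat_iff.2 h)

theorem denseEmb (K : Type) : DenseEmb (RO.ι : Cond K → RO (Cond K)) where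
  ne_bot := RO.ι_ne_bot
  anti p q h := RO.ι_mono h
  inc p q h := by
    by_contra hne
    exact h (compat_iff.1 (RO.inf_ι_ne_bot_iff.1 hne))
  dense b hb := RO.dense hb

/-- The Cohen algebra. -/
abbrev BCohen : Type := RO (Cond (Set W1 × W1))

instance : Nonempty (Cond (Set W1 × W1)) := ⟨⟨∅, fun _ => 0⟩⟩

theorem bccc_cohen : BCCC BCohen := RO.bccc (cond_ccc _)

section block

variable {W : Type} {I : Type} (i : I)

/-- The vector of class sums of `x` determined by the values of `q` in the block `i`. -/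
noncomputable def vec (q : Cond (I × W)) : (W →₀ ZMod 3) →+ (ℕ →₀ ZMod 3) :=
  Finsupp.mapDomain.addMonoidHom (fun a => q.val (i, a))

theorem vec_apply (q : Cond (I × W)) (x : W →₀ ZMod 3) (n : ℕ) :
    vec i q x n = ∑ a ∈ x.support.filter (fun a => q.val (i, a) = n), x a := by
  unfold vec
  simp only [Finsupp.mapDomain.addMonoidHom_apply, Finsupp.mapDomain, Finsupp.sum,
    Finsupp.finsetSum_apply, Finsupp.single_apply, Finset.sum_filter]

/-- `q` decides the block `i` on the support of `x`. -/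
def Dec (q : Cond (I × W)) (x : W →₀ ZMod 3) : Prop := ∀ a ∈ x.support, (i, a) ∈ q.dom

theorem vec_congr {q r : Cond (I × W)} (h : r ≤ q) {x : W →₀ ZMod 3} (hq : Dec i q x) :
    vec i r x = vec i q x := by
  unfold vec
  simp only [Finsupp.mapDomain.addMonoidHom_apply]
  exact Finsupp.mapDomain_congr fun a ha => h.2 _ (hq a ha)

theorem Dec.mono {q r : Cond (I × W)} (h : r ≤ q) {x : W →₀ ZMod 3} (hq : Dec i q x) :
    Dec i r x := fun a ha => h.1 (hq a ha)

theorem exists_dec (q : Cond (I × W)) (s : Finset (I × W)) :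
    ∃ r, r ≤ q ∧ s ⊆ r.dom := by
  refine ⟨un q ⟨s, fun _ => 0⟩, ext_un_left _ _, ?_⟩
  intro k hk
  exact mem_un.2 (Or.inr hk)

theorem exists_dec₂ (q : Cond (I × W)) (x y z : W →₀ ZMod 3) :
    ∃ r, r ≤ q ∧ Dec i r x ∧ Dec i r y ∧ Dec i r z := by
  obtain ⟨r, hr, hs⟩ := exists_dec q ((x.support ∪ y.support ∪ z.support).image
    (fun a => (i, a)))
  refine ⟨r, hr, ?_, ?_, ?_⟩
  · intro a ha
    exact hs (Finset.mem_image.2 ⟨a, by simp only [Finset.mem_union]; tauto, rfl⟩)
  · intro a ha
    exact hs (Finset.mem_image.2 ⟨a, by simp only [Finset.mem_union]; tauto, rfl⟩)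
  · intro a ha
    exact hs (Finset.mem_image.2 ⟨a, by simp only [Finset.mem_union]; tauto, rfl⟩)

/-- The value of: the class sum vector of `x` with respect to the Cohen colouring `i` satisfies
`φ`. -/
def vecVal (φ : (ℕ →₀ ZMod 3) → Prop) (x : W →₀ ZMod 3) : RO (Cond (I × W)) where
  carrier := {p | ∀ q, q ≤ p → Dec i q x → φ (vec i q x)}
  lower := fun _ _ hqp h r hr => h r (hr.trans hqp)
  regular := fun p h q hq hd => by
    obtain ⟨r, hr, h'⟩ := h q hq
    have := h' r le_rfl (hd.mono i hr)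
    rwa [vec_congr i hr hd] at this

theorem forces_vecVal {φ : (ℕ →₀ ZMod 3) → Prop} {x : W →₀ ZMod 3} {p : Cond (I × W)} :
    RO.Forces p (vecVal i φ x) ↔ ∀ q, q ≤ p → Dec i q x → φ (vec i q x) := Iff.rfl

theorem forces_vecVal_of_dec {φ : (ℕ →₀ ZMod 3) → Prop} {x : W →₀ ZMod 3} {p : Cond (I × W)}
    (hp : Dec i p x) : RO.Forces p (vecVal i φ x) ↔ φ (vec i p x) := by
  rw [forces_vecVal]
  constructor
  · intro h
    exact h p le_rfl hp
  · intro h q hq _
    rwa [vec_congr i hq hp]

/-- The name of the subgroup of all vectors with zero sums over the classes of the block `i`. -/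
def lamB (x : W →₀ ZMod 3) : RO (Cond (I × W)) := vecVal i (fun v => v = 0) x

end block

theorem bSub_lamB (i : Set W1) : bSub (lamB (W := W1) i) = ⊤ := by
  rw [RO.eq_top_iff_forces]
  intro p
  unfold bSub
  rw [RO.forces_inf]
  refine ⟨?_, ?_⟩
  · rw [lamB, forces_vecVal]
    intro q _ _
    exact map_zero _
  · simp only [RO.forces_iInf, RO.forces_himp, RO.forces_inf]
    intro x y q hq h
    unfold lamB at h ⊢
    rw [forces_vecVal] at h ⊢
    intro r hr hd
    obtain ⟨s, hs, h1, h2, h3⟩ := exists_dec₂ i r x y (x + y)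
    have e1 := h.1 s (hs.trans hr) h1
    have e2 := h.2 s (hs.trans hr) h2
    rw [← vec_congr i hs hd, map_add, e1, e2, add_zero]

theorem bIdx_lamB (i : Set W1) : bIdx (lamB (W := W1) i) = ⊤ := by
  obtain ⟨code, hcode⟩ : ∃ f : (ℕ →₀ ZMod 3) → ℕ, Function.Injective f :=
    Countable.exists_injective_nat _
  rw [RO.eq_top_iff_forces]
  intro p
  unfold bIdx
  rw [RO.forces_iSup]
  intro q _
  refine ⟨q, le_rfl, fun x n => vecVal i (fun v => code v = n) x, ?_⟩
  rw [RO.forces_inf]
  refine ⟨?_, ?_⟩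
  · simp only [RO.forces_iInf, RO.forces_iSup]
    intro x r _
    obtain ⟨s, hs, h1, -, -⟩ := exists_dec₂ i r x x x
    exact ⟨s, hs, code (vec i s x), (forces_vecVal_of_dec i h1).2 rfl⟩
  · simp only [RO.forces_iInf, RO.forces_himp, RO.forces_inf]
    intro x y n r _ h
    unfold lamB
    rw [forces_vecVal] at h ⊢
    intro s hs hd
    obtain ⟨t, ht, h1, h2, h3⟩ := exists_dec₂ i s x y (x - y)
    have e1 := h.1 t (ht.trans hs) h1
    have e2 := h.2 t (ht.trans hs) h2
    have e3 : vec i t x = vec i t y := hcode (e1.trans e2.symm)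
    rw [← vec_congr i ht hd, map_sub, e3, sub_self]

section even

variable {B : Type} [CompleteBooleanAlgebra B] {W : Type}

/-- The indicator vector of a finite set. -/
noncomputable def ind (x : Finset W) : W →₀ ZMod 2 := ∑ a ∈ x, Finsupp.single a 1

theorem ind_apply (x : Finset W) (a : W) : ind x a = if a ∈ x then 1 else 0 := by
  unfold ind
  rw [Finsupp.finsetSum_apply]
  simp only [Finsupp.single_apply]
  rw [Finset.sum_ite_eq' x a (fun _ => (1 : ZMod 2))]

theorem ind_injective : Function.Injective (ind : Finset W → (W →₀ ZMod 2)) := by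
  intro x y h
  ext a
  have h1 := DFunLike.congr_fun h a
  rw [ind_apply, ind_apply] at h1
  by_cases hx : a ∈ x <;> by_cases hy : a ∈ y <;> simp [hx, hy] at h1 ⊢

/-- A set with even colour classes lies in a subgroup whose cosets are separated by the
colouring. -/
theorem kap_even {kap : (W →₀ ZMod 2) → B} {r : (W →₀ ZMod 2) → ℕ → B} {b : B}
    (h0 : b ≤ kap 0) (hadd : ∀ x y, b ⊓ (kap x ⊓ kap y) ≤ kap (x + y))
    (hr : ∀ x y n, b ⊓ (r x n ⊓ r y n) ≤ kap (x - y)) (c : W → ℕ) :
    ∀ (m : ℕ) (x : Finset W), x.card = m → (∀ n, Even (x.filter (fun a => c a = n)).card) →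
      b ⊓ (⨅ a ∈ x, r (Finsupp.single a 1) (c a)) ≤ kap (ind x) := by
  intro m
  induction m using Nat.strong_induction_on with
  | _ m ih =>
    intro x hx hc
    by_cases hx0 : x = ∅
    · subst hx0
      simp only [ind, Finset.sum_empty]
      exact inf_le_left.trans h0
    obtain ⟨a, ha⟩ := Finset.nonempty_iff_ne_empty.2 hx0
    have hcard : (x.filter (fun t => c t = c a)).card ≠ 1 := by
      intro h1
      have := hc (c a)
      rw [h1] at this
      exact (by decide : ¬ Even 1) this
    have hamem : a ∈ x.filter (fun t => c t = c a) := Finset.mem_filter.2 ⟨ha, rfl⟩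
    have hpos : 0 < (x.filter (fun t => c t = c a)).card := Finset.card_pos.2 ⟨a, hamem⟩
    obtain ⟨b', hb', hba⟩ := Finset.exists_mem_ne
      (show 1 < (x.filter (fun t => c t = c a)).card by omega) a
    have hbx : b' ∈ x := (Finset.mem_filter.1 hb').1
    have hcb : c b' = c a := (Finset.mem_filter.1 hb').2
    set y := (x.erase a).erase b' with hy
    have hb'e : b' ∈ x.erase a := Finset.mem_erase.2 ⟨hba, hbx⟩
    have hycard : y.card + 2 = x.card := by
      have h1 : y.card + 1 = (x.erase a).card := Finset.card_erase_add_one hb'e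
      have h2 : (x.erase a).card + 1 = x.card := Finset.card_erase_add_one ha
      omega
    have hyc : ∀ n, Even (y.filter (fun t => c t = n)).card := by
      intro n
      have hfil : y.filter (fun t => c t = n) =
          ((x.filter (fun t => c t = n)).erase a).erase b' := by
        ext t
        simp only [hy, Finset.mem_filter, Finset.mem_erase]
        tauto
      by_cases hn : c a = n
      · have h1 : a ∈ x.filter (fun t => c t = n) := Finset.mem_filter.2 ⟨ha, hn⟩
        have h2 : b' ∈ (x.filter (fun t => c t = n)).erase a :=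
          Finset.mem_erase.2 ⟨hba, Finset.mem_filter.2 ⟨hbx, hcb.trans hn⟩⟩
        have h3 := Finset.card_erase_add_one h1
        have h4 := Finset.card_erase_add_one h2
        have h5 := hc n
        rw [hfil]
        rw [← h3, ← h4, add_assoc] at h5
        exact (Nat.even_add.1 h5).2 (by decide)
      · have h1 : a ∉ x.filter (fun t => c t = n) := fun h => hn (Finset.mem_filter.1 h).2
        have h2 : b' ∉ (x.filter (fun t => c t = n)).erase a := fun h =>
          hn (hcb ▸ (Finset.mem_filter.1 (Finset.mem_of_mem_erase h)).2)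
        rw [hfil, Finset.erase_eq_of_notMem h2, Finset.erase_eq_of_notMem h1]
        exact hc n
    have hIH := ih y.card (by omega) y rfl hyc
    have hxy : ind x = ind y + (Finsupp.single a 1 - Finsupp.single b' 1) := by
      have h1 : ind x = ind (x.erase a) + Finsupp.single a 1 := by
        unfold ind
        rw [Finset.sum_erase_add _ _ ha]
      have h2 : ind (x.erase a) = ind y + Finsupp.single b' 1 := by
        unfold ind
        rw [hy, Finset.sum_erase_add _ _ hb'e]
      have h3 : (Finsupp.single b' 1 : W →₀ ZMod 2) = - Finsupp.single b' 1 := by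
        rw [← Finsupp.single_neg]
        congr 1
      rw [h1, h2, sub_eq_add_neg, ← h3]
      abel
    rw [hxy]
    have hsub : b ⊓ (⨅ t ∈ x, r (Finsupp.single t 1) (c t)) ≤
        b ⊓ (⨅ t ∈ y, r (Finsupp.single t 1) (c t)) := by
      refine inf_le_inf_left _ ?_
      refine le_iInf₂ fun t ht => ?_
      exact iInf₂_le t (Finset.mem_of_mem_erase (Finset.mem_of_mem_erase ht))
    have hpair : b ⊓ (⨅ t ∈ x, r (Finsupp.single t 1) (c t)) ≤
        kap (Finsupp.single a 1 - Finsupp.single b' 1) := by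
      refine le_trans ?_ (hr (Finsupp.single a 1) (Finsupp.single b' 1) (c a))
      refine inf_le_inf_left _ (le_inf ?_ ?_)
      · exact iInf₂_le a ha
      · rw [← hcb]
        exact iInf₂_le b' hbx
    refine le_trans ?_ (hadd _ _)
    exact le_inf inf_le_left (le_inf (hsub.trans hIH) hpair)

end even

theorem W1_uncountable : ¬ (Set.univ : Set W1).Countable := by
  intro h
  have h1 : Countable W1 := Set.countable_univ_iff.1 h
  have h2 : Cardinal.mk W1 ≤ Cardinal.aleph0 := Cardinal.mk_le_aleph0_iff.2 h1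
  rw [Cardinal.mk_toType, Ordinal.card_omega] at h2
  have h3 := Cardinal.aleph0_lt_aleph_one
  exact absurd h2 (not_le.2 h3)

theorem W1_blocks (J : Finset W1 → Set (Set W1)) (hJ : ∀ x, (J x).Countable) :
    ∃ i, ∀ x, i ∉ J x := by
  have : Infinite W1 := by
    by_contra h
    rw [not_infinite_iff_finite] at h
    exact W1_uncountable (Set.finite_univ.countable)
  by_contra hcon
  push Not at hcon
  have huniv : (⋃ x, J x) = Set.univ := by
    ext i
    simp only [Set.mem_iUnion, Set.mem_univ, iff_true]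
    exact hcon i
  have h1 : Cardinal.mk (⋃ x, J x) ≤ Cardinal.mk (Finset W1) * Cardinal.aleph0 := by
    refine (Cardinal.mk_iUnion_le_sum_mk).trans ?_
    refine (Cardinal.sum_le_sum _ (fun _ => Cardinal.aleph0) fun x => ?_).trans ?_
    · exact (hJ x).le_aleph0
    · rw [Cardinal.sum_const']
  rw [Cardinal.mk_finset_of_infinite, Cardinal.mul_aleph0_eq (Cardinal.aleph0_le_mk W1), huniv,
    Cardinal.mk_univ, Cardinal.mk_set] at h1
  exact absurd h1 (not_le.2 (Cardinal.cantor _))

/-- **The negative model**: the homeomorphism statement has the value `⊥` in the Cohen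
algebra. -/
theorem bHomeo_cohen : bHomeo BCohen (W1 →₀ ZMod 2) (W1 →₀ ZMod 3) = ⊥ := by
  by_contra hne
  unfold bHomeo at hne
  obtain ⟨F, hF⟩ : ∃ F : (W1 →₀ ZMod 2) → (W1 →₀ ZMod 3) → BCohen,
      bBij F ⊓ bCont F ⊓ bCont (fun y x => F x y) ≠ ⊥ := by
    by_contra hcon
    push Not at hcon
    apply hne
    simp [hcon]
  have hb1 : bBij F ⊓ bCont F ≠ ⊥ := fun h => hF (by rw [h]; simp)
  have htotal : ∀ x, bBij F ≤ ⨆ y, F x y := fun x =>
    (inf_le_left.trans inf_le_left).trans (iInf_le _ x)
  have hinj : ∀ y x x', x ≠ x' → bBij F ≤ (F x y ⊓ F x' y)ᶜ := fun y x x' hx =>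
    (inf_le_right.trans inf_le_right).trans
      ((iInf_le _ y).trans ((iInf_le _ x).trans ((iInf_le _ x').trans (iInf_le _ hx))))
  obtain ⟨y0, hy0⟩ : ∃ y0, bBij F ⊓ bCont F ⊓ F 0 y0 ≠ ⊥ := by
    by_contra hcon
    push Not at hcon
    apply hb1
    have h1 : bBij F ⊓ bCont F = bBij F ⊓ bCont F ⊓ ⨆ y, F 0 y :=
      (inf_eq_left.2 (inf_le_left.trans (htotal 0))).symm
    rw [h1, inf_iSup_eq]
    simp [hcon]
  set p : BCohen := bBij F ⊓ bCont F ⊓ F 0 y0 with hp
  have hpB : p ≤ bBij F := inf_le_left.trans inf_le_left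
  have hpC : p ≤ bCont F := inf_le_left.trans inf_le_right
  have hpF : p ≤ F 0 y0 := inf_le_right
  refine noModel (denseEmb (Set W1 × W1)) W1_uncountable W1_blocks
    (fun x h => F (ind x) (h + y0)) p hy0 ?_ ?_ ?_
  · intro x
    refine (hpB.trans (htotal (ind x))).trans ?_
    refine iSup_le fun y => ?_
    refine le_iSup_of_le (y - y0) ?_
    simp
  · intro x x' h hx
    have h1 := hpB.trans (hinj (h + y0) (ind x) (ind x') (fun h => hx (ind_injective h)))
    rw [inf_assoc]
    rw [← le_bot_iff]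
    calc p ⊓ (F (ind x) (h + y0) ⊓ F (ind x') (h + y0))
        ≤ (F (ind x) (h + y0) ⊓ F (ind x') (h + y0))ᶜ ⊓
          (F (ind x) (h + y0) ⊓ F (ind x') (h + y0)) := inf_le_inf_right _ h1
      _ = ⊥ := by rw [compl_inf_eq_bot]
      _ ≤ ⊥ := le_rfl
  · intro i p' hp' hne'
    -- use continuity for the name of the subgroup given by the block `i`
    have hc1 : p' ≤ ⨆ kap : (W1 →₀ ZMod 2) → BCohen, bSub kap ⊓ bIdx kap ⊓
        ⨅ z, ⨅ w, (kap z ⊓ F (0 + z) w) ⇨ lamB i (w - y0) := by
      have h1 : p ≤ F 0 y0 ⇨ ⨅ lam : (W1 →₀ ZMod 3) → BCohen, (bSub lam ⊓ bIdx lam) ⇨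
          ⨆ kap : (W1 →₀ ZMod 2) → BCohen, bSub kap ⊓ bIdx kap ⊓
            ⨅ z, ⨅ w, (kap z ⊓ F (0 + z) w) ⇨ lam (w - y0) :=
        hpC.trans ((iInf_le _ 0).trans (iInf_le _ y0))
      have h2 := le_himp_iff.1 h1
      rw [inf_eq_left.2 hpF] at h2
      have h3 := h2.trans (iInf_le _ (lamB i))
      have h4 := le_himp_iff.1 h3
      rw [bSub_lamB, bIdx_lamB, inf_top_eq, inf_top_eq] at h4
      exact hp'.trans h4
    obtain ⟨kap, hkap⟩ : ∃ kap : (W1 →₀ ZMod 2) → BCohen, p' ⊓ (bSub kap ⊓ bIdx kap ⊓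
        ⨅ z, ⨅ w, (kap z ⊓ F (0 + z) w) ⇨ lamB i (w - y0)) ≠ ⊥ := by
      by_contra hcon
      push Not at hcon
      apply hne'
      rw [← inf_eq_left.2 hc1, inf_iSup_eq, iSup_eq_bot]
      exact hcon
    set p1 := p' ⊓ (bSub kap ⊓ bIdx kap ⊓
        ⨅ z, ⨅ w, (kap z ⊓ F (0 + z) w) ⇨ lamB i (w - y0)) with hp1
    have hp1S : p1 ≤ bSub kap := inf_le_right.trans (inf_le_left.trans inf_le_left)
    have hp1I : p1 ≤ bIdx kap := inf_le_right.trans (inf_le_left.trans inf_le_right)
    have hp1W : p1 ≤ ⨅ z, ⨅ w, (kap z ⊓ F (0 + z) w) ⇨ lamB i (w - y0) :=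
      inf_le_right.trans inf_le_right
    obtain ⟨r, hr⟩ : ∃ r : (W1 →₀ ZMod 2) → ℕ → BCohen, p1 ⊓ ((⨅ x, ⨆ n, r x n) ⊓
        ⨅ x, ⨅ y, ⨅ n, (r x n ⊓ r y n) ⇨ kap (x - y)) ≠ ⊥ := by
      by_contra hcon
      push Not at hcon
      apply hkap
      have h1 : p1 = p1 ⊓ bIdx kap := (inf_eq_left.2 hp1I).symm
      have h2 : p1 ⊓ bIdx kap = ⊥ := by
        unfold bIdx
        rw [inf_iSup_eq, iSup_eq_bot]
        exact hcon
      exact h1.trans h2
    set p2 := p1 ⊓ ((⨅ x, ⨆ n, r x n) ⊓
        ⨅ x, ⨅ y, ⨅ n, (r x n ⊓ r y n) ⇨ kap (x - y)) with hp2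
    refine ⟨p2, inf_le_left.trans inf_le_left, hr, fun a n => r (Finsupp.single a 1) n, ?_, ?_⟩
    · intro a
      exact (inf_le_right.trans inf_le_left).trans (iInf_le _ _)
    · intro x c hc h g n hsum
      rw [← le_bot_iff]
      -- the point `ind x` is in `kap`
      have hcE : ∀ m, Even (x.filter (fun a => c a = m)).card := by
        obtain ⟨a1, a2, a3, a4, h12, h13, h14, h23, h24, h34, hx, e1, e2⟩ := hc
        subst hx
        exact fun m => even_classes h12 h13 h14 h23 h24 h34 c e1 e2 m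
      have hk : p2 ⊓ (⨅ a ∈ x, r (Finsupp.single a 1) (c a)) ≤ kap (ind x) := by
        refine kap_even (b := p2) ?_ ?_ ?_ c x.card x rfl hcE
        · exact (inf_le_left.trans hp1S).trans inf_le_left
        · intro u v
          rw [← le_himp_iff]
          exact (inf_le_left.trans hp1S).trans (inf_le_right.trans
            ((iInf_le _ u).trans (iInf_le _ v)))
        · intro u v m
          rw [← le_himp_iff]
          exact (inf_le_right.trans inf_le_right).trans
            ((iInf_le _ u).trans ((iInf_le _ v).trans (iInf_le _ m)))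
      have hl : p2 ⊓ (⨅ a ∈ x, r (Finsupp.single a 1) (c a)) ⊓ F (ind x) (h + y0) ≤
          lamB i h := by
        have h1 : p2 ≤ (kap (ind x) ⊓ F (0 + ind x) (h + y0)) ⇨ lamB i (h + y0 - y0) :=
          (inf_le_left.trans hp1W).trans ((iInf_le _ (ind x)).trans (iInf_le _ (h + y0)))
        rw [zero_add, add_sub_cancel_right, le_himp_iff] at h1
        refine le_trans ?_ h1
        exact le_inf (inf_le_left.trans inf_le_left) (le_inf (inf_le_left.trans hk) inf_le_right)
      -- contradiction with the values `g`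
      refine (inf_le_inf_right _ hl).trans ?_
      intro q hq
      exfalso
      rw [RO.forces_inf] at hq
      obtain ⟨hq1, hq2⟩ := hq
      simp only [RO.forces_iInf] at hq2
      -- extend so that the values are in the domain
      obtain ⟨s, hs, hd, -, -⟩ := exists_dec₂ i q h h h
      have hval : ∀ a ∈ h.support, s.val (i, a) = g a := by
        intro a ha
        have h1 := (hq2 a ha).mono hs
        obtain ⟨t, hts, ht⟩ := RO.forces_ι.1 h1 s le_rfl
        have h2 := hts.2 _ (hd a ha)
        have h3 := ht.2 (i, a) (by simp [single])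
        rw [← h2, h3]
        rfl
      have hz := (forces_vecVal_of_dec i hd).1 (hq1.mono hs)
      have hz' := DFunLike.congr_fun hz n
      rw [vec_apply] at hz'
      apply hsum
      rw [Finsupp.zero_apply] at hz'
      rw [← hz']
      refine Finset.sum_congr ?_ fun _ _ => rfl
      refine Finset.filter_congr fun a ha => ?_
      rw [hval a ha]

/-- The statement used by the final theorem. -/
theorem NO : ∃ (B : Type) (_ : CompleteBooleanAlgebra B) (_ : Nontrivial B), BCCC B ∧
    bHomeo B (W1 →₀ ZMod 2) (W1 →₀ ZMod 3) = ⊥ :=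
  ⟨BCohen, inferInstance, inferInstance, bccc_cohen, bHomeo_cohen⟩

end M3
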