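import Pool.Agent.H.MP_8ff4bd_gt.M3.Inst
import Pool.Agent.H.MP_8ff4bd_gt.M3.S.Los

/-!
# The two-valued case: names over `Prop` and `ZFSet`
-/

set_option autoImplicit false

universe u v w

namespace M3.BSet

open Pool.Agent.H.MP_8ff4bd_gt.M3 FirstOrder

/-- The set named by a two-valued name. -/
noncomputable def toZF : BSet Prop → ZFSet.{0}
  | mk A e b => ZFSet.range (fun a : {a : A // b a} => toZF (e a.1))

theorem mem_toZF (x : BSet Prop) (z : ZFSet.{0}) :
    z ∈ toZF x ↔ ∃ a, x.bv a ∧ toZF (x.elt a) = z := by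
  cases x with
  | mk A e b =>
    rw [toZF, ZFSet.mem_range]
    constructor
    · rintro ⟨⟨a, ha⟩, h⟩
      exact ⟨a, ha, h⟩
    · rintro ⟨a, ha, h⟩
      exact ⟨⟨a, ha⟩, h⟩

theorem beq_iff_toZF (x y : BSet Prop) : beq x y ↔ toZF x = toZF y := by
  induction x using induct generalizing y with
  | h x ih =>
    rw [beq_def']
    have h1 : ((⨅ a, x.bv a ⇨ ⨆ a', y.bv a' ⊓ beq (x.elt a) (y.elt a')) ⊓
      (⨅ a', y.bv a' ⇨ ⨆ a, x.bv a ⊓ beq (x.elt a) (y.elt a')) : Prop) ↔
      ((∀ a, x.bv a → ∃ a', y.bv a' ∧ beq (x.elt a) (y.elt a')) ∧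
      (∀ a', y.bv a' → ∃ a, x.bv a ∧ beq (x.elt a) (y.elt a'))) := by
      simp only [inf_Prop_eq, iInf_Prop_eq, iSup_Prop_eq, himp_iff_imp]
    rw [h1]
    constructor
    · rintro ⟨h2, h3⟩
      ext z
      rw [mem_toZF, mem_toZF]
      constructor
      · rintro ⟨a, ha, rfl⟩
        obtain ⟨a', ha', h⟩ := h2 a ha
        exact ⟨a', ha', ((ih a _).1 h).symm⟩
      · rintro ⟨a', ha', rfl⟩
        obtain ⟨a, ha, h⟩ := h3 a' ha'
        exact ⟨a, ha, (ih a _).1 h⟩
    · intro h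
      refine ⟨fun a ha => ?_, fun a' ha' => ?_⟩
      · have h2 : toZF (x.elt a) ∈ toZF y := by
          rw [← h, mem_toZF]
          exact ⟨a, ha, rfl⟩
        rw [mem_toZF] at h2
        obtain ⟨a', ha', h3⟩ := h2
        exact ⟨a', ha', (ih a _).2 h3.symm⟩
      · have h2 : toZF (y.elt a') ∈ toZF x := by
          rw [h, mem_toZF]
          exact ⟨a', ha', rfl⟩
        rw [mem_toZF] at h2
        obtain ⟨a, ha, h3⟩ := h2
        exact ⟨a, ha, (ih a _).2 h3⟩

theorem bmem_iff_toZF (x y : BSet Prop) : bmem x y ↔ toZF x ∈ toZF y := by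
  have h1 : bmem x y ↔ ∃ a, y.bv a ∧ beq x (y.elt a) := by
    unfold bmem
    simp only [inf_Prop_eq, iSup_Prop_eq]
  rw [h1, mem_toZF]
  refine exists_congr fun a => and_congr_right fun _ => ?_
  rw [beq_iff_toZF]
  exact eq_comm

theorem toZF_surjective : Function.Surjective toZF := by
  intro z
  induction z using ZFSet.inductionOn with
  | _ z ih =>
    classical
    have hz : ∀ w : Shrink.{0} ({w : ZFSet.{0} // w ∈ z}), ∃ x, toZF x = ((equivShrink {w : ZFSet.{0} // w ∈ z}).symm w).1 :=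
      fun w => ih _ ((equivShrink {w : ZFSet.{0} // w ∈ z}).symm w).2
    choose f hf using hz
    refine ⟨mk (Shrink.{0} ({w : ZFSet.{0} // w ∈ z})) f (fun _ => True), ?_⟩
    ext w
    rw [mem_toZF]
    constructor
    · rintro ⟨a, -, rfl⟩
      show toZF (f a) ∈ z
      rw [hf a]
      exact ((equivShrink {w : ZFSet.{0} // w ∈ z}).symm a).2
    · intro hw
      refine ⟨equivShrink {w : ZFSet.{0} // w ∈ z} ⟨w, hw⟩, trivial, ?_⟩
      show toZF (f _) = w
      rw [hf]
      simp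

/-- Truth in the universe of sets is the value over the two-element algebra. -/
theorem realize_toZF {α : Type w} {n : ℕ} (φ : LSet.BoundedFormula α n) (v : α → BSet Prop)
    (xs : Fin n → BSet Prop) :
    @FirstOrder.Language.BoundedFormula.Realize LSet ZFSet.{0} (epsStr (· ∈ ·)) α n φ
      (toZF ∘ v) (toZF ∘ xs) ↔ (str Prop).bval φ v xs := by
  let _ := epsStr (M := ZFSet.{0}) (· ∈ ·)
  induction φ with
  | falsum => exact Iff.rfl
  | equal t₁ t₂ =>
    change (@FirstOrder.Language.Term.realize LSet _ _ _ _ t₁ =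
      @FirstOrder.Language.Term.realize LSet _ _ _ _ t₂) ↔ _
    rw [BStr.realize_tval, BStr.realize_tval, ← Sum.comp_elim, ← BStr.tval_comp,
      ← BStr.tval_comp, ← beq_iff_toZF]
    rfl
  | rel R ts =>
    cases R with
    | mem =>
      change (@FirstOrder.Language.Term.realize LSet _ _ _ _ (ts 0)) ∈
        (@FirstOrder.Language.Term.realize LSet _ _ _ _ (ts 1)) ↔ _
      rw [BStr.realize_tval, BStr.realize_tval, ← Sum.comp_elim, ← BStr.tval_comp,
        ← BStr.tval_comp, ← bmem_iff_toZF]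
      rfl
  | imp f g hf hg =>
    exact (imp_congr (hf _) (hg _))
  | @all m f hf =>
    have h1 : (str Prop).bval f.all v xs ↔ ∀ x, (str Prop).bval f v (Fin.snoc xs x) := by
      change (⨅ x, (str Prop).bval f v (Fin.snoc xs x)) ↔ _
      rw [iInf_Prop_eq]
    rw [h1]
    refine (toZF_surjective).forall.trans (forall_congr' fun x => ?_)
    have h := hf (Fin.snoc xs x)
    rw [Fin.comp_snoc] at h
    exact h

/-- Truth of sentences in `ZFSet`. -/
theorem sat_ZFSet_iff (φ : LSet.Sentence) :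
    Sat (M := ZFSet.{0}) (· ∈ ·) φ ↔ (str Prop).bval φ (fun a => a.elim) (fun i => i.elim0) := by
  rw [← realize_toZF]
  unfold Sat FirstOrder.Language.Sentence.Realize FirstOrder.Language.Formula.Realize
  refine iff_of_eq ?_
  congr 1
  · exact Subsingleton.elim _ _
  · exact Subsingleton.elim _ _

/-- The universe of sets is a model of ZFC. -/
theorem zfcModel_ZFSet : ZFCModel (M := ZFSet.{0}) (· ∈ ·) where
  nonempty := ⟨∅⟩
  ext := fun x y h => ZFSet.ext h
  found := fun x ⟨y, hy⟩ => by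
    obtain ⟨z, hz, hz'⟩ := ZFSet.regularity x (by rintro rfl; exact ZFSet.notMem_empty _ hy)
    refine ⟨z, hz, fun w hw hwz => ?_⟩
    have : w ∈ x ∩ z := ZFSet.mem_inter.2 ⟨hw, hwz⟩
    rw [hz'] at this
    exact ZFSet.notMem_empty _ this
  pair := fun x y => ⟨{x, y}, fun w => ZFSet.mem_pair⟩
  union := fun x => ⟨ZFSet.sUnion x, fun w => ZFSet.mem_sUnion⟩
  power := fun x => ⟨ZFSet.powerset x, fun w => ZFSet.mem_powerset⟩
  infinity := ⟨ZFSet.omega, ⟨∅, ZFSet.omega_zero, fun z => ZFSet.notMem_empty z⟩, fun x hx =>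
    ⟨Insert.insert x x, ZFSet.omega_succ hx, fun w => by rw [ZFSet.mem_insert_iff, or_comm]⟩⟩
  separation := fun D _ a => ⟨ZFSet.sep (· ∈ D) a, fun x => ZFSet.mem_sep⟩
  replacement := fun R _ a h => by
    classical
    choose f hf using fun x : Shrink.{0} ({w : ZFSet.{0} // w ∈ a}) =>
      (h ((equivShrink {w : ZFSet.{0} // w ∈ a}).symm x).1 ((equivShrink {w : ZFSet.{0} // w ∈ a}).symm x).2)
    refine ⟨ZFSet.range f, fun y => ?_⟩
    rw [ZFSet.mem_range]
    constructor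
    · rintro ⟨x, rfl⟩
      exact ⟨_, ((equivShrink {w : ZFSet.{0} // w ∈ a}).symm x).2, (hf x).1⟩
    · rintro ⟨x, hx, hxy⟩
      refine ⟨equivShrink {w : ZFSet.{0} // w ∈ a} ⟨x, hx⟩, ?_⟩
      refine ((hf (equivShrink {w : ZFSet.{0} // w ∈ a} ⟨x, hx⟩)).2 y ?_).symm
      simpa using hxy
  choice := fun a h1 h2 => by
    classical
    choose f hf using fun x : Shrink.{0} ({w : ZFSet.{0} // w ∈ a}) =>
      (h1 ((equivShrink {w : ZFSet.{0} // w ∈ a}).symm x).1 ((equivShrink {w : ZFSet.{0} // w ∈ a}).symm x).2)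
    refine ⟨ZFSet.range f, fun x hx => ?_⟩
    have hfx : f (equivShrink {w : ZFSet.{0} // w ∈ a} ⟨x, hx⟩) ∈ x := by
      have := hf (equivShrink {w : ZFSet.{0} // w ∈ a} ⟨x, hx⟩)
      simpa using this
    refine ⟨f (equivShrink {w : ZFSet.{0} // w ∈ a} ⟨x, hx⟩), ⟨hfx, ZFSet.mem_range.2 ⟨_, rfl⟩⟩, ?_⟩
    rintro y ⟨hy, hy'⟩
    rw [ZFSet.mem_range] at hy'
    obtain ⟨w, rfl⟩ := hy'
    have h3 := hf w
    have h4 := h2 _ _ hx ((equivShrink {w : ZFSet.{0} // w ∈ a}).symm w).2 (f w) hy h3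
    have h5 : w = equivShrink {w : ZFSet.{0} // w ∈ a} ⟨x, hx⟩ := by
      apply (equivShrink {w : ZFSet.{0} // w ∈ a}).symm.injective
      rw [Equiv.symm_apply_apply]
      exact Subtype.ext h4.symm
    rw [h5]

end M3.BSet
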