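import Pool.Agent.H.MP_8ff4bd_gt.M3.ZFC

/-!
# Ordinals in the Boolean-valued universe

`bOrd x` is the value of: `x` is transitive and all its elements are transitive.  Trichotomy of
ordinals has value top.  For a ground well-order `W` the von Neumann names `vN a` (`a : W`) and the
name `wN W` of the order type of `W` are ordinals.
-/

universe u v

namespace M3.BSet

variable {B : Type u} [CompleteBooleanAlgebra B]

/-! ### Irreflexivity and asymmetry of membership -/

theorem bmem_irrefl (x : BSet B) : bmem x x = ⊥ := by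
  induction x using induct with
  | h x ih =>
    rw [← le_bot_iff]
    conv_lhs => unfold bmem
    refine iSup_le fun a => ?_
    rw [← ih a]
    have h1 : x.bv a ⊓ beq x (x.elt a) ≤ bmem (x.elt a) x := inf_le_left.trans (bv_le_bmem x a)
    exact bmem_congr_right (y := x) inf_le_right h1

theorem le_bot_of_bmem_self {Γ : B} {x : BSet B} (h : Γ ≤ bmem x x) : Γ ≤ ⊥ := by
  rwa [bmem_irrefl] at h

/-! ### Ordinals -/

/-- Value of: `x` is transitive. -/
def bTrans (x : BSet B) : B := ⨅ y, bmem y x ⇨ ⨅ z, bmem z y ⇨ bmem z x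

/-- Value of: `x` is an ordinal (a transitive set of transitive sets). -/
def bOrd (x : BSet B) : B := bTrans x ⊓ ⨅ y, bmem y x ⇨ bTrans y

theorem ext_bTrans : Ext (bTrans : BSet B → B) :=
  Ext.iInf fun y => (ext_bmem_right y).himp (Ext.iInf fun z => (ext_const _).himp (ext_bmem_right z))

theorem ext_bOrd : Ext (bOrd : BSet B → B) :=
  ext_bTrans.inf (Ext.iInf fun y => (ext_bmem_right y).himp (ext_const _))

theorem bTrans_mem {Γ : B} {x y z : BSet B} (h : Γ ≤ bTrans x) (h1 : Γ ≤ bmem y x)
    (h2 : Γ ≤ bmem z y) : Γ ≤ bmem z x :=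
  bv_mp (bv_all (bv_mp (bv_all h y) h1) z) h2

theorem bOrd_trans {Γ : B} {x : BSet B} (h : Γ ≤ bOrd x) : Γ ≤ bTrans x := bv_left h

/-- Elements of ordinals are ordinals. -/
theorem bOrd_mem {Γ : B} {x y : BSet B} (h : Γ ≤ bOrd x) (h1 : Γ ≤ bmem y x) : Γ ≤ bOrd y := by
  refine le_inf (bv_mp (bv_all (bv_right h) y) h1) (le_iInf fun z => bv_imp fun Δ hΔ hz => ?_)
  have h2 : Δ ≤ bmem z x := bTrans_mem (hΔ.trans (bOrd_trans h)) (hΔ.trans h1) hz
  exact bv_mp (bv_all (hΔ.trans (bv_right h)) z) h2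

/-- negation of an inclusion gives an index -/
theorem bv_not_bsub {Γ c : B} {x y : BSet B} (h : Γ ≤ (bsub x y)ᶜ)
    (k : ∀ a, ∀ Δ ≤ Γ, Δ ≤ x.bv a → Δ ≤ (bmem (x.elt a) y)ᶜ → Δ ≤ c) : Γ ≤ c := by
  unfold bsub at h
  rw [compl_iInf] at h
  refine bv_exists h fun a Δ hΔ ha => ?_
  rw [himp_eq, compl_sup, compl_compl] at ha
  exact k a Δ hΔ (bv_right ha) (bv_left ha)

/-- Trichotomy of ordinals. -/
theorem ord_trichotomy (x y : BSet B) :
    bOrd x ⊓ bOrd y ≤ bmem x y ⊔ beq x y ⊔ bmem y x := by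
  induction x using induct generalizing y with
  | h x ihx =>
    induction y using induct with
    | h y ihy =>
      refine bv_cases (bsub x y) (fun Γ hΓ h1 => ?_) (fun Γ hΓ h1 => ?_)
      · refine bv_cases (bsub y x) (fun Δ hΔ h2 => ?_) (fun Δ hΔ h2 => ?_)
        · refine le_sup_of_le_left (le_sup_of_le_right ?_)
          rw [beq_def]; exact le_inf (hΔ.trans h1) h2
        · refine bv_not_bsub h2 fun b E hE hb hb' => ?_
          have hy : E ≤ bmem (y.elt b) y := hb.trans (bv_le_bmem y b)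
          have hox : E ≤ bOrd x := hE.trans (hΔ.trans (bv_left hΓ))
          have hoy : E ≤ bOrd y := hE.trans (hΔ.trans (bv_right hΓ))
          have h3 : E ≤ bmem x (y.elt b) ⊔ beq x (y.elt b) ⊔ bmem (y.elt b) x :=
            (le_inf hox (bOrd_mem hoy hy)).trans (ihy b)
          refine bv_or h3 (fun F hF h4 => ?_) (fun F hF h4 => bv_absurd h4 (hF.trans hb'))
          refine bv_or h4 (fun G hG h5 => ?_) (fun G hG h5 => ?_)
          · refine le_sup_of_le_left (le_sup_of_le_left ?_)
            exact bTrans_mem ((hG.trans hF).trans (bOrd_trans hoy)) ((hG.trans hF).trans hy) h5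
          · refine le_sup_of_le_left (le_sup_of_le_left ?_)
            exact bmem_congr_left (beq_symm' h5) ((hG.trans hF).trans hy)
      · refine bv_not_bsub h1 fun a E hE ha ha' => ?_
        have hx : E ≤ bmem (x.elt a) x := ha.trans (bv_le_bmem x a)
        have hox : E ≤ bOrd x := hE.trans (bv_left hΓ)
        have hoy : E ≤ bOrd y := hE.trans (bv_right hΓ)
        have h3 : E ≤ bmem (x.elt a) y ⊔ beq (x.elt a) y ⊔ bmem y (x.elt a) :=
          (le_inf (bOrd_mem hox hx) hoy).trans (ihx a y)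
        refine bv_or h3 (fun F hF h4 => ?_) (fun F hF h4 => ?_)
        · refine bv_or h4 (fun G hG h5 => bv_absurd h5 ((hG.trans hF).trans ha'))
            (fun G hG h5 => ?_)
          exact le_sup_of_le_right (bmem_congr_left h5 ((hG.trans hF).trans hx))
        · exact le_sup_of_le_right (bTrans_mem (hF.trans (bOrd_trans hox)) (hF.trans hx) h4)

/-! ### Von Neumann names of a ground well-order -/

section vN

variable {W : Type u} [LinearOrder W] [WellFoundedLT W]

/-- The von Neumann name of `a : W`. -/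
noncomputable def vN : W → BSet B :=
  (wellFounded_lt : WellFounded ((· < ·) : W → W → Prop)).fix
    fun a ih => mk {b : W // b < a} (fun b => ih b.1 b.2) (fun _ => ⊤)

theorem vN_eq (a : W) : (vN a : BSet B) = mk {b : W // b < a} (fun b => vN b.1) (fun _ => ⊤) :=
  WellFounded.fix_eq _ _ _

variable (W) in
/-- The name of the order type of `W`. -/
noncomputable def wN : BSet B := mk W (fun a => vN a) (fun _ => ⊤)

theorem bmem_vN (z : BSet B) (a : W) : bmem z (vN a) = ⨆ b : {b : W // b < a}, beq z (vN b.1) := by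
  rw [vN_eq]; unfold bmem; simp

theorem bmem_wN (z : BSet B) : bmem z (wN W) = ⨆ b : W, beq z (vN b) := by
  unfold bmem wN; simp

theorem vN_mem_vN {a b : W} (h : b < a) : bmem (vN b) (vN a : BSet B) = ⊤ := by
  rw [bmem_vN, eq_top_iff]
  exact bv_intro (f := fun c : {c : W // c < a} => beq (vN b) (vN c.1)) ⟨b, h⟩ (by simp)

theorem vN_mem_wN (a : W) : bmem (vN a) (wN W : BSet B) = ⊤ := by
  rw [bmem_wN, eq_top_iff]
  exact bv_intro (f := fun c : W => beq (vN a) (vN c)) a (by simp)

theorem bTrans_vN (a : W) : bTrans (vN a : BSet B) = ⊤ := by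
  rw [eq_top_iff]
  refine le_iInf fun y => bv_imp fun Γ _ hy => le_iInf fun z => bv_imp fun Δ hΔ hz => ?_
  rw [bmem_vN] at hy
  refine bv_exists (hΔ.trans hy) fun b E hE hb => ?_
  have h1 : E ≤ bmem z (vN b.1) := bmem_congr_right hb (hE.trans hz)
  rw [bmem_vN] at h1
  refine bv_exists h1 fun c F _ hc => ?_
  rw [bmem_vN]
  exact bv_intro (f := fun c : {c : W // c < a} => beq z (vN c.1)) ⟨c.1, c.2.trans b.2⟩ hc

theorem bOrd_vN (a : W) : bOrd (vN a : BSet B) = ⊤ := by
  rw [eq_top_iff]
  refine le_inf (by rw [bTrans_vN]) (le_iInf fun y => bv_imp fun Γ _ hy => ?_)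
  rw [bmem_vN] at hy
  refine bv_exists hy fun b E _ hb => ?_
  refine ext_bTrans.le (beq_symm' hb) ?_
  rw [bTrans_vN]; exact le_top

theorem bOrd_wN : bOrd (wN W : BSet B) = ⊤ := by
  rw [eq_top_iff]
  refine le_inf (le_iInf fun y => bv_imp fun Γ _ hy => le_iInf fun z => bv_imp fun Δ hΔ hz => ?_)
    (le_iInf fun y => bv_imp fun Γ _ hy => ?_)
  · rw [bmem_wN] at hy
    refine bv_exists (hΔ.trans hy) fun b E hE hb => ?_
    have h1 : E ≤ bmem z (vN b) := bmem_congr_right hb (hE.trans hz)
    rw [bmem_vN] at h1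
    refine bv_exists h1 fun c F _ hc => ?_
    rw [bmem_wN]
    exact bv_intro (f := fun c : W => beq z (vN c)) c.1 hc
  · rw [bmem_wN] at hy
    refine bv_exists hy fun b E _ hb => ?_
    refine ext_bTrans.le (beq_symm' hb) ?_
    rw [bTrans_vN]; exact le_top

/-- Different elements have names which are different with value top. -/
theorem beq_vN {a b : W} (h : a ≠ b) : beq (vN a : BSet B) (vN b) = ⊥ := by
  have key : ∀ a b : W, a < b → beq (vN a : BSet B) (vN b) = ⊥ := by
    intro a b hab
    rw [← le_bot_iff]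
    refine le_bot_of_bmem_self (x := vN a) ?_
    refine bmem_congr_right (y := vN b) (beq_symm' le_rfl) ?_
    rw [vN_mem_vN hab]; exact le_top
  rcases lt_or_gt_of_ne h with h | h
  · exact key a b h
  · rw [beq_symm]; exact key b a h

end vN

end M3.BSet
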