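import Pool.Agent.H.MP_8ff4bd_gt.M3.ZFC

/-!
# Ordered pairs and names of relations
-/

set_option autoImplicit false

universe u v w

namespace M3.BSet

variable {B : Type u} [CompleteBooleanAlgebra B]

/-! ### One-point rules -/

theorem iSup_beq {φ : BSet B → B} (h : Ext φ) (c : BSet B) : (⨆ a, beq a c ⊓ φ a) = φ c := by
  apply le_antisymm
  · exact iSup_le fun a => h a c
  · exact bv_intro (f := fun a => beq a c ⊓ φ a) c (le_inf (by simp) le_rfl)

theorem iSup_beq' {φ : BSet B → B} (h : Ext φ) (c : BSet B) : (⨆ a, φ a ⊓ beq a c) = φ c := by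
  simp only [inf_comm (φ _)]
  exact iSup_beq h c

theorem iInf_beq {φ : BSet B → B} (h : Ext φ) (c : BSet B) : (⨅ a, beq a c ⇨ φ a) = φ c := by
  apply le_antisymm
  · refine (iInf_le _ c).trans ?_
    simp
  · exact le_iInf fun a => bv_imp fun Δ hΔ hac => h.le (x := c) (beq_symm' hac) hΔ

/-- A name is determined by its membership values. -/
theorem iInf_bihimp_eq {z z' : BSet B} {f : BSet B → B} (h : ∀ w, bmem w z' = f w) :
    (⨅ w, bihimp (bmem w z) (f w)) = beq z z' := by
  rw [beq_eq_iInf_bihimp]
  simp only [h]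

theorem iInf_bihimp_eq' {z z' : BSet B} {f : BSet B → B} (h : ∀ w, bmem w z' = f w) :
    (⨅ w, bihimp (f w) (bmem w z)) = beq z z' := by
  rw [← iInf_bihimp_eq h]
  simp only [bihimp_comm]

/-! ### Unordered pairs -/

/-- Value of `z = {x, y}`. -/
theorem isPair_eq (z x y : BSet B) :
    (⨅ w, bihimp (bmem w z) (beq w x ⊔ beq w y)) = beq z (upair x y) :=
  iInf_bihimp_eq (bmem_upair x y)

theorem left_mem_upair (x y : BSet B) : bmem x (upair x y) = ⊤ := by
  rw [bmem_upair]; simp

theorem right_mem_upair (x y : BSet B) : bmem y (upair x y) = ⊤ := by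
  rw [bmem_upair]; simp

theorem upair_congr {x y x' y' : BSet B} {c : B} (h1 : c ≤ beq x x') (h2 : c ≤ beq y y') :
    c ≤ beq (upair x y) (upair x' y') := by
  rw [le_beq_iff']
  constructor
  · intro z
    rw [bmem_upair, bmem_upair, inf_sup_left]
    refine sup_le_sup ?_ ?_
    · exact beq_trans' (y := x) inf_le_right (inf_le_left.trans h1)
    · exact beq_trans' (y := y) inf_le_right (inf_le_left.trans h2)
  · intro z
    rw [bmem_upair, bmem_upair, inf_sup_left]
    refine sup_le_sup ?_ ?_
    · exact beq_trans' (y := x') inf_le_right (beq_symm' (inf_le_left.trans h1))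
    · exact beq_trans' (y := y') inf_le_right (beq_symm' (inf_le_left.trans h2))

theorem upair_comm (x y : BSet B) : beq (upair x y) (upair y x) = ⊤ := by
  rw [eq_top_iff, le_beq_iff']
  constructor <;>
  · intro z
    rw [bmem_upair, bmem_upair, sup_comm]
    exact inf_le_right

/-- Singletons. -/
def sing (x : BSet B) : BSet B := upair x x

theorem bmem_sing (x z : BSet B) : bmem z (sing x) = beq z x := by
  unfold sing; rw [bmem_upair, sup_idem]

theorem isSing_eq (z x : BSet B) : (⨅ w, bihimp (bmem w z) (beq w x)) = beq z (sing x) :=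
  iInf_bihimp_eq (bmem_sing x)

theorem sing_congr {x x' : BSet B} {c : B} (h1 : c ≤ beq x x') : c ≤ beq (sing x) (sing x') :=
  upair_congr h1 h1

theorem sing_inj {x x' : BSet B} {c : B} (h1 : c ≤ beq (sing x) (sing x')) : c ≤ beq x x' := by
  rw [← bmem_sing x' x]
  refine bmem_congr_right h1 ?_
  rw [bmem_sing, beq_refl]; exact le_top

theorem beq_sing (x x' : BSet B) : beq (sing x) (sing x') = beq x x' :=
  le_antisymm (sing_inj le_rfl) (sing_congr le_rfl)

/-! ### Ordered pairs -/

/-- Kuratowski pairs. -/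
def opair (x y : BSet B) : BSet B := upair (sing x) (upair x y)

theorem bmem_opair (x y z : BSet B) :
    bmem z (opair x y) = beq z (sing x) ⊔ beq z (upair x y) := bmem_upair _ _ _

theorem opair_congr {x y x' y' : BSet B} {c : B} (h1 : c ≤ beq x x') (h2 : c ≤ beq y y') :
    c ≤ beq (opair x y) (opair x' y') :=
  upair_congr (sing_congr h1) (upair_congr h1 h2)

theorem opair_inj_left {x y x' y' : BSet B} {c : B} (h : c ≤ beq (opair x y) (opair x' y')) :
    c ≤ beq x x' := by
  have h1 : c ≤ bmem (sing x') (opair x y) := by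
    refine bmem_congr_right (y := opair x' y') (beq_symm' h) ?_
    exact le_top.trans (left_mem_upair _ _).ge
  rw [bmem_opair] at h1
  have hx : ∀ d : B, d ≤ bmem x (sing x') → d ≤ beq x x' := fun d hd => by
    rwa [bmem_sing] at hd
  refine bv_or h1 ?_ ?_
  · intro Δ _ h2
    refine hx _ (bmem_congr_right (y := sing x) (beq_symm' h2) ?_)
    rw [bmem_sing, beq_refl]; exact le_top
  · intro Δ _ h2
    refine hx _ (bmem_congr_right (y := upair x y) (beq_symm' h2) ?_)
    exact le_top.trans (left_mem_upair _ _).ge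

theorem upair_inj_right {x y x' y' : BSet B} {c : B} (hx : c ≤ beq x x')
    (h : c ≤ beq (upair x y) (upair x' y')) : c ≤ beq y y' := by
  have h1 : c ≤ bmem y (upair x' y') :=
    bmem_congr_right h (le_top.trans (right_mem_upair _ _).ge)
  have h2 : c ≤ bmem y' (upair x y) :=
    bmem_congr_right (beq_symm' h) (le_top.trans (right_mem_upair _ _).ge)
  rw [bmem_upair] at h1 h2
  refine bv_or h1 (fun Δ hΔ h3 => ?_) (fun Δ _ h3 => h3)
  refine bv_or (hΔ.trans h2) (fun E hE h4 => ?_) (fun E _ h4 => beq_symm' h4)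
  exact beq_trans' (hE.trans h3)
    (beq_trans' (y := x) (beq_symm' ((hE.trans hΔ).trans hx)) (beq_symm' h4))

theorem opair_inj_right {x y x' y' : BSet B} {c : B} (h : c ≤ beq (opair x y) (opair x' y')) :
    c ≤ beq y y' := by
  have hx := opair_inj_left h
  exact upair_inj_right hx (upair_inj_right (sing_congr hx) h)

theorem beq_opair (x y x' y' : BSet B) :
    beq (opair x y) (opair x' y') = beq x x' ⊓ beq y y' :=
  le_antisymm (le_inf (opair_inj_left le_rfl) (opair_inj_right le_rfl))
    (opair_congr inf_le_left inf_le_right)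

theorem Ext.comp_opair_left {φ : BSet B → B} (h : Ext φ) (y : BSet B) :
    Ext (fun x => φ (opair x y)) := fun _ _ =>
  h.le (opair_congr inf_le_left (le_top.trans (beq_refl y).ge)) inf_le_right

theorem Ext.comp_opair_right {φ : BSet B → B} (h : Ext φ) (y : BSet B) :
    Ext (fun x => φ (opair y x)) := fun _ _ =>
  h.le (opair_congr (le_top.trans (beq_refl y).ge) inf_le_left) inf_le_right

theorem Ext.comp_upair_left {φ : BSet B → B} (h : Ext φ) (y : BSet B) :
    Ext (fun x => φ (upair x y)) := fun _ _ =>
  h.le (upair_congr inf_le_left (le_top.trans (beq_refl y).ge)) inf_le_right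

theorem Ext.comp_upair_right {φ : BSet B → B} (h : Ext φ) (y : BSet B) :
    Ext (fun x => φ (upair y x)) := fun _ _ =>
  h.le (upair_congr (le_top.trans (beq_refl y).ge) inf_le_left) inf_le_right

theorem Ext.comp_sing {φ : BSet B → B} (h : Ext φ) : Ext (fun x => φ (sing x)) := fun _ _ =>
  h.le (sing_congr inf_le_left) inf_le_right

/-- Value of: there are `a = {x}` and `b = {x, y}` with `z = {a, b}`. -/
theorem isOPair_eq (z x y : BSet B) :
    (⨆ a, ⨆ b, (⨅ w, bihimp (bmem w a) (beq w x)) ⊓ (⨅ w, bihimp (bmem w b) (beq w x ⊔ beq w y)) ⊓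
      (⨅ w, bihimp (bmem w z) (beq w a ⊔ beq w b))) = beq z (opair x y) := by
  simp only [isPair_eq, isSing_eq, inf_assoc]
  have h1 : ∀ a, (⨆ b, beq a (sing x) ⊓ (beq b (upair x y) ⊓ beq z (upair a b))) =
      beq a (sing x) ⊓ beq z (upair a (upair x y)) := by
    intro a
    rw [← inf_iSup_eq, iSup_beq ((ext_beq_right z).comp_upair_right a)]
  simp only [h1]
  rw [iSup_beq ((ext_beq_right z).comp_upair_left (upair x y))]
  rfl

/-- The value of `(x, y) ∈ f`. -/
def pmem (x y f : BSet B) : B := bmem (opair x y) f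

/-- Value of: some element of `f` is the pair `(x, y)`. -/
theorem oPairIn_eq (x y f : BSet B) : (⨆ p, bmem p f ⊓ beq p (opair x y)) = pmem x y f :=
  iSup_beq' (ext_bmem_left f) _

theorem ext_pmem₁ (y f : BSet B) : Ext (fun x => pmem x y f) := (ext_bmem_left f).comp_opair_left y

theorem ext_pmem₂ (x f : BSet B) : Ext (fun y => pmem x y f) := (ext_bmem_left f).comp_opair_right x

theorem ext_pmem₃ (x y : BSet B) : Ext (fun f => pmem x y f) := ext_bmem_right _

/-! ### Families of names and relations between them -/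

/-- The name of the set of all members of a family of names. -/
def fam {X : Type u} (a : X → BSet B) : BSet B := mk X a (fun _ => ⊤)

theorem bmem_fam {X : Type u} (a : X → BSet B) (z : BSet B) : bmem z (fam a) = ⨆ i, beq z (a i) := by
  unfold bmem fam
  simp only [Idx_mk, elt_mk, bv_mk, top_inf_eq]

theorem mem_fam {X : Type u} (a : X → BSet B) (i : X) : bmem (a i) (fam a) = ⊤ := by
  rw [bmem_fam, eq_top_iff]
  exact bv_intro (f := fun j => beq (a i) (a j)) i (by simp)

theorem iInf_fam {X : Type u} (a : X → BSet B) {φ : BSet B → B} (h : Ext φ) :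
    (⨅ z, bmem z (fam a) ⇨ φ z) = ⨅ i, φ (a i) := by
  rw [← iInf_idx h]
  unfold fam
  simp only [Idx_mk, elt_mk, bv_mk, top_himp]

theorem iSup_fam {X : Type u} (a : X → BSet B) {φ : BSet B → B} (h : Ext φ) :
    (⨆ z, bmem z (fam a) ⊓ φ z) = ⨆ i, φ (a i) := by
  rw [← iSup_idx h]
  unfold fam
  simp only [Idx_mk, elt_mk, bv_mk, top_inf_eq]

/-- A discrete family: different members are different with value top. -/
def Discrete {X : Type u} (a : X → BSet B) : Prop := ∀ i j, i ≠ j → beq (a i) (a j) = ⊥

/-- The name of a `B`-valued subset of a family. -/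
def subName {X : Type u} (a : X → BSet B) (r : X → B) : BSet B := mk X a r

theorem bmem_subName {X : Type u} (a : X → BSet B) (r : X → B) (z : BSet B) :
    bmem z (subName a r) = ⨆ i, r i ⊓ beq z (a i) := rfl

theorem bmem_subName_of_discrete {X : Type u} {a : X → BSet B} (ha : Discrete a) (r : X → B)
    (i : X) : bmem (a i) (subName a r) = r i := by
  rw [bmem_subName]
  apply le_antisymm
  · refine iSup_le fun j => ?_
    by_cases h : i = j
    · subst h; exact inf_le_left
    · rw [ha i j h]; simp
  · exact bv_intro (f := fun j => r j ⊓ beq (a i) (a j)) i (by simp)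

theorem subName_sub {X : Type u} (a : X → BSet B) (r : X → B) :
    bsub (subName a r) (fam a) = ⊤ := by
  unfold bsub subName
  rw [eq_top_iff]
  refine le_iInf fun i => bv_imp fun Δ _ _ => ?_
  exact le_top.trans (mem_fam a i).ge

/-- Every name of a subset of a family is the name of a `B`-valued subset. -/
theorem bsub_fam_le {X : Type u} (a : X → BSet B) (x : BSet B) :
    bsub x (fam a) ≤ beq x (subName a fun i => bmem (a i) x) := by
  rw [le_beq_iff']
  constructor
  · intro z
    rw [bmem_subName]
    have h1 : bsub x (fam a) ⊓ bmem z x ≤ ⨆ i, beq z (a i) := by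
      rw [← bmem_fam]
      exact bsub_inf_bmem z x (fam a)
    refine bv_exists h1 fun i Δ hΔ hi => ?_
    refine bv_intro (f := fun i => bmem (a i) x ⊓ beq z (a i)) i (le_inf ?_ hi)
    exact bmem_congr_left hi (hΔ.trans inf_le_right)
  · intro z
    rw [bmem_subName]
    refine (inf_le_right).trans (iSup_le fun i => ?_)
    exact bmem_congr_left (x := a i) (beq_symm' inf_le_right) inf_le_left

/-- The name of a `B`-valued relation between two families. -/
def relName {X Y : Type u} (a : X → BSet B) (b : Y → BSet B) (r : X → Y → B) : BSet B :=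
  mk (X × Y) (fun p => opair (a p.1) (b p.2)) (fun p => r p.1 p.2)

theorem bmem_relName {X Y : Type u} (a : X → BSet B) (b : Y → BSet B) (r : X → Y → B)
    (z : BSet B) : bmem z (relName a b r) = ⨆ i, ⨆ j, r i j ⊓ beq z (opair (a i) (b j)) := by
  unfold bmem relName
  simp only [Idx_mk, elt_mk, bv_mk]
  exact iSup_prod

theorem pmem_relName {X Y : Type u} (a : X → BSet B) (b : Y → BSet B) (r : X → Y → B)
    (x y : BSet B) :
    pmem x y (relName a b r) = ⨆ i, ⨆ j, r i j ⊓ (beq x (a i) ⊓ beq y (b j)) := by
  unfold pmem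
  rw [bmem_relName]
  simp only [beq_opair]

theorem pmem_relName_of_discrete {X Y : Type u} {a : X → BSet B} {b : Y → BSet B}
    (ha : Discrete a) (hb : Discrete b) (r : X → Y → B) (i : X) (j : Y) :
    pmem (a i) (b j) (relName a b r) = r i j := by
  rw [pmem_relName]
  apply le_antisymm
  · refine iSup_le fun i' => iSup_le fun j' => ?_
    by_cases h : i = i'
    · by_cases h' : j = j'
      · subst h h'; exact inf_le_left
      · rw [hb j j' h']; simp
    · rw [ha i i' h]; simp
  · refine bv_intro (f := fun i' => ⨆ j', r i' j' ⊓ (beq (a i) (a i') ⊓ beq (b j) (b j'))) i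
      (bv_intro (f := fun j' => r i j' ⊓ (beq (a i) (a i) ⊓ beq (b j) (b j'))) j ?_)
    simp

/-- A relation name of a discrete family computed at arbitrary first argument. -/
theorem pmem_relName_left {X Y : Type u} {a : X → BSet B} {b : Y → BSet B}
    (hb : Discrete b) (r : X → Y → B) (x : BSet B) (j : Y) :
    pmem x (b j) (relName a b r) = ⨆ i, r i j ⊓ beq x (a i) := by
  rw [pmem_relName]
  apply le_antisymm
  · refine iSup_mono fun i => iSup_le fun j' => ?_
    by_cases h' : j = j'
    · subst h'; exact inf_le_inf_left _ inf_le_left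
    · rw [hb j j' h']; simp
  · refine iSup_mono fun i => ?_
    exact bv_intro (f := fun j' => r i j' ⊓ (beq x (a i) ⊓ beq (b j) (b j'))) j (by simp)

end M3.BSet
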