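import Pool.Agent.H.MP_8ff4bd_gt.M3.Inst
import Pool.Agent.H.MP_8ff4bd_gt.M3.OPair
import Pool.Agent.H.MP_8ff4bd_gt.M3.S.Notions

/-!
# The basic notions of the statement evaluated in the structure of names

`bRel`, `bOPair`, `bPair`, `bSubset`, `bInsert`, `bEmpty` for `S = str B`.
-/

set_option autoImplicit false

universe u v

namespace M3.BSet

open Pool.Agent.H.MP_8ff4bd_gt.M3

variable {B : Type u} [CompleteBooleanAlgebra B]

theorem str_bSubset (x y : BSet B) : (str B).bSubset x y = bsub x y := (bsub_eq x y).symm

theorem str_bEmpty (x : BSet B) : (str B).bEmpty x = beq x empty := (beq_empty x).symm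

theorem str_bPair (z x y : BSet B) : (str B).bPair z x y = beq z (upair x y) := isPair_eq z x y

theorem str_bSing (z x : BSet B) : (str B).bSing z x = beq z (sing x) := isSing_eq z x

theorem str_bOPair (z x y : BSet B) : (str B).bOPair z x y = beq z (opair x y) := by
  rw [← isOPair_eq]
  rfl

theorem str_bRel (f x y : BSet B) : (str B).bRel f x y = pmem x y f := by
  rw [← oPairIn_eq]
  unfold BStr.bRel
  simp only [str_mem, str_bOPair]

theorem str_bInsert (z y t : BSet B) : (str B).bInsert z y t = beq z (insert t y) := by
  have h : ∀ w, bmem w (insert t y) = bmem w y ⊔ beq w t := fun w => by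
    rw [bmem_insert, sup_comm]
  exact iInf_bihimp_eq h

end M3.BSet
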