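import Pool.Agent.H.MP_8ff4bd_gt.M3.StrRel
import Pool.Agent.H.MP_8ff4bd_gt.M3.Ord

/-!
# Values of the basic notions over the Boolean-valued universe
-/

set_option autoImplicit false

universe u v w

namespace M3.BSet

open Pool.Agent.H.MP_8ff4bd_gt.M3

variable {B : Type u} [CompleteBooleanAlgebra B]

theorem Ext.comp_insert_left {φ : BSet B → B} (h : Ext φ) (y : BSet B) :
    Ext (fun x => φ (insert x y)) := fun _ _ =>
  h.le (insert_congr inf_le_left (le_top.trans (beq_refl y).ge)) inf_le_right

theorem Ext.comp_insert_right {φ : BSet B → B} (h : Ext φ) (y : BSet B) :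
    Ext (fun x => φ (insert y x)) := fun _ _ =>
  h.le (insert_congr (le_top.trans (beq_refl y).ge) inf_le_left) inf_le_right

theorem Ext.comp_insert_diag {φ : BSet B → B} (h : Ext φ) :
    Ext (fun x => φ (insert x x)) := fun _ _ =>
  h.le (insert_congr inf_le_left inf_le_left) inf_le_right

/-! ### The natural numbers -/

theorem ofNat_mem_ofNat {m n : ℕ} (h : m < n) : bmem (ofNat m) (ofNat n : BSet B) = ⊤ := by
  induction n with
  | zero => omega
  | succ n ih =>
    show bmem (ofNat m) (insert (ofNat n) (ofNat n)) = ⊤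
    rw [bmem_insert]
    rcases Nat.lt_succ_iff_lt_or_eq.1 h with h | h
    · rw [ih h]; simp
    · subst h; simp

theorem ofNat_discrete {m n : ℕ} (h : m ≠ n) : beq (ofNat m) (ofNat n : BSet B) = ⊥ := by
  have key : ∀ m n : ℕ, m < n → beq (ofNat m) (ofNat n : BSet B) ≤ ⊥ := by
    intro m n hmn
    refine le_bot_of_bmem_self (x := ofNat m) ?_
    exact bmem_congr_right (y := ofNat n) (beq_symm' le_rfl)
      (le_top.trans (ofNat_mem_ofNat hmn).ge)
  rw [← le_bot_iff]
  rcases lt_or_gt_of_ne h with h | h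
  · exact key m n h
  · rw [beq_symm]; exact key n m h

/-- The inductive sets. -/
theorem str_bInductive (s : BSet B) : (str B).bInductive s =
    bmem empty s ⊓ ⨅ n, (bmem n s ⇨ bmem (insert n n) s) := by
  unfold BStr.bInductive
  simp only [str_bEmpty, str_mem, str_bInsert]
  congr 1
  · exact iSup_beq' (ext_bmem_left s) _
  · congr 1
    ext n
    rw [iSup_beq' (ext_bmem_left s)]

theorem str_bOmega_eq (o : BSet B) : (str B).bOmega o =
    (bmem empty o ⊓ ⨅ n, (bmem n o ⇨ bmem (insert n n) o)) ⊓
      ⨅ s, ((bmem empty s ⊓ ⨅ n, (bmem n s ⇨ bmem (insert n n) s)) ⇨ bsub o s) := by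
  unfold BStr.bOmega
  simp only [str_bInductive, str_bSubset]

theorem inductive_omega :
    (bmem empty omega ⊓ ⨅ n, (bmem n omega ⇨ bmem (insert n n) (omega : BSet B))) = ⊤ := by
  rw [empty_mem_omega, top_inf_eq, eq_top_iff]
  exact le_iInf fun n => bv_imp fun Δ _ h => h.trans (succ_mem_omega n)

theorem omega_least (s : BSet B) :
    (bmem empty s ⊓ ⨅ n, (bmem n s ⇨ bmem (insert n n) s)) ≤ bsub omega s := by
  have key : ∀ n : ℕ, (bmem empty s ⊓ ⨅ n, (bmem n s ⇨ bmem (insert n n) s)) ≤
      bmem (ofNat n) s := by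
    intro n
    induction n with
    | zero => exact inf_le_left
    | succ n ih =>
      exact bv_mp (inf_le_right.trans (iInf_le (fun n => bmem n s ⇨ bmem (insert n n) s)
        (ofNat n))) ih
  unfold bsub omega
  exact le_iInf fun n => bv_imp fun Δ hΔ _ => hΔ.trans (key n.down)

/-- The only set that is the first inductive set is `omega`. -/
theorem str_bOmega (o : BSet B) : (str B).bOmega o = beq o omega := by
  rw [str_bOmega_eq]
  apply le_antisymm
  · rw [beq_def]
    refine le_inf ?_ (inf_le_left.trans (omega_least o))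
    refine bv_mp (inf_le_right.trans (iInf_le (fun s => (bmem empty s ⊓
      ⨅ n, (bmem n s ⇨ bmem (insert n n) s)) ⇨ bsub o s) omega)) ?_
    rw [inductive_omega]; exact le_top
  · have h : Ext (fun o : BSet B => (bmem empty o ⊓ ⨅ n, (bmem n o ⇨ bmem (insert n n) o)) ⊓
      ⨅ s, ((bmem empty s ⊓ ⨅ n, (bmem n s ⇨ bmem (insert n n) s)) ⇨ bsub o s)) := by
      refine Ext.inf ((ext_bmem_right _).inf (Ext.iInf fun n =>
        (ext_bmem_right _).himp (ext_bmem_right _))) (Ext.iInf fun s =>
          (ext_const _).himp (ext_bsub_left s))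
    refine h.le (x := omega) (beq_symm' le_rfl) ?_
    refine le_inf (by rw [inductive_omega]; exact le_top) ?_
    exact le_iInf fun s => bv_imp fun Δ _ h => h.trans (omega_least s)

/-! ### Finite subsets of a family -/

/-- The name of the finite set of the `a i`, `i ∈ F`. -/
def fs {X : Type u} (a : X → BSet B) (F : Finset X) : BSet B := fam fun i : {i // i ∈ F} => a i.1

theorem bmem_fs {X : Type u} (a : X → BSet B) (F : Finset X) (z : BSet B) :
    bmem z (fs a F) = ⨆ i ∈ F, beq z (a i) := by
  unfold fs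
  rw [bmem_fam, iSup_subtype]

theorem bmem_fs_of_mem {X : Type u} (a : X → BSet B) {F : Finset X} {i : X} (h : i ∈ F) :
    bmem (a i) (fs a F) = ⊤ := by
  rw [bmem_fs, eq_top_iff]
  refine bv_intro (f := fun j => ⨆ (_ : j ∈ F), beq (a i) (a j)) i
    (bv_intro (f := fun _ : i ∈ F => beq (a i) (a i)) h ?_)
  simp

theorem bmem_fs_of_notMem {X : Type u} {a : X → BSet B} (ha : Discrete a) {F : Finset X} {i : X}
    (h : i ∉ F) : bmem (a i) (fs a F) = ⊥ := by
  rw [bmem_fs, iSup_eq_bot]
  intro j
  rw [iSup_eq_bot]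
  intro hj
  exact ha i j (fun hij => h (hij ▸ hj))

theorem fs_discrete {X : Type u} {a : X → BSet B} (ha : Discrete a) : Discrete (fs a) := by
  classical
  have key : ∀ F G : Finset X, ∀ i, i ∈ F → i ∉ G → beq (fs a F) (fs a G) ≤ ⊥ := by
    intro F G i hF hG
    rw [← bmem_fs_of_notMem ha hG]
    refine bmem_congr_right le_rfl ?_
    rw [bmem_fs_of_mem a hF]; exact le_top
  intro F G h
  rw [← le_bot_iff]
  by_cases h1 : F ⊆ G
  · have h2 : ¬ G ⊆ F := fun h2 => h (Finset.Subset.antisymm h1 h2)
    obtain ⟨i, hi, hi'⟩ := Finset.not_subset.1 h2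
    rw [beq_symm]
    exact key G F i hi hi'
  · obtain ⟨i, hi, hi'⟩ := Finset.not_subset.1 h1
    exact key F G i hi hi'

theorem bsub_fs {X : Type u} (a : X → BSet B) (F : Finset X) : bsub (fs a F) (fam a) = ⊤ := by
  unfold bsub
  rw [eq_top_iff]
  refine le_iInf fun i => bv_imp fun Δ _ _ => ?_
  exact le_top.trans (mem_fam a i.1).ge

theorem fs_empty {X : Type u} (a : X → BSet B) : beq (fs a ∅) empty = ⊤ := by
  rw [beq_empty, eq_top_iff]
  refine le_iInf fun z => ?_
  rw [bmem_fs]
  simp

theorem fs_insert {X : Type u} [DecidableEq X] (a : X → BSet B) (i : X) (F : Finset X) :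
    beq (fs a (Insert.insert i F)) (insert (a i) (fs a F)) = ⊤ := by
  rw [beq_eq_iInf_bihimp, eq_top_iff]
  refine le_iInf fun z => ?_
  rw [bmem_insert, bmem_fs, bmem_fs, Finset.iSup_insert, bihimp_self]

/-- Closure of a family of sets under adjoining elements of `x`. -/
theorem str_bFin (x : BSet B) : (str B).bFin x =
    ⨅ s, (bmem empty s ⊓ ⨅ y, ⨅ t, (bmem y s ⊓ bmem t x ⇨ bmem (insert t y) s)) ⇨ bmem x s := by
  unfold BStr.bFin
  simp only [str_bEmpty, str_mem, str_bInsert]
  congr 1
  ext s
  rw [iSup_beq' (ext_bmem_left s)]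
  have h1 : ∀ y t : BSet B, (⨆ z, bmem z s ⊓ beq z (insert t y)) = bmem (insert t y) s :=
    fun y t => iSup_beq' (ext_bmem_left s) _
  simp only [h1]

theorem ext_bFin : Ext (fun x : BSet B => (str B).bFin x) := by
  simp only [str_bFin]
  exact Ext.iInf fun s => Ext.himp ((ext_const _).inf (Ext.iInf fun y => Ext.iInf fun t =>
    ((ext_const _).inf (ext_bmem_right t)).himp (ext_const _))) (ext_bmem_left s)

theorem bFin_fs {X : Type u} (a : X → BSet B) (F : Finset X) : (str B).bFin (fs a F) = ⊤ := by
  classical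
  rw [str_bFin, eq_top_iff]
  refine le_iInf fun s => bv_imp fun Γ _ h => ?_
  have key : ∀ G : Finset X, G ⊆ F → Γ ≤ bmem (fs a G) s := by
    intro G
    induction G using Finset.induction_on with
    | empty =>
      intro _
      refine bmem_congr_left (x := empty) ?_ (bv_left h)
      rw [beq_symm, fs_empty]; exact le_top
    | insert i G hi ih =>
      intro hG
      have h1 := ih (fun j hj => hG (Finset.mem_insert_of_mem hj))
      have h2 : Γ ≤ bmem (insert (a i) (fs a G)) s := by
        refine bv_mp (bv_all (bv_all (bv_right h) (fs a G)) (a i)) (le_inf h1 ?_)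
        rw [bmem_fs_of_mem a (hG (Finset.mem_insert_self i G))]; exact le_top
      refine bmem_congr_left (x := insert (a i) (fs a G)) ?_ h2
      rw [beq_symm, fs_insert]; exact le_top
  exact key F (fun _ h => h)

/-- The finite subsets of a family. -/
theorem bFin_inf_bsub_fam {X : Type u} (a : X → BSet B) (x : BSet B) :
    (str B).bFin x ⊓ (str B).bSubset x (fam a) = ⨆ F : Finset X, beq x (fs a F) := by
  classical
  rw [str_bSubset]
  apply le_antisymm
  · rw [← bmem_fam]
    rw [str_bFin]
    have h1 := fun Γ : B => bv_all (Γ := Γ) (f := fun s => (bmem empty s ⊓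
      ⨅ y, ⨅ t, (bmem y s ⊓ bmem t x ⇨ bmem (insert t y) s)) ⇨ bmem x s)
    refine bv_mp (h1 _ inf_le_left (fam (fs a))) (le_inf ?_ ?_)
    · refine bmem_congr_left (x := fs a ∅) (by rw [fs_empty]; exact le_top) ?_
      rw [mem_fam]; exact le_top
    · refine le_iInf fun y => le_iInf fun t => bv_imp fun Γ hΓ h => ?_
      have h2 := bv_left h
      rw [bmem_fam] at h2
      have h3 : Γ ≤ bmem t (fam a) := by
        refine le_trans ?_ (bsub_inf_bmem t x (fam a))
        exact le_inf (hΓ.trans inf_le_right) (bv_right h)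
      rw [bmem_fam] at h3
      refine bv_exists h2 fun F Δ hΔ hF => bv_exists (hΔ.trans h3) fun i E hE hi => ?_
      have h4 : E ≤ beq (fs a (Insert.insert i F)) (insert t y) := by
        refine beq_trans' (y := insert (a i) (fs a F)) (by rw [fs_insert]; exact le_top) ?_
        exact insert_congr (beq_symm' hi) (beq_symm' (hE.trans hF))
      refine bmem_congr_left h4 ?_
      rw [mem_fam]; exact le_top
  · refine iSup_le fun F => le_inf ?_ ?_
    · refine ext_bFin.le (x := fs a F) (beq_symm' le_rfl) ?_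
      rw [bFin_fs]; exact le_top
    · refine (ext_bsub_left (fam a)).le (x := fs a F) (beq_symm' le_rfl) ?_
      rw [bsub_fs]; exact le_top

end M3.BSet
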