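import Pool.Agent.H.MP_8ff4bd_gt.M3.SO

/-!
# The well-order `W1`: uncountable, with countable initial segments
-/

namespace M3

open Cardinal Ordinal

theorem mk_W1 : #W1 = ℵ₁ := by
  show #(Ordinal.omega.{0} 1).ToType = _
  rw [Cardinal.mk_toType]; simp

instance : Uncountable W1 := by
  rw [← Cardinal.aleph0_lt_mk_iff, mk_W1]
  exact Cardinal.aleph0_lt_aleph_one

theorem W1.countable_Iio (a : W1) : Countable {b : W1 // b < a} := by
  have h : #(Set.Iio a) < #W1 := Cardinal.mk_Iio_lt a (by
    rw [mk_W1]; simp)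
  rw [mk_W1, Cardinal.lt_aleph_one_iff] at h
  exact Cardinal.mk_le_aleph0_iff.mp h

end M3
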