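import Pool.Agent.H.MP_8ff4bd_gt.M3.Ord
import Pool.Agent.H.MP_8ff4bd_gt.M3.RO
import Pool.Agent.H.MP_8ff4bd_gt.M3.StrRel
import Pool.Agent.H.MP_8ff4bd_gt.M3.Val
import Pool.Agent.H.MP_8ff4bd_gt.M3.W1Facts

/-!
# Countable ordinals and the first uncountable ordinal in the structure of names
-/

set_option autoImplicit false

universe u v

namespace M3.BSet

open Pool.Agent.H.MP_8ff4bd_gt.M3

variable {B : Type u} [CompleteBooleanAlgebra B]

theorem str_bTrans (x : BSet B) : (str B).bTrans x = bTrans x := rfl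

theorem str_bOrd (x : BSet B) : (str B).bOrd x = bOrd x := rfl

/-- Value of: `r` is a relation between `x` and `omega`, total on `x` and injective. -/
def bInj (x r : BSet B) : B :=
  (⨅ t, bmem t x ⇨ ⨆ n, bmem n omega ⊓ pmem t n r) ⊓
    ⨅ t, ⨅ t', ⨅ n, bmem t x ⊓ bmem t' x ⊓ bmem n omega ⊓ pmem t n r ⊓ pmem t' n r ⇨ beq t t'

theorem ext_bInj (r : BSet B) : Ext (fun x => bInj x r) := by
  unfold bInj
  refine Ext.inf (Ext.iInf fun t => (ext_bmem_right t).himp (ext_const _))
    (Ext.iInf fun t => Ext.iInf fun t' => Ext.iInf fun n => ?_)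
  refine Ext.himp ?_ (ext_const _)
  exact ((((ext_bmem_right t).inf (ext_bmem_right t')).inf (ext_const _)).inf (ext_const _)).inf
    (ext_const _)

theorem ext_iSup_bInj : Ext (fun x : BSet B => ⨆ r, bInj x r) := Ext.iSup fun r => ext_bInj r

/-- Value of: `x` is countable. -/
theorem str_bCtbl (x : BSet B) :
    (str B).bCtbl x = ⨆ r, bInj x r := by
  unfold BStr.bCtbl
  simp only [str_mem, str_eq, str_bRel, str_bOmega]
  rw [iSup_comm]
  congr 1
  ext r
  have hE : Ext (fun o => (⨅ t, (bmem t x ⇨ ⨆ n, bmem n o ⊓ pmem t n r)) ⊓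
      ⨅ t, ⨅ t', ⨅ n, (bmem t x ⊓ bmem t' x ⊓ bmem n o ⊓ pmem t n r ⊓ pmem t' n r ⇨ beq t t')) := by
    refine Ext.inf (Ext.iInf fun t => (ext_const _).himp (Ext.iSup fun n =>
      (ext_bmem_right n).inf (ext_const _)))
      (Ext.iInf fun t => Ext.iInf fun t' => Ext.iInf fun n => ?_)
    refine Ext.himp ?_ (ext_const _)
    exact (((ext_const _).inf (ext_bmem_right n)).inf (ext_const _)).inf (ext_const _)
  have h := iSup_beq hE omega
  simp only [← inf_assoc] at h
  exact h

/-- Subsets of countable sets are countable. -/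
theorem bInj_mono {Γ : B} {x y r : BSet B} (h : Γ ≤ bInj y r) (hxy : Γ ≤ bsub x y) :
    Γ ≤ bInj x r := by
  have key : ∀ t, ∀ Δ ≤ Γ, Δ ≤ bmem t x → Δ ≤ bmem t y := fun t Δ hΔ ht =>
    (le_inf (hΔ.trans hxy) ht).trans (bsub_inf_bmem t x y)
  refine le_inf (le_iInf fun t => bv_imp fun Δ hΔ ht => ?_) (le_iInf fun t => le_iInf fun t' =>
    le_iInf fun n => bv_imp fun Δ hΔ ht => ?_)
  · exact bv_mp (bv_all (hΔ.trans (bv_left h)) t) (key t Δ hΔ ht)
  · refine bv_mp (bv_all (bv_all (bv_all (hΔ.trans (bv_right h)) t) t') n) ?_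
    refine le_inf (le_inf (le_inf (le_inf ?_ ?_) ?_) ?_) (bv_right ht)
    · exact key t Δ hΔ (bv_left (bv_left (bv_left (bv_left ht))))
    · exact key t' Δ hΔ (bv_right (bv_left (bv_left (bv_left ht))))
    · exact bv_right (bv_left (bv_left ht))
    · exact bv_right (bv_left ht)

/-- Names of sets with a ground injection into the natural numbers are countable. -/
theorem iSup_bInj_fam
    {X : Type u} (a : X → BSet B) (e : X → ℕ) (he : Function.Injective e) :
    (⨆ r, bInj (fam a) r) = ⊤ := by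
  classical
  rw [eq_top_iff]
  let b : ULift.{u} ℕ → BSet B := fun n => ofNat n.down
  let R : X → ULift.{u} ℕ → B := fun i n => ⨆ _ : n.down = e i, ⊤
  refine bv_intro (relName a b R) (le_inf ?_ ?_)
  · have hE : Ext (fun t => ⨆ n, bmem n omega ⊓ pmem t n (relName a b R)) :=
      Ext.iSup fun n => (ext_const _).inf (ext_pmem₁ n _)
    rw [iInf_fam a hE]
    refine le_iInf fun i => ?_
    refine bv_intro (f := fun n => bmem n omega ⊓ pmem (a i) n (relName a b R)) (ofNat (e i)) ?_
    refine le_inf (le_top.trans (ofNat_mem_omega _).ge) ?_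
    rw [pmem_relName]
    refine bv_intro (f := fun i' => ⨆ j, R i' j ⊓ (beq (a i) (a i') ⊓ beq (ofNat (e i)) (b j))) i ?_
    refine bv_intro (f := fun j => R i j ⊓ (beq (a i) (a i) ⊓ beq (ofNat (e i)) (b j))) ⟨e i⟩ ?_
    simp [R, b]
  · refine le_iInf fun t => le_iInf fun t' => le_iInf fun n => bv_imp fun Δ _ h => ?_
    have h1 : Δ ≤ pmem t n (relName a b R) := bv_right (bv_left h)
    have h2 : Δ ≤ pmem t' n (relName a b R) := bv_right h
    rw [pmem_relName] at h1 h2
    refine bv_exists h1 fun i E hE h3 => bv_exists h3 fun j F hF h4 => ?_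
    refine bv_exists ((hF.trans hE).trans h2) fun i' G hG h5 => bv_exists h5 fun j' H hH h6 => ?_
    have hHF : H ≤ F := hH.trans hG
    refine bv_exists (bv_left (hHF.trans h4)) fun hj K hK _ => ?_
    refine bv_exists (hK.trans (bv_left h6)) fun hj' L hL _ => ?_
    have hLH : L ≤ H := hL.trans hK
    have e1 : L ≤ beq n (ofNat j.down) := (hLH.trans hHF).trans (bv_right (bv_right h4))
    have e2 : L ≤ beq n (ofNat j'.down) := hLH.trans (bv_right (bv_right h6))
    have e3 : L ≤ beq t (a i) := (hLH.trans hHF).trans (bv_left (bv_right h4))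
    have e4 : L ≤ beq t' (a i') := hLH.trans (bv_left (bv_right h6))
    by_cases hjj : j.down = j'.down
    · have hii : i = i' := he (by rw [← hj, ← hj', hjj])
      subst hii
      exact beq_trans' e3 (beq_symm' e4)
    · refine le_trans ?_ bot_le
      rw [← ofNat_discrete hjj]
      exact beq_trans' (beq_symm' e1) e2

/-- Under ccc the name of an uncountable discrete family is uncountable. -/
theorem bInj_fam_bot {X : Type u} [Uncountable X] (hB : BCCC B) {a : X → BSet B}
    (ha : Discrete a) (r : BSet B) : bInj (fam a) r = ⊥ := by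
  by_contra hne
  set Γ := bInj (fam a) r with hΓ
  have h1 : ∀ i, ∃ n : ℕ, Γ ⊓ pmem (a i) (ofNat n) r ≠ ⊥ := by
    intro i
    by_contra hc
    push Not at hc
    apply hne
    rw [← le_bot_iff]
    have h2 : Γ ≤ ⨆ n, bmem n omega ⊓ pmem (a i) n r :=
      bv_mp (bv_all (bv_left hΓ.le) (a i)) (le_top.trans (mem_fam a i).ge)
    refine bv_exists h2 fun n Δ hΔ hn => ?_
    have h3 := bv_left hn
    rw [bmem_omega] at h3
    refine bv_exists h3 fun m E hE hm => ?_
    rw [← hc m]
    refine le_inf (hE.trans hΔ) ?_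
    exact (ext_pmem₂ (a i) r).le hm (hE.trans (bv_right hn))
  choose n hn using h1
  obtain ⟨m, hm⟩ : ∃ m, ¬ (n ⁻¹' {m}).Countable := by
    by_contra hc
    push Not at hc
    have h2 : (Set.univ : Set X).Countable := by
      have : (⋃ m, n ⁻¹' {m}) = (Set.univ : Set X) := by
        ext i; simp
      rw [← this]
      exact Set.countable_iUnion fun m => hc m
    exact Set.not_countable_univ h2
  apply hm
  have h3 := hB.countable_index (fun i : (n ⁻¹' {m} : Set X) => Γ ⊓ pmem (a i.1) (ofNat m) r) ?_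
  · have h4 : {i : (n ⁻¹' {m} : Set X) | Γ ⊓ pmem (a i.1) (ofNat m) r ≠ ⊥} = Set.univ := by
      refine Set.eq_univ_of_forall fun i => ?_
      have h5 := hn i.1
      have h6 : n i.1 = m := i.2
      rw [h6] at h5
      exact h5
    rw [h4] at h3
    exact Set.countable_coe_iff.mp (Set.countable_univ_iff.mp h3)
  · intro i j hij
    rw [← le_bot_iff, ← ha i.1 j.1 (fun h => hij (Subtype.ext h))]
    have h5 : ∀ Δ : B, Δ ≤ Γ → Δ ≤ pmem (a i.1) (ofNat m) r → Δ ≤ pmem (a j.1) (ofNat m) r →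
        Δ ≤ beq (a i.1) (a j.1) := by
      intro Δ hΔ h6 h7
      refine bv_mp (bv_all (bv_all (bv_all (bv_right (hΔ.trans hΓ.le)) (a i.1)) (a j.1))
        (ofNat m)) ?_
      exact le_inf (le_inf (le_inf (le_inf (le_top.trans (mem_fam a _).ge)
        (le_top.trans (mem_fam a _).ge)) (le_top.trans (ofNat_mem_omega _).ge)) h6) h7
    exact h5 _ (inf_le_left.trans inf_le_left) (inf_le_left.trans inf_le_right)
      (inf_le_right.trans inf_le_right)

/-! ### The first uncountable ordinal -/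

section omega1

variable {W : Type u} [LinearOrder W] [WellFoundedLT W]

theorem vN_eq_fam (a : W) : (vN a : BSet B) = fam (fun b : {b : W // b < a} => vN b.1) := vN_eq a

theorem wN_eq_fam : (wN W : BSet B) = fam (fun b : W => vN b) := rfl

theorem discrete_vN : Discrete (fun a : W => (vN a : BSet B)) := fun _ _ h => beq_vN h

/-- The hypotheses on the ground well-order: all initial segments are countable and the whole type
is uncountable. -/
theorem iSup_bInj_vN (a : W) (ha : Countable {b : W // b < a}) : (⨆ r, bInj (vN a : BSet B) r) = ⊤ := by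
  obtain ⟨e, he⟩ := ha.exists_injective_nat
  rw [vN_eq_fam]
  exact iSup_bInj_fam _ e he

theorem iSup_bInj_wN_bot [Uncountable W] (hB : BCCC B) : (⨆ r, bInj (wN W : BSet B) r) = ⊥ := by
  rw [iSup_eq_bot]
  intro r
  rw [wN_eq_fam]
  exact bInj_fam_bot hB discrete_vN r

/-- Under ccc a countable ordinal is an element of `wN W`. -/
theorem ord_ctbl_le_bmem_wN [Uncountable W] (hB : BCCC B) (x : BSet B) :
    bOrd x ⊓ (⨆ r, bInj x r) ≤ bmem x (wN W) := by
  have h1 : bOrd x ⊓ (⨆ r, bInj x r) ≤ bmem x (wN W) ⊔ beq x (wN W) ⊔ bmem (wN W) x :=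
    (le_inf inf_le_left (le_top.trans bOrd_wN.ge)).trans (ord_trichotomy x (wN W))
  have h0 : ∀ Δ : B, Δ ≤ (⨆ r, bInj (wN W : BSet B) r) → Δ ≤ bmem x (wN W) := fun Δ h => by
    rw [iSup_bInj_wN_bot hB] at h
    exact h.trans bot_le
  refine bv_or h1 (fun Δ hΔ h2 => bv_or h2 (fun E _ h3 => h3) (fun E hE h3 => ?_))
    (fun Δ hΔ h2 => ?_)
  · exact h0 _ (ext_iSup_bInj.le h3 ((hE.trans hΔ).trans inf_le_right))
  · refine h0 _ ?_
    refine bv_exists (hΔ.trans inf_le_right) fun r E hE hr => ?_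
    refine bv_intro (f := fun r => bInj (wN W : BSet B) r) r (bInj_mono hr ?_)
    rw [bsub_eq]
    exact bv_mp (bv_all (bOrd_trans ((hE.trans hΔ).trans inf_le_left)) (wN W)) (hE.trans h2)

/-- Elements of `wN W` are exactly the countable ordinals. -/
theorem bmem_wN_eq [Uncountable W] (hB : BCCC B)
    (hW : ∀ a : W, Countable {b : W // b < a}) (x : BSet B) :
    bmem x (wN W) = bOrd x ⊓ (⨆ r, bInj x r) := by
  refine le_antisymm ?_ (ord_ctbl_le_bmem_wN hB x)
  rw [bmem_wN]
  refine iSup_le fun a => le_inf ?_ ?_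
  · exact ext_bOrd.le (beq_symm' le_rfl) (le_top.trans (bOrd_vN a).ge)
  · exact ext_iSup_bInj.le (beq_symm' le_rfl) (le_top.trans (iSup_bInj_vN a (hW a)).ge)

/-- `w` is the set of all countable ordinals iff `w = wN W`. -/
theorem isW1_eq [Uncountable W] (hB : BCCC B)
    (hW : ∀ a : W, Countable {b : W // b < a}) (w : BSet B) :
    (⨅ x, bihimp (bmem x w) (bOrd x ⊓ (⨆ r, bInj x r))) = beq w (wN W) :=
  iInf_bihimp_eq (bmem_wN_eq hB hW)

/-- `w` is the first uncountable ordinal iff `w = wN W`. -/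
theorem isOmega1_eq [Uncountable W] (hB : BCCC B)
    (hW : ∀ a : W, Countable {b : W // b < a}) (w : BSet B) :
    bOrd w ⊓ (⨆ r, bInj w r)ᶜ ⊓ (⨅ x, bmem x w ⇨ ⨆ r, bInj x r) = beq w (wN W) := by
  apply le_antisymm
  · have h1 : bOrd w ⊓ (⨆ r, bInj w r)ᶜ ⊓ (⨅ x, bmem x w ⇨ ⨆ r, bInj x r) ≤
        bmem w (wN W) ⊔ beq w (wN W) ⊔ bmem (wN W) w :=
      (le_inf (inf_le_left.trans inf_le_left) (le_top.trans bOrd_wN.ge)).trans
        (ord_trichotomy w (wN W))
    refine bv_or h1 (fun Δ hΔ h2 => bv_or h2 (fun E hE h3 => ?_) (fun E _ h3 => h3))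
      (fun Δ hΔ h2 => ?_)
    · rw [bmem_wN_eq hB hW] at h3
      exact bv_absurd (bv_right h3) (((hE.trans hΔ).trans inf_le_left).trans inf_le_right)
    · have h3 : Δ ≤ ⨆ r, bInj (wN W : BSet B) r :=
        bv_mp (bv_all (hΔ.trans inf_le_right) (wN W)) h2
      rw [iSup_bInj_wN_bot hB] at h3
      exact h3.trans bot_le
  · have hE : Ext (fun w : BSet B => bOrd w ⊓ (⨆ r, bInj w r)ᶜ ⊓
        (⨅ x, bmem x w ⇨ ⨆ r, bInj x r)) :=
      (ext_bOrd.inf ext_iSup_bInj.compl).inf
        (Ext.iInf fun x => (ext_bmem_right x).himp (ext_const _))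
    refine hE.le (beq_symm' le_rfl) (le_top.trans ?_)
    refine le_inf (le_inf bOrd_wN.ge ?_) (le_iInf fun x => bv_imp fun Δ _ h => ?_)
    · rw [iSup_bInj_wN_bot hB]; simp
    · rw [bmem_wN_eq hB hW] at h
      exact bv_right h

/-- Value of the notion `bIsW` of the statement. -/
theorem str_bIsW [Uncountable W] (hB : BCCC B)
    (hW : ∀ a : W, Countable {b : W // b < a}) (w : BSet B) :
    (str B).bIsW w = beq w (wN W) := by
  rw [← isW1_eq hB hW w]
  unfold BStr.bIsW
  simp only [str_bCtbl, str_bOrd, str_mem]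

end omega1

/-- Value of `bIsW` under ccc, for the ground well-order `W1`. -/
theorem str_bIsW_W1 {B : Type} [CompleteBooleanAlgebra B] (hB : BCCC B) (w : BSet B) :
    (str B).bIsW w = beq w (wN W1) :=
  str_bIsW hB W1.countable_Iio w

end M3.BSet
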