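import Pool.Agent.H.MP_8ff4bd_gt.M3.Grp
import Pool.Agent.H.MP_8ff4bd_gt.M3.Omega1
import Pool.Agent.H.MP_8ff4bd_gt.M3.W1Facts

/-!
# The translation theorem

The value of the homeomorphism statement in the Boolean-valued universe over an algebra with the
countable chain condition is the value of its second-order form.
-/

set_option autoImplicit false

namespace M3.BSet

open Pool.Agent.H.MP_8ff4bd_gt.M3

variable {B : Type} [CompleteBooleanAlgebra B]

theorem Ext.bihimp {φ ψ : BSet B → B} (h1 : Ext φ) (h2 : Ext ψ) :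
    Ext (fun x => _root_.bihimp (φ x) (ψ x)) := by
  unfold _root_.bihimp
  exact (h2.himp h1).inf (h1.himp h2)

theorem ext_bIsGrp (m : ℕ) (g : BSet B) : Ext (fun w => (str B).bIsGrp m w g) := by
  unfold BStr.bIsGrp
  refine Ext.iInf fun x => (ext_const _).bihimp (Ext.inf ?_ ?_)
  · simp only [str_bFun]
    exact Ext.inf (Ext.inf (Ext.iInf fun p => (ext_const _).himp (Ext.iSup fun t =>
      Ext.iSup fun n => ((ext_bmem_right t).inf (ext_const _)).inf (ext_const _)))
      (Ext.iInf fun t => (ext_bmem_right t).himp (ext_const _))) (ext_const _)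
  · simp only [str_bFinSupp]
    exact Ext.iSup fun s => (ext_const _).inf (Ext.iInf fun t =>
      ((ext_bmem_right t).inf (ext_const _)).himp (ext_const _))

theorem ext_bSubgrp_w (m : ℕ) (k l : BSet B) : Ext (fun w => (str B).bSubgrp m w k l) := by
  unfold BStr.bSubgrp
  refine Ext.inf (Ext.inf (ext_const _) (Ext.iInf fun o => ?_)) (Ext.iInf fun x =>
    Ext.iInf fun y => Ext.iInf fun z => ?_)
  · exact ((ext_const _).inf (ext_bAdd₀ m o o o)).himp (ext_const _)
  · exact ((ext_const _).inf (ext_bAdd₀ m x y z)).himp (ext_const _)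

theorem ext_bSubgrp_k (m : ℕ) (w l : BSet B) : Ext (fun k => (str B).bSubgrp m w k l) := by
  unfold BStr.bSubgrp
  simp only [str_bSubset, str_mem]
  refine Ext.inf (Ext.inf (ext_bsub_right l) (Ext.iInf fun o => ?_)) (Ext.iInf fun x =>
    Ext.iInf fun y => Ext.iInf fun z => ?_)
  · exact ((ext_bmem_right o).inf (ext_const _)).himp (ext_const _)
  · exact (((ext_const _).inf (ext_bmem_right z)).inf (ext_const _)).himp (ext_const _)

theorem ext_bCIdx_w (m : ℕ) (k l : BSet B) : Ext (fun w => (str B).bCIdx m w k l) := by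
  unfold BStr.bCIdx
  refine Ext.iSup fun o => Ext.iSup fun r => Ext.inf (ext_const _) (Ext.iInf fun x =>
    Ext.iInf fun y => Ext.iInf fun n => (ext_const _).himp (Ext.iSup fun z =>
      (ext_const _).inf (ext_bAdd₀ m y z x)))

theorem ext_bCIdx_k (m : ℕ) (w l : BSet B) : Ext (fun k => (str B).bCIdx m w k l) := by
  unfold BStr.bCIdx
  simp only [str_mem]
  refine Ext.iSup fun o => Ext.iSup fun r => Ext.inf (Ext.inf (ext_const _) (Ext.iInf fun x =>
    (ext_bmem_right x).himp (ext_const _))) (Ext.iInf fun x => Ext.iInf fun y => Ext.iInf fun n =>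
      Ext.himp ?_ (ext_const _))
  exact ((((ext_bmem_right x).inf (ext_bmem_right y)).inf (ext_const _)).inf (ext_const _)).inf
    (ext_const _)

theorem ext_bBijection_g (h f : BSet B) : Ext (fun g => (str B).bBijection g h f) := by
  unfold BStr.bBijection
  simp only [str_mem]
  refine Ext.inf (Ext.inf (Ext.inf ?_ ?_) ?_) ?_
  · exact Ext.iInf fun x => (ext_bmem_right x).himp (ext_const _)
  · exact Ext.iInf fun x => Ext.iInf fun y => Ext.iInf fun y' =>
      (((((ext_bmem_right x).inf (ext_const _)).inf (ext_const _)).inf (ext_const _)).inf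
        (ext_const _)).himp (ext_const _)
  · exact Ext.iInf fun y => (ext_const _).himp (Ext.iSup fun x =>
      (ext_bmem_right x).inf (ext_const _))
  · exact Ext.iInf fun y => Ext.iInf fun x => Ext.iInf fun x' =>
      (((((ext_const _).inf (ext_bmem_right x)).inf (ext_bmem_right x')).inf (ext_const _)).inf
        (ext_const _)).himp (ext_const _)

theorem ext_bBijection_h (g f : BSet B) : Ext (fun h => (str B).bBijection g h f) := by
  unfold BStr.bBijection
  simp only [str_mem]
  refine Ext.inf (Ext.inf (Ext.inf ?_ ?_) ?_) ?_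
  · exact Ext.iInf fun x => (ext_const _).himp (Ext.iSup fun y =>
      (ext_bmem_right y).inf (ext_const _))
  · exact Ext.iInf fun x => Ext.iInf fun y => Ext.iInf fun y' =>
      (((((ext_const _).inf (ext_bmem_right y)).inf (ext_bmem_right y')).inf (ext_const _)).inf
        (ext_const _)).himp (ext_const _)
  · exact Ext.iInf fun y => (ext_bmem_right y).himp (ext_const _)
  · exact Ext.iInf fun y => Ext.iInf fun x => Ext.iInf fun x' =>
      (((((ext_bmem_right y).inf (ext_const _)).inf (ext_const _)).inf (ext_const _)).inf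
        (ext_const _)).himp (ext_const _)

theorem ext_bContinuous_w (sw : Bool) (m m' : ℕ) (g h f : BSet B) :
    Ext (fun w => (str B).bContinuous sw m m' w g h f) := by
  unfold BStr.bContinuous
  refine Ext.iInf fun x => Ext.iInf fun y => (ext_const _).himp (Ext.iInf fun l =>
    ((ext_bSubgrp_w m' h l).inf (ext_bCIdx_w m' h l)).himp (Ext.iSup fun k =>
      ((ext_bSubgrp_w m g k).inf (ext_bCIdx_w m g k)).inf (Ext.iInf fun z => Ext.iInf fun u =>
        Ext.iInf fun v => Ext.himp ?_ ?_)))
  · exact ((ext_const _).inf (ext_bAdd₀ m x z u)).inf (ext_const _)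
  · exact Ext.iSup fun t => (ext_const _).inf (ext_bAdd₀ m' y t v)

theorem ext_bContinuous_g (sw : Bool) (m m' : ℕ) (w h f : BSet B) :
    Ext (fun g => (str B).bContinuous sw m m' w g h f) := by
  unfold BStr.bContinuous
  simp only [str_mem]
  refine Ext.iInf fun x => Ext.iInf fun y => Ext.himp ?_ (Ext.iInf fun l =>
    (ext_const _).himp (Ext.iSup fun k =>
      ((ext_bSubgrp_k m w k).inf (ext_bCIdx_k m w k)).inf (Ext.iInf fun z => Ext.iInf fun u =>
        Ext.iInf fun v => Ext.himp ?_ (ext_const _))))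
  · exact ((ext_bmem_right x).inf (ext_const _)).inf (ext_const _)
  · exact ((((ext_const _).inf (ext_bmem_right u)).inf (ext_const _)).inf (ext_const _)).inf
      (ext_const _)

theorem ext_bContinuous_h (sw : Bool) (m m' : ℕ) (w g f : BSet B) :
    Ext (fun h => (str B).bContinuous sw m m' w g h f) := by
  unfold BStr.bContinuous
  simp only [str_mem]
  refine Ext.iInf fun x => Ext.iInf fun y => Ext.himp ?_ (Ext.iInf fun l =>
    ((ext_bSubgrp_k m' w l).inf (ext_bCIdx_k m' w l)).himp (Ext.iSup fun k =>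
      (ext_const _).inf (Ext.iInf fun z => Ext.iInf fun u =>
        Ext.iInf fun v => Ext.himp ?_ (ext_const _))))
  · exact ((ext_const _).inf (ext_bmem_right y)).inf (ext_const _)
  · exact (((ext_const _).inf (ext_bmem_right v)).inf (ext_const _)).inf (ext_const _)

/-- Every `B`-valued relation between two discrete families is named. -/
theorem iSup_rel {X Y : Type} {a : X → BSet B} {b : Y → BSet B} (ha : Discrete a)
    (hb : Discrete b) (Q : (X → Y → B) → B) :
    (⨆ f : BSet B, Q (fun x y => pmem (a x) (b y) f)) = ⨆ r, Q r := by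
  refine Function.Surjective.iSup_comp (f := fun f : BSet B => fun x y => pmem (a x) (b y) f) ?_ Q
  intro r
  refine ⟨relName a b r, ?_⟩
  funext x y
  exact pmem_relName_of_discrete ha hb r x y

/-- The translation theorem. -/
theorem bHomeo_eq (hB : BCCC B) :
    (str B).bHomeo = M3.bHomeo B (W1 →₀ ZMod 2) (W1 →₀ ZMod 3) := by
  have hvN : Discrete (fun a : W1 => (vN a : BSet B)) := discrete_vN
  have h2 : GrpName 2 (fam fun a : W1 => (vN a : BSet B)) (gN 2 fun a : W1 => (vN a : BSet B)) :=
    grpName_gN hvN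
  have h3 : GrpName 3 (fam fun a : W1 => (vN a : BSet B)) (gN 3 fun a : W1 => (vN a : BSet B)) :=
    grpName_gN hvN
  unfold BStr.bHomeo
  simp only [str_bIsW_W1 hB, inf_assoc]
  -- elimination of `w`
  have hw : ∀ w : BSet B, (⨆ g, ⨆ h, ⨆ f, beq w (wN W1) ⊓ ((str B).bIsGrp 2 w g ⊓
      ((str B).bIsGrp 3 w h ⊓ ((str B).bBijection g h f ⊓
        ((str B).bContinuous false 2 3 w g h f ⊓ (str B).bContinuous true 3 2 w h g f))))) =
      beq w (wN W1) ⊓ (⨆ g, ⨆ h, ⨆ f, ((str B).bIsGrp 2 w g ⊓
      ((str B).bIsGrp 3 w h ⊓ ((str B).bBijection g h f ⊓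
        ((str B).bContinuous false 2 3 w g h f ⊓ (str B).bContinuous true 3 2 w h g f))))) := by
    intro w
    simp only [inf_iSup_eq]
  simp only [hw]
  rw [iSup_beq (φ := fun w => ⨆ g, ⨆ h, ⨆ f, ((str B).bIsGrp 2 w g ⊓
      ((str B).bIsGrp 3 w h ⊓ ((str B).bBijection g h f ⊓
        ((str B).bContinuous false 2 3 w g h f ⊓ (str B).bContinuous true 3 2 w h g f)))))
    (Ext.iSup fun g => Ext.iSup fun h => Ext.iSup fun f => (ext_bIsGrp 2 g).inf
      ((ext_bIsGrp 3 h).inf ((ext_const _).inf ((ext_bContinuous_w _ _ _ g h f).inf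
        (ext_bContinuous_w _ _ _ h g f))))), wN_eq_fam]
  simp only [str_bIsGrp hvN]
  -- elimination of `g`
  have hg : ∀ g : BSet B, (⨆ h, ⨆ f, beq g (fam (gN 2 fun a : W1 => (vN a : BSet B))) ⊓
      (beq h (fam (gN 3 fun a : W1 => (vN a : BSet B))) ⊓ ((str B).bBijection g h f ⊓
        ((str B).bContinuous false 2 3 (fam fun a : W1 => (vN a : BSet B)) g h f ⊓
          (str B).bContinuous true 3 2 (fam fun a : W1 => (vN a : BSet B)) h g f)))) =
      beq g (fam (gN 2 fun a : W1 => (vN a : BSet B))) ⊓ (⨆ h, ⨆ f,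
      (beq h (fam (gN 3 fun a : W1 => (vN a : BSet B))) ⊓ ((str B).bBijection g h f ⊓
        ((str B).bContinuous false 2 3 (fam fun a : W1 => (vN a : BSet B)) g h f ⊓
          (str B).bContinuous true 3 2 (fam fun a : W1 => (vN a : BSet B)) h g f)))) := by
    intro g
    simp only [inf_iSup_eq]
  simp only [hg]
  rw [iSup_beq (φ := fun g => ⨆ h, ⨆ f,
      (beq h (fam (gN 3 fun a : W1 => (vN a : BSet B))) ⊓ ((str B).bBijection g h f ⊓
        ((str B).bContinuous false 2 3 (fam fun a : W1 => (vN a : BSet B)) g h f ⊓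
          (str B).bContinuous true 3 2 (fam fun a : W1 => (vN a : BSet B)) h g f))))
    (Ext.iSup fun h => Ext.iSup fun f => (ext_const _).inf ((ext_bBijection_g h f).inf
      ((ext_bContinuous_g _ _ _ _ h f).inf (ext_bContinuous_h _ _ _ _ h f))))]
  -- elimination of `h`
  have hh : ∀ h : BSet B, (⨆ f, beq h (fam (gN 3 fun a : W1 => (vN a : BSet B))) ⊓
      ((str B).bBijection (fam (gN 2 fun a : W1 => (vN a : BSet B))) h f ⊓
        ((str B).bContinuous false 2 3 (fam fun a : W1 => (vN a : BSet B))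
          (fam (gN 2 fun a : W1 => (vN a : BSet B))) h f ⊓
          (str B).bContinuous true 3 2 (fam fun a : W1 => (vN a : BSet B)) h
            (fam (gN 2 fun a : W1 => (vN a : BSet B))) f))) =
      beq h (fam (gN 3 fun a : W1 => (vN a : BSet B))) ⊓ (⨆ f,
      ((str B).bBijection (fam (gN 2 fun a : W1 => (vN a : BSet B))) h f ⊓
        ((str B).bContinuous false 2 3 (fam fun a : W1 => (vN a : BSet B))
          (fam (gN 2 fun a : W1 => (vN a : BSet B))) h f ⊓
          (str B).bContinuous true 3 2 (fam fun a : W1 => (vN a : BSet B)) h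
            (fam (gN 2 fun a : W1 => (vN a : BSet B))) f))) := by
    intro h
    simp only [inf_iSup_eq]
  simp only [hh]
  rw [iSup_beq (φ := fun h => ⨆ f,
      ((str B).bBijection (fam (gN 2 fun a : W1 => (vN a : BSet B))) h f ⊓
        ((str B).bContinuous false 2 3 (fam fun a : W1 => (vN a : BSet B))
          (fam (gN 2 fun a : W1 => (vN a : BSet B))) h f ⊓
          (str B).bContinuous true 3 2 (fam fun a : W1 => (vN a : BSet B)) h
            (fam (gN 2 fun a : W1 => (vN a : BSet B))) f)))
    (Ext.iSup fun f => (ext_bBijection_h _ f).inf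
      ((ext_bContinuous_h _ _ _ _ _ f).inf (ext_bContinuous_g _ _ _ _ _ f)))]
  simp only [bBijection_eq h2 h3, bContinuous_eq h2 h3, bContinuous_eq h3 h2]
  unfold BStr.bGraph
  simp only [str_bRel]
  unfold M3.bHomeo
  rw [← iSup_rel h2.disc h3.disc (fun F => bBij F ⊓ bCont F ⊓ bCont (fun y x => F x y))]
  simp only [inf_assoc]

end M3.BSet
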