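import Mathlib

/-!
# Node sums and the node-state recursion (ground bijection, part 1)

`E` is a set of indices with an injective map `rho : E → (ℕ → Bool)` into the Cantor space.  For a
finitely supported `x : E →₀ A` and a node of the binary tree, given by a point `p` of the Cantor
space and a depth `n`, the node sum `ns rho x p n` is the sum of all `x e` such that `rho e` and `p`
agree below `n`.  A split datum `SB A A'` gives a recursion which turns the node sums of `x` into the
node sums of an element `f x : E →₀ A'`; this is a bijection.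
-/

namespace M3.Bij

open Finset

/-- `p` and `q` agree below `n`. -/
def Ag (p q : ℕ → Bool) (n : ℕ) : Prop := ∀ k, k < n → p k = q k

instance (p q : ℕ → Bool) (n : ℕ) : Decidable (Ag p q n) := by
  unfold Ag; infer_instance

theorem Ag.refl (p : ℕ → Bool) (n : ℕ) : Ag p p n := fun _ _ => rfl

theorem Ag.symm {p q : ℕ → Bool} {n : ℕ} (h : Ag p q n) : Ag q p n := fun k hk => (h k hk).symm

theorem Ag.comm {p q : ℕ → Bool} {n : ℕ} : Ag p q n ↔ Ag q p n := ⟨Ag.symm, Ag.symm⟩

theorem Ag.trans {p q r : ℕ → Bool} {n : ℕ} (h : Ag p q n) (h' : Ag q r n) : Ag p r n :=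
  fun k hk => (h k hk).trans (h' k hk)

theorem Ag.mono {p q : ℕ → Bool} {n m : ℕ} (h : Ag p q n) (hm : m ≤ n) : Ag p q m :=
  fun k hk => h k (lt_of_lt_of_le hk hm)

theorem Ag.zero (p q : ℕ → Bool) : Ag p q 0 := fun k hk => absurd hk (Nat.not_lt_zero k)

theorem Ag.succ {p q : ℕ → Bool} {n : ℕ} (h : Ag p q n) (h' : p n = q n) : Ag p q (n + 1) := by
  intro k hk
  rcases Nat.lt_succ_iff_lt_or_eq.mp hk with h1 | h1
  · exact h k h1
  · rw [h1]; exact h'

theorem ag_succ_iff {p q : ℕ → Bool} {n : ℕ} : Ag p q (n + 1) ↔ Ag p q n ∧ p n = q n :=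
  ⟨fun h => ⟨h.mono (Nat.le_succ n), h n (Nat.lt_succ_self n)⟩, fun h => h.1.succ h.2⟩

theorem exists_not_ag {p q : ℕ → Bool} (h : p ≠ q) : ∃ n, ¬ Ag p q n := by
  by_contra hc
  push Not at hc
  exact h (funext fun k => hc (k + 1) k (Nat.lt_succ_self k))

/-- The child of the node `(p, n)` in direction `b`. -/
def chd (p : ℕ → Bool) (n : ℕ) (b : Bool) : ℕ → Bool := Function.update p n b

theorem chd_same (p : ℕ → Bool) (n : ℕ) (b : Bool) : chd p n b n = b := by simp [chd]

theorem ag_chd (p : ℕ → Bool) (n : ℕ) (b : Bool) : Ag (chd p n b) p n := by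
  intro k hk
  simp [chd, hk.ne]

theorem ag_chd_iff {q p : ℕ → Bool} {n : ℕ} {b : Bool} :
    Ag q (chd p n b) (n + 1) ↔ Ag q p n ∧ q n = b := by
  rw [ag_succ_iff, chd_same]
  constructor
  · rintro ⟨h1, h2⟩
    exact ⟨h1.trans (ag_chd p n b), h2⟩
  · rintro ⟨h1, h2⟩
    exact ⟨h1.trans (ag_chd p n b).symm, h2⟩

section NodeSums

variable {E A A' : Type*} [AddCommGroup A] [AddCommGroup A'] (rho : E → ℕ → Bool)

/-- The node sum of `x` at the node `(p, n)`. -/
noncomputable def ns (x : E →₀ A) (p : ℕ → Bool) (n : ℕ) : A :=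
  x.sum (fun e a => if Ag (rho e) p n then a else 0)

theorem ns_eq_sum {x : E →₀ A} {S : Finset E} (hS : x.support ⊆ S) (p : ℕ → Bool) (n : ℕ) :
    ns rho x p n = ∑ e ∈ S, if Ag (rho e) p n then x e else 0 := by
  unfold ns
  exact Finsupp.sum_of_support_subset x hS _ (by intro i _; split_ifs <;> rfl)

theorem ns_eq_sum_filter {x : E →₀ A} {S : Finset E} (hS : x.support ⊆ S) (p : ℕ → Bool) (n : ℕ) :
    ns rho x p n = ∑ e ∈ S.filter (fun e => Ag (rho e) p n), x e := by
  rw [ns_eq_sum rho hS, Finset.sum_filter]

theorem ns_add (x z : E →₀ A) (p : ℕ → Bool) (n : ℕ) :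
    ns rho (x + z) p n = ns rho x p n + ns rho z p n := by
  classical
  have h1 : (x + z).support ⊆ x.support ∪ z.support := Finsupp.support_add
  rw [ns_eq_sum rho h1, ns_eq_sum rho (Finset.subset_union_left (s₁ := x.support) (s₂ := z.support)),
    ns_eq_sum rho (Finset.subset_union_right (s₁ := x.support) (s₂ := z.support)),
    ← Finset.sum_add_distrib]
  refine Finset.sum_congr rfl fun e _ => ?_
  split_ifs <;> simp

theorem ns_congr {x : E →₀ A} {p q : ℕ → Bool} {n : ℕ} (h : Ag p q n) :
    ns rho x p n = ns rho x q n := by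
  unfold ns
  refine Finsupp.sum_congr fun e _ => ?_
  have : Ag (rho e) p n ↔ Ag (rho e) q n := ⟨fun h' => h'.trans h, fun h' => h'.trans h.symm⟩
  simp [this]

theorem ns_child (x : E →₀ A) (p : ℕ → Bool) (n : ℕ) :
    ns rho x (chd p n false) (n + 1) + ns rho x (chd p n true) (n + 1) = ns rho x p n := by
  rw [ns_eq_sum rho (Finset.Subset.refl _), ns_eq_sum rho (Finset.Subset.refl _),
    ns_eq_sum rho (Finset.Subset.refl _), ← Finset.sum_add_distrib]
  refine Finset.sum_congr rfl fun e _ => ?_
  simp only [ag_chd_iff]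
  by_cases h : Ag (rho e) p n
  · cases h' : rho e n <;> simp [h]
  · simp [h]

/-- The finite set `S` is separated at depth `N`. -/
def Sep (S : Finset E) (N : ℕ) : Prop :=
  ∀ e ∈ S, ∀ e' ∈ S, Ag (rho e) (rho e') N → e = e'

variable {rho}

theorem Sep.mono {S : Finset E} {N M : ℕ} (h : Sep rho S N) (hM : N ≤ M) : Sep rho S M :=
  fun e he e' he' hA => h e he e' he' (hA.mono hM)

theorem Sep.subset {S T : Finset E} {N : ℕ} (h : Sep rho S N) (hT : T ⊆ S) : Sep rho T N :=
  fun e he e' he' hA => h e (hT he) e' (hT he') hA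

theorem exists_sep (hrho : Function.Injective rho) (S : Finset E) : ∃ N, Sep rho S N := by
  classical
  have h1 : ∀ q : E × E, ∃ N, Ag (rho q.1) (rho q.2) N → q.1 = q.2 := by
    intro q
    by_cases h : q.1 = q.2
    · exact ⟨0, fun _ => h⟩
    · obtain ⟨N, hN⟩ := exists_not_ag (fun h' => h (hrho h'))
      exact ⟨N, fun h' => absurd h' hN⟩
  choose N hN using h1
  refine ⟨(S ×ˢ S).sup N, fun e he e' he' hA => hN (e, e') (hA.mono ?_)⟩
  exact Finset.le_sup (f := N) (Finset.mem_product.mpr ⟨he, he'⟩)

/-- At a depth separating `S ⊇ supp x`, the node sum at `e ∈ S` is `x e`. -/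
theorem ns_of_sep {x : E →₀ A} {S : Finset E} {N : ℕ} (hS : x.support ⊆ S) (hN : Sep rho S N)
    {e : E} (he : e ∈ S) {p : ℕ → Bool} (hp : Ag (rho e) p N) : ns rho x p N = x e := by
  rw [ns_eq_sum rho hS, Finset.sum_eq_single e]
  · simp [hp]
  · intro e' he' hne
    have : ¬ Ag (rho e') p N := fun h => hne (hN e' he' e he (h.trans hp.symm))
    simp [this]
  · intro h; exact absurd he h

theorem ns_of_none {x : E →₀ A} {N : ℕ} {p : ℕ → Bool}
    (hp : ∀ e ∈ x.support, ¬ Ag (rho e) p N) : ns rho x p N = 0 := by
  rw [ns_eq_sum rho (Finset.Subset.refl _)]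
  refine Finset.sum_eq_zero fun e he => ?_
  simp [hp e he]

theorem exists_ns_eq (hrho : Function.Injective rho) (x : E →₀ A) (e : E) :
    ∃ N, ∀ n, N ≤ n → ns rho x (rho e) n = x e := by
  classical
  obtain ⟨N, hN⟩ := exists_sep hrho (insert e x.support)
  exact ⟨N, fun n hn => ns_of_sep (Finset.subset_insert _ _) (hN.mono hn)
    (Finset.mem_insert_self _ _) (Ag.refl _ _)⟩

theorem ns_inj (hrho : Function.Injective rho) {x y : E →₀ A}
    (h : ∀ p n, ns rho x p n = ns rho y p n) : x = y := by
  ext e
  obtain ⟨N, hN⟩ := exists_ns_eq hrho x e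
  obtain ⟨M, hM⟩ := exists_ns_eq hrho y e
  rw [← hN (max N M) (le_max_left _ _), ← hM (max N M) (le_max_right _ _), h]

end NodeSums

/-- Split datum: a relation `R` between the possible node sums on both sides, a bijection for the
root and a bijection for every split of a related pair. -/
structure SB (A A' : Type*) [AddCommGroup A] [AddCommGroup A'] where
  R : A → A' → Prop
  hz : ∀ {a a'}, R a a' → (a = 0 ↔ a' = 0)
  root : A ≃ A'
  hroot : ∀ a, R a (root a)
  sp : A → A' → (A ≃ A')
  hsp : ∀ s t, R s t → ∀ x, R x (sp s t x) ∧ R (s - x) (t - sp s t x)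

namespace SB

variable {A A' : Type*} [AddCommGroup A] [AddCommGroup A']

/-- The mirror image of a split datum. -/
def symm (D : SB A A') : SB A' A where
  R a' a := D.R a a'
  hz h := (D.hz h).symm
  root := D.root.symm
  hroot a' := by
    have := D.hroot (D.root.symm a')
    rwa [Equiv.apply_symm_apply] at this
  sp t s := (D.sp s t).symm
  hsp t s h y := by
    have := D.hsp s t h ((D.sp s t).symm y)
    rwa [Equiv.apply_symm_apply] at this

/-- The state recursion along a branch `p`, for a sequence `s` of node sums. -/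
def st (D : SB A A') (s : ℕ → A) (p : ℕ → Bool) : ℕ → A'
  | 0 => D.root (s 0)
  | n + 1 => if p n = false then D.sp (s n) (D.st s p n) (s (n + 1))
      else D.st s p n - D.sp (s n) (D.st s p n) (s n - s (n + 1))

theorem st_zero (D : SB A A') (s : ℕ → A) (p : ℕ → Bool) : D.st s p 0 = D.root (s 0) := rfl

theorem st_succ_false (D : SB A A') (s : ℕ → A) {p : ℕ → Bool} {n : ℕ} (h : p n = false) :
    D.st s p (n + 1) = D.sp (s n) (D.st s p n) (s (n + 1)) := by
  simp [st, h]

theorem st_succ_true (D : SB A A') (s : ℕ → A) {p : ℕ → Bool} {n : ℕ} (h : p n = true) :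
    D.st s p (n + 1) = D.st s p n - D.sp (s n) (D.st s p n) (s n - s (n + 1)) := by
  simp [st, h]

theorem st_rel (D : SB A A') (s : ℕ → A) (p : ℕ → Bool) (n : ℕ) : D.R (s n) (D.st s p n) := by
  induction n with
  | zero => exact D.hroot _
  | succ n ih =>
    cases h : p n
    · rw [D.st_succ_false s h]
      exact (D.hsp _ _ ih _).1
    · rw [D.st_succ_true s h]
      have := (D.hsp _ _ ih (s n - s (n + 1))).2
      rwa [sub_sub_cancel] at this

theorem st_congr (D : SB A A') {s s' : ℕ → A} {p q : ℕ → Bool} {n : ℕ} (hp : Ag p q n)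
    (hs : ∀ k, k ≤ n → s k = s' k) : D.st s p n = D.st s' q n := by
  induction n with
  | zero => simp [st_zero, hs 0 le_rfl]
  | succ n ih =>
    have ih' := ih (hp.mono (Nat.le_succ n)) (fun k hk => hs k (hk.trans (Nat.le_succ n)))
    have h1 := hp n (Nat.lt_succ_self n)
    cases h : q n
    · rw [D.st_succ_false s (h1.trans h), D.st_succ_false s' h, ih', hs n (Nat.le_succ n),
        hs (n + 1) le_rfl]
    · rw [D.st_succ_true s (h1.trans h), D.st_succ_true s' h, ih', hs n (Nat.le_succ n),
        hs (n + 1) le_rfl]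

theorem st_symm (D : SB A A') (s : ℕ → A) (p : ℕ → Bool) (n : ℕ) :
    D.symm.st (D.st s p) p n = s n := by
  induction n with
  | zero => simp [st_zero, symm]
  | succ n ih =>
    cases h : p n
    · rw [D.symm.st_succ_false _ h, ih, D.st_succ_false s h]
      simp [symm]
    · rw [D.symm.st_succ_true _ h, ih, D.st_succ_true s h]
      simp [symm]

theorem symm_symm (D : SB A A') : D.symm.symm = D := rfl

section Map

variable {E : Type*} {rho : E → ℕ → Bool}

/-- The new node sum at `(p, n)`. -/
noncomputable def nt (D : SB A A') (rho : E → ℕ → Bool) (x : E →₀ A) (p : ℕ → Bool) (n : ℕ) : A' :=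
  D.st (ns rho x p) p n

theorem nt_congr (D : SB A A') {x : E →₀ A} {p q : ℕ → Bool} {n : ℕ} (h : Ag p q n) :
    D.nt rho x p n = D.nt rho x q n :=
  D.st_congr h (fun _ hk => ns_congr rho (h.mono hk))

theorem nt_rel (D : SB A A') (x : E →₀ A) (p : ℕ → Bool) (n : ℕ) :
    D.R (ns rho x p n) (D.nt rho x p n) := D.st_rel _ _ _

theorem nt_eq_zero (D : SB A A') {x : E →₀ A} {p : ℕ → Bool} {n : ℕ} (h : ns rho x p n = 0) :
    D.nt rho x p n = 0 := (D.hz (D.nt_rel x p n)).mp h

theorem nt_child (D : SB A A') (x : E →₀ A) (p : ℕ → Bool) (n : ℕ) :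
    D.nt rho x (chd p n false) (n + 1) + D.nt rho x (chd p n true) (n + 1) = D.nt rho x p n := by
  have h0 : D.nt rho x (chd p n false) n = D.nt rho x p n := D.nt_congr (ag_chd p n false)
  have h1 : D.nt rho x (chd p n true) n = D.nt rho x p n := D.nt_congr (ag_chd p n true)
  have e0 : D.nt rho x (chd p n false) (n + 1) =
      D.sp (ns rho x p n) (D.nt rho x p n) (ns rho x (chd p n false) (n + 1)) := by
    have := D.st_succ_false (ns rho x (chd p n false)) (chd_same p n false)
    rw [ns_congr rho (ag_chd p n false)] at this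
    unfold nt at h0 ⊢
    rw [this, h0]
  have e1 : D.nt rho x (chd p n true) (n + 1) = D.nt rho x p n -
      D.sp (ns rho x p n) (D.nt rho x p n) (ns rho x (chd p n false) (n + 1)) := by
    have := D.st_succ_true (ns rho x (chd p n true)) (chd_same p n true)
    rw [ns_congr rho (ag_chd p n true)] at this
    have h2 : ns rho x p n - ns rho x (chd p n true) (n + 1) = ns rho x (chd p n false) (n + 1) := by
      rw [← ns_child rho x p n]; abel
    unfold nt at h1 ⊢
    rw [this, h1, h2]
  rw [e0, e1]
  abel

/-- The value at `e`: the new node sum at a separating depth. -/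
noncomputable def toFun' (D : SB A A') (hrho : Function.Injective rho) (x : E →₀ A) : E →₀ A' := by
  classical
  exact Finsupp.onFinset x.support
    (fun e => if e ∈ x.support then D.nt rho x (rho e) (exists_sep hrho x.support).choose else 0)
    (by intro e he; by_contra h; simp [h] at he)

theorem toFun'_of_mem (D : SB A A') (hrho : Function.Injective rho) {x : E →₀ A} {e : E}
    (he : e ∈ x.support) :
    D.toFun' hrho x e = D.nt rho x (rho e) (exists_sep hrho x.support).choose := by
  classical
  unfold toFun'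
  rw [Finsupp.onFinset_apply]
  exact if_pos he

theorem support_toFun'_subset (D : SB A A') (hrho : Function.Injective rho) (x : E →₀ A) :
    (D.toFun' hrho x).support ⊆ x.support := by
  classical
  unfold toFun'
  exact Finsupp.support_onFinset_subset

theorem nt_stable (D : SB A A') {x : E →₀ A} {N : ℕ} (hN : Sep rho x.support N) {e : E}
    (he : e ∈ x.support) {n : ℕ} (hn : N ≤ n) : D.nt rho x (rho e) n = D.nt rho x (rho e) N := by
  induction n, hn using Nat.le_induction with
  | base => rfl
  | succ n hn ih =>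
    rw [← ih, ← D.nt_child x (rho e) n]
    cases h : rho e n
    · have h1 : chd (rho e) n false = rho e := by
        unfold chd; rw [← h]; exact Function.update_eq_self n (rho e)
      have h2 : D.nt rho x (chd (rho e) n true) (n + 1) = 0 := by
        refine D.nt_eq_zero (ns_of_none fun e' he' hA => ?_)
        rw [ag_chd_iff] at hA
        have := hN e' he' e he (hA.1.mono hn)
        rw [this, h] at hA
        exact absurd hA.2 (by simp)
      rw [h1, h2, add_zero]
    · have h1 : chd (rho e) n true = rho e := by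
        unfold chd; rw [← h]; exact Function.update_eq_self n (rho e)
      have h2 : D.nt rho x (chd (rho e) n false) (n + 1) = 0 := by
        refine D.nt_eq_zero (ns_of_none fun e' he' hA => ?_)
        rw [ag_chd_iff] at hA
        have := hN e' he' e he (hA.1.mono hn)
        rw [this, h] at hA
        exact absurd hA.2 (by simp)
      rw [h1, h2, zero_add]

/-- The node sums of the image are the new node sums. -/
theorem ns_toFun' (D : SB A A') (hrho : Function.Injective rho) (x : E →₀ A) (p : ℕ → Bool)
    (n : ℕ) : ns rho (D.toFun' hrho x) p n = D.nt rho x p n := by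
  classical
  have hN := (exists_sep hrho x.support).choose_spec
  set N := (exists_sep hrho x.support).choose with hNdef
  have big : ∀ n, N ≤ n → ∀ p, ns rho (D.toFun' hrho x) p n = D.nt rho x p n := by
    intro n hn p
    by_cases h : ∃ e ∈ x.support, Ag (rho e) p n
    · obtain ⟨e, he, hA⟩ := h
      rw [ns_of_sep (D.support_toFun'_subset hrho x) (hN.mono hn) he hA, D.toFun'_of_mem hrho he,
        ← hNdef, ← D.nt_stable hN he hn]
      exact D.nt_congr hA
    · push Not at h
      rw [D.nt_eq_zero (ns_of_none h),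
        ns_of_none fun e he => h e (D.support_toFun'_subset hrho x he)]
  have down : ∀ d n, N ≤ n + d → ∀ p, ns rho (D.toFun' hrho x) p n = D.nt rho x p n := by
    intro d
    induction d with
    | zero => intro n hn p; exact big n hn p
    | succ d ih =>
      intro n hn p
      rw [← ns_child rho _ p n, ← D.nt_child x p n, ih (n + 1) (by omega), ih (n + 1) (by omega)]
  exact down N n (by omega) p

/-- The bijection given by a split datum. -/
noncomputable def equiv (D : SB A A') (hrho : Function.Injective rho) : (E →₀ A) ≃ (E →₀ A') where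
  toFun := D.toFun' hrho
  invFun := D.symm.toFun' hrho
  left_inv x := by
    refine ns_inj hrho fun p n => ?_
    rw [ns_toFun']
    unfold nt
    have : ns rho (D.toFun' hrho x) p = D.st (ns rho x p) p := by
      funext k; exact D.ns_toFun' hrho x p k
    rw [this, st_symm]
  right_inv y := by
    refine ns_inj hrho fun p n => ?_
    rw [ns_toFun']
    unfold nt
    have : ns rho (D.symm.toFun' hrho y) p = D.symm.st (ns rho y p) p := by
      funext k; exact D.symm.ns_toFun' hrho y p k
    rw [this]
    exact D.symm.st_symm _ _ _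

theorem equiv_symm (D : SB A A') (hrho : Function.Injective rho) :
    (D.equiv hrho).symm = D.symm.equiv hrho := rfl

/-- The node sums of `x` and of its image are related. -/
theorem equiv_rel (D : SB A A') (hrho : Function.Injective rho) (x : E →₀ A) (p : ℕ → Bool)
    (n : ℕ) : D.R (ns rho x p n) (ns rho (D.equiv hrho x) p n) := by
  have : ns rho (D.equiv hrho x) p n = D.nt rho x p n := D.ns_toFun' hrho x p n
  rw [this]
  exact D.nt_rel x p n

/-- Locality: the node sum of the image depends only on the node sums on the way to the node. -/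
theorem equiv_local (D : SB A A') (hrho : Function.Injective rho) {x y : E →₀ A} {p : ℕ → Bool}
    {n : ℕ} (h : ∀ k, k ≤ n → ns rho x p k = ns rho y p k) :
    ns rho (D.equiv hrho x) p n = ns rho (D.equiv hrho y) p n := by
  have h1 : ns rho (D.equiv hrho x) p n = D.nt rho x p n := D.ns_toFun' hrho x p n
  have h2 : ns rho (D.equiv hrho y) p n = D.nt rho y p n := D.ns_toFun' hrho y p n
  rw [h1, h2]
  exact D.st_congr (Ag.refl _ _) h

theorem equiv_apply_eq_zero_iff (D : SB A A') (hrho : Function.Injective rho) (x : E →₀ A)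
    (e : E) : D.equiv hrho x e = 0 ↔ x e = 0 := by
  obtain ⟨N, hN⟩ := exists_ns_eq hrho x e
  obtain ⟨M, hM⟩ := exists_ns_eq hrho (D.equiv hrho x) e
  rw [← hN (max N M) (le_max_left _ _), ← hM (max N M) (le_max_right _ _)]
  exact (D.hz (D.equiv_rel hrho x _ _)).symm

theorem support_equiv (D : SB A A') (hrho : Function.Injective rho) (x : E →₀ A) :
    (D.equiv hrho x).support = x.support := by
  ext e
  rw [Finsupp.mem_support_iff, Finsupp.mem_support_iff, Ne, Ne, D.equiv_apply_eq_zero_iff hrho x e]

/-- If `x` and `y` have the same node sums along the branch of `e`, then the images have the same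
value at `e`. -/
theorem equiv_apply_eq (D : SB A A') (hrho : Function.Injective rho) {x y : E →₀ A} {e : E}
    (h : ∀ k, ns rho x (rho e) k = ns rho y (rho e) k) :
    D.equiv hrho x e = D.equiv hrho y e := by
  obtain ⟨N, hN⟩ := exists_ns_eq hrho (D.equiv hrho x) e
  obtain ⟨M, hM⟩ := exists_ns_eq hrho (D.equiv hrho y) e
  rw [← hN (max N M) (le_max_left _ _), ← hM (max N M) (le_max_right _ _)]
  exact D.equiv_local hrho (fun k _ => h k)

end Map

end SB

end M3.Bij
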