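import Mathlib
import Pool.Agent.H.MP_8ff4bd_gt.M3.BijRec

/-!
# Filtrations by finite subgroups and the split bijections (ground bijection, part 2)

Two groups `A`, `A'` with filtrations by finite subgroups which grow fast with respect to each
other.  Related pairs: both zero or both nonzero, and the levels differ by at most one.  For a related
pair `s, t` there is a bijection `g : A → A'` such that `x, g x` and `s - x, t - g x` are related.
-/

namespace M3.Bij

open Finset

/-- A filtration by finite subgroups. -/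
structure Filt (A : Type*) [AddCommGroup A] where
  L : ℕ → AddSubgroup A
  mono : Monotone L
  zero : L 0 = ⊥
  fin : ∀ n, (L n : Set A).Finite
  exh : ∀ x, ∃ n, x ∈ L n

namespace Filt

variable {A A' : Type*} [AddCommGroup A] [AddCommGroup A'] (F : Filt A) (F' : Filt A')

open Classical in
/-- The level of an element. -/
noncomputable def lev (x : A) : ℕ := Nat.find (F.exh x)

theorem mem_lev (x : A) : x ∈ F.L (F.lev x) := by
  classical
  exact Nat.find_spec (F.exh x)

theorem lev_le_iff {x : A} {n : ℕ} : F.lev x ≤ n ↔ x ∈ F.L n := by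
  classical
  constructor
  · intro h; exact F.mono h (F.mem_lev x)
  · intro h; exact Nat.find_min' (F.exh x) h

theorem lev_zero : F.lev 0 = 0 := by
  have := F.lev_le_iff (x := 0) (n := 0)
  have h : (0 : A) ∈ F.L 0 := (F.L 0).zero_mem
  exact Nat.le_zero.mp (this.mpr h)

theorem lev_eq_zero_iff {x : A} : F.lev x = 0 ↔ x = 0 := by
  constructor
  · intro h
    have := F.lev_le_iff.mp (le_of_eq h)
    rwa [F.zero, AddSubgroup.mem_bot] at this
  · rintro rfl; exact F.lev_zero

theorem lev_sub_le (x y : A) : F.lev (x - y) ≤ max (F.lev x) (F.lev y) := by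
  rw [F.lev_le_iff]
  exact (F.L _).sub_mem (F.mono (le_max_left _ _) (F.mem_lev x))
    (F.mono (le_max_right _ _) (F.mem_lev y))

theorem lev_le_of_sub (x y : A) : F.lev x ≤ max (F.lev y) (F.lev (x - y)) := by
  rw [F.lev_le_iff]
  have := (F.L (max (F.lev y) (F.lev (x - y)))).add_mem (F.mono (le_max_left _ _) (F.mem_lev y))
    (F.mono (le_max_right _ _) (F.mem_lev (x - y)))
  simpa using this

/-- The finite set of elements of level at most `n`. -/
noncomputable def fs (n : ℕ) : Finset A := (F.fin n).toFinset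

theorem mem_fs {n : ℕ} {x : A} : x ∈ F.fs n ↔ x ∈ F.L n := by
  unfold fs; rw [Set.Finite.mem_toFinset]; rfl

/-- Related pairs. -/
def RR (s : A) (t : A') : Prop :=
  (s = 0 ↔ t = 0) ∧ F.lev s ≤ F'.lev t + 1 ∧ F'.lev t ≤ F.lev s + 1

theorem RR.symm {F : Filt A} {F' : Filt A'} {s : A} {t : A'} (h : F.RR F' s t) : F'.RR F t s :=
  ⟨h.1.symm, h.2.2, h.2.1⟩

/-- Growth condition of `F'` over `F`. -/
def Grow : Prop := ∀ n, 2 * (F.fs n).card + 2 * (F'.fs n).card ≤ (F'.fs (n + 1)).card

theorem key {F : Filt A} {F' : Filt A'} {s x : A} {t y : A'} (h : F.RR F' s t) (hx : x ≠ 0)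
    (hx' : s - x ≠ 0) (hm : F.lev x ≤ F.lev (s - x)) (hy : y ∈ F'.L (F.lev x + 1))
    (hy' : y ∉ F'.L (F.lev x)) (hy'' : t - y ∉ F'.L (F.lev x)) :
    F.RR F' x y ∧ F.RR F' (s - x) (t - y) := by
  obtain ⟨_, hk1, hk2⟩ := h
  have h1 : F'.lev y ≤ F.lev x + 1 := F'.lev_le_iff.mpr hy
  have h2 : ¬ F'.lev y ≤ F.lev x := fun h => hy' (F'.lev_le_iff.mp h)
  have h3 : ¬ F'.lev (t - y) ≤ F.lev x := fun h => hy'' (F'.lev_le_iff.mp h)
  have h4 := F.lev_sub_le s x
  have h5 := F.lev_le_of_sub s x
  have h6 := F'.lev_sub_le t y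
  have h7 := F'.lev_le_of_sub t y
  have hy0 : y ≠ 0 := fun h => hy' (h ▸ (F'.L _).zero_mem)
  have hty0 : t - y ≠ 0 := fun h => hy'' (h ▸ (F'.L _).zero_mem)
  refine ⟨⟨⟨fun h => absurd h hx, fun h => absurd h hy0⟩, by omega, by omega⟩,
    ⟨⟨fun h => absurd h hx', fun h => absurd h hty0⟩, by omega, by omega⟩⟩

open Classical in
/-- The set of admissible values for one `x` is large. -/
theorem card_good {F : Filt A} {F' : Filt A'} (hG : F.Grow F') (n : ℕ) (t : A') :
    2 * (F.fs n).card ≤
      ((F'.fs (n + 1)).filter (fun y => y ∉ F'.L n ∧ t - y ∉ F'.L n)).card := by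
  have h1 := hG n
  have h2 : F'.fs (n + 1) ⊆
      ((F'.fs (n + 1)).filter (fun y => y ∉ F'.L n ∧ t - y ∉ F'.L n)) ∪
        ((F'.fs n) ∪ (F'.fs n).image (fun z => t - z)) := by
    intro y hy
    rw [Finset.mem_union, Finset.mem_filter, Finset.mem_union, Finset.mem_image]
    by_cases ha : y ∈ F'.L n
    · exact Or.inr (Or.inl (F'.mem_fs.mpr ha))
    · by_cases hb : t - y ∈ F'.L n
      · exact Or.inr (Or.inr ⟨t - y, F'.mem_fs.mpr hb, by abel⟩)
      · exact Or.inl ⟨hy, ha, hb⟩
  have h3 := (Finset.card_le_card h2).trans (Finset.card_union_le _ _)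
  have h4 := Finset.card_union_le (F'.fs n) ((F'.fs n).image (fun z => t - z))
  have h5 := Finset.card_image_le (s := F'.fs n) (f := fun z => t - z)
  omega

open Classical in
/-- Forward injection. -/
theorem exists_inj {F : Filt A} {F' : Filt A'} (hG : F.Grow F') {s : A} {t : A'}
    (h : F.RR F' s t) :
    ∃ g : A → A', Function.Injective g ∧ ∀ x, F.RR F' x (g x) ∧ F.RR F' (s - x) (t - g x) := by
  set N : A → Finset A' := fun x => (F'.fs (F.lev x + 1)).filter
    (fun y => F.RR F' x y ∧ F.RR F' (s - x) (t - y)) with hN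
  have mem_N : ∀ {x y}, y ∈ N x ↔ F.RR F' x y ∧ F.RR F' (s - x) (t - y) := by
    intro x y
    rw [hN]
    simp only [Finset.mem_filter, mem_fs]
    constructor
    · exact fun h => h.2
    · exact fun h => ⟨F'.lev_le_iff.mp h.1.2.2, h⟩
  have rr0 : F.RR F' 0 0 := ⟨by simp, by simp [lev_zero], by simp [lev_zero]⟩
  have hall : ∀ X : Finset A, X.card ≤ (X.biUnion N).card := by
    intro X
    by_cases hX : ∃ x ∈ X, x ≠ 0 ∧ s - x ≠ 0
    · obtain ⟨x0, hx0, hx01, hx02⟩ := hX
      obtain ⟨x, hx, hmax⟩ := Finset.exists_max_image X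
        (fun x => min (F.lev x) (F.lev (s - x))) ⟨x0, hx0⟩
      have hpos : min (F.lev x) (F.lev (s - x)) ≠ 0 := by
        have h1 := hmax x0 hx0
        have h2 : F.lev x0 ≠ 0 := fun h => hx01 (F.lev_eq_zero_iff.mp h)
        have h3 : F.lev (s - x0) ≠ 0 := fun h => hx02 (F.lev_eq_zero_iff.mp h)
        omega
      have hx1 : x ≠ 0 := by
        rintro rfl; rw [F.lev_zero] at hpos; simp at hpos
      have hx2 : s - x ≠ 0 := by
        intro h0; rw [h0, F.lev_zero] at hpos; simp at hpos
      set m := min (F.lev x) (F.lev (s - x)) with hm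
      have hcard : X.card ≤ 2 * (F.fs m).card := by
        have hsub : X ⊆ F.fs m ∪ (F.fs m).image (fun z => s - z) := by
          intro z hz
          have h1 := hmax z hz
          rw [Finset.mem_union, Finset.mem_image]
          rcases min_le_iff.mp h1 with h2 | h2
          · exact Or.inl (F.mem_fs.mpr (F.lev_le_iff.mp h2))
          · exact Or.inr ⟨s - z, F.mem_fs.mpr (F.lev_le_iff.mp h2), by abel⟩
        have h3 := (Finset.card_le_card hsub).trans (Finset.card_union_le _ _)
        have h5 := Finset.card_image_le (s := F.fs m) (f := fun z => s - z)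
        omega
      have hgood := card_good hG m t
      refine (hcard.trans hgood).trans ?_
      rcases le_total (F.lev x) (F.lev (s - x)) with hle | hle
      · have hmx : m = F.lev x := by rw [hm]; exact min_eq_left hle
        refine Finset.card_le_card fun y hy => ?_
        rw [Finset.mem_filter, mem_fs] at hy
        refine Finset.mem_biUnion.mpr ⟨x, hx, mem_N.mpr ?_⟩
        rw [hmx] at hy
        exact key h hx1 hx2 hle hy.1 hy.2.1 hy.2.2
      · have hmx : m = F.lev (s - x) := by rw [hm]; exact min_eq_right hle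
        refine (Finset.card_le_card_of_injOn (fun y => t - y) ?_ ?_)
        · intro y hy
          rw [Finset.mem_coe, Finset.mem_filter, mem_fs] at hy
          refine Finset.mem_coe.mpr (Finset.mem_biUnion.mpr ⟨x, hx, mem_N.mpr ?_⟩)
          rw [hmx] at hy
          have hsx : s - (s - x) = x := by abel
          have := key (F := F) (F' := F') (x := s - x) (y := y) h hx2 (by rwa [hsx])
            (by rwa [hsx]) hy.1 hy.2.1 hy.2.2
          rw [hsx] at this
          have hty : t - (t - y) = y := by abel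
          refine ⟨this.2, ?_⟩
          rw [hty]
          exact this.1
        · intro y _ y' _ hyy
          simpa using hyy
    · push Not at hX
      have hX' : ∀ x ∈ X, x = 0 ∨ x = s := by
        intro x hx
        by_cases h0 : x = 0
        · exact Or.inl h0
        · exact Or.inr (sub_eq_zero.mp (hX x hx h0)).symm
      refine Finset.card_le_card_of_injOn (fun x => if x = 0 then 0 else t) ?_ ?_
      · intro x hx
        rw [Finset.mem_coe] at hx ⊢
        refine Finset.mem_biUnion.mpr ⟨x, hx, mem_N.mpr ?_⟩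
        by_cases h0 : x = 0
        · subst h0
          simp only [if_true, sub_zero]
          exact ⟨rr0, h⟩
        · have hxs : x = s := (hX' x hx).resolve_left h0
          simp only [if_neg h0]
          rw [hxs]
          simp only [sub_self]
          exact ⟨h, rr0⟩
      · intro x hx y hy hxy
        rw [Finset.mem_coe] at hx hy
        simp only at hxy
        by_cases h0 : x = 0 <;> by_cases h1 : y = 0
        · rw [h0, h1]
        · rw [if_pos h0, if_neg h1] at hxy
          have hys := (hX' y hy).resolve_left h1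
          exact absurd (h.1.mpr hxy.symm) (hys ▸ h1)
        · rw [if_neg h0, if_pos h1] at hxy
          have hxs := (hX' x hx).resolve_left h0
          exact absurd (h.1.mpr hxy) (hxs ▸ h0)
        · rw [(hX' x hx).resolve_left h0, (hX' y hy).resolve_left h1]
  obtain ⟨g, hg, hgN⟩ := (Finset.all_card_le_biUnion_card_iff_exists_injective N).mp hall
  exact ⟨g, hg, fun x => mem_N.mp (hgN x)⟩

theorem exists_bij {F : Filt A} {F' : Filt A'} (hG : F.Grow F') (hG' : F'.Grow F) {s : A} {t : A'}
    (h : F.RR F' s t) :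
    ∃ g : A ≃ A', ∀ x, F.RR F' x (g x) ∧ F.RR F' (s - x) (t - g x) := by
  obtain ⟨g1, hg1, hr1⟩ := exists_inj hG h
  obtain ⟨g2, hg2, hr2⟩ := exists_inj hG' h.symm
  obtain ⟨g, hg, hr⟩ := Function.Embedding.schroeder_bernstein_of_rel hg1 hg2
    (fun x y => F.RR F' x y ∧ F.RR F' (s - x) (t - y)) hr1
    (fun y => ⟨(hr2 y).1.symm, (hr2 y).2.symm⟩)
  exact ⟨Equiv.ofBijective g hg, hr⟩

open Classical in
/-- The split datum of two filtrations growing fast over each other. -/
noncomputable def sb (F : Filt A) (F' : Filt A') (hG : F.Grow F') (hG' : F'.Grow F) : SB A A' where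
  R := F.RR F'
  hz h := h.1
  root := (exists_bij hG hG' (s := 0) (t := 0)
    ⟨by simp, by simp [lev_zero], by simp [lev_zero]⟩).choose
  hroot a := ((exists_bij hG hG' (s := 0) (t := 0)
    ⟨by simp, by simp [lev_zero], by simp [lev_zero]⟩).choose_spec a).1
  sp s t := if h : F.RR F' s t then (exists_bij hG hG' h).choose else
    (exists_bij hG hG' (s := 0) (t := 0)
    ⟨by simp, by simp [lev_zero], by simp [lev_zero]⟩).choose
  hsp s t h x := by
    simp only [dif_pos h]
    exact (exists_bij hG hG' h).choose_spec x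

theorem sb_R (F : Filt A) (F' : Filt A') (hG : F.Grow F') (hG' : F'.Grow F) :
    (sb F F' hG hG').R = F.RR F' := rfl

end Filt

end M3.Bij
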