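import Mathlib
import Pool.Agent.H.MP_8ff4bd_gt.M3.BijFilt

/-!
# The concrete filtrations of `ℕ →₀ ZMod 2` and `ℕ →₀ ZMod 3` (ground bijection, part 3)
-/

namespace M3.Bij

open Finset

/-- The cut levels: `a 0 = 0`, `a (n+1) = 2 * a n + 2`. -/
def cut : ℕ → ℕ
  | 0 => 0
  | n + 1 => 2 * cut n + 2

theorem cut_mono : Monotone cut := monotone_nat_of_le_succ fun n => by simp only [cut]; omega

theorem le_cut (n : ℕ) : n ≤ cut n := by
  induction n with
  | zero => exact Nat.zero_le _
  | succ n ih => simp only [cut]; omega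

/-- The filtration of `ℕ →₀ M` by the elements supported below `cut n`. -/
noncomputable def cutFilt (M : Type*) [AddCommGroup M] [Finite M] : Filt (ℕ →₀ M) where
  L n := (Finsupp.supported M ℤ {i : ℕ | i < cut n}).toAddSubgroup
  mono := by
    intro m n h x hx
    exact Finsupp.supported_mono (M := M) (R := ℤ) (fun i hi => lt_of_lt_of_le hi (cut_mono h)) hx
  zero := by
    have h : {i : ℕ | i < cut 0} = ∅ := by ext i; simp [cut]
    rw [h, Finsupp.supported_empty]
    rfl
  fin n := by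
    have h : Finite (Finsupp.supported M ℤ {i : ℕ | i < cut n}) := by
      have hf : Finite {i : ℕ | i < cut n} := (Set.finite_lt_nat (cut n)).to_subtype
      exact Finite.of_equiv _
        ((Finsupp.supportedEquivFinsupp (M := M) (R := ℤ) {i : ℕ | i < cut n}).toEquiv.trans
          Finsupp.equivFunOnFinite).symm
    exact Set.toFinite _
  exh x := by
    refine ⟨x.support.sup id + 1, ?_⟩
    change x ∈ Finsupp.supported M ℤ {i : ℕ | i < cut (x.support.sup id + 1)}
    rw [Finsupp.mem_supported]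
    intro i hi
    have h1 : i ≤ x.support.sup id := Finset.le_sup (f := id) (Finset.mem_coe.mp hi)
    have h2 := le_cut (x.support.sup id + 1)
    change i < cut _
    omega

theorem card_cutFilt (M : Type*) [AddCommGroup M] [Finite M] (n : ℕ) :
    ((cutFilt M).fs n).card = Nat.card M ^ cut n := by
  have hf : Finite {i : ℕ | i < cut n} := (Set.finite_lt_nat (cut n)).to_subtype
  have e1 : ((cutFilt M).L n : Set (ℕ →₀ M)) ≃ ({i : ℕ | i < cut n} → M) :=
    (Finsupp.supportedEquivFinsupp (M := M) (R := ℤ) {i : ℕ | i < cut n}).toEquiv.trans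
          Finsupp.equivFunOnFinite
  have h1 : Nat.card ((cutFilt M).L n : Set (ℕ →₀ M)) = Nat.card M ^ cut n := by
    rw [Nat.card_congr e1, Nat.card_fun]
    congr 1
    simp
  rw [← h1, Filt.fs, Nat.card_coe_set_eq, Set.ncard_eq_toFinset_card _ ((cutFilt M).fin n)]

theorem grow23 : (cutFilt (ZMod 2)).Grow (cutFilt (ZMod 3)) := by
  intro n
  rw [card_cutFilt, card_cutFilt, card_cutFilt]
  simp only [Nat.card_zmod, cut]
  have h1 : 2 ^ cut n ≤ 3 ^ cut n := Nat.pow_le_pow_left (by norm_num) _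
  have h2 : 1 ≤ 3 ^ cut n := Nat.one_le_pow _ _ (by norm_num)
  have h3 : 3 ^ (2 * cut n + 2) = 3 ^ cut n * 3 ^ cut n * 9 := by ring
  rw [h3]
  nlinarith

theorem grow32 : (cutFilt (ZMod 3)).Grow (cutFilt (ZMod 2)) := by
  intro n
  rw [card_cutFilt, card_cutFilt, card_cutFilt]
  simp only [Nat.card_zmod, cut]
  have h1 : 2 ^ cut n ≤ 4 ^ cut n := Nat.pow_le_pow_left (by norm_num) _
  have h2 : 3 ^ cut n ≤ 4 ^ cut n := Nat.pow_le_pow_left (by norm_num) _
  have h3 : 2 ^ (2 * cut n + 2) = 4 ^ cut n * 4 := by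
    rw [pow_add, pow_mul]; norm_num
  rw [h3]
  omega

/-- The split datum for `ℕ →₀ ZMod 2` and `ℕ →₀ ZMod 3`. -/
noncomputable def sb23 : SB (ℕ →₀ ZMod 2) (ℕ →₀ ZMod 3) :=
  Filt.sb (cutFilt (ZMod 2)) (cutFilt (ZMod 3)) grow23 grow32

end M3.Bij
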