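import Pool.Agent.H.MP_8ff4bd_gt.M3.KN

/-!
# Every subgroup of countable index contains a node subgroup
-/

namespace M3

variable {B : Type} [CompleteBooleanAlgebra B] {W : Type} (rho : W → ℕ → Bool)

theorem exists_level {b : ℕ → ℕ} (hb : Lev b) (j : ℕ) : ∃ m, b m ≤ j ∧ j < b (m + 1) := by
  classical
  have h1 := Nat.find_spec (hb.unb j)
  have h2 : Nat.find (hb.unb j) ≠ 0 := by
    intro h0
    rw [h0, hb.zero] at h1
    omega
  obtain ⟨m, hm⟩ := Nat.exists_eq_succ_of_ne_zero h2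
  refine ⟨m, ?_, ?_⟩
  · by_contra hc
    have h3 := Nat.find_min (hb.unb j) (m := m) (by omega)
    omega
  · rw [hm] at h1; exact h1

/-- the colour of the point `x` at level `m`: the list of the colours of its coordinates -/
def lcol (b : ℕ → ℕ) (m : ℕ) (x : W) (u : W × ℕ → ℕ) : ℕ :=
  Encodable.encode ((List.range (b (m + 1))).map (fun j => u (x, j)))

theorem lcol_inj (b : ℕ → ℕ) (m : ℕ) (x y : W) (u : W × ℕ → ℕ)
    (h : lcol b m x u = lcol b m y u) : ∀ j < b (m + 1), u (x, j) = u (y, j) := by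
  intro j hj
  have h1 := Encodable.encode_injective h
  have h2 := List.map_inj_left.mp h1 j (List.mem_range.mpr hj)
  exact h2

theorem KN_le_lam {q : ℕ} [NeZero q] {b : ℕ → ℕ} (hb : Lev b) (hN : NodeRef B W rho)
    (lam : (W →₀ (ℕ →₀ ZMod q)) → B) (r : (W →₀ (ℕ →₀ ZMod q)) → ℕ → B) :
    ∃ R : ℕ → List Bool → B, (∀ m, R m [] = ⊤) ∧
      (∀ m x, ⨆ k, ⨅ j, ⨅ (_ : k < j), (R m (pre rho x j))ᶜ = ⊤) ∧
      ∀ h, bSub lam ⊓ Wit lam r ⊓ KN rho b R h ≤ lam h := by
  classical
  obtain ⟨c, hc, hc2⟩ := exists_colour (fun h : (W × ℕ →₀ ZMod q) => lam (Finsupp.curry h))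
    (fun h => r (Finsupp.curry h))
  have hadd : ∀ x y : (W × ℕ →₀ ZMod q), Finsupp.curry (x + y) =
      Finsupp.curry x + Finsupp.curry y := by
    intro x y; ext a b; simp [Finsupp.curry_apply]
  have hsub : ∀ x y : (W × ℕ →₀ ZMod q), Finsupp.curry (x - y) =
      Finsupp.curry x - Finsupp.curry y := by
    intro x y; ext a b; simp [Finsupp.curry_apply]
  have hzero : Finsupp.curry (0 : (W × ℕ →₀ ZMod q)) = 0 := by
    ext a b; simp [Finsupp.curry_apply]
  have hT1 : bSub lam ≤ bSub (fun h : (W × ℕ →₀ ZMod q) => lam (Finsupp.curry h)) := by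
    refine le_inf ?_ ?_
    · show bSub lam ≤ lam (Finsupp.curry 0)
      rw [hzero]; exact inf_le_left
    · refine le_iInf fun x => le_iInf fun y => ?_
      show bSub lam ≤ (lam (Finsupp.curry x) ⊓ lam (Finsupp.curry y)) ⇨ lam (Finsupp.curry (x + y))
      rw [hadd]
      exact inf_le_right.trans ((iInf_le _ _).trans (iInf_le _ _))
  have hT2 : Wit lam r ≤ Wit (fun h : (W × ℕ →₀ ZMod q) => lam (Finsupp.curry h))
      (fun h => r (Finsupp.curry h)) := by
    refine le_inf ?_ ?_
    · exact le_iInf fun x => inf_le_left.trans (iInf_le _ _)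
    · refine le_iInf fun x => le_iInf fun y => ?_
      show Wit lam r ≤ ⨅ n, (r (Finsupp.curry x) n ⊓ r (Finsupp.curry y) n) ⇨
        lam (Finsupp.curry (x - y))
      rw [hsub]
      exact inf_le_right.trans ((iInf_le _ _).trans (iInf_le _ _))
  -- the colourings of `W`
  set Qm : ℕ → W → Finset (W × ℕ) := fun m x =>
    (Finset.range (b (m + 1))).image (fun j => (x, j)) with hQm
  have hdep : ∀ m x, DepOn (Qm m x) (lcol b m x) := by
    intro m x u u' huu
    unfold lcol
    congr 1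
    refine List.map_congr_left fun j hj => ?_
    rw [List.mem_range] at hj
    exact huu (x, j) (Finset.mem_image.mpr ⟨j, Finset.mem_range.mpr hj, rfl⟩)
  have hR : ∀ m, ∃ R : List Bool → B, R [] = ⊤ ∧
      (∀ x, ⨆ k, ⨅ j, ⨅ (_ : k < j), (R (pre rho x j))ᶜ = ⊤) ∧
      (∀ x y k n, pre rho x k = pre rho y k → Last rho R x k ⊓ Last rho R y k ⊓
        EE c (Qm m x) (lcol b m x) n ≤ EE c (Qm m y) (lcol b m y) n) := by
    intro m
    exact hN (fun x n => EE c (Qm m x) (lcol b m x) n) (fun x => EE_tot hc _ _)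
      (fun x n n' hne => EE_dis hc (hdep m x) hne)
  choose R hR0 hR1 hR2 using hR
  refine ⟨R, hR0, hR1, fun h => ?_⟩
  have hpf := last_pf rho R hR0 hR1
  set S := h.support with hS
  set M := (Finsupp.uncurry h).support.sup (fun w => lv hb w.2) with hM
  have hlev : ∀ x j, h x j ≠ 0 → j < b (M + 1) := by
    intro x j hx
    have h1 : lv hb j ≤ M :=
      Finset.le_sup (f := fun w : W × ℕ => lv hb w.2) (b := (x, j))
        ((mem_support_uncurry h (x, j)).mpr hx)
    exact (lv_spec hb j).trans_le (hb.mono (by omega))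
  set Qc : Finset (W × ℕ) := S ×ˢ Finset.range (b (M + 1)) with hQc
  set Q2 : Finset (ℕ × W) := Finset.range (M + 1) ×ˢ S with hQ2
  refine le_of_cover' hc Qc fun u _ => ?_
  refine le_of_cover' hpf Q2 fun k hne => ?_
  set D := bSub lam ⊓ Wit lam r ⊓ KN rho b R h ⊓ DD c Qc u ⊓
    DD (fun (ix : ℕ × W) k => Last rho (R ix.1) ix.2 k) Q2 k with hD
  have hD1 : D ≤ DD c Qc u := inf_le_left.trans inf_le_right
  have hD2 : D ≤ DD (fun (ix : ℕ × W) k => Last rho (R ix.1) ix.2 k) Q2 k := inf_le_right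
  have hD3 : D ≤ KN rho b R h := (inf_le_left.trans inf_le_left).trans inf_le_right
  have hD4 : D ≤ bSub lam ⊓ Wit lam r := (inf_le_left.trans inf_le_left).trans inf_le_left
  have hne' : ∀ {e : B}, D ≤ e → e ≠ ⊥ := fun {e} he h0 => hne (le_bot_iff.mp (he.trans h0.le))
  have hlast : ∀ m ≤ M, ∀ x ∈ S, D ≤ Last rho (R m) x (k (m, x)) := by
    intro m hm x hx
    exact hD2.trans (DD_le (a := (m, x)) (Finset.mem_product.mpr
      ⟨Finset.mem_range.mpr (by omega), hx⟩))
  have F1 : ∀ m ≤ M, ∀ x ∈ S, ∀ y ∈ S, pre rho x (k (m, x)) = pre rho y (k (m, y)) →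
      ∀ j < b (m + 1), u (x, j) = u (y, j) := by
    intro m hm x hx y hy hxy
    have hk : k (m, x) = k (m, y) := by
      have := congrArg List.length hxy
      rwa [pre_length, pre_length] at this
    have hsub' : ∀ x ∈ S, Qm m x ⊆ Qc := by
      intro x hx w hw
      obtain ⟨j, hj, rfl⟩ := Finset.mem_image.mp hw
      rw [Finset.mem_range] at hj
      exact Finset.mem_product.mpr ⟨hx, Finset.mem_range.mpr
        (hj.trans_le (hb.mono (by omega)))⟩
    have e1 : D ≤ EE c (Qm m x) (lcol b m x) (lcol b m x u) :=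
      hD1.trans (DD_le_EE (hsub' x hx) _ u)
    have e2 : D ≤ EE c (Qm m y) (lcol b m y) (lcol b m x u) := by
      have hxy' : pre rho x (k (m, x)) = pre rho y (k (m, x)) := by rw [hxy, hk]
      refine le_trans (le_inf (le_inf (hlast m hm x hx) ?_) e1) (hR2 m x y (k (m, x)) _ hxy')
      rw [hk]; exact hlast m hm y hy
    have e3 : lcol b m y u = lcol b m x u :=
      EE_inf_DD hc (hsub' y hy) (hdep m y) (hne' (le_inf e2 hD1))
    intro j hj
    exact (lcol_inj b m y x u e3 j hj).symm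
  have F2 : ∀ m ≤ M, ∀ x ∈ S, ∀ y ∈ S, pre rho x (k (m, y)) = pre rho y (k (m, y)) →
      k (m, y) ≤ k (m, x) := by
    intro m hm x hx y hy hxy
    refine Last_inf rho (R m) x _ _ (hne' (le_inf (hlast m hm x hx) ?_))
    rw [hxy]
    exact (hlast m hm y hy).trans (Last_le rho _ _ _)
  have F3 : ∀ m ≤ M, ∀ y ∈ S, ∀ j, b m ≤ j →
      ∑ x ∈ S.filter (fun x => pre rho x (k (m, y)) = pre rho y (k (m, y))), h x j = 0 := by
    intro m hm y hy j hj
    have e1 : D ≤ pr B (nsum rho h (pre rho y (k (m, y))) ∈ CL b m) :=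
      (le_inf hD3 ((hlast m hm y hy).trans (Last_le rho _ _ _))).trans (KN_le rho b R h m _)
    have e2 : nsum rho h (pre rho y (k (m, y))) ∈ CL b m := by
      by_contra hc'
      exact hne' e1 (pr_false hc')
    have e3 := e2 j hj
    rw [nsum, Finsupp.finsetSum_apply, pre_length] at e3
    rw [← e3]
  have F4 : ∀ m ≤ M, ∀ y ∈ S, ∀ j, b m ≤ j →
      ∑ x ∈ S.filter (fun x => pre rho x (k (m, x)) = pre rho y (k (m, y))), h x j = 0 := by
    intro m hm y hy j hj
    exact last_sum_eq_zero rho S (fun x => k (m, x)) (fun x => h x j)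
      (fun x hx y hy => F2 m hm x hx y hy) (fun y hy => F3 m hm y hy j hj) y hy
  -- the element is balanced
  have hsupp : (Finsupp.uncurry h).support ⊆ Qc := by
    intro w hw
    rw [mem_support_uncurry] at hw
    refine Finset.mem_product.mpr ⟨?_, Finset.mem_range.mpr (hlev _ _ hw)⟩
    rw [hS, Finsupp.mem_support_iff]
    intro h0; rw [h0] at hw; exact hw rfl
  have hbal : Finsupp.mapDomain u (Finsupp.uncurry h) = 0 := by
    rw [mapDomain_eq_zero_iff u _ Qc hsupp]
    intro n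
    have e1 : ∑ w ∈ Qc.filter (fun w => u w = n), Finsupp.uncurry h w =
        ∑ j ∈ Finset.range (b (M + 1)), ∑ x ∈ S.filter (fun x => u (x, j) = n), h x j := by
      rw [Finset.sum_filter, hQc, Finset.sum_product_right]
      refine Finset.sum_congr rfl fun j _ => ?_
      rw [Finset.sum_filter]
      rfl
    rw [e1]
    refine Finset.sum_eq_zero fun j hj => ?_
    rw [Finset.mem_range] at hj
    obtain ⟨m, hm1, hm2⟩ := exists_level hb j
    have hmM : m ≤ M := by
      by_contra hc'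
      have := hb.mono (by omega : M + 1 ≤ m)
      omega
    refine sum_eq_zero_of_fibers _ (fun x => pre rho x (k (m, x))) _ fun y hy => ?_
    rw [Finset.mem_filter] at hy
    rw [← F4 m hmM y hy.1 j hm1]
    refine Finset.sum_congr ?_ fun _ _ => rfl
    ext x
    rw [Finset.mem_filter, Finset.mem_filter, Finset.mem_filter]
    constructor
    · rintro ⟨⟨hx, _⟩, hxy⟩; exact ⟨hx, hxy⟩
    · rintro ⟨hx, hxy⟩
      refine ⟨⟨hx, ?_⟩, hxy⟩
      rw [F1 m hmM x hx y hy.1 hxy j hm2]; exact hy.2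
  have := hc2 Qc u (Finsupp.uncurry h) hsupp hbal
  have e5 : D ≤ lam (Finsupp.curry (Finsupp.uncurry h)) := by
    refine le_trans (le_inf (le_inf ?_ ?_) hD1) this
    · exact hD4.trans (inf_le_left.trans hT1)
    · exact hD4.trans (inf_le_right.trans hT2)
  rwa [Finsupp.curry_uncurry] at e5

end M3
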