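import Mathlib

/-!
# Boolean-valued sets: core

Names over a complete Boolean algebra, Boolean values of equality and membership,
congruence, bounded quantifiers, mixing and the maximum principle.
-/

universe u v

namespace M3

/-- Boolean-valued sets (names) over `B`. -/
inductive BSet (B : Type u) : Type (u + 1)
  | mk (A : Type u) (e : A → BSet B) (b : A → B) : BSet B

namespace BSet

variable {B : Type u}

/-- The index type of a name. -/
def Idx : BSet B → Type u
  | mk A _ _ => A

/-- The elements of a name. -/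
def elt : (x : BSet B) → x.Idx → BSet B
  | mk _ e _ => e

/-- The Boolean values attached to the elements of a name. -/
def bv : (x : BSet B) → x.Idx → B
  | mk _ _ b => b

@[simp] theorem Idx_mk (A : Type u) (e : A → BSet B) (b : A → B) : (mk A e b).Idx = A := rfl
@[simp] theorem elt_mk (A : Type u) (e : A → BSet B) (b : A → B) (a : A) :
    (mk A e b).elt a = e a := rfl
@[simp] theorem bv_mk (A : Type u) (e : A → BSet B) (b : A → B) (a : A) :
    (mk A e b).bv a = b a := rfl

theorem mk_eta (x : BSet B) : mk x.Idx x.elt x.bv = x := by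
  cases x; rfl

/-- Induction on names in terms of the projections. -/
theorem induct {P : BSet B → Prop} (h : ∀ x, (∀ a, P (x.elt a)) → P x) (x : BSet B) : P x := by
  induction x with
  | mk A e b ih => exact h _ ih

variable [CompleteBooleanAlgebra B]

/-- The Boolean value of equality. -/
def beq : BSet B → BSet B → B
  | mk _ e b, mk _ e' b' =>
    (⨅ a, b a ⇨ ⨆ a', b' a' ⊓ beq (e a) (e' a')) ⊓
      (⨅ a', b' a' ⇨ ⨆ a, b a ⊓ beq (e a) (e' a'))

/-- The Boolean value of membership. -/
def bmem (x y : BSet B) : B := ⨆ a, y.bv a ⊓ beq x (y.elt a)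

/-- The Boolean value of inclusion. -/
def bsub (x y : BSet B) : B := ⨅ a, x.bv a ⇨ bmem (x.elt a) y

theorem beq_def' (x y : BSet B) : beq x y =
    (⨅ a, x.bv a ⇨ ⨆ a', y.bv a' ⊓ beq (x.elt a) (y.elt a')) ⊓
      (⨅ a', y.bv a' ⇨ ⨆ a, x.bv a ⊓ beq (x.elt a) (y.elt a')) := by
  cases x; cases y; rw [beq]; rfl

theorem beq_symm (x y : BSet B) : beq x y = beq y x := by
  induction x using induct generalizing y with
  | h x ih =>
    rw [beq_def' x y, beq_def' y x, inf_comm]
    simp only [ih]

theorem beq_symm' {x y : BSet B} {c : B} (h1 : c ≤ beq x y) : c ≤ beq y x := by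
  rwa [beq_symm]

theorem beq_def (x y : BSet B) : beq x y = bsub x y ⊓ bsub y x := by
  rw [beq_def']
  unfold bsub bmem
  congr 1
  simp only [beq_symm]

theorem beq_le_bsub (x y : BSet B) : beq x y ≤ bsub x y := by
  rw [beq_def]; exact inf_le_left

theorem beq_le_bsub' (x y : BSet B) : beq x y ≤ bsub y x := by
  rw [beq_def]; exact inf_le_right

@[simp] theorem beq_refl (x : BSet B) : beq x x = ⊤ := by
  induction x using induct with
  | h x ih =>
    rw [beq_def]
    have : bsub x x = ⊤ := by
      unfold bsub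
      rw [iInf_eq_top]
      intro a
      rw [himp_eq_top_iff]
      unfold bmem
      refine le_iSup_of_le a ?_
      rw [ih a]; simp
    rw [this]; simp

/-- Each element belongs with at least its value. -/
theorem bv_le_bmem (x : BSet B) (a : x.Idx) : x.bv a ≤ bmem (x.elt a) x := by
  unfold bmem
  refine le_iSup_of_le a ?_
  simp

theorem bsub_inf_bv_le (x y : BSet B) (a : x.Idx) : bsub x y ⊓ x.bv a ≤ bmem (x.elt a) y := by
  rw [← le_himp_iff]
  exact iInf_le _ a

theorem beq_trans (x y z : BSet B) : beq x y ⊓ beq y z ≤ beq x z := by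
  induction x using induct generalizing y z with
  | h x ih =>
    have key : ∀ y z : BSet B, beq x y ⊓ beq y z ≤ bsub x z := by
      intro y z
      unfold bsub
      refine le_iInf fun a => ?_
      rw [le_himp_iff]
      have h1 : beq x y ⊓ beq y z ⊓ x.bv a ≤ bmem (x.elt a) y ⊓ bsub y z := by
        refine le_inf ?_ ?_
        · exact le_trans (inf_le_inf_right _ (inf_le_left.trans (beq_le_bsub x y)))
            (bsub_inf_bv_le x y a)
        · exact inf_le_left.trans (inf_le_right.trans (beq_le_bsub y z))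
      refine h1.trans ?_
      unfold bmem
      rw [iSup_inf_eq]
      refine iSup_le fun c => ?_
      have h2 : y.bv c ⊓ beq (x.elt a) (y.elt c) ⊓ bsub y z ≤
          beq (x.elt a) (y.elt c) ⊓ bmem (y.elt c) z := by
        refine le_inf (inf_le_left.trans inf_le_right) ?_
        refine le_trans ?_ (bsub_inf_bv_le y z c)
        exact le_inf inf_le_right (inf_le_left.trans inf_le_left)
      refine h2.trans ?_
      unfold bmem
      rw [inf_iSup_eq]
      refine iSup_le fun d => ?_
      refine le_iSup_of_le d ?_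
      refine le_inf (inf_le_right.trans inf_le_left) ?_
      exact le_trans (le_inf inf_le_left (inf_le_right.trans inf_le_right)) (ih a _ _)
    -- the other inclusion
    have key2 : ∀ y z : BSet B, beq x y ⊓ beq y z ≤ bsub z x := by
      intro y z
      unfold bsub
      refine le_iInf fun d => ?_
      rw [le_himp_iff]
      have h1 : beq x y ⊓ beq y z ⊓ z.bv d ≤ bmem (z.elt d) y ⊓ bsub y x := by
        refine le_inf ?_ ?_
        · exact le_trans (inf_le_inf_right _ (inf_le_right.trans (beq_le_bsub' y z)))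
            (bsub_inf_bv_le z y d)
        · exact inf_le_left.trans (inf_le_left.trans (beq_le_bsub' x y))
      refine h1.trans ?_
      unfold bmem
      rw [iSup_inf_eq]
      refine iSup_le fun c => ?_
      have h2 : y.bv c ⊓ beq (z.elt d) (y.elt c) ⊓ bsub y x ≤
          beq (z.elt d) (y.elt c) ⊓ bmem (y.elt c) x := by
        refine le_inf (inf_le_left.trans inf_le_right) ?_
        refine le_trans ?_ (bsub_inf_bv_le y x c)
        exact le_inf inf_le_right (inf_le_left.trans inf_le_left)
      refine h2.trans ?_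
      unfold bmem
      rw [inf_iSup_eq]
      refine iSup_le fun a => ?_
      refine le_iSup_of_le a ?_
      refine le_inf (inf_le_right.trans inf_le_left) ?_
      rw [beq_symm (z.elt d) (x.elt a)]
      refine le_trans (le_inf ?_ ?_) (ih a (y.elt c) (z.elt d))
      · exact beq_symm' (inf_le_right.trans inf_le_right)
      · exact beq_symm' inf_le_left
    rw [beq_def x z]
    exact le_inf (key y z) (key2 y z)

theorem beq_trans' {x y z : BSet B} {c : B} (h1 : c ≤ beq x y) (h2 : c ≤ beq y z) :
    c ≤ beq x z := (le_inf h1 h2).trans (beq_trans x y z)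

/-- Congruence of membership in the left argument. -/
theorem beq_inf_bmem_left (x y z : BSet B) : beq x y ⊓ bmem x z ≤ bmem y z := by
  unfold bmem
  rw [inf_iSup_eq]
  refine iSup_le fun a => le_iSup_of_le a ?_
  refine le_inf (inf_le_right.trans inf_le_left) ?_
  refine beq_trans' (y := x) (beq_symm' inf_le_left) (inf_le_right.trans inf_le_right)

/-- Congruence of membership in the right argument. -/
theorem beq_inf_bmem_right (x y z : BSet B) : beq y z ⊓ bmem x y ≤ bmem x z := by
  have : bmem x y ⊓ bsub y z ≤ bmem x z := by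
    conv_lhs => unfold bmem
    rw [iSup_inf_eq]
    refine iSup_le fun a => ?_
    refine le_trans ?_ (beq_inf_bmem_left (y.elt a) x z)
    refine le_inf ?_ ?_
    · exact beq_symm' (inf_le_left.trans inf_le_right)
    · refine le_trans ?_ (bsub_inf_bv_le y z a)
      exact le_inf inf_le_right (inf_le_left.trans inf_le_left)
  exact (le_inf (inf_le_right : beq y z ⊓ bmem x y ≤ bmem x y)
    (inf_le_left.trans (beq_le_bsub y z))).trans this

theorem bmem_congr_left {x y z : BSet B} {c : B} (h1 : c ≤ beq x y) (h2 : c ≤ bmem x z) :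
    c ≤ bmem y z := (le_inf h1 h2).trans (beq_inf_bmem_left x y z)

theorem bmem_congr_right {x y z : BSet B} {c : B} (h1 : c ≤ beq y z) (h2 : c ≤ bmem x y) :
    c ≤ bmem x z := (le_inf h1 h2).trans (beq_inf_bmem_right x y z)

/-- Transport of membership along an inclusion. -/
theorem bsub_inf_bmem (x y z : BSet B) : bsub y z ⊓ bmem x y ≤ bmem x z := by
  conv_lhs => unfold bmem
  rw [inf_iSup_eq]
  refine iSup_le fun a => ?_
  refine le_trans ?_ (beq_inf_bmem_left (y.elt a) x z)
  refine le_inf ?_ ?_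
  · exact beq_symm' (inf_le_right.trans inf_le_right)
  · refine le_trans ?_ (bsub_inf_bv_le y z a)
    exact le_inf inf_le_left (inf_le_right.trans inf_le_left)

/-- Extensional `B`-valued predicates. -/
def Ext (φ : BSet B → B) : Prop := ∀ x y, beq x y ⊓ φ x ≤ φ y

/-- Extensional `B`-valued binary predicates. -/
def Ext₂ (φ : BSet B → BSet B → B) : Prop :=
  (∀ z, Ext (fun x => φ x z)) ∧ (∀ z, Ext (fun x => φ z x))

theorem Ext.le {φ : BSet B → B} (h : Ext φ) {x y : BSet B} {c : B} (h1 : c ≤ beq x y)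
    (h2 : c ≤ φ x) : c ≤ φ y := (le_inf h1 h2).trans (h x y)

theorem Ext.inf_eq {φ : BSet B → B} (h : Ext φ) (x y : BSet B) :
    beq x y ⊓ φ x = beq x y ⊓ φ y :=
  le_antisymm (le_inf inf_le_left (h x y))
    (le_inf inf_le_left (by rw [beq_symm]; exact h y x))

theorem ext_bmem_left (z : BSet B) : Ext (fun x => bmem x z) :=
  fun x y => beq_inf_bmem_left x y z

theorem ext_bmem_right (z : BSet B) : Ext (fun x => bmem z x) :=
  fun x y => beq_inf_bmem_right z x y

theorem ext_beq_left (z : BSet B) : Ext (fun x => beq x z) := fun x y => by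
  rw [beq_symm x y]; exact beq_trans y x z

theorem ext_beq_right (z : BSet B) : Ext (fun x => beq z x) := fun x y => by
  rw [inf_comm]; exact beq_trans z x y

theorem ext_const (c : B) : Ext (fun _ : BSet B => c) := fun _ _ => inf_le_right

theorem Ext.inf {φ ψ : BSet B → B} (h1 : Ext φ) (h2 : Ext ψ) : Ext (fun x => φ x ⊓ ψ x) :=
  fun _ _ => le_inf (h1.le inf_le_left (inf_le_right.trans inf_le_left))
    (h2.le inf_le_left (inf_le_right.trans inf_le_right))

theorem Ext.sup {φ ψ : BSet B → B} (h1 : Ext φ) (h2 : Ext ψ) : Ext (fun x => φ x ⊔ ψ x) :=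
  fun x y => by
    rw [inf_sup_left]
    exact sup_le_sup (h1 x y) (h2 x y)

theorem Ext.himp {φ ψ : BSet B → B} (h1 : Ext φ) (h2 : Ext ψ) : Ext (fun x => φ x ⇨ ψ x) :=
  fun x y => by
    rw [le_himp_iff]
    refine h2.le (x := x) (inf_le_left.trans inf_le_left) ?_
    have : beq x y ⊓ (φ x ⇨ ψ x) ⊓ φ y ≤ (φ x ⇨ ψ x) ⊓ φ x :=
      le_inf (inf_le_left.trans inf_le_right)
        (h1.le (x := y) (beq_symm' (inf_le_left.trans inf_le_left)) inf_le_right)
    exact this.trans himp_inf_le

theorem Ext.compl {φ : BSet B → B} (h1 : Ext φ) : Ext (fun x => (φ x)ᶜ) := by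
  have := h1.himp (ext_const (⊥ : B))
  simpa [himp_bot] using this

theorem Ext.iInf {ι : Sort v} {φ : ι → BSet B → B} (h : ∀ i, Ext (φ i)) :
    Ext (fun x => ⨅ i, φ i x) :=
  fun _ _ => le_iInf fun i => (h i).le inf_le_left (inf_le_right.trans (iInf_le _ i))

theorem Ext.iSup {ι : Sort v} {φ : ι → BSet B → B} (h : ∀ i, Ext (φ i)) :
    Ext (fun x => ⨆ i, φ i x) :=
  fun x y => by
    rw [inf_iSup_eq]
    exact iSup_mono fun i => h i x y

/-- Bounded universal quantifier, in terms of the index type. -/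
theorem iInf_idx {φ : BSet B → B} (h : Ext φ) (x : BSet B) :
    (⨅ a, x.bv a ⇨ φ (x.elt a)) = ⨅ z, bmem z x ⇨ φ z := by
  apply le_antisymm
  · refine le_iInf fun z => ?_
    rw [le_himp_iff]
    unfold bmem
    rw [inf_iSup_eq]
    refine iSup_le fun a => ?_
    refine h.le (x := x.elt a) (beq_symm' (inf_le_right.trans inf_le_right)) ?_
    have : (⨅ a, x.bv a ⇨ φ (x.elt a)) ⊓ (x.bv a ⊓ beq z (x.elt a)) ≤
        (x.bv a ⇨ φ (x.elt a)) ⊓ x.bv a :=
      le_inf (inf_le_left.trans (iInf_le _ a)) (inf_le_right.trans inf_le_left)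
    exact this.trans himp_inf_le
  · refine le_iInf fun a => ?_
    refine (iInf_le _ (x.elt a)).trans ?_
    exact himp_le_himp_right (bv_le_bmem x a)

/-- Bounded existential quantifier, in terms of the index type. -/
theorem iSup_idx {φ : BSet B → B} (h : Ext φ) (x : BSet B) :
    (⨆ a, x.bv a ⊓ φ (x.elt a)) = ⨆ z, bmem z x ⊓ φ z := by
  apply le_antisymm
  · refine iSup_le fun a => ?_
    refine le_iSup_of_le (x.elt a) ?_
    exact inf_le_inf_right _ (bv_le_bmem x a)
  · refine iSup_le fun z => ?_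
    unfold bmem
    rw [iSup_inf_eq]
    refine iSup_mono fun a => ?_
    refine le_inf (inf_le_left.trans inf_le_left) ?_
    exact h.le (x := z) (inf_le_left.trans inf_le_right) inf_le_right

theorem bsub_eq (x y : BSet B) : bsub x y = ⨅ z, bmem z x ⇨ bmem z y :=
  iInf_idx (ext_bmem_left y) x

theorem ext_bsub_left (z : BSet B) : Ext (fun x => bsub x z) := by
  simp only [bsub_eq]
  exact Ext.iInf fun w => (ext_bmem_right w).himp (ext_const _)

theorem ext_bsub_right (z : BSet B) : Ext (fun x => bsub z x) := by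
  simp only [bsub_eq]
  exact Ext.iInf fun w => (ext_const _).himp (ext_bmem_right w)

/-- Extensionality. -/
theorem beq_eq_iInf (x y : BSet B) :
    beq x y = ⨅ z, (bmem z x ⇨ bmem z y) ⊓ (bmem z y ⇨ bmem z x) := by
  rw [beq_def, bsub_eq, bsub_eq, iInf_inf_eq]

theorem beq_eq_iInf_bihimp (x y : BSet B) :
    beq x y = ⨅ z, bihimp (bmem z x) (bmem z y) := by
  rw [beq_eq_iInf]
  simp only [bihimp, inf_comm]

theorem le_beq_iff {x y : BSet B} {c : B} :
    c ≤ beq x y ↔ (∀ a, c ⊓ x.bv a ≤ bmem (x.elt a) y) ∧ (∀ a, c ⊓ y.bv a ≤ bmem (y.elt a) x) := by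
  rw [beq_def, le_inf_iff]
  unfold bsub
  simp only [le_iInf_iff, le_himp_iff]

theorem le_beq_iff' {x y : BSet B} {c : B} :
    c ≤ beq x y ↔ (∀ z, c ⊓ bmem z x ≤ bmem z y) ∧ (∀ z, c ⊓ bmem z y ≤ bmem z x) := by
  rw [beq_def, le_inf_iff, bsub_eq, bsub_eq]
  simp only [le_iInf_iff, le_himp_iff]

/-- Mixing of names along an antichain. -/
def mix {ι : Type u} (c : ι → B) (x : ι → BSet B) : BSet B :=
  mk (Σ i, (x i).Idx) (fun p => (x p.1).elt p.2) (fun p => c p.1 ⊓ (x p.1).bv p.2)

theorem mix_spec {ι : Type u} (c : ι → B) (x : ι → BSet B)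
    (hc : ∀ i j, i ≠ j → c i ⊓ c j ≤ ⊥) (i : ι) : c i ≤ beq (mix c x) (x i) := by
  rw [le_beq_iff]
  constructor
  · rintro ⟨j, a⟩
    show c i ⊓ (c j ⊓ (x j).bv a) ≤ bmem ((x j).elt a) (x i)
    by_cases h : i = j
    · subst h
      exact (inf_le_right.trans inf_le_right).trans (bv_le_bmem _ _)
    · refine le_trans ?_ bot_le
      exact (le_inf inf_le_left (inf_le_right.trans inf_le_left)).trans (hc i j h)
  · intro a
    refine le_trans ?_ (bv_le_bmem (mix c x) ⟨i, a⟩)
    exact le_rfl

/-- Mixing with compatible names: a weaker hypothesis, the names agree on the overlaps. -/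
theorem mix_spec' {ι : Type u} (c : ι → B) (x : ι → BSet B)
    (hc : ∀ i j, c i ⊓ c j ≤ beq (x i) (x j)) (i : ι) : c i ≤ beq (mix c x) (x i) := by
  rw [le_beq_iff]
  constructor
  · rintro ⟨j, a⟩
    show c i ⊓ (c j ⊓ (x j).bv a) ≤ bmem ((x j).elt a) (x i)
    refine bmem_congr_right (y := x j) ?_ ?_
    · refine beq_symm' ?_
      exact (le_inf inf_le_left (inf_le_right.trans inf_le_left)).trans (hc i j)
    · exact (inf_le_right.trans inf_le_right).trans (bv_le_bmem _ _)
  · intro a
    refine le_trans ?_ (bv_le_bmem (mix c x) ⟨i, a⟩)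
    exact le_rfl

end BSet

/-- Disjointification: a family of values in a complete Boolean algebra can be refined to
an antichain with the same supremum. -/
theorem exists_antichain {B : Type u} [CompleteBooleanAlgebra B] {ι : Type v} (c : ι → B) :
    ∃ d : ι → B, (∀ i, d i ≤ c i) ∧ (∀ i j, i ≠ j → d i ⊓ d j ≤ ⊥) ∧ (⨆ i, d i) = ⨆ i, c i := by
  classical
  obtain ⟨r, hr⟩ : ∃ r : ι → ι → Prop, IsWellOrder ι r := ⟨WellOrderingRel, inferInstance⟩
  refine ⟨fun i => c i ⊓ (⨆ j : {j // r j i}, c j.1)ᶜ, fun i => inf_le_left, ?_, ?_⟩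
  · have aux : ∀ i j, r j i → (c i ⊓ (⨆ j : {j // r j i}, c j.1)ᶜ) ⊓
        (c j ⊓ (⨆ k : {k // r k j}, c k.1)ᶜ) ≤ ⊥ := by
      intro i j hji
      have h1 : c j ≤ ⨆ j : {j // r j i}, c j.1 := le_iSup (fun j : {j // r j i} => c j.1) ⟨j, hji⟩
      calc _ ≤ (⨆ j : {j // r j i}, c j.1)ᶜ ⊓ (⨆ j : {j // r j i}, c j.1) :=
            le_inf (inf_le_left.trans inf_le_right) ((inf_le_right.trans inf_le_left).trans h1)
        _ = ⊥ := compl_inf_self _
        _ ≤ ⊥ := le_rfl
    intro i j hij
    rcases trichotomous_of r i j with h | h | h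
    · rw [inf_comm]; exact aux j i h
    · exact absurd h hij
    · exact aux i j h
  · apply le_antisymm
    · exact iSup_mono fun i => inf_le_left
    · refine iSup_le fun i => ?_
      induction i using hr.wf.induction with
      | _ i ih =>
        have : c i ≤ (c i ⊓ (⨆ j : {j // r j i}, c j.1)ᶜ) ⊔ (⨆ j : {j // r j i}, c j.1) := by
          rw [sup_inf_right, compl_sup_eq_top, inf_top_eq]
          exact le_sup_left
        refine this.trans (sup_le ?_ ?_)
        · exact le_iSup (fun i => c i ⊓ (⨆ j : {j // r j i}, c j.1)ᶜ) i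
        · exact iSup_le fun j => ih j.1 j.2

namespace BSet

variable {B : Type u} [CompleteBooleanAlgebra B]

/-- The maximum principle: an existential statement is witnessed by a name. -/
theorem maximum {φ : BSet B → B} (h : Ext φ) : ∃ x, φ x = ⨆ y, φ y := by
  classical
  let ι : Type u := Set.range φ
  have hx : ∀ s : ι, ∃ x, φ x = s.1 := fun s => s.2
  choose x hx using hx
  obtain ⟨d, hd1, hd2, hd3⟩ := exists_antichain (fun s : ι => s.1)
  refine ⟨mix d x, le_antisymm (le_iSup _ _) ?_⟩
  have h1 : (⨆ y, φ y) = ⨆ s : ι, s.1 := by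
    apply le_antisymm
    · exact iSup_le fun y => le_iSup (fun s : ι => s.1) ⟨φ y, ⟨y, rfl⟩⟩
    · refine iSup_le fun s => ?_
      rw [← hx s]; exact le_iSup _ _
  rw [h1, ← hd3]
  refine iSup_le fun s => ?_
  refine h.le (x := x s) (beq_symm' (mix_spec d x hd2 s)) ?_
  rw [hx s]; exact hd1 s

/-- A weak form of the maximum principle, for arbitrary families of small size. -/
theorem exists_mix_of_iSup_eq_top {φ : BSet B → B} (h : Ext φ) (hs : (⨆ y, φ y) = ⊤) :
    ∃ x, φ x = ⊤ := by
  obtain ⟨x, hx⟩ := maximum h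
  exact ⟨x, hx.trans hs⟩

end BSet

end M3
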