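import Pool.Agent.H.MP_8ff4bd_gt.M3.PF
import Pool.Agent.H.MP_8ff4bd_gt.M3.Core

/-!
# Subgroups of countable index contain colour subgroups
-/

namespace M3

variable {B : Type} [CompleteBooleanAlgebra B]

/-- The value of: `r` witnesses that `lam` has countable index. -/
def Wit {G : Type} [AddCommGroup G] (lam : G → B) (r : G → ℕ → B) : B :=
  (⨅ x, ⨆ n, r x n) ⊓ ⨅ x, ⨅ y, ⨅ n, (r x n ⊓ r y n) ⇨ lam (x - y)

theorem bIdx_eq {G : Type} [AddCommGroup G] (lam : G → B) : bIdx lam = ⨆ r, Wit lam r := rfl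

theorem bSub_zero {G : Type} [AddCommGroup G] (lam : G → B) : bSub lam ≤ lam 0 := inf_le_left

theorem bSub_add {G : Type} [AddCommGroup G] (lam : G → B) (x y : G) {b : B} (hb : b ≤ bSub lam)
    (hx : b ≤ lam x) (hy : b ≤ lam y) : b ≤ lam (x + y) := by
  have h1 : bSub lam ≤ (lam x ⊓ lam y) ⇨ lam (x + y) :=
    inf_le_right.trans ((iInf_le _ x).trans (iInf_le _ y))
  exact (le_inf (hb.trans h1) (le_inf hx hy)).trans himp_inf_le

theorem bSub_nsmul {G : Type} [AddCommGroup G] (lam : G → B) (x : G) {b : B} (hb : b ≤ bSub lam)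
    (hx : b ≤ lam x) (n : ℕ) : b ≤ lam (n • x) := by
  induction n with
  | zero => rw [zero_smul]; exact hb.trans (bSub_zero lam)
  | succ n ih => rw [succ_nsmul]; exact bSub_add lam _ _ hb ih hx

theorem bSub_sum {G ι : Type} [AddCommGroup G] (lam : G → B) (Q : Finset ι) (y : ι → G) {b : B}
    (hb : b ≤ bSub lam) (hy : ∀ i ∈ Q, b ≤ lam (y i)) : b ≤ lam (∑ i ∈ Q, y i) := by
  classical
  induction Q using Finset.induction_on with
  | empty => rw [Finset.sum_empty]; exact hb.trans (bSub_zero lam)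
  | insert a Q ha ih =>
    rw [Finset.sum_insert ha]
    exact bSub_add lam _ _ hb (hy a (Finset.mem_insert_self a Q))
      (ih fun i hi => hy i (Finset.mem_insert_of_mem hi))

/-- A sequence of values is refined to a partition of unity. -/
theorem exists_pf_seq {Ω : Type} (r : Ω → ℕ → B) :
    ∃ c : Ω → ℕ → B, IsPF c ∧ ∀ w n, (⨆ m, r w m) ⊓ c w n ≤ r w n := by
  classical
  have H : ∀ w, ∃ d : ℕ → B, (∀ i, d i ≤ r w i) ∧ (∀ i j, i ≠ j → d i ⊓ d j ≤ ⊥) ∧
      (⨆ i, d i) = ⨆ i, r w i := fun w => exists_antichain (r w)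
  choose d hd1 hd2 hd3 using H
  refine ⟨fun w n => d w n ⊔ (if n = 0 then (⨆ m, r w m)ᶜ else ⊥), ⟨fun w => ?_, ?_⟩, ?_⟩
  · rw [eq_top_iff, ← sup_compl_eq_top (x := ⨆ m, r w m)]
    refine sup_le ?_ ?_
    · rw [← hd3 w]
      exact iSup_mono fun n => le_sup_left
    · refine le_iSup_of_le 0 ?_
      simp
  · intro w m n hmn
    rw [disjoint_iff_inf_le]
    have h0 : ∀ k, d w k ⊓ (⨆ m, r w m)ᶜ ≤ ⊥ := fun k => by
      have : d w k ≤ ⨆ m, r w m := (hd1 w k).trans (le_iSup _ k)
      exact (inf_le_inf_right _ this).trans inf_compl_eq_bot.le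
    rw [inf_sup_right, inf_sup_left, inf_sup_left]
    refine sup_le (sup_le (hd2 w m n hmn) ?_) (sup_le ?_ ?_)
    · by_cases hn : n = 0
      · rw [if_pos hn]; exact h0 m
      · rw [if_neg hn, inf_bot_eq]
    · by_cases hm : m = 0
      · rw [if_pos hm, inf_comm]; exact h0 n
      · rw [if_neg hm, bot_inf_eq]
    · by_cases hm : m = 0
      · have hn : n ≠ 0 := fun h => hmn (hm.trans h.symm)
        rw [if_neg hn, inf_bot_eq]
      · rw [if_neg hm, bot_inf_eq]
  · intro w n
    rw [inf_sup_left]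
    refine sup_le (inf_le_right.trans (hd1 w n)) ?_
    by_cases hn : n = 0
    · rw [if_pos hn]; exact inf_compl_eq_bot.le.trans bot_le
    · rw [if_neg hn, inf_bot_eq]; exact bot_le

/-- The sum of the values in a colour class. -/
theorem mapDomain_eq_zero_iff {Ω : Type} {q : ℕ} (u : Ω → ℕ) (h : Ω →₀ ZMod q)
    (Q : Finset Ω) (hQ : h.support ⊆ Q) [DecidableEq Ω] :
    Finsupp.mapDomain u h = 0 ↔ ∀ n, ∑ w ∈ Q.filter (fun w => u w = n), h w = 0 := by
  classical
  have key : ∀ n, Finsupp.mapDomain u h n = ∑ w ∈ Q.filter (fun w => u w = n), h w := by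
    intro n
    rw [Finsupp.mapDomain, Finsupp.sum_apply, Finsupp.sum, Finset.sum_filter]
    rw [← Finset.sum_subset hQ]
    · refine Finset.sum_congr rfl fun w _ => ?_
      rw [Finsupp.single_apply]
    · intro w _ hw
      rw [Finsupp.notMem_support_iff.mp hw]; simp
  constructor
  · intro h0 n
    rw [← key n, h0]; rfl
  · intro h0
    ext n
    rw [key n, h0 n]; rfl

/-- Every subgroup of countable index contains a colour subgroup. -/
theorem exists_colour {Ω : Type} {q : ℕ} [NeZero q] (lam : (Ω →₀ ZMod q) → B)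
    (r : (Ω →₀ ZMod q) → ℕ → B) :
    ∃ c : Ω → ℕ → B, IsPF c ∧ ∀ (Q : Finset Ω) (u : Ω → ℕ) (h : Ω →₀ ZMod q), h.support ⊆ Q →
      Finsupp.mapDomain u h = 0 → bSub lam ⊓ Wit lam r ⊓ DD c Q u ≤ lam h := by
  classical
  obtain ⟨c, hc, hc2⟩ := exists_pf_seq (fun (w : Ω) n => r (Finsupp.single w 1) n)
  refine ⟨c, hc, fun Q u h hQ hh => ?_⟩
  set b : B := bSub lam ⊓ Wit lam r ⊓ DD c Q u with hb
  have hb1 : b ≤ bSub lam := inf_le_left.trans inf_le_left
  have hb2 : b ≤ Wit lam r := inf_le_left.trans inf_le_right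
  have hb3 : b ≤ DD c Q u := inf_le_right
  have hr : ∀ w ∈ Q, b ≤ r (Finsupp.single w 1) (u w) := by
    intro w hw
    refine (le_inf ?_ (hb3.trans (DD_le hw))).trans (hc2 w (u w))
    exact hb2.trans (inf_le_left.trans (iInf_le _ (Finsupp.single w 1)))
  have hdiff : ∀ w ∈ Q, ∀ w' ∈ Q, u w = u w' →
      b ≤ lam (Finsupp.single w 1 - Finsupp.single w' 1) := by
    intro w hw w' hw' huw
    have h1 : b ≤ (r (Finsupp.single w 1) (u w) ⊓ r (Finsupp.single w' 1) (u w)) ⇨
        lam (Finsupp.single w 1 - Finsupp.single w' 1) :=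
      hb2.trans (inf_le_right.trans ((iInf_le _ (Finsupp.single w 1)).trans
        ((iInf_le _ (Finsupp.single w' 1)).trans (iInf_le _ (u w)))))
    refine (le_inf h1 (le_inf (hr w hw) ?_)).trans himp_inf_le
    rw [huw]; exact hr w' hw'
  rcases Q.eq_empty_or_nonempty with hQe | ⟨w0, hw0⟩
  · have h0 : h = 0 := by
      rw [hQe, Finset.subset_empty, Finsupp.support_eq_empty] at hQ
      exact hQ
    rw [h0]; exact hb1.trans (bSub_zero lam)
  -- a representative of every colour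
  set rep : ℕ → Ω := fun n => if hn : ∃ w' ∈ Q, u w' = n then hn.choose else w0 with hrep
  have hrep1 : ∀ w ∈ Q, rep (u w) ∈ Q ∧ u (rep (u w)) = u w := by
    intro w hw
    have hn : ∃ w' ∈ Q, u w' = u w := ⟨w, hw, rfl⟩
    have : rep (u w) = hn.choose := by rw [hrep]; exact dif_pos hn
    rw [this]; exact hn.choose_spec
  have hval : ∀ (w : Ω) (v : Ω), (h w).val • Finsupp.single v (1 : ZMod q) =
      Finsupp.single v (h w) := by
    intro w v
    rw [Finsupp.smul_single, nsmul_eq_mul, mul_one, ZMod.natCast_zmod_val]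
  have e1 : ∑ w ∈ Q, Finsupp.single w (h w) = h := by
    have := Finsupp.sum_single h
    rw [Finsupp.sum] at this
    rw [← Finset.sum_subset hQ]
    · exact this
    · intro w _ hw
      rw [Finsupp.notMem_support_iff.mp hw, Finsupp.single_zero]
  have e2 : ∑ w ∈ Q, Finsupp.single (rep (u w)) (h w) = 0 := by
    have h3 : Finsupp.mapDomain rep (Finsupp.mapDomain u h) = 0 := by
      rw [hh, Finsupp.mapDomain_zero]
    rw [← Finsupp.mapDomain_comp, Finsupp.mapDomain, Finsupp.sum] at h3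
    rw [← Finset.sum_subset hQ]
    · exact h3
    · intro w _ hw
      rw [Finsupp.notMem_support_iff.mp hw, Finsupp.single_zero]
  have e3 : h = ∑ w ∈ Q, (h w).val • (Finsupp.single w (1 : ZMod q) -
      Finsupp.single (rep (u w)) 1) := by
    simp only [smul_sub, hval, Finset.sum_sub_distrib, e1, e2, sub_zero]
  rw [e3]
  refine bSub_sum lam Q _ hb1 fun w hw => ?_
  exact bSub_nsmul lam _ hb1 (hdiff w hw _ (hrep1 w hw).1 (hrep1 w hw).2.symm) _

end M3
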