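import Pool.Agent.H.MP_8ff4bd_gt.M3.C1

/-!
# Continuity of local, level preserving maps
-/

namespace M3

variable {B : Type} [CompleteBooleanAlgebra B] {W : Type} (rho : W → ℕ → Bool)

theorem cont_of {p q : ℕ} [NeZero p] [NeZero q] {a b : ℕ → ℕ} (ha : Lev a) (hb : Lev b)
    (f : (W →₀ (ℕ →₀ ZMod p)) → (W →₀ (ℕ →₀ ZMod q)))
    (hOK : ∀ g s m, nsum rho g s ∈ CL a m → nsum rho (f g) s ∈ CL b m) (hloc : NLocal rho f)
    (hN : NodeRef B W rho) : bCont (B := B) (fun g h => pr B (f g = h)) = ⊤ := by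
  classical
  rw [eq_top_iff]
  refine le_iInf fun g0 => le_iInf fun h0 => ?_
  rw [le_himp_iff]
  refine inf_pr_le fun hgh => ?_
  refine le_iInf fun lam => ?_
  rw [le_himp_iff, top_inf_eq, bIdx_eq, inf_iSup_eq]
  refine iSup_le fun r => ?_
  obtain ⟨R, hR0, hR1, hR2⟩ := KN_le_lam rho hb hN lam r
  have hpf := last_pf rho R hR0 hR1
  -- a level for the values of `g0`
  obtain ⟨M0, hM0⟩ : ∃ M0, ∀ x j, g0 x j ≠ 0 → j < a M0 := by
    refine ⟨(Finsupp.uncurry g0).support.sup (fun w => lv ha w.2), fun x j hx => ?_⟩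
    have h1 : lv ha j ≤ (Finsupp.uncurry g0).support.sup (fun w => lv ha w.2) :=
      Finset.le_sup (f := fun w : W × ℕ => lv ha w.2) (b := (x, j))
        ((mem_support_uncurry g0 (x, j)).mpr hx)
    exact (lv_spec ha j).trans_le (ha.mono h1)
  -- the depth below which the points of `g0` have no nodes
  set bk : ℕ → B := fun k0 => ⨅ m, ⨅ (_ : m < M0), ⨅ x, ⨅ (_ : x ∈ g0.support), ⨅ j,
    ⨅ (_ : k0 < j), (R m (pre rho x j))ᶜ with hbk
  have hbk_le : ∀ k0 m x j, m < M0 → x ∈ g0.support → k0 < j →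
      bk k0 ≤ (R m (pre rho x j))ᶜ := by
    intro k0 m x j hm hx hj
    exact (iInf_le _ m).trans ((iInf_le _ hm).trans ((iInf_le _ x).trans ((iInf_le _ hx).trans
      ((iInf_le _ j).trans (iInf_le _ hj)))))
  have hcov : ⨆ k0, bk k0 = ⊤ := by
    rw [eq_top_iff]
    refine le_of_cover hpf (Finset.range M0 ×ˢ g0.support) fun k => ?_
    refine le_iSup_of_le ((Finset.range M0 ×ˢ g0.support).sup k) ?_
    rw [top_inf_eq]
    refine le_iInf fun m => le_iInf fun hm => le_iInf fun x => le_iInf fun hx =>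
      le_iInf fun j => le_iInf fun hj => ?_
    have hmem : (m, x) ∈ Finset.range M0 ×ˢ g0.support :=
      Finset.mem_product.mpr ⟨Finset.mem_range.mpr hm, hx⟩
    have hkj : k (m, x) < j := lt_of_le_of_lt (Finset.le_sup (f := k) hmem) hj
    refine (DD_le hmem).trans ?_
    exact inf_le_right.trans ((iInf_le _ j).trans (iInf_le _ hkj))
  have hT : bSub lam ⊓ Wit lam r = ⨆ k0, bSub lam ⊓ Wit lam r ⊓ bk k0 := by
    rw [← inf_iSup_eq, hcov, inf_top_eq]
  rw [hT]
  refine iSup_le fun k0 => ?_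
  -- the neighbourhood
  set R' : ℕ → List Bool → B := fun m s => R m s ⊔ pr B (m = 0 ∧ s.length ≤ k0) with hR'
  have hR'0 : ∀ m, R' m [] = ⊤ := fun m => by
    rw [hR']; show R m [] ⊔ _ = ⊤
    rw [hR0, top_sup_eq]
  have hR'1 : ∀ m x, ⨆ k, ⨅ j, ⨅ (_ : k < j), (R' m (pre rho x j))ᶜ = ⊤ := by
    intro m x
    rw [eq_top_iff, ← hR1 m x]
    refine iSup_le fun k => ?_
    refine le_iSup_of_le (max k k0) ?_
    refine le_iInf fun j => le_iInf fun hj => ?_
    have hjk : k < j := lt_of_le_of_lt (le_max_left _ _) hj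
    have hjk0 : k0 < j := lt_of_le_of_lt (le_max_right _ _) hj
    show _ ≤ (R m (pre rho x j) ⊔ pr B (m = 0 ∧ (pre rho x j).length ≤ k0))ᶜ
    rw [pre_length, pr_false (by omega), sup_bot_eq]
    exact (iInf_le _ j).trans (iInf_le _ hjk)
  refine le_iSup_of_le (KN rho a R') ?_
  refine le_inf (le_inf ?_ ?_) ?_
  · rw [KN_bSub]; exact le_top
  · rw [KN_bIdx rho ha R' hR'0 hR'1]; exact le_top
  refine le_iInf fun z => le_iInf fun w => ?_
  rw [le_himp_iff, ← inf_assoc]
  refine inf_pr_le fun hw => ?_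
  subst hw
  subst hgh
  set D := bSub lam ⊓ Wit lam r ⊓ bk k0 ⊓ KN rho a R' z with hD
  have hD1 : D ≤ bSub lam ⊓ Wit lam r := inf_le_left.trans inf_le_left
  have hD2 : D ≤ bk k0 := inf_le_left.trans inf_le_right
  have hD3 : D ≤ KN rho a R' z := inf_le_right
  refine le_trans (le_inf hD1 ?_) (hR2 (f (g0 + z) - f g0))
  refine le_iInf fun m => le_iInf fun s => ?_
  rw [le_himp_iff]
  refine le_pr fun hns => ?_
  by_contra hne
  rw [le_bot_iff] at hne
  have hne' : ∀ {e : B}, D ⊓ R m s ≤ e → e ≠ ⊥ :=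
    fun {e} he h0 => hne (le_bot_iff.mp (he.trans h0.le))
  apply hns
  by_cases hs : s.length ≤ k0
  · -- equal states
    have hz : ∀ s' : List Bool, s'.length ≤ k0 → nsum rho z s' = 0 := by
      intro s' hs'
      have e1 : D ⊓ R m s ≤ pr B (nsum rho z s' ∈ CL a 0) := by
        refine le_trans (le_inf (inf_le_left.trans hD3) ?_) (KN_le rho a R' z 0 s')
        show _ ≤ R 0 s' ⊔ pr B (0 = 0 ∧ s'.length ≤ k0)
        rw [pr_true ⟨rfl, hs'⟩, sup_top_eq]
        exact le_top
      have e2 : nsum rho z s' ∈ CL a 0 := by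
        by_contra hc'
        exact hne' e1 (pr_false hc')
      ext j
      exact e2 j (by rw [ha.zero]; exact Nat.zero_le j)
    have h1 := hloc (g0 + z) g0 k0 (fun s' hs' => by rw [nsum_add, hz s' hs', add_zero]) s hs
    rw [nsum_sub, h1, sub_self]
    exact AddSubgroup.zero_mem _
  · push Not at hs
    have hg0 : nsum rho g0 s ∈ CL a m := by
      by_cases hm : M0 ≤ m
      · intro j hj
        rw [nsum, Finsupp.finsetSum_apply]
        refine Finset.sum_eq_zero fun x _ => ?_
        by_contra hx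
        have h1 := hM0 x j hx
        have h2 := ha.mono hm
        omega
      · push Not at hm
        have hempty : ∀ x ∈ g0.support, pre rho x s.length ≠ s := by
          intro x hx hxs
          apply hne
          rw [← le_bot_iff]
          have e1 : D ⊓ R m s ≤ (R m s)ᶜ ⊓ R m s := by
            refine inf_le_inf_right _ (hD2.trans ?_)
            have := hbk_le k0 m x s.length hm hx hs
            rwa [hxs] at this
          exact e1.trans compl_inf_eq_bot.le
        have h3 : nsum rho g0 s = 0 := by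
          rw [nsum]
          refine Finset.sum_eq_zero fun x hx => ?_
          rw [Finset.mem_filter] at hx
          exact absurd hx.2 (hempty x hx.1)
        rw [h3]; exact AddSubgroup.zero_mem _
    have hz : nsum rho z s ∈ CL a m := by
      have e1 : D ⊓ R m s ≤ pr B (nsum rho z s ∈ CL a m) := by
        refine le_trans (le_inf (inf_le_left.trans hD3) ?_) (KN_le rho a R' z m s)
        exact inf_le_right.trans le_sup_left
      by_contra hc'
      exact hne' e1 (pr_false hc')
    have h1 : nsum rho (g0 + z) s ∈ CL a m := by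
      rw [nsum_add]; exact AddSubgroup.add_mem _ hg0 hz
    rw [nsum_sub]
    exact AddSubgroup.sub_mem _ (hOK _ _ _ h1) (hOK _ _ _ hg0)

end M3
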