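import Pool.Agent.H.MP_8ff4bd_gt.M3.SO
import Pool.Agent.H.MP_8ff4bd_gt.M3.Core

/-!
# The second-order Boolean-valued form of the first question

This file is the analogue of `SO.lean` for the finest `ℵ₀`-bounded group topology on `G` and on
`H`.  A set `U` is a neighbourhood of `0` in this topology if and only if there are sets
`V 0 ⊆ U, V 1, V 2, ...` with `V (n + 1) - V (n + 1) ⊆ V n` such that for every `n` the group is
the union of countably many sets whose differences are in `V n`.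
-/

set_option autoImplicit false

namespace M3

open Function

section defs

variable {B : Type} [CompleteBooleanAlgebra B]
variable {G H : Type} [AddCommGroup G] [AddCommGroup H]

/-- Value of: `V (n + 1) - V (n + 1) ⊆ V n` for all `n`, and for every `n` the group is the union
of countably many sets with differences in `V n`. -/
def bGSeq (V : ℕ → G → B) : B :=
  (⨅ n, ⨅ x, ⨅ y, (V (n + 1) x ⊓ V (n + 1) y) ⇨ V n (x - y)) ⊓ ⨅ n, bIdx (V n)

/-- Value of: `U` is a neighbourhood of `0` in the finest `ℵ₀`-bounded group topology. -/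
def bGNbhd (U : G → B) : B :=
  ⨆ V : ℕ → G → B, bGSeq V ⊓ ⨅ x, V 0 x ⇨ U x

/-- Value of: the (graph) `F` is continuous for the finest `ℵ₀`-bounded group topologies. -/
def bGCont (F : G → H → B) : B :=
  ⨅ x, ⨅ y, F x y ⇨ ⨅ lam : H → B, bGNbhd lam ⇨
    ⨆ kap : G → B, bGNbhd kap ⊓ ⨅ z, ⨅ w, (kap z ⊓ F (x + z) w) ⇨ lam (w - y)

variable (B G H)

/-- Value of: `G` and `H` are homeomorphic in their finest `ℵ₀`-bounded group topologies. -/
def bGHomeo : B :=
  ⨆ F : G → H → B, bBij F ⊓ bGCont F ⊓ bGCont (fun y x => F x y)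

end defs

section basic

variable {B : Type} [CompleteBooleanAlgebra B]
variable {G H : Type} [AddCommGroup G] [AddCommGroup H]

theorem bGSeq_step (V : ℕ → G → B) (n : ℕ) (x y : G) :
    bGSeq V ⊓ (V (n + 1) x ⊓ V (n + 1) y) ≤ V n (x - y) := by
  rw [← le_himp_iff]
  exact inf_le_left.trans ((iInf_le _ n).trans ((iInf_le _ x).trans (iInf_le _ y)))

theorem bGSeq_idx (V : ℕ → G → B) (n : ℕ) : bGSeq V ≤ bIdx (V n) :=
  inf_le_right.trans (iInf_le _ n)

theorem bIdx_zero (lam : G → B) : bIdx lam ≤ lam 0 := by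
  unfold bIdx
  refine iSup_le fun r => ?_
  have h1 : ((⨅ x, ⨆ n, r x n) ⊓ ⨅ x, ⨅ y, ⨅ n, (r x n ⊓ r y n) ⇨ lam (x - y)) ≤
      ((⨅ x, ⨆ n, r x n) ⊓ ⨅ x, ⨅ y, ⨅ n, (r x n ⊓ r y n) ⇨ lam (x - y)) ⊓ ⨆ n, r 0 n :=
    le_inf le_rfl (inf_le_left.trans (iInf_le _ 0))
  refine h1.trans ?_
  rw [inf_iSup_eq]
  refine iSup_le fun n => ?_
  have h2 : ((⨅ x, ⨆ n, r x n) ⊓ ⨅ x, ⨅ y, ⨅ n, (r x n ⊓ r y n) ⇨ lam (x - y)) ≤
      (r 0 n ⊓ r 0 n) ⇨ lam (0 - 0) :=
    inf_le_right.trans ((iInf_le _ 0).trans ((iInf_le _ 0).trans (iInf_le _ n)))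
  rw [sub_zero, inf_idem, le_himp_iff] at h2
  exact h2

theorem bGSeq_zero (V : ℕ → G → B) (n : ℕ) : bGSeq V ≤ V n 0 :=
  (bGSeq_idx V n).trans (bIdx_zero _)

theorem bGSeq_neg (V : ℕ → G → B) (n : ℕ) (x : G) : bGSeq V ⊓ V (n + 1) x ≤ V n (-x) := by
  have h := bGSeq_step V n 0 x
  rw [zero_sub] at h
  refine le_trans ?_ h
  exact le_inf inf_le_left (le_inf (inf_le_left.trans (bGSeq_zero V _)) inf_le_right)

theorem bGSeq_mono (V : ℕ → G → B) (n : ℕ) (x : G) : bGSeq V ⊓ V (n + 1) x ≤ V n x := by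
  have h := bGSeq_step V n x 0
  rw [sub_zero] at h
  refine le_trans ?_ h
  exact le_inf inf_le_left (le_inf inf_le_right (inf_le_left.trans (bGSeq_zero V _)))

theorem bGSeq_add (V : ℕ → G → B) (n : ℕ) (x y : G) :
    bGSeq V ⊓ (V (n + 2) x ⊓ V (n + 2) y) ≤ V n (x + y) := by
  have h := bGSeq_step V n x (-y)
  rw [sub_neg_eq_add] at h
  refine le_trans ?_ h
  refine le_inf inf_le_left (le_inf ?_ ?_)
  · exact (le_inf inf_le_left (inf_le_right.trans inf_le_left)).trans (bGSeq_mono V (n + 1) x)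
  · exact (le_inf inf_le_left (inf_le_right.trans inf_le_right)).trans (bGSeq_neg V (n + 1) y)

/-- Value of: `r` is a countable covering by sets with differences in `lam`. -/
def bPart (lam : G → B) (r : G → ℕ → B) : B :=
  (⨅ x, ⨆ n, r x n) ⊓ ⨅ x, ⨅ y, ⨅ n, (r x n ⊓ r y n) ⇨ lam (x - y)

/-- The maximum principle for `bIdx`. -/
theorem exists_bPart (lam : G → B) : ∃ r : G → ℕ → B, bIdx lam ≤ bPart lam r := by
  obtain ⟨d, hd1, hd2, hd3⟩ := exists_antichain (fun r : G → ℕ → B => bPart lam r)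
  refine ⟨fun x n => ⨆ r : G → ℕ → B, d r ⊓ r x n, ?_⟩
  have h0 : bIdx lam = ⨆ r, d r := by rw [hd3]; rfl
  rw [h0]
  refine iSup_le fun r => ?_
  have hle : ∀ x n, d r ⊓ (⨆ s : G → ℕ → B, d s ⊓ s x n) ≤ r x n := by
    intro x n
    rw [inf_iSup_eq]
    refine iSup_le fun s => ?_
    by_cases h : r = s
    · subst h
      exact inf_le_right.trans inf_le_right
    · refine le_trans ?_ bot_le
      exact (le_inf inf_le_left (inf_le_right.trans inf_le_left)).trans (hd2 r s h)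
  have hge : ∀ x n, d r ⊓ r x n ≤ ⨆ s : G → ℕ → B, d s ⊓ s x n := fun x n =>
    le_iSup (fun s : G → ℕ → B => d s ⊓ s x n) r
  unfold bPart at hd1 ⊢
  refine le_inf ?_ ?_
  · refine le_iInf fun x => ?_
    have h1 : d r ≤ d r ⊓ ⨆ n, r x n :=
      le_inf le_rfl ((hd1 r).trans (inf_le_left.trans (iInf_le _ x)))
    refine h1.trans ?_
    rw [inf_iSup_eq]
    exact iSup_le fun n => le_iSup_of_le n (hge x n)
  · refine le_iInf fun x => le_iInf fun y => le_iInf fun n => ?_
    rw [le_himp_iff]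
    have h1 : d r ≤ (r x n ⊓ r y n) ⇨ lam (x - y) :=
      (hd1 r).trans (inf_le_right.trans ((iInf_le _ x).trans ((iInf_le _ y).trans (iInf_le _ n))))
    rw [le_himp_iff] at h1
    refine le_trans ?_ h1
    refine le_inf inf_le_left (le_inf ?_ ?_)
    · exact (le_inf inf_le_left (inf_le_right.trans inf_le_left)).trans (hle x n)
    · exact (le_inf inf_le_left (inf_le_right.trans inf_le_right)).trans (hle y n)

theorem bPart_tot (lam : G → B) (r : G → ℕ → B) (x : G) : bPart lam r ≤ ⨆ n, r x n :=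
  inf_le_left.trans (iInf_le _ x)

theorem bPart_sub (lam : G → B) (r : G → ℕ → B) (x y : G) (n : ℕ) :
    bPart lam r ⊓ (r x n ⊓ r y n) ≤ lam (x - y) := by
  rw [← le_himp_iff]
  exact inf_le_right.trans ((iInf_le _ x).trans ((iInf_le _ y).trans (iInf_le _ n)))

/-- The coverings of all the members of a sequence, simultaneously. -/
theorem exists_bPart_seq (V : ℕ → G → B) :
    ∃ r : ℕ → G → ℕ → B, ∀ n, bGSeq V ≤ bPart (V n) (r n) := by
  choose r hr using fun n => exists_bPart (V n)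
  exact ⟨r, fun n => (bGSeq_idx V n).trans (hr n)⟩

/-- A sequence as in the definition which is closed under sums (passing to the even members). -/
theorem bGSeq_even (V : ℕ → G → B) :
    ∃ r : ℕ → G → ℕ → B,
      bGSeq V ≤ (⨅ n, V (2 * n) 0) ⊓
        (⨅ n, ⨅ x, V (2 * (n + 1)) x ⇨ V (2 * n) (-x)) ⊓
        (⨅ n, ⨅ x, ⨅ y, (V (2 * (n + 1)) x ⊓ V (2 * (n + 1)) y) ⇨ V (2 * n) (x + y)) ⊓
        ((⨅ n, ⨅ x, ⨆ j, r n x j) ⊓
          ⨅ n, ⨅ x, ⨅ y, ⨅ j, (r n x j ⊓ r n y j) ⇨ V (2 * n) (x - y)) := by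
  obtain ⟨r, hr⟩ := exists_bPart_seq V
  refine ⟨fun n => r (2 * n), le_inf (le_inf (le_inf ?_ ?_) ?_) (le_inf ?_ ?_)⟩
  · exact le_iInf fun n => bGSeq_zero V _
  · refine le_iInf fun n => le_iInf fun x => ?_
    rw [le_himp_iff]
    have h1 : bGSeq V ⊓ V (2 * n + 2) x ≤ V (2 * n + 1) x := bGSeq_mono V _ x
    exact (le_inf inf_le_left h1).trans (bGSeq_neg V _ x)
  · refine le_iInf fun n => le_iInf fun x => le_iInf fun y => ?_
    rw [le_himp_iff]
    exact bGSeq_add V (2 * n) x y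
  · exact le_iInf fun n => le_iInf fun x => (hr _).trans (bPart_tot _ _ x)
  · refine le_iInf fun n => le_iInf fun x => le_iInf fun y => le_iInf fun j => ?_
    rw [le_himp_iff]
    exact (inf_le_inf_right _ (hr _)).trans (bPart_sub _ _ x y j)

/-- A subgroup of countable index is a neighbourhood of zero. -/
theorem bSub_bIdx_le_bGNbhd (hG : ∃ m : ℕ, m ≠ 0 ∧ ∀ x : G, m • x = 0) (lam : G → B) :
    bSub lam ⊓ bIdx lam ≤ bGNbhd lam := by
  unfold bGNbhd
  refine le_iSup_of_le (fun _ => lam) ?_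
  refine le_inf (le_inf ?_ (le_iInf fun _ => inf_le_right)) ?_
  · refine le_iInf fun _ => le_iInf fun x => le_iInf fun y => ?_
    rw [le_himp_iff]
    obtain ⟨m, hm0, hm⟩ := hG
    have hadd : ∀ x y, bSub lam ⊓ (lam x ⊓ lam y) ≤ lam (x + y) := by
      intro x y
      rw [← le_himp_iff]
      exact inf_le_right.trans ((iInf_le _ x).trans (iInf_le _ y))
    have hmul : ∀ k : ℕ, bSub lam ⊓ lam y ≤ lam (k • y) := by
      intro k
      induction k with
      | zero =>
        rw [zero_smul]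
        exact inf_le_left.trans inf_le_left
      | succ k ih =>
        rw [succ_nsmul]
        exact (le_inf inf_le_left (le_inf ih inf_le_right)).trans (hadd _ _)
    have hneg : (m - 1) • y = -y := by
      rw [eq_neg_iff_add_eq_zero, ← succ_nsmul, Nat.sub_add_cancel (Nat.one_le_iff_ne_zero.2 hm0)]
      exact hm y
    rw [sub_eq_add_neg]
    refine le_trans ?_ (hadd x (-y))
    refine le_inf (inf_le_left.trans inf_le_left) (le_inf (inf_le_right.trans inf_le_left) ?_)
    rw [← hneg]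
    refine le_trans ?_ (hmul (m - 1))
    exact le_inf (inf_le_left.trans inf_le_left) (inf_le_right.trans inf_le_right)
  · refine le_iInf fun x => ?_
    rw [himp_self]
    exact le_top

/-- `GR`: every neighbourhood of zero contains a subgroup of countable index. -/
def GRstmt (B : Type) [CompleteBooleanAlgebra B] (G : Type) [AddCommGroup G] : Prop :=
  ∀ V : ℕ → G → B, bGSeq V ≤ ⨆ mu : G → B, bSub mu ⊓ bIdx mu ⊓ ⨅ x, mu x ⇨ V 0 x

theorem GRstmt.nbhd (h : GRstmt B G) (U : G → B) :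
    bGNbhd U ≤ ⨆ mu : G → B, bSub mu ⊓ bIdx mu ⊓ ⨅ x, mu x ⇨ U x := by
  unfold bGNbhd
  refine iSup_le fun V => ?_
  refine (inf_le_inf_right _ (h V)).trans ?_
  rw [iSup_inf_eq]
  refine iSup_mono fun mu => ?_
  refine le_inf (inf_le_left.trans inf_le_left) ?_
  refine le_iInf fun x => ?_
  rw [le_himp_iff]
  have h1 : ((bSub mu ⊓ bIdx mu) ⊓ ⨅ x, mu x ⇨ V 0 x) ⊓ mu x ≤ V 0 x := by
    rw [← le_himp_iff]
    exact inf_le_right.trans (iInf_le _ x)
  have h2 : (⨅ x, V 0 x ⇨ U x) ⊓ V 0 x ≤ U x := by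
    rw [← le_himp_iff]
    exact iInf_le _ x
  refine le_trans ?_ h2
  refine le_inf (inf_le_left.trans inf_le_right) ?_
  refine le_trans ?_ h1
  exact le_inf (inf_le_left.trans inf_le_left) inf_le_right

/-- If every neighbourhood of zero contains a subgroup of countable index in both groups, then
continuity for the pro-countable topologies implies continuity for the finest `ℵ₀`-bounded group
topologies. -/
theorem bCont_le_bGCont (hG : ∃ m : ℕ, m ≠ 0 ∧ ∀ x : G, m • x = 0) (hH : GRstmt B H)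
    (F : G → H → B) : bCont F ≤ bGCont F := by
  refine le_iInf fun x => le_iInf fun y => ?_
  refine ((iInf_le _ x).trans (iInf_le _ y)).trans (himp_le_himp_left ?_)
  refine le_iInf fun U => ?_
  rw [le_himp_iff]
  refine (inf_le_inf_left _ (hH.nbhd U)).trans ?_
  rw [inf_iSup_eq]
  refine iSup_le fun mu => ?_
  have h1 : (⨅ lam : H → B, (bSub lam ⊓ bIdx lam) ⇨
      ⨆ kap : G → B, bSub kap ⊓ bIdx kap ⊓
        ⨅ z, ⨅ w, (kap z ⊓ F (x + z) w) ⇨ lam (w - y)) ⊓ (bSub mu ⊓ bIdx mu) ≤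
      ⨆ kap : G → B, bSub kap ⊓ bIdx kap ⊓
        ⨅ z, ⨅ w, (kap z ⊓ F (x + z) w) ⇨ mu (w - y) := by
    rw [← le_himp_iff]
    exact iInf_le _ mu
  rw [← inf_assoc]
  refine (inf_le_inf_right _ h1).trans ?_
  rw [iSup_inf_eq]
  refine iSup_mono fun kap => ?_
  refine le_inf ?_ ?_
  · exact (inf_le_left.trans inf_le_left).trans (bSub_bIdx_le_bGNbhd hG kap)
  · refine le_iInf fun z => le_iInf fun w => ?_
    rw [le_himp_iff]
    have h2 : (⨅ z, ⨅ w, (kap z ⊓ F (x + z) w) ⇨ mu (w - y)) ⊓ (kap z ⊓ F (x + z) w) ≤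
        mu (w - y) := by
      rw [← le_himp_iff]
      exact (iInf_le _ z).trans (iInf_le _ w)
    have h3 : (⨅ x, mu x ⇨ U x) ⊓ mu (w - y) ≤ U (w - y) := by
      rw [← le_himp_iff]
      exact iInf_le _ _
    refine le_trans ?_ h3
    refine le_inf (inf_le_left.trans inf_le_right) ?_
    refine le_trans ?_ h2
    exact le_inf ((inf_le_left.trans inf_le_left).trans inf_le_right) inf_le_right

/-- The positive model for the second question is a positive model for the first question, when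
the neighbourhoods of zero contain subgroups of countable index. -/
theorem bHomeo_le_bGHomeo (hG : ∃ m : ℕ, m ≠ 0 ∧ ∀ x : G, m • x = 0)
    (hH : ∃ m : ℕ, m ≠ 0 ∧ ∀ x : H, m • x = 0) (gG : GRstmt B G) (gH : GRstmt B H) :
    bHomeo B G H ≤ bGHomeo B G H := by
  refine iSup_mono fun F => ?_
  refine le_inf (le_inf (inf_le_left.trans inf_le_left) ?_) ?_
  · exact (inf_le_left.trans inf_le_right).trans (bCont_le_bGCont hG gH F)
  · exact inf_le_right.trans (bCont_le_bGCont hH gG _)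

end basic

end M3
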