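import Pool.Agent.H.MP_8ff4bd_gt.M3.NO1Core
import Pool.Agent.H.MP_8ff4bd_gt.M3.SO1

/-!
# The negative model for the finest `ℵ₀`-bounded group topologies
-/

set_option autoImplicit false

namespace M3

open Classical H98m

/-- A supremum that meets a non-zero element has a member that meets it. -/
theorem exists_inf_ne_bot {B : Type} [CompleteBooleanAlgebra B] {X : Sort*} {f : X → B} {p : B}
    (hp : p ≠ ⊥) (h : p ≤ ⨆ x, f x) : ∃ x, p ⊓ f x ≠ ⊥ := by
  by_contra hcon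
  push Not at hcon
  apply hp
  rw [← inf_eq_left.2 h, inf_iSup_eq, iSup_eq_bot]
  exact hcon

theorem bGNbhd_lamB (i : Set W1) : bGNbhd (lamB (W := W1) i) = ⊤ := by
  rw [eq_top_iff]
  unfold bGNbhd
  refine le_iSup_of_le (fun _ => lamB i) (le_inf (le_inf ?_ ?_) ?_)
  · refine le_iInf fun n => le_iInf fun x => le_iInf fun y => ?_
    intro p _
    rw [RO.forces_himp]
    intro q _ h
    rw [RO.forces_inf] at h
    beta_reduce at h ⊢
    unfold lamB at h ⊢
    rw [forces_vecVal] at h ⊢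
    intro r hr hd
    obtain ⟨s, hs, h1, h2, h3⟩ := exists_dec₂ i r x y (x - y)
    have e1 := h.1 s (hs.trans hr) h1
    have e2 := h.2 s (hs.trans hr) h2
    rw [← vec_congr i hs hd, map_sub, e1, e2, sub_zero]
  · refine le_iInf fun n => ?_
    rw [bIdx_lamB]
  · refine le_iInf fun x => ?_
    rw [himp_self]

/-- **The negative model for the first question.** -/
theorem bGHomeo_cohen : bGHomeo BCohen (W1 →₀ ZMod 2) (W1 →₀ ZMod 3) = ⊥ := by
  by_contra hne
  unfold bGHomeo at hne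
  obtain ⟨F, hF⟩ := exists_inf_ne_bot hne le_rfl
  have hF' : bBij F ⊓ bGCont F ⊓ bGCont (fun y x => F x y) ≠ ⊥ := fun h =>
    hF (by rw [h, inf_bot_eq])
  have hb1 : bBij F ⊓ bGCont F ≠ ⊥ := fun h => hF' (by rw [h, bot_inf_eq])
  have htotal : bBij F ≤ ⨆ y, F 0 y := (inf_le_left.trans inf_le_left).trans (iInf_le _ 0)
  obtain ⟨y0, hy0⟩ := exists_inf_ne_bot hb1 (inf_le_left.trans htotal)
  set p : BCohen := bBij F ⊓ bGCont F ⊓ F 0 y0 with hp
  have hpB : p ≤ bBij F := inf_le_left.trans inf_le_left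
  have hpC : p ≤ bGCont F := inf_le_left.trans inf_le_right
  have hpF : p ≤ F 0 y0 := inf_le_right
  refine noCont hy0 hpB y0 fun i p' hp' hne' => ?_
  have hc1 : p' ≤ ⨆ kap : (W1 →₀ ZMod 2) → BCohen, bGNbhd kap ⊓
      ⨅ z, ⨅ w, (kap z ⊓ F (0 + z) w) ⇨ lamB i (w - y0) := by
    have h1 : p ≤ F 0 y0 ⇨ ⨅ lam : (W1 →₀ ZMod 3) → BCohen, bGNbhd lam ⇨
        ⨆ kap : (W1 →₀ ZMod 2) → BCohen, bGNbhd kap ⊓
          ⨅ z, ⨅ w, (kap z ⊓ F (0 + z) w) ⇨ lam (w - y0) :=
      hpC.trans ((iInf_le _ 0).trans (iInf_le _ y0))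
    have h2 := le_himp_iff.1 h1
    rw [inf_eq_left.2 hpF] at h2
    have h3 := h2.trans (iInf_le _ (lamB i))
    have h4 := le_himp_iff.1 h3
    rw [bGNbhd_lamB, inf_top_eq] at h4
    exact hp'.trans h4
  obtain ⟨kap, hkap⟩ := exists_inf_ne_bot hne' hc1
  set p1 := p' ⊓ (bGNbhd kap ⊓ ⨅ z, ⨅ w, (kap z ⊓ F (0 + z) w) ⇨ lamB i (w - y0)) with hp1
  have hp1N : p1 ≤ bGNbhd kap := inf_le_right.trans inf_le_left
  have hp1W : p1 ≤ ⨅ z, ⨅ w, (kap z ⊓ F (0 + z) w) ⇨ lamB i (w - y0) :=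
    inf_le_right.trans inf_le_right
  obtain ⟨V, hV⟩ := exists_inf_ne_bot hkap hp1N
  set p2 := p1 ⊓ (bGSeq V ⊓ ⨅ x, V 0 x ⇨ kap x) with hp2
  have hp2S : p2 ≤ bGSeq V := inf_le_right.trans inf_le_left
  have hp2K : ∀ x, p2 ⊓ V 0 x ≤ kap x := fun x => by
    rw [← le_himp_iff]
    exact (inf_le_right.trans inf_le_right).trans (iInf_le _ x)
  obtain ⟨r, hr⟩ := exists_inf_ne_bot hV (hp2S.trans (bGSeq_idx V 1))
  set p3 := p2 ⊓ ((⨅ x, ⨆ n, r x n) ⊓ ⨅ x, ⨅ y, ⨅ n, (r x n ⊓ r y n) ⇨ V 1 (x - y)) with hp3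
  have hp3r : ∀ x y n, p3 ⊓ (r x n ⊓ r y n) ≤ V 1 (x - y) := fun x y n => by
    rw [← le_himp_iff]
    exact (inf_le_right.trans inf_le_right).trans
      ((iInf_le _ x).trans ((iInf_le _ y).trans (iInf_le _ n)))
  refine ⟨p3, inf_le_left.trans (inf_le_left.trans inf_le_left), hr, kap,
    fun a n => r (Finsupp.single a 1) n, ?_, ?_, ?_⟩
  · intro a
    exact (inf_le_right.trans inf_le_left).trans (iInf_le _ _)
  · intro a b c d m n
    have h1 : p3 ⊓ (r (Finsupp.single a 1) m ⊓ r (Finsupp.single b 1) m ⊓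
        (r (Finsupp.single c 1) n ⊓ r (Finsupp.single d 1) n)) ≤
        V 1 (Finsupp.single a 1 - Finsupp.single b 1) :=
      le_trans (inf_le_inf_left _ inf_le_left) (hp3r _ _ m)
    have h2 : p3 ⊓ (r (Finsupp.single a 1) m ⊓ r (Finsupp.single b 1) m ⊓
        (r (Finsupp.single c 1) n ⊓ r (Finsupp.single d 1) n)) ≤
        V 1 (Finsupp.single d 1 - Finsupp.single c 1) := by
      refine le_trans (inf_le_inf_left _ inf_le_right) ?_
      rw [inf_comm (r (Finsupp.single c 1) n)]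
      exact hp3r _ _ n
    have h3 := bGSeq_step V 0 (Finsupp.single a 1 - Finsupp.single b 1)
      (Finsupp.single d 1 - Finsupp.single c 1)
    have h4 : (Finsupp.single a 1 - Finsupp.single b 1 : W1 →₀ ZMod 2) +
        (Finsupp.single c 1 - Finsupp.single d 1) =
        Finsupp.single a 1 - Finsupp.single b 1 -
        (Finsupp.single d 1 - Finsupp.single c 1) := by abel
    rw [h4]
    refine le_trans ?_ (hp2K _)
    exact le_inf (inf_le_left.trans inf_le_left)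
      ((le_inf ((inf_le_left.trans inf_le_left).trans hp2S) (le_inf h1 h2)).trans h3)
  · intro z w
    rw [← le_himp_iff]
    have h1 := (hp1W.trans (iInf_le _ z)).trans (iInf_le _ w)
    rw [zero_add] at h1
    exact (inf_le_left.trans inf_le_left).trans h1

/-- The negative model for the first question. -/
theorem NO1 : ∃ (B : Type) (_ : CompleteBooleanAlgebra B) (_ : Nontrivial B), BCCC B ∧
    bGHomeo B (W1 →₀ ZMod 2) (W1 →₀ ZMod 3) = ⊥ :=
  ⟨BCohen, inferInstance, inferInstance, bccc_cohen, bGHomeo_cohen⟩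

/-- The statement used by the final theorem for both questions: one algebra in which both
homeomorphism statements have the value `⊥`. -/
theorem NO_both : ∃ (B : Type) (_ : CompleteBooleanAlgebra B) (_ : Nontrivial B), BCCC B ∧
    bHomeo B (W1 →₀ ZMod 2) (W1 →₀ ZMod 3) = ⊥ ∧
    bGHomeo B (W1 →₀ ZMod 2) (W1 →₀ ZMod 3) = ⊥ :=
  ⟨BCohen, inferInstance, inferInstance, bccc_cohen, bHomeo_cohen, bGHomeo_cohen⟩

end M3
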