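import Pool.Agent.H.MP_8ff4bd_gt.M3.TR
import Pool.Agent.H.MP_8ff4bd_gt.M3.PropZF
import Pool.Agent.H.MP_8ff4bd_gt.M3.S.SentenceB

/-!
# The sentence in the universe of sets

Over the two-element Boolean algebra the second-order form of the homeomorphism statement says that
the two groups are homeomorphic for their pro-countable topologies, and so does the first-order
sentence in the universe `ZFSet` of sets.
-/

set_option autoImplicit false

namespace M3

open Pool.Agent.H.MP_8ff4bd_gt.M3

/-- A subgroup has countable index if and only if some map to the natural numbers separates its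
cosets. -/
theorem countable_quot_iff {G : Type} [AddCommGroup G] (L : AddSubgroup G) :
    Countable (G ⧸ L) ↔ ∃ c : G → ℕ, ∀ x y, c x = c y → x - y ∈ L := by
  constructor
  · intro h
    obtain ⟨f, hf⟩ := Countable.exists_injective_nat (G ⧸ L)
    refine ⟨fun x => f (x : G ⧸ L), fun x y hxy => ?_⟩
    have h1 : (y : G ⧸ L) = (x : G ⧸ L) := hf hxy.symm
    rw [QuotientAddGroup.eq] at h1
    have : x - y = -y + x := by abel
    rw [this]; exact h1
  · rintro ⟨c, hc⟩
    have hinj : Function.Injective (fun q : G ⧸ L => c q.out) := by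
      intro q q' h
      have h4 : q.out - q'.out ∈ L := hc _ _ h
      have h5 : (q'.out : G ⧸ L) = (q.out : G ⧸ L) := by
        rw [QuotientAddGroup.eq]
        have : -q'.out + q.out = q.out - q'.out := by abel
        rw [this]; exact h4
      rw [QuotientAddGroup.out_eq', QuotientAddGroup.out_eq'] at h5
      exact h5.symm
    exact hinj.countable

/-- The intersection of two subgroups of countable index has countable index. -/
theorem countable_quot_inf {G : Type} [AddCommGroup G] {L L' : AddSubgroup G}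
    (h : Countable (G ⧸ L)) (h' : Countable (G ⧸ L')) : Countable (G ⧸ (L ⊓ L')) := by
  rw [countable_quot_iff] at h h' ⊢
  obtain ⟨c, hc⟩ := h
  obtain ⟨c', hc'⟩ := h'
  refine ⟨fun x => Nat.pair (c x) (c' x), fun x y hxy => ?_⟩
  have h1 := Nat.pair_eq_pair.1 hxy
  exact ⟨hc x y h1.1, hc' x y h1.2⟩

/-- The pro-countable topology of an abelian group: a set is open if and only if together with
every point `x` it contains a coset `x + L` of a subgroup `L` of countable index. -/
@[reducible] def proCountable (G : Type) [AddCommGroup G] : TopologicalSpace G where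
  IsOpen U := ∀ x ∈ U, ∃ L : AddSubgroup G, Countable (G ⧸ L) ∧ ∀ l ∈ L, x + l ∈ U
  isOpen_univ := fun x _ => ⟨⊤, inferInstance, fun _ _ => Set.mem_univ _⟩
  isOpen_inter := fun U V hU hV x hx => by
    obtain ⟨L, hL, h1⟩ := hU x hx.1
    obtain ⟨L', hL', h2⟩ := hV x hx.2
    exact ⟨L ⊓ L', countable_quot_inf hL hL', fun l hl => ⟨h1 l hl.1, h2 l hl.2⟩⟩
  isOpen_sUnion := fun S hS x ⟨U, hU, hx⟩ => by
    obtain ⟨L, hL, h⟩ := hS U hU x hx
    exact ⟨L, hL, fun l hl => ⟨U, hU, h l hl⟩⟩

theorem isOpen_proCountable_iff {G : Type} [AddCommGroup G] (U : Set G) :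
    @IsOpen G (proCountable G) U ↔
      ∀ x ∈ U, ∃ L : AddSubgroup G, Countable (G ⧸ L) ∧ ∀ l ∈ L, x + l ∈ U := Iff.rfl

/-- Cosets of subgroups of countable index are open. -/
theorem isOpen_coset {G : Type} [AddCommGroup G] (L : AddSubgroup G) (hL : Countable (G ⧸ L))
    (x : G) : @IsOpen G (proCountable G) {y | y - x ∈ L} := by
  rw [isOpen_proCountable_iff]
  intro y hy
  refine ⟨L, hL, fun l hl => ?_⟩
  show y + l - x ∈ L
  have : y + l - x = (y - x) + l := by abel
  rw [this]
  exact L.add_mem hy hl

/-- The subgroups of countable index are a base of neighbourhoods of zero. -/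
theorem nhds_zero_proCountable {G : Type} [AddCommGroup G] :
    (@nhds G (proCountable G) 0).HasBasis (fun L : AddSubgroup G => Countable (G ⧸ L))
      (fun L => (L : Set G)) := by
  let _ := proCountable G
  refine ⟨fun U => ?_⟩
  rw [mem_nhds_iff]
  constructor
  · rintro ⟨V, hVU, hV, h0⟩
    obtain ⟨L, hL, h⟩ := (isOpen_proCountable_iff V).1 hV 0 h0
    refine ⟨L, hL, fun l hl => hVU ?_⟩
    have := h l hl
    rwa [zero_add] at this
  · rintro ⟨L, hL, h⟩
    refine ⟨{y | y - 0 ∈ L}, fun y hy => h ?_, isOpen_coset L hL 0, ?_⟩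
    · have hy' : y - 0 ∈ L := hy
      rwa [sub_zero] at hy'
    · show (0 : G) - 0 ∈ L
      rw [sub_zero]; exact L.zero_mem

/-- The pro-countable topology is a group topology. -/
theorem isTopologicalAddGroup_proCountable {G : Type} [AddCommGroup G] :
    @IsTopologicalAddGroup G (proCountable G) _ := by
  let _ := proCountable G
  refine { continuous_add := ?_, continuous_neg := ?_ }
  · refine continuous_def.2 fun U hU => ?_
    rw [isOpen_prod_iff]
    intro x y hxy
    obtain ⟨L, hL, h⟩ := (isOpen_proCountable_iff U).1 hU (x + y) hxy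
    refine ⟨{z | z - x ∈ L}, {z | z - y ∈ L}, isOpen_coset L hL x, isOpen_coset L hL y, ?_, ?_, ?_⟩
    · show x - x ∈ L
      rw [sub_self]; exact L.zero_mem
    · show y - y ∈ L
      rw [sub_self]; exact L.zero_mem
    · rintro ⟨a, b⟩ ⟨ha, hb⟩
      show a + b ∈ U
      have h1 := h ((a - x) + (b - y)) (L.add_mem ha hb)
      have h2 : x + y + ((a - x) + (b - y)) = a + b := by abel
      rwa [h2] at h1
  · refine continuous_def.2 fun U hU => ?_
    rw [isOpen_proCountable_iff]
    intro x hx
    obtain ⟨L, hL, h⟩ := (isOpen_proCountable_iff U).1 hU (-x) hx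
    refine ⟨L, hL, fun l hl => ?_⟩
    show -(x + l) ∈ U
    have h1 := h (-l) (L.neg_mem hl)
    have h2 : -x + -l = -(x + l) := by abel
    rwa [h2] at h1

/-! ### The Boolean-valued form over `Prop` -/

theorem bSub_prop {G : Type} [AddCommGroup G] (lam : G → Prop) :
    bSub lam ↔ lam 0 ∧ ∀ x y, lam x → lam y → lam (x + y) := by
  unfold bSub
  simp only [inf_Prop_eq, iInf_Prop_eq, himp_iff_imp, and_imp]

theorem bIdx_prop {G : Type} [AddCommGroup G] (lam : G → Prop) :
    bIdx lam ↔ ∃ r : G → ℕ → Prop, (∀ x, ∃ n, r x n) ∧ ∀ x y n, r x n → r y n → lam (x - y) := by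
  unfold bIdx
  simp only [inf_Prop_eq, iInf_Prop_eq, iSup_Prop_eq, himp_iff_imp, and_imp]

/-- A subgroup from a predicate closed under addition, in a group of finite exponent. -/
def subOf {G : Type} [AddCommGroup G] {m : ℕ} (hm : 0 < m) (hG : ∀ x : G, m • x = 0)
    (lam : G → Prop) (h : bSub lam) : AddSubgroup G where
  carrier := {x | lam x}
  zero_mem' := ((bSub_prop lam).1 h).1
  add_mem' := fun {x y} hx hy => ((bSub_prop lam).1 h).2 x y hx hy
  neg_mem' := fun {x} hx => by
    have h1 : ∀ k : ℕ, lam (k • x) := by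
      intro k
      induction k with
      | zero => rw [zero_smul]; exact ((bSub_prop lam).1 h).1
      | succ k ih => rw [succ_nsmul]; exact ((bSub_prop lam).1 h).2 _ _ ih hx
    have h2 : -x = (m - 1) • x := by
      have h3 : (m - 1) • x + x = 0 := by
        rw [← succ_nsmul, Nat.sub_add_cancel hm, hG]
      exact (eq_neg_of_add_eq_zero_left h3).symm
    show lam (-x)
    rw [h2]; exact h1 _

theorem bIdx_iff {G : Type} [AddCommGroup G] (L : AddSubgroup G) :
    bIdx (fun x => x ∈ L) ↔ Countable (G ⧸ L) := by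
  rw [bIdx_prop, countable_quot_iff]
  constructor
  · rintro ⟨r, h1, h2⟩
    choose c hc using h1
    exact ⟨c, fun x y h => h2 x y (c x) (hc x) (h ▸ hc y)⟩
  · rintro ⟨c, hc⟩
    exact ⟨fun x n => c x = n, fun x => ⟨_, rfl⟩, fun x y n hx hy => hc x y (hx.trans hy.symm)⟩

theorem bCont_prop {G H : Type} [AddCommGroup G] [AddCommGroup H] (F : G → H → Prop) :
    bCont F ↔ ∀ x y, F x y → ∀ lam : H → Prop, bSub lam → bIdx lam →
      ∃ kap : G → Prop, bSub kap ∧ bIdx kap ∧ ∀ z w, kap z → F (x + z) w → lam (w - y) := by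
  unfold bCont
  simp only [inf_Prop_eq, iInf_Prop_eq, iSup_Prop_eq, himp_iff_imp, and_imp, and_assoc]

theorem bBij_prop {G H : Type} [AddCommGroup G] [AddCommGroup H] (F : G → H → Prop) :
    bBij F ↔ (∀ x, ∃ y, F x y) ∧ (∀ x y y', y ≠ y' → ¬ (F x y ∧ F x y')) ∧
      (∀ y, ∃ x, F x y) ∧ (∀ y x x', x ≠ x' → ¬ (F x y ∧ F x' y)) := by
  unfold bBij
  simp only [inf_Prop_eq, iInf_Prop_eq, iSup_Prop_eq, compl_iff_not, and_assoc]

/-- Continuity of a map in the Boolean-valued form over `Prop`. -/
theorem bCont_iff {G H : Type} [AddCommGroup G] [AddCommGroup H] {m n : ℕ} (hm : 0 < m)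
    (hG : ∀ x : G, m • x = 0) (hn : 0 < n) (hH : ∀ x : H, n • x = 0) (F : G → H → Prop)
    (f : G → H) (hf : ∀ x y, F x y ↔ f x = y) :
    bCont F ↔ @Continuous G H (proCountable G) (proCountable H) f := by
  let _ := proCountable G
  let _ := proCountable H
  rw [bCont_prop]
  constructor
  · intro h
    refine continuous_def.2 fun V hV => ?_
    rw [isOpen_proCountable_iff]
    intro x hx
    obtain ⟨L, hL, hLV⟩ := (isOpen_proCountable_iff V).1 hV (f x) hx
    obtain ⟨kap, hk1, hk2, hk3⟩ := h x (f x) ((hf _ _).2 rfl) (fun y => y ∈ L)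
      ((bSub_prop _).2 ⟨L.zero_mem, fun _ _ => L.add_mem⟩) ((bIdx_iff L).2 hL)
    refine ⟨subOf hm hG kap hk1, (bIdx_iff _).1 hk2, fun z hz => ?_⟩
    have h1 := hk3 z (f (x + z)) hz ((hf _ _).2 rfl)
    have h2 := hLV _ h1
    show f (x + z) ∈ V
    rwa [add_sub_cancel] at h2
  · intro h x y hxy lam h1 h2
    rw [hf] at hxy
    subst hxy
    have hV := isOpen_coset (subOf hn hH lam h1) ((bIdx_iff (subOf hn hH lam h1)).1 h2) (f x)
    have hU := (isOpen_proCountable_iff _).1 (hV.preimage h) x (by
      show f x - f x ∈ subOf hn hH lam h1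
      rw [sub_self]; exact AddSubgroup.zero_mem _)
    obtain ⟨K, hK, hKV⟩ := hU
    refine ⟨fun z => z ∈ K, (bSub_prop _).2 ⟨K.zero_mem, fun _ _ => K.add_mem⟩,
      (bIdx_iff K).2 hK, fun z w hz hw => ?_⟩
    rw [hf] at hw
    subst hw
    exact hKV z hz

/-- The second-order form over the two-element algebra is the existence of a homeomorphism. -/
theorem bHomeo_prop_iff {G H : Type} [AddCommGroup G] [AddCommGroup H] {m n : ℕ} (hm : 0 < m)
    (hG : ∀ x : G, m • x = 0) (hn : 0 < n) (hH : ∀ x : H, n • x = 0) :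
    bHomeo Prop G H ↔ Nonempty (@Homeomorph G H (proCountable G) (proCountable H)) := by
  let _ := proCountable G
  let _ := proCountable H
  have h0 : bHomeo Prop G H ↔ ∃ F : G → H → Prop, bBij F ∧ bCont F ∧ bCont (fun y x => F x y) := by
    unfold bHomeo
    simp only [inf_Prop_eq, iSup_Prop_eq, and_assoc]
  rw [h0]
  constructor
  · rintro ⟨F, h1, h2, h3⟩
    rw [bBij_prop] at h1
    obtain ⟨ht, hu, hs, hi⟩ := h1
    choose f hf using ht
    choose g hg using hs
    have hfF : ∀ x y, F x y ↔ f x = y := by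
      intro x y
      constructor
      · intro h
        by_contra hne
        exact hu x _ _ hne ⟨hf x, h⟩
      · rintro rfl
        exact hf x
    have hgF : ∀ y x, F x y ↔ g y = x := by
      intro y x
      constructor
      · intro h
        by_contra hne
        exact hi y _ _ hne ⟨hg y, h⟩
      · rintro rfl
        exact hg y
    refine ⟨{ toFun := f, invFun := g, left_inv := fun x => (hgF _ _).1 (hf x), right_inv :=
      fun y => (hfF _ _).1 (hg y), continuous_toFun := ?_, continuous_invFun := ?_ }⟩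
    · exact (bCont_iff hm hG hn hH F f hfF).1 h2
    · exact (bCont_iff hn hH hm hG (fun y x => F x y) g hgF).1 h3
  · rintro ⟨e⟩
    refine ⟨fun x y => e x = y, ?_, ?_, ?_⟩
    · rw [bBij_prop]
      refine ⟨fun x => ⟨_, rfl⟩, fun x y y' hne h => hne (h.1.symm.trans h.2),
        fun y => ⟨e.symm y, e.apply_symm_apply y⟩, fun y x x' hne h => hne ?_⟩
      exact e.injective (h.1.trans h.2.symm)
    · exact (bCont_iff hm hG hn hH _ e (fun _ _ => Iff.rfl)).2 e.continuous
    · refine (bCont_iff hn hH hm hG _ e.symm (fun y x => ?_)).2 e.symm.continuous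
      constructor
      · rintro rfl; exact e.symm_apply_apply x
      · rintro rfl; exact e.apply_symm_apply y

/-! ### The sentence in the universe of sets -/

theorem bccc_prop : BCCC Prop := by
  intro A h1 _
  have h2 : A ⊆ {True} := by
    intro a ha
    have h3 : a ≠ False := h1 a ha
    have h4 : a = True := by
      by_cases h : a
      · exact eq_true h
      · exact absurd (eq_false h) h3
    exact h4
  exact (Set.countable_singleton _).mono h2

theorem zmod_exponent (m : ℕ) (x : W1 →₀ ZMod m) : m • x = 0 := by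
  ext i
  rw [Finsupp.smul_apply, Finsupp.zero_apply, nsmul_eq_mul, ZMod.natCast_self, zero_mul]

/-- In the universe `ZFSet` of sets the first-order sentence says that the direct sums of `ω₁`
copies of the cyclic groups of order two and three are homeomorphic for their pro-countable
topologies. -/
theorem sat_homeoSentence_iff_homeomorph :
    Sat (M := ZFSet.{0}) (· ∈ ·) homeoSentence ↔
      Nonempty (@Homeomorph (W1 →₀ ZMod 2) (W1 →₀ ZMod 3) (proCountable _) (proCountable _)) := by
  rw [BSet.sat_ZFSet_iff, BStr.bval_homeoSentence, BSet.bHomeo_eq bccc_prop]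
  exact bHomeo_prop_iff (m := 2) (n := 3) (by norm_num) (zmod_exponent 2) (by norm_num)
    (zmod_exponent 3)

end M3
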