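import Mathlib

/-!
# The finest `ℵ₀`-bounded group topology of an abelian group

A topological group is `ℵ₀`-bounded if for every non-empty open set `U` there is a countable set `A`
with `U + A` the whole group.  Every abelian group has a finest `ℵ₀`-bounded group topology, and we
describe its neighbourhoods of zero.
-/

set_option autoImplicit false

namespace M3

open Pointwise Topology

/-- The topology `t` on the abelian group `K` is an `ℵ₀`-bounded group topology: it is a group
topology, and for every non-empty open set `U` there is a countable set `A` with `U + A = K`. -/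
def IsBddGroupTopology (K : Type) [AddCommGroup K] (t : TopologicalSpace K) : Prop :=
  @IsTopologicalAddGroup K t _ ∧
    ∀ U : Set K, @IsOpen K t U → U.Nonempty → ∃ A : Set K, A.Countable ∧ U + A = Set.univ

/-- The finest `ℵ₀`-bounded group topology on the abelian group `K`.  (In the order on topologies
finer topologies are smaller; see `isLeast_finestBounded`.) -/
@[reducible] def finestBounded (K : Type) [AddCommGroup K] : TopologicalSpace K :=
  sInf {t | IsBddGroupTopology K t}

section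

variable {K : Type} [AddCommGroup K]

/-- Sequences of sets as in the description of the neighbourhoods of zero. -/
def SeqG (V : ℕ → Set K) : Prop :=
  (∀ n x y, x ∈ V (n + 1) → y ∈ V (n + 1) → x - y ∈ V n) ∧
    ∀ n, ∃ r : K → ℕ, ∀ x y, r x = r y → x - y ∈ V n

theorem SeqG.zero {V : ℕ → Set K} (h : SeqG V) (n : ℕ) : (0 : K) ∈ V n := by
  obtain ⟨r, hr⟩ := h.2 n
  have := hr 0 0 rfl
  rwa [sub_zero] at this

theorem SeqG.neg {V : ℕ → Set K} (h : SeqG V) {n : ℕ} {x : K} (hx : x ∈ V (n + 1)) :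
    -x ∈ V n := by
  have := h.1 n 0 x (h.zero _) hx
  rwa [zero_sub] at this

theorem SeqG.mono {V : ℕ → Set K} (h : SeqG V) (n : ℕ) : V (n + 1) ⊆ V n := by
  intro x hx
  have := h.1 n x 0 hx (h.zero _)
  rwa [sub_zero] at this

theorem SeqG.add {V : ℕ → Set K} (h : SeqG V) {n : ℕ} {x y : K} (hx : x ∈ V (n + 2))
    (hy : y ∈ V (n + 2)) : x + y ∈ V n := by
  have := h.1 n x (-y) (h.mono _ hx) (h.neg hy)
  rwa [sub_neg_eq_add] at this

theorem SeqG.shift {V : ℕ → Set K} (h : SeqG V) (k : ℕ) : SeqG (fun n => V (n + k)) := by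
  refine ⟨fun n x y hx hy => ?_, fun n => h.2 _⟩
  have e : n + 1 + k = n + k + 1 := by omega
  beta_reduce at hx hy ⊢
  rw [e] at hx hy
  exact h.1 _ x y hx hy

theorem SeqG.inter {V V' : ℕ → Set K} (h : SeqG V) (h' : SeqG V') :
    SeqG (fun n => V n ∩ V' n) := by
  refine ⟨fun n x y hx hy => ⟨h.1 n x y hx.1 hy.1, h'.1 n x y hx.2 hy.2⟩, fun n => ?_⟩
  obtain ⟨r, hr⟩ := h.2 n
  obtain ⟨r', hr'⟩ := h'.2 n
  refine ⟨fun x => Nat.pair (r x) (r' x), fun x y hxy => ?_⟩
  have h1 := Nat.pair_eq_pair.1 hxy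
  exact ⟨hr x y h1.1, hr' x y h1.2⟩

theorem seqG_univ : SeqG (fun _ => (Set.univ : Set K)) :=
  ⟨fun _ _ _ _ _ => trivial, fun _ => ⟨fun _ => 0, fun _ _ _ => trivial⟩⟩

variable (K)

/-- The first members of such sequences form a basis of a filter of neighbourhoods of zero. -/
@[reducible] def seqBasis : AddGroupFilterBasis K where
  sets := {U | ∃ V : ℕ → Set K, SeqG V ∧ U = V 0}
  nonempty := ⟨Set.univ, _, seqG_univ, rfl⟩
  inter_sets := by
    rintro _ _ ⟨V, hV, rfl⟩ ⟨V', hV', rfl⟩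
    exact ⟨V 0 ∩ V' 0, ⟨_, hV.inter hV', rfl⟩, subset_rfl⟩
  zero' := by
    rintro _ ⟨V, hV, rfl⟩
    exact hV.zero 0
  add' := by
    rintro _ ⟨V, hV, rfl⟩
    refine ⟨V 2, ⟨_, hV.shift 2, by simp⟩, ?_⟩
    rintro _ ⟨x, hx, y, hy, rfl⟩
    exact hV.add (n := 0) hx hy
  neg' := by
    rintro _ ⟨V, hV, rfl⟩
    refine ⟨V 1, ⟨_, hV.shift 1, by simp⟩, fun x hx => ?_⟩
    exact hV.neg (n := 0) hx
  conj' := by
    rintro x₀ _ ⟨V, hV, rfl⟩
    refine ⟨V 0, ⟨V, hV, rfl⟩, fun x hx => ?_⟩
    show x₀ + x + -x₀ ∈ V 0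
    have : x₀ + x + -x₀ = x := by abel
    rw [this]
    exact hx

variable {K}

theorem mem_nhds_seqBasis (U : Set K) :
    U ∈ @nhds K (seqBasis K).topology 0 ↔ ∃ V : ℕ → Set K, SeqG V ∧ V 0 ⊆ U := by
  rw [(seqBasis K).nhds_zero_hasBasis.mem_iff]
  constructor
  · rintro ⟨_, ⟨V, hV, rfl⟩, hU⟩
    exact ⟨V, hV, hU⟩
  · rintro ⟨V, hV, hU⟩
    exact ⟨V 0, ⟨V, hV, rfl⟩, hU⟩

/-- In an `ℵ₀`-bounded group topology every neighbourhood of zero contains the first member of such
a sequence. -/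
theorem exists_seqG {t : TopologicalSpace K} (ht : IsBddGroupTopology K t) {U : Set K}
    (hU : U ∈ @nhds K t 0) : ∃ V : ℕ → Set K, SeqG V ∧ V 0 ⊆ U := by
  obtain ⟨hg, hb⟩ := ht
  -- choose halves
  have hhalf : ∀ W : Set K, W ∈ 𝓝 (0 : K) → ∃ W' ∈ 𝓝 (0 : K), ∀ x ∈ W', ∀ y ∈ W', x - y ∈ W := by
    intro W hW
    obtain ⟨W', hW', h⟩ := exists_nhds_half_neg hW
    exact ⟨W', hW', h⟩
  choose! D hD1 hD2 using hhalf
  let V : ℕ → Set K := fun n => Nat.rec U (fun _ W => D W) n
  have hV : ∀ n, V n ∈ 𝓝 (0 : K) := by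
    intro n
    induction n with
    | zero => exact hU
    | succ n ih => exact hD1 _ ih
  have hVs : ∀ n x y, x ∈ V (n + 1) → y ∈ V (n + 1) → x - y ∈ V n := fun n x y hx hy =>
    hD2 _ (hV n) x hx y hy
  refine ⟨V, ⟨hVs, fun n => ?_⟩, subset_rfl⟩
  -- a countable cover by translates of the interior of the next member
  obtain ⟨A, hA, hcov⟩ := hb (interior (V (n + 1))) isOpen_interior
    ⟨0, mem_interior_iff_mem_nhds.2 (hV (n + 1))⟩
  have hex : ∀ x : K, ∃ a : A, x - a.1 ∈ V (n + 1) := by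
    intro x
    have hx : x ∈ interior (V (n + 1)) + A := by rw [hcov]; trivial
    obtain ⟨v, hv, a, ha, rfl⟩ := hx
    refine ⟨⟨a, ha⟩, ?_⟩
    show v + a - a ∈ V (n + 1)
    rw [add_sub_cancel_right]
    exact interior_subset hv
  choose a ha using hex
  have : Countable A := hA.to_subtype
  obtain ⟨f, hf⟩ := Countable.exists_injective_nat A
  refine ⟨fun x => f (a x), fun x y hxy => ?_⟩
  have h1 : a x = a y := hf hxy
  have h2 := hVs n _ _ (ha x) (ha y)
  rw [h1] at h2
  have h3 : x - (a y).1 - (y - (a y).1) = x - y := by abel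
  rwa [h3] at h2

/-- The topology given by the sequences is an `ℵ₀`-bounded group topology. -/
theorem isBdd_seqBasis : IsBddGroupTopology K (seqBasis K).topology := by
  refine ⟨(seqBasis K).isTopologicalAddGroup, ?_⟩
  let _ := (seqBasis K).topology
  have _ : IsTopologicalAddGroup K := (seqBasis K).isTopologicalAddGroup
  rintro U hU ⟨u, hu⟩
  have h0 : {z | u + z ∈ U} ∈ 𝓝 (0 : K) := by
    have h1 : U ∈ 𝓝 (u + 0) := by rw [add_zero]; exact hU.mem_nhds hu
    exact (continuous_const_add u).continuousAt h1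
  obtain ⟨V, hV, hVU⟩ := (mem_nhds_seqBasis _).1 h0
  obtain ⟨r, hr⟩ := hV.2 0
  -- representatives of the classes of `r`
  let rep : Set.range r → K := fun n => n.2.choose
  have hrep : ∀ n : Set.range r, r (rep n) = n.1 := fun n => n.2.choose_spec
  refine ⟨Set.range (fun n => rep n - u), Set.countable_range _, ?_⟩
  rw [Set.eq_univ_iff_forall]
  intro x
  have h1 : x - rep ⟨r x, x, rfl⟩ ∈ V 0 := hr _ _ (hrep ⟨r x, x, rfl⟩).symm
  have h2 : u + (x - rep ⟨r x, x, rfl⟩) ∈ U := hVU h1
  refine ⟨_, h2, rep ⟨r x, x, rfl⟩ - u, ⟨_, rfl⟩, ?_⟩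
  show u + (x - rep ⟨r x, x, rfl⟩) + (rep ⟨r x, x, rfl⟩ - u) = x
  abel

/-- The topology given by the sequences is finer than every `ℵ₀`-bounded group topology. -/
theorem seqBasis_le {t : TopologicalSpace K} (ht : IsBddGroupTopology K t) :
    (seqBasis K).topology ≤ t := by
  have hg1 : @IsTopologicalAddGroup K (seqBasis K).topology _ :=
    (seqBasis K).isTopologicalAddGroup
  have hg2 : @IsTopologicalAddGroup K t _ := ht.1
  rw [le_iff_nhds]
  intro x
  have e1 : @nhds K (seqBasis K).topology x =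
      Filter.map (x + ·) (@nhds K (seqBasis K).topology 0) :=
    (@map_add_left_nhds_zero K (seqBasis K).topology _ _ x).symm
  have e2 : @nhds K t x = Filter.map (x + ·) (@nhds K t 0) :=
    (@map_add_left_nhds_zero K t _ _ x).symm
  rw [e1, e2]
  refine Filter.map_mono ?_
  intro U hU
  exact (mem_nhds_seqBasis U).2 (exists_seqG ht hU)

theorem finestBounded_eq : finestBounded K = (seqBasis K).topology :=
  le_antisymm (sInf_le isBdd_seqBasis) (le_sInf fun _ ht => seqBasis_le ht)

/-- `finestBounded K` is an `ℵ₀`-bounded group topology, and it is finer than every other one. -/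
theorem isLeast_finestBounded :
    IsLeast {t : TopologicalSpace K | IsBddGroupTopology K t} (finestBounded K) := by
  rw [finestBounded_eq]
  exact ⟨isBdd_seqBasis, fun _ ht => seqBasis_le ht⟩

/-- The neighbourhoods of zero in the finest `ℵ₀`-bounded group topology. -/
theorem mem_nhds_finestBounded (U : Set K) :
    U ∈ @nhds K (finestBounded K) 0 ↔ ∃ V : ℕ → Set K, SeqG V ∧ V 0 ⊆ U := by
  rw [finestBounded_eq]
  exact mem_nhds_seqBasis U

theorem mem_nhds_finestBounded_iff (U : Set K) (x : K) :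
    U ∈ @nhds K (finestBounded K) x ↔ {z | x + z ∈ U} ∈ @nhds K (finestBounded K) 0 := by
  have hg : @IsTopologicalAddGroup K (finestBounded K) _ := isLeast_finestBounded.1.1
  have e1 : @nhds K (finestBounded K) x = Filter.map (x + ·) (@nhds K (finestBounded K) 0) :=
    (@map_add_left_nhds_zero K (finestBounded K) _ _ x).symm
  rw [e1]
  rfl

end

end M3
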