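import Pool.Agent.H.MP_8ff4bd_gt.M3.SO1
import Pool.Agent.H.MP_8ff4bd_gt.M3.FinestBdd
import Pool.Agent.H.MP_8ff4bd_gt.M3.Sanity

/-!
# The first question over the two-element Boolean algebra

Over the two-element Boolean algebra the second-order form of the homeomorphism statement for the
finest `ℵ₀`-bounded group topologies says that the two groups are homeomorphic for these topologies.
-/

set_option autoImplicit false

namespace M3

open Topology

theorem bGSeq_prop {G : Type} [AddCommGroup G] (V : ℕ → G → Prop) :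
    bGSeq V ↔ SeqG (fun n => {x | V n x}) := by
  unfold bGSeq SeqG
  simp only [inf_Prop_eq, iInf_Prop_eq, himp_iff_imp, and_imp, bIdx_prop, Set.mem_ofPred_eq]
  refine and_congr Iff.rfl (forall_congr' fun n => ?_)
  constructor
  · rintro ⟨r, h1, h2⟩
    choose c hc using h1
    exact ⟨c, fun x y h => h2 x y (c x) (hc x) (h ▸ hc y)⟩
  · rintro ⟨c, hc⟩
    exact ⟨fun x n => c x = n, fun x => ⟨_, rfl⟩, fun x y n hx hy => hc x y (hx.trans hy.symm)⟩

theorem bGNbhd_prop {G : Type} [AddCommGroup G] (U : G → Prop) :
    bGNbhd U ↔ {x | U x} ∈ @nhds G (finestBounded G) 0 := by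
  rw [mem_nhds_finestBounded]
  unfold bGNbhd
  simp only [inf_Prop_eq, iInf_Prop_eq, iSup_Prop_eq, himp_iff_imp, bGSeq_prop]
  constructor
  · rintro ⟨V, h1, h2⟩
    exact ⟨fun n => {x | V n x}, h1, fun x hx => h2 x hx⟩
  · rintro ⟨V, h1, h2⟩
    exact ⟨fun n x => x ∈ V n, h1, fun x hx => h2 hx⟩

theorem bGCont_prop {G H : Type} [AddCommGroup G] [AddCommGroup H] (F : G → H → Prop) :
    bGCont F ↔ ∀ x y, F x y → ∀ lam : H → Prop, bGNbhd lam →
      ∃ kap : G → Prop, bGNbhd kap ∧ ∀ z w, kap z → F (x + z) w → lam (w - y) := by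
  unfold bGCont
  simp only [inf_Prop_eq, iInf_Prop_eq, iSup_Prop_eq, himp_iff_imp, and_imp]

/-- Continuity of a map in the Boolean-valued form over `Prop`. -/
theorem bGCont_iff {G H : Type} [AddCommGroup G] [AddCommGroup H] (F : G → H → Prop)
    (f : G → H) (hf : ∀ x y, F x y ↔ f x = y) :
    bGCont F ↔ @Continuous G H (finestBounded G) (finestBounded H) f := by
  let _ := finestBounded G
  let _ := finestBounded H
  rw [bGCont_prop, continuous_iff_continuousAt]
  constructor
  · intro h x U hU
    have h1 : {w | f x + w ∈ U} ∈ @nhds H (finestBounded H) 0 :=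
      (mem_nhds_finestBounded_iff U (f x)).1 hU
    obtain ⟨kap, hk1, hk2⟩ := h x (f x) ((hf _ _).2 rfl) (fun w => f x + w ∈ U)
      ((bGNbhd_prop _).2 h1)
    have h2 : {z | f (x + z) ∈ U} ∈ @nhds G (finestBounded G) 0 := by
      refine Filter.mem_of_superset ((bGNbhd_prop kap).1 hk1) fun z hz => ?_
      have h3 := hk2 z (f (x + z)) hz ((hf _ _).2 rfl)
      show f (x + z) ∈ U
      beta_reduce at h3
      rwa [add_sub_cancel] at h3
    exact (mem_nhds_finestBounded_iff (f ⁻¹' U) x).2 h2
  · intro h x y hxy lam hlam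
    rw [hf] at hxy
    subst hxy
    have h1 : {w | lam w} ∈ @nhds H (finestBounded H) 0 := (bGNbhd_prop lam).1 hlam
    have h2 : {w | lam (w - f x)} ∈ @nhds H (finestBounded H) (f x) := by
      rw [mem_nhds_finestBounded_iff]
      refine Filter.mem_of_superset h1 fun w hw => ?_
      show lam (f x + w - f x)
      rw [add_sub_cancel_left]
      exact hw
    have h3 : {z | lam (f z - f x)} ∈ @nhds G (finestBounded G) x := h x h2
    have h4 := (mem_nhds_finestBounded_iff _ x).1 h3
    refine ⟨fun z => lam (f (x + z) - f x), (bGNbhd_prop _).2 h4, fun z w hz hw => ?_⟩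
    rw [hf] at hw
    subst hw
    exact hz

/-- The second-order form over the two-element algebra is the existence of a homeomorphism for the
finest `ℵ₀`-bounded group topologies. -/
theorem bGHomeo_prop_iff {G H : Type} [AddCommGroup G] [AddCommGroup H] :
    bGHomeo Prop G H ↔ Nonempty (@Homeomorph G H (finestBounded G) (finestBounded H)) := by
  let _ := finestBounded G
  let _ := finestBounded H
  have h0 : bGHomeo Prop G H ↔
      ∃ F : G → H → Prop, bBij F ∧ bGCont F ∧ bGCont (fun y x => F x y) := by
    unfold bGHomeo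
    simp only [inf_Prop_eq, iSup_Prop_eq, and_assoc]
  rw [h0]
  constructor
  · rintro ⟨F, h1, h2, h3⟩
    rw [bBij_prop] at h1
    obtain ⟨ht, hu, hs, hi⟩ := h1
    choose f hf using ht
    choose g hg using hs
    have hfF : ∀ x y, F x y ↔ f x = y := by
      intro x y
      constructor
      · intro h
        by_contra hne
        exact hu x _ _ hne ⟨hf x, h⟩
      · rintro rfl
        exact hf x
    have hgF : ∀ y x, F x y ↔ g y = x := by
      intro y x
      constructor
      · intro h
        by_contra hne
        exact hi y _ _ hne ⟨hg y, h⟩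
      · rintro rfl
        exact hg y
    refine ⟨{ toFun := f, invFun := g, left_inv := fun x => (hgF _ _).1 (hf x), right_inv :=
      fun y => (hfF _ _).1 (hg y), continuous_toFun := ?_, continuous_invFun := ?_ }⟩
    · exact (bGCont_iff F f hfF).1 h2
    · exact (bGCont_iff (fun y x => F x y) g hgF).1 h3
  · rintro ⟨e⟩
    refine ⟨fun x y => e x = y, ?_, ?_, ?_⟩
    · rw [bBij_prop]
      refine ⟨fun x => ⟨_, rfl⟩, fun x y y' hne h => hne (h.1.symm.trans h.2),
        fun y => ⟨e.symm y, e.apply_symm_apply y⟩, fun y x x' hne h => hne ?_⟩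
      exact e.injective (h.1.trans h.2.symm)
    · exact (bGCont_iff _ e (fun _ _ => Iff.rfl)).2 e.continuous
    · refine (bGCont_iff _ e.symm (fun y x => ?_)).2 e.symm.continuous
      constructor
      · rintro rfl; exact e.symm_apply_apply x
      · rintro rfl; exact e.apply_symm_apply y

end M3
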