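import Pool.Agent.H.MP_8ff4bd_gt.M3.TR
import Pool.Agent.H.MP_8ff4bd_gt.M3.SO1
import Pool.Agent.H.MP_8ff4bd_gt.M3.S.Notions1

/-!
# The translation theorem for the first question
-/

set_option autoImplicit false

namespace M3.BSet

open Pool.Agent.H.MP_8ff4bd_gt.M3

variable {B : Type} [CompleteBooleanAlgebra B]

section one

variable {m : ℕ} {w : BSet B} {K : Type} [AddCommGroup K] {n : K → BSet B}

theorem iSup_diff_k (hn : GrpName m w n) {Γ : B} (φ : BSet B → B) (hφ : Ext φ) (x y : K)
    (h : Γ ≤ ⨆ z, (str B).mem z (fam n) ⊓ φ z ⊓ (str B).bAdd m w (n y) z (n x)) :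
    Γ ≤ φ (n (x - y)) := by
  refine bv_exists h fun z Δ hΔ hz => ?_
  have hz' : Δ ≤ bmem z (fam n) := bv_left (bv_left hz)
  rw [bmem_fam] at hz'
  refine bv_exists hz' fun c E hE hc => ?_
  have h2 : E ≤ (str B).bAdd m w (n y) (n c) (n x) :=
    bAdd_congr (by rw [beq_refl]; exact le_top) hc (by rw [beq_refl]; exact le_top)
      (hE.trans (bv_right hz))
  refine hn.elim h2 fun h3 => ?_
  have h4 : x - y = c := by rw [h3]; abel
  rw [h4]
  exact hφ.le hc (hE.trans (bv_right (bv_left hz)))

theorem iSup_diff_k' (hn : GrpName m w n) {Γ : B} (φ : BSet B → B) (x y : K)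
    (h : Γ ≤ φ (n (x - y))) :
    Γ ≤ ⨆ z, (str B).mem z (fam n) ⊓ φ z ⊓ (str B).bAdd m w (n y) z (n x) := by
  refine bv_intro (n (x - y)) (le_inf (le_inf (mem_fam_le n _ _) h) ?_)
  have h1 := hn.le_add y (x - y) Γ
  rwa [add_sub_cancel] at h1

theorem bGIdx_le (hn : GrpName m w n) {Γ : B} {o v : BSet B} {k : ℕ} (ho : Γ ≤ beq o omega)
    (h : Γ ≤ (str B).bGIdx m w (fam n) o v (ofNat k)) :
    Γ ≤ bIdx (fun g => pmem (ofNat k) (n g) v) := by
  unfold BStr.bGIdx at h
  refine bv_exists h fun r E hE hr => ?_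
  have h0 : E ≤ beq o omega := hE.trans ho
  have h1 := bv_left hr
  have h2 := bv_right hr
  unfold bIdx
  refine bv_intro (fun x i => pmem (n x) (ofNat i) r) (le_inf (le_iInf fun x => ?_)
    (le_iInf fun x => le_iInf fun y => le_iInf fun i => bv_imp fun F hF hxy => ?_))
  · have h3 := bv_mp (bv_all h1 (n x)) (mem_fam_le n x _)
    refine bv_exists h3 fun i F hF hi => ?_
    have h4 : F ≤ bmem i omega := bmem_congr_right (hF.trans h0) (bv_left hi)
    rw [bmem_omega] at h4
    refine bv_exists h4 fun j G hG hj => bv_intro j ?_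
    refine (ext_pmem₂ (n x) r).le hj ?_
    rw [← str_bRel]
    exact hG.trans (bv_right hi)
  · have h3 := bv_mp (bv_all (bv_all (bv_all (hF.trans h2) (n x)) (n y)) (ofNat i)) (le_inf
      (le_inf (le_inf (le_inf (mem_fam_le n x _) (mem_fam_le n y _)) ?_) ?_) ?_)
    · simp only [str_bRel] at h3
      exact iSup_diff_k hn (fun z => pmem (ofNat k) z v) (ext_pmem₂ _ _) x y h3
    · exact bmem_congr_right (beq_symm' (hF.trans h0)) (mem_omega_le i _)
    · rw [str_bRel]; exact bv_left hxy
    · rw [str_bRel]; exact bv_right hxy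

theorem le_bGIdx (hn : GrpName m w n) {Γ : B} {v j : BSet B}
    (h : Γ ≤ bIdx (fun g => pmem j (n g) v)) :
    Γ ≤ (str B).bGIdx m w (fam n) omega v j := by
  unfold bIdx at h
  refine bv_exists h fun ρ Δ hΔ hρ => ?_
  unfold BStr.bGIdx
  refine bv_intro (relName n ofNat ρ) (le_inf ?_ ?_)
  · refine le_iInf fun x => bv_imp fun E hE hx => ?_
    have hx' : E ≤ bmem x (fam n) := hx
    rw [bmem_fam] at hx'
    refine bv_exists hx' fun a F hF ha => ?_
    have h1 := bv_all (hF.trans (hE.trans (bv_left hρ))) a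
    refine bv_exists h1 fun i G hG hi => bv_intro (ofNat i) (le_inf (mem_omega_le i _) ?_)
    rw [str_bRel]
    refine (ext_pmem₁ (ofNat i) _).le (x := n a) (beq_symm' (hG.trans ha)) ?_
    rw [pmem_relName_of_discrete hn.disc discrete_ofNat]
    exact hi
  · refine le_iInf fun x => le_iInf fun y => le_iInf fun i => bv_imp fun E hE hh => ?_
    have hx : E ≤ bmem x (fam n) := bv_left (bv_left (bv_left (bv_left hh)))
    have hy : E ≤ bmem y (fam n) := bv_right (bv_left (bv_left (bv_left hh)))
    have hi : E ≤ bmem i omega := bv_right (bv_left (bv_left hh))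
    have hxi : E ≤ pmem x i (relName n ofNat ρ) := by
      rw [← str_bRel]; exact bv_right (bv_left hh)
    have hyi : E ≤ pmem y i (relName n ofNat ρ) := by
      rw [← str_bRel]; exact bv_right hh
    rw [bmem_fam] at hx hy
    rw [bmem_omega] at hi
    refine bv_exists hx fun a F hF ha => bv_exists (hF.trans hy) fun b F' hF' hb =>
      bv_exists (hF'.trans (hF.trans hi)) fun q G hG hq => ?_
    have hGE : G ≤ E := hG.trans (hF'.trans hF)
    have ha' : G ≤ beq x (n a) := (hG.trans hF').trans ha
    have hb' : G ≤ beq y (n b) := hG.trans hb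
    have h1 : G ≤ ρ a q := by
      rw [← pmem_relName_of_discrete hn.disc discrete_ofNat ρ a q]
      exact (ext_pmem₂ (n a) _).le hq ((ext_pmem₁ i _).le ha' (hGE.trans hxi))
    have h2 : G ≤ ρ b q := by
      rw [← pmem_relName_of_discrete hn.disc discrete_ofNat ρ b q]
      exact (ext_pmem₂ (n b) _).le hq ((ext_pmem₁ i _).le hb' (hGE.trans hyi))
    have h3 := bv_mp (bv_all (bv_all (bv_all ((hGE.trans hE).trans (bv_right hρ)) a) b) q)
      (le_inf h1 h2)
    have h4 := iSup_diff_k' hn (fun z => pmem j z v) a b h3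
    refine bv_exists h4 fun z H hH hz => bv_intro z (le_inf (le_inf (bv_left (bv_left hz)) ?_) ?_)
    · rw [str_bRel]; exact bv_right (bv_left hz)
    · exact bAdd_congr (beq_symm' (hH.trans hb')) (by rw [beq_refl]; exact le_top)
        (beq_symm' (hH.trans ha')) (bv_right hz)

/-- Neighbourhoods of zero. -/
theorem bGNbhd_eq (hn : GrpName m w n) (u : BSet B) :
    (str B).bGNbhd m w (fam n) u = M3.bGNbhd (fun g => bmem (n g) u) := by
  apply le_antisymm
  · refine le_of_forall_le fun Γ hΓ => ?_
    unfold BStr.bGNbhd at hΓ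
    refine bv_exists hΓ fun o Δ hΔ ho => bv_exists ho fun v E hE hv => bv_exists hv
      fun e F hF he => ?_
    have h0 : F ≤ beq o omega := by
      rw [← str_bOmega]; exact bv_left (bv_left (bv_left he))
    have h1 : F ≤ beq e empty := by
      rw [← str_bEmpty]; exact bv_right (bv_left (bv_left he))
    have h2 : F ≤ (str B).bGSeq m w (fam n) o v := bv_right (bv_left he)
    have h3 := bv_right he
    have hmem : ∀ k : ℕ, F ≤ bmem (ofNat k) o := fun k =>
      bmem_congr_right (beq_symm' h0) (mem_omega_le k _)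
    unfold BStr.bGSeq at h2
    unfold M3.bGNbhd M3.bGSeq
    refine bv_intro (fun k g => pmem (ofNat k) (n g) v) (le_inf (le_inf ?_ ?_) ?_)
    · refine le_iInf fun k => le_iInf fun x => le_iInf fun y => bv_imp fun G hG hxy => ?_
      have h4 := bv_mp (bv_all (bv_all (bv_all (bv_all (bv_all (hG.trans (bv_left h2)) (ofNat k))
        (ofNat (k + 1))) (n x)) (n y)) (n (x - y))) (le_inf (le_inf (le_inf (le_inf (le_inf
          (le_inf (le_inf (le_inf (hG.trans (hmem k)) (hG.trans (hmem (k + 1)))) ?_)
            (mem_fam_le n x _)) (mem_fam_le n y _)) (mem_fam_le n _ _)) ?_) ?_) ?_)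
      · rw [str_bRel] at h4; exact h4
      · rw [str_bInsert]
        show G ≤ beq (insert (ofNat k) (ofNat k)) (insert (ofNat k) (ofNat k))
        rw [beq_refl]; exact le_top
      · rw [str_bRel]; exact bv_left hxy
      · rw [str_bRel]; exact bv_right hxy
      · have h5 := hn.le_add (x - y) y G
        rwa [sub_add_cancel] at h5
    · refine le_iInf fun k => ?_
      exact bGIdx_le hn h0 (bv_mp (bv_all (bv_right h2) (ofNat k)) (hmem k))
    · refine le_iInf fun x => bv_imp fun G hG hx => ?_
      refine bv_mp (bv_all (hG.trans h3) (n x)) (le_inf (mem_fam_le n x _) ?_)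
      rw [str_bRel]
      exact (ext_pmem₁ (n x) v).le (x := ofNat 0) (beq_symm' (hG.trans h1)) hx
  · refine le_of_forall_le fun Γ hΓ => ?_
    unfold M3.bGNbhd at hΓ
    refine bv_exists hΓ fun V Δ hΔ hV => ?_
    have h1 := bv_left hV
    have h2 := bv_right hV
    unfold M3.bGSeq at h1
    have hval : ∀ k x, pmem (ofNat k) (n x) (relName ofNat n V) = V k x := fun k x =>
      pmem_relName_of_discrete discrete_ofNat hn.disc V k x
    unfold BStr.bGNbhd
    refine bv_intro omega (bv_intro (relName ofNat n V) (bv_intro empty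
      (le_inf (le_inf (le_inf ?_ ?_) ?_) ?_)))
    · rw [str_bOmega, beq_refl]; exact le_top
    · rw [str_bEmpty, beq_refl]; exact le_top
    · unfold BStr.bGSeq
      refine le_inf ?_ ?_
      · refine le_iInf fun k => le_iInf fun k' => le_iInf fun x => le_iInf fun y =>
          le_iInf fun z => bv_imp fun E hE hh => ?_
        have hk : E ≤ bmem k omega :=
          bv_left (bv_left (bv_left (bv_left (bv_left (bv_left (bv_left (bv_left hh)))))))
        have hins : E ≤ beq k' (insert k k) := by
          rw [← str_bInsert]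
          exact bv_right (bv_left (bv_left (bv_left (bv_left (bv_left (bv_left hh))))))
        have hx : E ≤ bmem x (fam n) :=
          bv_right (bv_left (bv_left (bv_left (bv_left (bv_left hh)))))
        have hy : E ≤ bmem y (fam n) := bv_right (bv_left (bv_left (bv_left (bv_left hh))))
        have hz : E ≤ bmem z (fam n) := bv_right (bv_left (bv_left (bv_left hh)))
        have hvx : E ≤ pmem k' x (relName ofNat n V) := by
          rw [← str_bRel]; exact bv_right (bv_left (bv_left hh))
        have hvy : E ≤ pmem k' y (relName ofNat n V) := by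
          rw [← str_bRel]; exact bv_right (bv_left hh)
        have hadd : E ≤ (str B).bAdd m w z y x := bv_right hh
        rw [bmem_omega] at hk
        rw [bmem_fam] at hx hy hz
        refine bv_exists hk fun q F hF hq => bv_exists (hF.trans hx) fun a F' hF' ha =>
          bv_exists (hF'.trans (hF.trans hy)) fun b F₂ hF₂ hb =>
            bv_exists (hF₂.trans (hF'.trans (hF.trans hz))) fun c G hG hc => ?_
        have hGE : G ≤ E := hG.trans (hF₂.trans (hF'.trans hF))
        have hq' : G ≤ beq k (ofNat q) := (hG.trans (hF₂.trans hF')).trans hq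
        have ha' : G ≤ beq x (n a) := (hG.trans hF₂).trans ha
        have hb' : G ≤ beq y (n b) := hG.trans hb
        have hk' : G ≤ beq k' (ofNat (q + 1)) :=
          beq_trans' (hGE.trans hins) (insert_congr hq' hq')
        refine hn.elim (bAdd_congr hc hb' ha' (hGE.trans hadd)) fun h5 => ?_
        have h6 : c = a - b := by rw [h5]; abel
        subst h6
        have h7 : G ≤ V (q + 1) a := by
          rw [← hval]
          exact (ext_pmem₂ _ _).le ha' ((ext_pmem₁ _ _).le hk' (hGE.trans hvx))
        have h8 : G ≤ V (q + 1) b := by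
          rw [← hval]
          exact (ext_pmem₂ _ _).le hb' ((ext_pmem₁ _ _).le hk' (hGE.trans hvy))
        have h9 := bv_mp (bv_all (bv_all (bv_all ((hGE.trans hE).trans (bv_left h1)) q) a) b)
          (le_inf h7 h8)
        rw [← hval] at h9
        rw [str_bRel]
        exact (ext_pmem₂ _ _).le (beq_symm' hc) ((ext_pmem₁ _ _).le (beq_symm' hq') h9)
      · refine le_iInf fun k => bv_imp fun E hE hk => ?_
        have hk' : E ≤ bmem k omega := hk
        rw [bmem_omega] at hk'
        refine bv_exists hk' fun q F hF hq => le_bGIdx hn ?_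
        have h3 := bv_all ((hF.trans hE).trans (bv_right h1)) q
        unfold bIdx at h3 ⊢
        refine bv_exists h3 fun r G hG hr => bv_intro r (le_inf (bv_left hr) (le_iInf fun x =>
          le_iInf fun y => le_iInf fun i => bv_imp fun H hH hxy => ?_))
        have h4 := bv_mp (bv_all (bv_all (bv_all (hH.trans (bv_right hr)) x) y) i) hxy
        refine (ext_pmem₁ _ _).le (x := ofNat q) (beq_symm' ((hH.trans hG).trans hq)) ?_
        show H ≤ pmem (ofNat q) (n (x - y)) (relName ofNat n V)
        rw [hval]; exact h4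
    · refine le_iInf fun x => bv_imp fun E hE hh => ?_
      have hx : E ≤ bmem x (fam n) := bv_left hh
      have hv : E ≤ pmem (ofNat 0) x (relName ofNat n V) := by
        have := bv_right hh
        rwa [str_bRel] at this
      rw [bmem_fam] at hx
      refine bv_exists hx fun a F hF ha => ?_
      have h3 : F ≤ V 0 a := by
        rw [← hval]
        exact (ext_pmem₂ _ _).le ha (hF.trans hv)
      exact bmem_congr_left (beq_symm' ha) (bv_mp (bv_all ((hF.trans hE).trans h2) a) h3)

end one

section two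

variable {m m' : ℕ} {w : BSet B} {K K' : Type} [AddCommGroup K] [AddCommGroup K']
  {n : K → BSet B} {n' : K' → BSet B}

theorem bGContinuous_eq (hn : GrpName m w n) (hn' : GrpName m' w n') (sw : Bool) (f : BSet B) :
    (str B).bGContinuous sw m m' w (fam n) (fam n') f =
      bGCont (fun x y => (str B).bGraph sw f (n x) (n' y)) := by
  apply le_antisymm
  · unfold BStr.bGContinuous bGCont
    refine le_iInf fun x => le_iInf fun y => bv_imp fun Γ hΓ hxy => le_iInf fun lam =>
      bv_imp fun Δ hΔ hlam => ?_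
    have h1 := bv_mp (bv_all (bv_all hΓ (n x)) (n' y))
      (le_inf (le_inf (mem_fam_le n x _) (mem_fam_le n' y _)) hxy)
    have hl : Δ ≤ (str B).bGNbhd m' w (fam n') (subName n' lam) := by
      rw [bGNbhd_eq hn', bmem_subName_fun hn'.disc]
      exact hlam
    have h2 := bv_mp (bv_all (hΔ.trans h1) (subName n' lam)) hl
    refine bv_exists h2 fun k E hE hk => ?_
    have hk1 := bv_left hk
    rw [bGNbhd_eq hn] at hk1
    refine bv_intro (fun g => bmem (n g) k) (le_inf hk1
      (le_iInf fun z => le_iInf fun v => bv_imp fun F hF hzv => ?_))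
    have h3 := bv_mp (bv_all (bv_all (bv_all (hF.trans (bv_right hk)) (n z)) (n (x + z)))
      (n' v)) (le_inf (le_inf (le_inf (le_inf (le_inf (mem_fam_le n _ _) (bv_left hzv))
        (mem_fam_le n _ _)) (mem_fam_le n' _ _)) (hn.le_add x z _)) (bv_right hzv))
    have h4 := iSup_diff_k hn' (fun t => bmem t (subName n' lam)) (ext_bmem_left _) v y h3
    rwa [bmem_subName_of_discrete hn'.disc] at h4
  · unfold BStr.bGContinuous bGCont
    refine le_iInf fun x => le_iInf fun y => bv_imp fun Γ hΓ hxy => le_iInf fun l =>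
      bv_imp fun Δ hΔ hl => ?_
    have hx : Γ ≤ bmem x (fam n) := bv_left (bv_left hxy)
    have hy : Γ ≤ bmem y (fam n') := bv_right (bv_left hxy)
    rw [bmem_fam] at hx hy
    refine bv_exists (hΔ.trans hx) fun a E hE ha => bv_exists (hE.trans (hΔ.trans hy))
      fun b F hF hb => ?_
    have hFΔ : F ≤ Δ := hF.trans hE
    have ha' : F ≤ beq x (n a) := hF.trans ha
    have hl1 := hFΔ.trans hl
    rw [bGNbhd_eq hn'] at hl1
    have hg : F ≤ (str B).bGraph sw f (n a) (n' b) :=
      (ext_bGraph_right sw f (n a)).le hb ((ext_bGraph_left sw f y).le ha'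
        ((hFΔ.trans hΔ).trans (bv_right hxy)))
    have h1 := bv_mp (bv_all (bv_mp (bv_all (bv_all ((hFΔ.trans hΔ).trans hΓ) a) b) hg)
      (fun g => bmem (n' g) l)) hl1
    refine bv_exists h1 fun kap G hG hkap => ?_
    refine bv_intro (subName n kap) (le_inf ?_ ?_)
    · rw [bGNbhd_eq hn, bmem_subName_fun hn.disc]
      exact bv_left hkap
    · refine le_iInf fun z => le_iInf fun u => le_iInf fun v => bv_imp fun H hH hh => ?_
      have hz0 : H ≤ bmem z (fam n) := bv_left (bv_left (bv_left (bv_left (bv_left hh))))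
      have hz : H ≤ bmem z (subName n kap) :=
        bv_right (bv_left (bv_left (bv_left (bv_left hh))))
      have hu : H ≤ bmem u (fam n) := bv_right (bv_left (bv_left (bv_left hh)))
      have hv : H ≤ bmem v (fam n') := bv_right (bv_left (bv_left hh))
      have hadd : H ≤ (str B).bAdd m w x z u := bv_right (bv_left hh)
      have hgr : H ≤ (str B).bGraph sw f u v := bv_right hh
      rw [bmem_fam] at hz0 hu hv
      refine bv_exists hz0 fun c I hI hc => bv_exists (hI.trans hu) fun d J hJ hd =>
        bv_exists (hJ.trans (hI.trans hv)) fun e L hL he => ?_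
      have hLH : L ≤ H := hL.trans (hJ.trans hI)
      have hLF : L ≤ F := (hLH.trans hH).trans hG
      have hc' : L ≤ beq z (n c) := (hL.trans hJ).trans hc
      have hd' : L ≤ beq u (n d) := hL.trans hd
      have h2 : L ≤ (str B).bAdd m w (n a) (n c) (n d) :=
        bAdd_congr (hLF.trans ha') hc' hd' (hLH.trans hadd)
      refine hn.elim h2 fun h3 => ?_
      subst h3
      have hkc : L ≤ kap c := by
        rw [← bmem_subName_of_discrete hn.disc kap c]
        exact bmem_congr_left hc' (hLH.trans hz)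
      have h4 := bv_mp (bv_all (bv_all ((hLH.trans hH).trans (bv_right hkap)) c) e)
        (le_inf hkc ((ext_bGraph_right sw f (n (a + c))).le he
            ((ext_bGraph_left sw f v).le hd' (hLH.trans hgr))))
      refine bv_intro (n' (e - b)) (le_inf (le_inf (mem_fam_le n' _ _) h4) ?_)
      refine bAdd_congr (x := n' b) (y := n' (e - b)) (z := n' e) (beq_symm' (hLF.trans hb))
        (by rw [beq_refl]; exact le_top) (beq_symm' he) ?_
      have h5 := hn'.le_add b (e - b) L
      rwa [add_sub_cancel] at h5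

end two

/-! ### Extensionality of the notions and the final theorem -/

theorem ext_bGIdx_w (m : ℕ) (k o v j : BSet B) : Ext (fun w => (str B).bGIdx m w k o v j) := by
  unfold BStr.bGIdx
  exact Ext.iSup fun r => Ext.inf (ext_const _) (Ext.iInf fun x => Ext.iInf fun y =>
    Ext.iInf fun i => (ext_const _).himp (Ext.iSup fun z => (ext_const _).inf
      (ext_bAdd₀ m y z x)))

theorem ext_bGIdx_k (m : ℕ) (w o v j : BSet B) : Ext (fun k => (str B).bGIdx m w k o v j) := by
  unfold BStr.bGIdx
  simp only [str_mem]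
  refine Ext.iSup fun r => Ext.inf (Ext.iInf fun x => (ext_bmem_right x).himp (ext_const _))
    (Ext.iInf fun x => Ext.iInf fun y => Ext.iInf fun i => Ext.himp ?_ (Ext.iSup fun z =>
      ((ext_bmem_right z).inf (ext_const _)).inf (ext_const _)))
  exact ((((ext_bmem_right x).inf (ext_bmem_right y)).inf (ext_const _)).inf (ext_const _)).inf
    (ext_const _)

theorem ext_bGNbhd_w (m : ℕ) (k u : BSet B) : Ext (fun w => (str B).bGNbhd m w k u) := by
  unfold BStr.bGNbhd BStr.bGSeq
  refine Ext.iSup fun o => Ext.iSup fun v => Ext.iSup fun e => Ext.inf (Ext.inf (ext_const _)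
    (Ext.inf (Ext.iInf fun n => Ext.iInf fun n' => Ext.iInf fun x => Ext.iInf fun y =>
      Ext.iInf fun z => Ext.himp ((ext_const _).inf (ext_bAdd₀ m z y x)) (ext_const _))
      (Ext.iInf fun n => (ext_const _).himp (ext_bGIdx_w m k o v n)))) (ext_const _)

theorem ext_bGNbhd_k (m : ℕ) (w u : BSet B) : Ext (fun k => (str B).bGNbhd m w k u) := by
  unfold BStr.bGNbhd BStr.bGSeq
  simp only [str_mem]
  refine Ext.iSup fun o => Ext.iSup fun v => Ext.iSup fun e => Ext.inf (Ext.inf (ext_const _)
    (Ext.inf (Ext.iInf fun n => Ext.iInf fun n' => Ext.iInf fun x => Ext.iInf fun y =>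
      Ext.iInf fun z => Ext.himp ?_ (ext_const _))
      (Ext.iInf fun n => (ext_const _).himp (ext_bGIdx_k m w o v n))))
        (Ext.iInf fun x => ((ext_bmem_right x).inf (ext_const _)).himp (ext_const _))
  exact ((((((ext_const _).inf (ext_bmem_right x)).inf (ext_bmem_right y)).inf
    (ext_bmem_right z)).inf (ext_const _)).inf (ext_const _)).inf (ext_const _)

theorem ext_bGContinuous_w (sw : Bool) (m m' : ℕ) (g h f : BSet B) :
    Ext (fun w => (str B).bGContinuous sw m m' w g h f) := by
  unfold BStr.bGContinuous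
  refine Ext.iInf fun x => Ext.iInf fun y => (ext_const _).himp (Ext.iInf fun u =>
    (ext_bGNbhd_w m' h u).himp (Ext.iSup fun u' =>
      (ext_bGNbhd_w m g u').inf (Ext.iInf fun z => Ext.iInf fun x' =>
        Ext.iInf fun y' => Ext.himp ?_ ?_)))
  · exact ((ext_const _).inf (ext_bAdd₀ m x z x')).inf (ext_const _)
  · exact Ext.iSup fun t => (ext_const _).inf (ext_bAdd₀ m' y t y')

theorem ext_bGContinuous_g (sw : Bool) (m m' : ℕ) (w h f : BSet B) :
    Ext (fun g => (str B).bGContinuous sw m m' w g h f) := by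
  unfold BStr.bGContinuous
  simp only [str_mem]
  refine Ext.iInf fun x => Ext.iInf fun y => Ext.himp ?_ (Ext.iInf fun u =>
    (ext_const _).himp (Ext.iSup fun u' =>
      (ext_bGNbhd_k m w u').inf (Ext.iInf fun z => Ext.iInf fun x' =>
        Ext.iInf fun y' => Ext.himp ?_ (ext_const _))))
  · exact ((ext_bmem_right x).inf (ext_const _)).inf (ext_const _)
  · exact (((((ext_bmem_right z).inf (ext_const _)).inf (ext_bmem_right x')).inf
      (ext_const _)).inf (ext_const _)).inf (ext_const _)

theorem ext_bGContinuous_h (sw : Bool) (m m' : ℕ) (w g f : BSet B) :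
    Ext (fun h => (str B).bGContinuous sw m m' w g h f) := by
  unfold BStr.bGContinuous
  simp only [str_mem]
  refine Ext.iInf fun x => Ext.iInf fun y => Ext.himp ?_ (Ext.iInf fun u =>
    (ext_bGNbhd_k m' w u).himp (Ext.iSup fun u' =>
      (ext_const _).inf (Ext.iInf fun z => Ext.iInf fun x' =>
        Ext.iInf fun y' => Ext.himp ?_ (Ext.iSup fun t =>
          ((ext_bmem_right t).inf (ext_const _)).inf (ext_const _)))))
  · exact ((ext_const _).inf (ext_bmem_right y)).inf (ext_const _)
  · exact (((ext_const _).inf (ext_bmem_right y')).inf (ext_const _)).inf (ext_const _)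

/-- The translation theorem for the first question. -/
theorem bGHomeo_eq (hB : BCCC B) :
    (str B).bGHomeo = M3.bGHomeo B (W1 →₀ ZMod 2) (W1 →₀ ZMod 3) := by
  have hvN : Discrete (fun a : W1 => (vN a : BSet B)) := discrete_vN
  have h2 : GrpName 2 (fam fun a : W1 => (vN a : BSet B)) (gN 2 fun a : W1 => (vN a : BSet B)) :=
    grpName_gN hvN
  have h3 : GrpName 3 (fam fun a : W1 => (vN a : BSet B)) (gN 3 fun a : W1 => (vN a : BSet B)) :=
    grpName_gN hvN
  unfold BStr.bGHomeo
  simp only [str_bIsW_W1 hB, inf_assoc]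
  -- elimination of `w`
  have hw : ∀ w : BSet B, (⨆ g, ⨆ h, ⨆ f, beq w (wN W1) ⊓ ((str B).bIsGrp 2 w g ⊓
      ((str B).bIsGrp 3 w h ⊓ ((str B).bBijection g h f ⊓
        ((str B).bGContinuous false 2 3 w g h f ⊓ (str B).bGContinuous true 3 2 w h g f))))) =
      beq w (wN W1) ⊓ (⨆ g, ⨆ h, ⨆ f, ((str B).bIsGrp 2 w g ⊓
      ((str B).bIsGrp 3 w h ⊓ ((str B).bBijection g h f ⊓
        ((str B).bGContinuous false 2 3 w g h f ⊓ (str B).bGContinuous true 3 2 w h g f))))) := by
    intro w
    simp only [inf_iSup_eq]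
  simp only [hw]
  rw [iSup_beq (φ := fun w => ⨆ g, ⨆ h, ⨆ f, ((str B).bIsGrp 2 w g ⊓
      ((str B).bIsGrp 3 w h ⊓ ((str B).bBijection g h f ⊓
        ((str B).bGContinuous false 2 3 w g h f ⊓ (str B).bGContinuous true 3 2 w h g f)))))
    (Ext.iSup fun g => Ext.iSup fun h => Ext.iSup fun f => (ext_bIsGrp 2 g).inf
      ((ext_bIsGrp 3 h).inf ((ext_const _).inf ((ext_bGContinuous_w _ _ _ g h f).inf
        (ext_bGContinuous_w _ _ _ h g f))))), wN_eq_fam]
  simp only [str_bIsGrp hvN]
  -- elimination of `g`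
  have hg : ∀ g : BSet B, (⨆ h, ⨆ f, beq g (fam (gN 2 fun a : W1 => (vN a : BSet B))) ⊓
      (beq h (fam (gN 3 fun a : W1 => (vN a : BSet B))) ⊓ ((str B).bBijection g h f ⊓
        ((str B).bGContinuous false 2 3 (fam fun a : W1 => (vN a : BSet B)) g h f ⊓
          (str B).bGContinuous true 3 2 (fam fun a : W1 => (vN a : BSet B)) h g f)))) =
      beq g (fam (gN 2 fun a : W1 => (vN a : BSet B))) ⊓ (⨆ h, ⨆ f,
      (beq h (fam (gN 3 fun a : W1 => (vN a : BSet B))) ⊓ ((str B).bBijection g h f ⊓
        ((str B).bGContinuous false 2 3 (fam fun a : W1 => (vN a : BSet B)) g h f ⊓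
          (str B).bGContinuous true 3 2 (fam fun a : W1 => (vN a : BSet B)) h g f)))) := by
    intro g
    simp only [inf_iSup_eq]
  simp only [hg]
  rw [iSup_beq (φ := fun g => ⨆ h, ⨆ f,
      (beq h (fam (gN 3 fun a : W1 => (vN a : BSet B))) ⊓ ((str B).bBijection g h f ⊓
        ((str B).bGContinuous false 2 3 (fam fun a : W1 => (vN a : BSet B)) g h f ⊓
          (str B).bGContinuous true 3 2 (fam fun a : W1 => (vN a : BSet B)) h g f))))
    (Ext.iSup fun h => Ext.iSup fun f => (ext_const _).inf ((ext_bBijection_g h f).inf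
      ((ext_bGContinuous_g _ _ _ _ h f).inf (ext_bGContinuous_h _ _ _ _ h f))))]
  -- elimination of `h`
  have hh : ∀ h : BSet B, (⨆ f, beq h (fam (gN 3 fun a : W1 => (vN a : BSet B))) ⊓
      ((str B).bBijection (fam (gN 2 fun a : W1 => (vN a : BSet B))) h f ⊓
        ((str B).bGContinuous false 2 3 (fam fun a : W1 => (vN a : BSet B))
          (fam (gN 2 fun a : W1 => (vN a : BSet B))) h f ⊓
          (str B).bGContinuous true 3 2 (fam fun a : W1 => (vN a : BSet B)) h
            (fam (gN 2 fun a : W1 => (vN a : BSet B))) f))) =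
      beq h (fam (gN 3 fun a : W1 => (vN a : BSet B))) ⊓ (⨆ f,
      ((str B).bBijection (fam (gN 2 fun a : W1 => (vN a : BSet B))) h f ⊓
        ((str B).bGContinuous false 2 3 (fam fun a : W1 => (vN a : BSet B))
          (fam (gN 2 fun a : W1 => (vN a : BSet B))) h f ⊓
          (str B).bGContinuous true 3 2 (fam fun a : W1 => (vN a : BSet B)) h
            (fam (gN 2 fun a : W1 => (vN a : BSet B))) f))) := by
    intro h
    simp only [inf_iSup_eq]
  simp only [hh]
  rw [iSup_beq (φ := fun h => ⨆ f,
      ((str B).bBijection (fam (gN 2 fun a : W1 => (vN a : BSet B))) h f ⊓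
        ((str B).bGContinuous false 2 3 (fam fun a : W1 => (vN a : BSet B))
          (fam (gN 2 fun a : W1 => (vN a : BSet B))) h f ⊓
          (str B).bGContinuous true 3 2 (fam fun a : W1 => (vN a : BSet B)) h
            (fam (gN 2 fun a : W1 => (vN a : BSet B))) f)))
    (Ext.iSup fun f => (ext_bBijection_h _ f).inf
      ((ext_bGContinuous_h _ _ _ _ _ f).inf (ext_bGContinuous_g _ _ _ _ _ f)))]
  simp only [bBijection_eq h2 h3, bGContinuous_eq h2 h3, bGContinuous_eq h3 h2]
  unfold BStr.bGraph
  simp only [str_bRel]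
  unfold M3.bGHomeo
  rw [← iSup_rel h2.disc h3.disc (fun F => bBij F ⊓ bGCont F ⊓ bGCont (fun y x => F x y))]
  simp only [inf_assoc]

end M3.BSet
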