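import Pool.Agent.H.MP_8ff4bd_gt.M3.YES1
import Pool.Agent.H.MP_8ff4bd_gt.M3.NO1
import Pool.Agent.H.MP_8ff4bd_gt.M3.Sanity
import Pool.Agent.H.MP_8ff4bd_gt.M3.Sanity1
import Pool.Agent.H.MP_8ff4bd_gt.M3.TR1
import Pool.Agent.H.MP_8ff4bd_gt.M3.S.Indep
import Pool.Agent.H.MP_8ff4bd_gt.M3.S.PlainB1

/-!
# Assembly for the first question
-/

set_option autoImplicit false

namespace M3

open FirstOrder Pool.Agent.H.MP_8ff4bd_gt.M3

universe u

/-- In the universe `ZFSet` of sets the first-order sentence of the first question says that the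
direct sums of `ω₁` copies of the cyclic groups of order two and three are homeomorphic for their
finest `ℵ₀`-bounded group topologies. -/
theorem sat_gHomeoSentence_iff_homeomorph :
    Sat (M := ZFSet.{0}) (· ∈ ·) gHomeoSentence ↔
      Nonempty (@Homeomorph (W1 →₀ ZMod 2) (W1 →₀ ZMod 3) (finestBounded _) (finestBounded _)) := by
  rw [BSet.sat_ZFSet_iff, BStr.bval_gHomeoSentence, BSet.bGHomeo_eq bccc_prop]
  exact bGHomeo_prop_iff

/-- The final theorem for the first question, from the positive model. -/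
theorem final1_of
    (hyes : ∃ (B : Type) (_ : CompleteBooleanAlgebra B) (_ : Nontrivial B), BCCC B ∧
      bHomeo B (W1 →₀ ZMod 2) (W1 →₀ ZMod 3) = ⊤ ∧
      bGHomeo B (W1 →₀ ZMod 2) (W1 →₀ ZMod 3) = ⊤) :
    ∃ φ : LSet.Sentence,
    (∀ (M : Type u) (E : M → M → Prop), Sat E φ ↔ Plain.GHomeomorphic E) ∧
    (Sat (fun x y : ZFSet.{0} => x ∈ y) φ ↔
      Nonempty (@Homeomorph (W1 →₀ ZMod 2) (W1 →₀ ZMod 3) (finestBounded _)
        (finestBounded _))) ∧
    (∀ (M : Type u) (E : M → M → Prop),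
      @FirstOrder.Language.Theory.Model LSet M (epsStr E) ZFC ↔ ZFCModel E) ∧
    ZFCModel (fun x y : ZFSet.{0} => x ∈ y) ∧
    ¬ (ZFC ⊨ᵇ φ) ∧ ¬ (ZFC ⊨ᵇ FirstOrder.Language.BoundedFormula.not φ) := by
  refine ⟨gHomeoSentence, fun M E => sat_gHomeoSentence_iff E,
    sat_gHomeoSentence_iff_homeomorph, fun M E => model_ZFC_iff,
    BSet.zfcModel_ZFSet, ?_, ?_⟩
  · obtain ⟨B, _, _, hB, -, h⟩ := NO_both
    refine (BSet.bzfc (B := B)).not_models _ ?_
    rw [BStr.bval_gHomeoSentence, BSet.bGHomeo_eq hB, h]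
    exact bot_ne_top
  · obtain ⟨B, _, _, hB, -, h⟩ := hyes
    refine (BSet.bzfc (B := B)).not_models_not _ ?_
    rw [BStr.bval_gHomeoSentence, BSet.bGHomeo_eq hB, h]
    exact top_ne_bot

end M3
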