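import Pool.Agent.H.MP_8ff4bd_gt.M3.GRground
import Pool.Agent.H.MP_8ff4bd_gt.M3.Color

/-!
# Neighbourhoods in the finest aleph-zero-bounded topology contain subgroups of countable index

This holds in the Boolean-valued sense as soon as the Boolean algebra satisfies `SlowTree`.
-/

namespace M3

variable {B : Type} [CompleteBooleanAlgebra B]

/-- Value of: `lam` is a decreasing sequence of symmetric sets containing `0` with
`lam (n+1) + lam (n+1) ⊆ lam n`, and `r` shows that for every `n` the group is the union of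
countably many sets with all differences in `lam n`. -/
def bUWit {G : Type} [AddCommGroup G] (lam : ℕ → G → B) (r : ℕ → G → ℕ → B) : B :=
  (⨅ n, lam n 0) ⊓ (⨅ n, ⨅ x, ⨅ y, (lam (n + 1) x ⊓ lam (n + 1) y) ⇨ lam n (x + y)) ⊓
    ((⨅ n, ⨅ x, ⨆ j, r n x j) ⊓ ⨅ n, ⨅ x, ⨅ y, ⨅ j, (r n x j ⊓ r n y j) ⇨ lam n (x - y))

/-- The colour subgroup of a partition family. -/
noncomputable def cSub {W : Type} {p : ℕ} (c : W → ℕ → B) (x : W →₀ ZMod p) : B :=
  EE c x.support (fun u => Finsupp.mapDomain u x) 0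

theorem depOn_mapDomain {W : Type} {p : ℕ} (x : W →₀ ZMod p) :
    DepOn (V := ℕ) x.support (fun u => Finsupp.mapDomain u x) := by
  intro u u' h
  exact Finsupp.mapDomain_congr fun a ha => h a ha

theorem cSub_bSub {W : Type} {p : ℕ} {c : W → ℕ → B} (hc : IsPF c) :
    bSub (cSub (p := p) c) = ⊤ := by
  classical
  rw [eq_top_iff]
  refine le_inf ?_ ?_
  · refine le_of_cover hc ∅ fun u => ?_
    rw [top_inf_eq]
    have h1 := DD_le_EE (h := c) (Q := (0 : W →₀ ZMod p).support) (Q' := ∅) (by simp)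
      (fun u : W → ℕ => Finsupp.mapDomain u (0 : W →₀ ZMod p)) u
    rw [Finsupp.mapDomain_zero] at h1
    exact h1
  · refine le_iInf fun x => le_iInf fun y => ?_
    rw [le_himp_iff, top_inf_eq]
    refine le_of_cover' hc (x.support ∪ y.support ∪ (x + y).support) fun u hu => ?_
    have h1 : EE c x.support (fun u => Finsupp.mapDomain u x) 0 ⊓
        DD c (x.support ∪ y.support ∪ (x + y).support) u ≠ ⊥ := fun h0 => hu (by
      rw [← le_bot_iff, ← h0]; exact inf_le_inf_right _ inf_le_left)
    have h2 : EE c y.support (fun u => Finsupp.mapDomain u y) 0 ⊓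
        DD c (x.support ∪ y.support ∪ (x + y).support) u ≠ ⊥ := fun h0 => hu (by
      rw [← le_bot_iff, ← h0]; exact inf_le_inf_right _ inf_le_right)
    have e1 := EE_inf_DD hc (Finset.subset_union_left.trans Finset.subset_union_left)
      (depOn_mapDomain x) h1
    have e2 := EE_inf_DD hc (Finset.subset_union_right.trans Finset.subset_union_left)
      (depOn_mapDomain y) h2
    have h3 := DD_le_EE (h := c) (Q := (x + y).support)
      (Q' := x.support ∪ y.support ∪ (x + y).support) Finset.subset_union_right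
      (fun u : W → ℕ => Finsupp.mapDomain u (x + y)) u
    rw [Finsupp.mapDomain_add, e1, e2, add_zero] at h3
    exact inf_le_right.trans h3

theorem cSub_bIdx {W : Type} {p : ℕ} [NeZero p] {c : W → ℕ → B} (hc : IsPF c) :
    bIdx (cSub (p := p) c) = ⊤ := by
  classical
  refine bIdx_of (X := ℕ →₀ ZMod p) hc _ (fun x => x.support)
    (fun x u => Finsupp.mapDomain u x) (fun x => depOn_mapDomain x) ?_
  intro g g' u Q' h1 h2 h3
  have h4 := DD_le_EE (h := c) (Q := (g - g').support) (Q' := Q')
    (Finsupp.support_sub.trans (Finset.union_subset h1 h2))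
    (fun u : W → ℕ => Finsupp.mapDomain u (g - g')) u
  have h5 : Finsupp.mapDomain u (g - g') = 0 := by
    have h6 : Finsupp.mapDomain u (g - g') + Finsupp.mapDomain u g' = Finsupp.mapDomain u g := by
      rw [← Finsupp.mapDomain_add, sub_add_cancel]
    rw [h3] at h6
    simpa using h6
  simp only [h5] at h4
  exact h4

/-- Every neighbourhood contains a subgroup of countable index. -/
theorem gr {W : Type} {p : ℕ} [NeZero p] {β : ℕ → ℕ} (hβ : β 0 = 0) (hS : SlowTree B W β)
    (lam : ℕ → (W →₀ ZMod p) → B) (r : ℕ → (W →₀ ZMod p) → ℕ → B) :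
    bUWit lam r ≤ ⨆ mu : (W →₀ ZMod p) → B, bSub mu ⊓ bIdx mu ⊓ ⨅ x, mu x ⇨ lam 0 x := by
  classical
  obtain ⟨φ, hφ, hφ2⟩ := exists_pf_seq (fun (w : W × ℕ) j => r (mm p β w.2) (gen w.1) j)
  obtain ⟨c, hc1, hc2, hc3⟩ := hS (fun w n j => φ (w, n) j) (fun w n => hφ.tot (w, n))
    (fun w n j j' h => hφ.dis (w, n) j j' h)
  have hc : IsPF c := ⟨hc1, fun a v w h => hc2 a v w h⟩
  refine le_iSup_of_le (cSub c) ?_
  rw [cSub_bSub hc, cSub_bIdx hc, inf_top_eq, top_inf_eq]
  refine le_iInf fun x => ?_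
  rw [le_himp_iff]
  refine le_of_cover' hc x.support fun i hi => ?_
  set L : ℕ := x.support.card + 1 with hL
  refine le_of_cover' hφ (x.support ×ˢ Finset.range L) fun τ hτ => ?_
  set b : B := bUWit lam r ⊓ cSub c x ⊓ DD c x.support i ⊓
    DD φ (x.support ×ˢ Finset.range L) τ with hb
  have hbU : b ≤ bUWit lam r := (inf_le_left.trans inf_le_left).trans inf_le_left
  have hbC : b ≤ DD c x.support i := inf_le_left.trans inf_le_right
  have hbF : b ≤ DD φ (x.support ×ˢ Finset.range L) τ := inf_le_right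
  have hmap : Finsupp.mapDomain i x = 0 := by
    refine EE_inf_DD hc (Finset.Subset.refl _) (depOn_mapDomain x) fun h0 => hi ?_
    rw [← le_bot_iff, ← h0]
    exact inf_le_inf_right _ inf_le_right
  have hsum := (mapDomain_eq_zero_iff i x x.support (Finset.Subset.refl _)).1 hmap
  have hφb : ∀ w ∈ x.support, ∀ k < L, b ≤ φ (w, k) (τ (w, k)) := fun w hw k hk =>
    hbF.trans (DD_le (Finset.mem_product.2 ⟨hw, Finset.mem_range.2 hk⟩))
  have hE : ∀ n < L, (edges x.support i (fun w n => τ (w, n)) n).card ≤ β n := by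
    refine hc3 x.support L i (fun w n => τ (w, n)) fun h0 => hτ ?_
    rw [← le_bot_iff, ← h0]
    refine le_iInf fun w => le_iInf fun hw => le_inf (hbC.trans (DD_le hw)) ?_
    exact le_iInf fun n => le_iInf fun hn => hφb w hw n hn
  have h0U : ∀ n, b ≤ lam n 0 := fun n =>
    hbU.trans ((inf_le_left.trans inf_le_left).trans (iInf_le _ n))
  have haddU : ∀ n x y, b ≤ lam (n + 1) x → b ≤ lam (n + 1) y → b ≤ lam n (x + y) := by
    intro n x y hx hy
    have h1 : b ≤ (lam (n + 1) x ⊓ lam (n + 1) y) ⇨ lam n (x + y) :=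
      hbU.trans ((inf_le_left.trans inf_le_right).trans
        ((iInf_le _ n).trans ((iInf_le _ x).trans (iInf_le _ y))))
    exact (le_inf h1 (le_inf hx hy)).trans himp_inf_le
  have hrb : ∀ w ∈ x.support, ∀ k < L, b ≤ r (mm p β k) (gen w) (τ (w, k)) := by
    intro w hw k hk
    refine (le_inf ?_ (hφb w hw k hk)).trans (hφ2 (w, k) (τ (w, k)))
    exact hbU.trans (inf_le_right.trans (inf_le_left.trans
      ((iInf_le _ (mm p β k)).trans (iInf_le _ (gen w)))))
  have key := ground_mem (p := p) (U := fun n => {y | b ≤ lam n y}) h0U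
    (fun n x y hx hy => haddU n x y hx hy) hβ (L := L) (by omega) (i := i)
    (τ := fun w n => τ (w, n)) (S := x.support) (by omega) ?_ hE x (Finset.Subset.refl _) ?_
  · exact key
  · intro w hw w' hw' _ k hk hkk
    have h1 : b ≤ (r (mm p β k) (gen w) (τ (w, k)) ⊓ r (mm p β k) (gen w') (τ (w, k))) ⇨
        lam (mm p β k) (gen w - gen w') :=
      hbU.trans (inf_le_right.trans (inf_le_right.trans ((iInf_le _ (mm p β k)).trans
        ((iInf_le _ (gen w)).trans ((iInf_le _ (gen w')).trans (iInf_le _ (τ (w, k))))))))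
    refine (le_inf h1 (le_inf (hrb w hw k hk) ?_)).trans himp_inf_le
    rw [hkk]
    exact hrb w' hw' k hk
  · intro j
    convert hsum j using 2

end M3
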