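import Pool.Agent.H.MP_8ff4bd_gt.M3.SlowTree

/-!
# The ground lemma for the finest aleph-zero-bounded topology

Sums over slowly splitting classes are small.
-/

namespace M3

open Classical

section nU

variable {K : Type} [AddCommGroup K]

/-- Sums of `k` elements of `A`. -/
def nU (A : Set K) : ℕ → Set K
  | 0 => {0}
  | k + 1 => {x | ∃ a ∈ A, ∃ y ∈ nU A k, x = a + y}

theorem nU_zero (A : Set K) : nU A 0 = {0} := rfl

theorem mem_nU_succ {A : Set K} {k : ℕ} {x : K} :
    x ∈ nU A (k + 1) ↔ ∃ a ∈ A, ∃ y ∈ nU A k, x = a + y := Iff.rfl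

theorem nU_add {A : Set K} {k l : ℕ} {x y : K} (hx : x ∈ nU A k) (hy : y ∈ nU A l) :
    x + y ∈ nU A (k + l) := by
  induction k generalizing x with
  | zero =>
    rw [nU_zero, Set.mem_singleton_iff] at hx
    subst hx
    simpa using hy
  | succ k ih =>
    obtain ⟨a, ha, z, hz, rfl⟩ := hx
    rw [show k + 1 + l = (k + l) + 1 by ring]
    exact ⟨a, ha, z + y, ih hz, by abel⟩

theorem nU_split {A : Set K} {k l : ℕ} {x : K} (hx : x ∈ nU A (k + l)) :
    ∃ y ∈ nU A k, ∃ z ∈ nU A l, x = y + z := by
  induction k generalizing x with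
  | zero => exact ⟨0, rfl, x, by simpa using hx, by simp⟩
  | succ k ih =>
    rw [show k + 1 + l = (k + l) + 1 by ring] at hx
    obtain ⟨a, ha, z, hz, rfl⟩ := hx
    obtain ⟨y, hy, z', hz', rfl⟩ := ih hz
    exact ⟨a + y, ⟨a, ha, y, hy, rfl⟩, z', hz', by abel⟩

theorem zero_mem_nU {A : Set K} (h : (0 : K) ∈ A) (k : ℕ) : (0 : K) ∈ nU A k := by
  induction k with
  | zero => rfl
  | succ k ih => exact ⟨0, h, 0, ih, by simp⟩

theorem nU_mono {A : Set K} (h : (0 : K) ∈ A) {k l : ℕ} (hkl : k ≤ l) : nU A k ⊆ nU A l := by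
  intro x hx
  obtain ⟨d, rfl⟩ := Nat.exists_eq_add_of_le hkl
  have := nU_add hx (zero_mem_nU h d)
  simpa using this

theorem nU_subset {A A' : Set K} (h : A ⊆ A') (k : ℕ) : nU A k ⊆ nU A' k := by
  induction k with
  | zero => exact subset_rfl
  | succ k ih =>
    rintro x ⟨a, ha, y, hy, rfl⟩
    exact ⟨a, h ha, y, ih hy, rfl⟩

theorem nsmul_mem_nU {A : Set K} {a : K} (ha : a ∈ A) (k : ℕ) : k • a ∈ nU A k := by
  induction k with
  | zero => simp [nU_zero]
  | succ k ih => exact ⟨a, ha, k • a, ih, by rw [succ_nsmul, add_comm]⟩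

theorem mem_nU_one {A : Set K} {x : K} : x ∈ nU A 1 ↔ x ∈ A := by
  constructor
  · rintro ⟨a, ha, y, hy, rfl⟩
    rw [nU_zero, Set.mem_singleton_iff] at hy
    subst hy; simpa using ha
  · intro h; exact ⟨x, h, 0, rfl, by simp⟩

variable {U : ℕ → Set K}

theorem nU_pow (hadd : ∀ n x y, x ∈ U (n + 1) → y ∈ U (n + 1) → x + y ∈ U n) (a n : ℕ) :
    nU (U (n + a)) (2 ^ a) ⊆ U n := by
  induction a with
  | zero => intro x hx; simpa using mem_nU_one.1 hx
  | succ a ih =>
    intro x hx
    apply ih
    have key : ∀ k, nU (U (n + (a + 1))) (k + k) ⊆ nU (U (n + a)) k := by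
      intro k
      induction k with
      | zero => exact subset_rfl
      | succ k ihk =>
        intro x hx
        rw [show k + 1 + (k + 1) = (k + k) + 1 + 1 by ring] at hx
        obtain ⟨b, hb, z, ⟨b', hb', z', hz', rfl⟩, rfl⟩ := hx
        exact ⟨b + b', hadd _ _ _ hb hb', z', ihk hz', by abel⟩
    apply key
    rw [show 2 ^ (a + 1) = 2 ^ a + 2 ^ a by ring] at hx
    exact hx

theorem U_anti (h0 : ∀ n, (0 : K) ∈ U n)
    (hadd : ∀ n x y, x ∈ U (n + 1) → y ∈ U (n + 1) → x + y ∈ U n) {m n : ℕ} (h : n ≤ m) :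
    U m ⊆ U n := by
  induction m, h using Nat.le_induction with
  | base => exact subset_rfl
  | succ m _ ih =>
    intro x hx
    apply ih
    have := hadd m x 0 hx (h0 _)
    simpa using this

/-- `U 1 + U 2 + ... + U L ⊆ U 0`. -/
theorem sum_mem_U (h0 : ∀ n, (0 : K) ∈ U n)
    (hadd : ∀ n x y, x ∈ U (n + 1) → y ∈ U (n + 1) → x + y ∈ U n) (y : ℕ → K) (L : ℕ) :
    ∀ m, (∀ k < L, y (m + k) ∈ U (m + k + 1)) → ∑ k ∈ Finset.range L, y (m + k) ∈ U m := by
  induction L with
  | zero => intro n _; simpa using h0 n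
  | succ L ih =>
    intro n h
    rw [Finset.sum_range_succ', add_comm]
    refine hadd n _ _ (by simpa using h 0 (by omega)) ?_
    have h1 := ih (n + 1) (fun k hk => by
      have := h (k + 1) (by omega)
      rw [show n + 1 + k = n + (k + 1) by ring]
      exact this)
    convert h1 using 2 with k hk
    rw [show n + 1 + k = n + (k + 1) by ring]

end nU

section ground

variable {W : Type} {p : ℕ}

/-- The generators. -/
noncomputable def gen (w : W) : W →₀ ZMod p := Finsupp.single w 1

theorem gen_apply (w v : W) : (gen w : W →₀ ZMod p) v = if v = w then 1 else 0 := by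
  unfold gen
  rw [Finsupp.single_apply]
  simp only [eq_comm]

variable [NeZero p]

/-- The meet level of two sequences, bounded by `L`. -/
noncomputable def meet (L : ℕ) (a b : ℕ → ℕ) : ℕ :=
  sSup {n | n ≤ L ∧ ∀ k < n, a k = b k}

theorem meet_spec (L : ℕ) (a b : ℕ → ℕ) :
    meet L a b ≤ L ∧ (∀ k < meet L a b, a k = b k) := by
  have h : meet L a b ∈ {n | n ≤ L ∧ ∀ k < n, a k = b k} :=
    Nat.sSup_mem ⟨0, Nat.zero_le _, fun k hk => by omega⟩ ⟨L, fun n hn => hn.1⟩
  exact h

theorem le_meet {L n : ℕ} {a b : ℕ → ℕ} (h : n ≤ L) (h' : ∀ k < n, a k = b k) :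
    n ≤ meet L a b :=
  le_csSup ⟨L, fun n hn => hn.1⟩ ⟨h, h'⟩

theorem meet_ne {L : ℕ} {a b : ℕ → ℕ} (h : meet L a b < L) : a (meet L a b) ≠ b (meet L a b) := by
  intro he
  have h1 : meet L a b + 1 ≤ meet L a b := by
    refine le_meet h fun k hk => ?_
    rcases Nat.lt_succ_iff_lt_or_eq.1 hk with hk | rfl
    · exact (meet_spec L a b).2 k hk
    · exact he
  omega

theorem edges_mono {S S' : Finset W} (h : S' ⊆ S) (i : W → ℕ) (τ : W → ℕ → ℕ) (n : ℕ) :
    edges S' i τ n ⊆ edges S i τ n := by
  unfold edges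
  refine Finset.image_subset_image fun w hw => ?_
  rw [Finset.mem_filter] at hw ⊢
  obtain ⟨hw, w', hw', h1⟩ := hw
  exact ⟨h hw, w', h hw', h1⟩

/-- Decomposition by removing the points of the support one by one. -/
theorem decomp (L : ℕ) (i : W → ℕ) (τ : W → ℕ → ℕ) (D : ℕ → Set (W →₀ ZMod p))
    (h0 : ∀ n, (0 : W →₀ ZMod p) ∈ D n) :
    ∀ (N : ℕ) (S : Finset W), S.card = N →
      (∀ w ∈ S, ∀ w' ∈ S, i w = i w' → ∀ n ≤ L, (∀ k < n, τ w k = τ w' k) →
        gen w - gen w' ∈ D n) →
      ∀ x : W →₀ ZMod p, x.support ⊆ S → (∀ j, ∑ w ∈ S.filter (fun w => i w = j), x w = 0) →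
      ∃ y : ℕ → (W →₀ ZMod p), x = ∑ n ∈ Finset.range (L + 1), y n ∧
        (∀ n < L, y n ∈ nU (D n) (p * (edges S i τ n).card)) ∧ y L ∈ nU (D L) (p * S.card) := by
  intro N
  induction N with
  | zero =>
    intro S hS hD x hx hsum
    rw [Finset.card_eq_zero] at hS
    subst hS
    have hx0 : x = 0 := by
      rw [← Finsupp.support_eq_empty]
      exact Finset.subset_empty.1 hx
    subst hx0
    exact ⟨fun _ => 0, by simp, fun n _ => zero_mem_nU (h0 n) _, zero_mem_nU (h0 L) _⟩
  | succ N ih =>
    intro S hS hD x hx hsum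
    by_cases hpair : ∃ q : W × W, q.1 ∈ S ∧ q.2 ∈ S ∧ q.1 ≠ q.2 ∧ i q.1 = i q.2
    · -- a pair with maximal meet level
      obtain ⟨q, ⟨hq1, hq2, hq3, hq4⟩, hmax⟩ : ∃ q : W × W,
          (q.1 ∈ S ∧ q.2 ∈ S ∧ q.1 ≠ q.2 ∧ i q.1 = i q.2) ∧
          ∀ q' : W × W, (q'.1 ∈ S ∧ q'.2 ∈ S ∧ q'.1 ≠ q'.2 ∧ i q'.1 = i q'.2) →
            meet L (τ q'.1) (τ q'.2) ≤ meet L (τ q.1) (τ q.2) := by
        have hne : ((S ×ˢ S).filter fun q : W × W => q.1 ≠ q.2 ∧ i q.1 = i q.2).Nonempty := by
          obtain ⟨q, h1, h2, h3, h4⟩ := hpair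
          exact ⟨q, Finset.mem_filter.2 ⟨Finset.mem_product.2 ⟨h1, h2⟩, h3, h4⟩⟩
        obtain ⟨q, hq, hmax⟩ := Finset.exists_max_image _
          (fun q : W × W => meet L (τ q.1) (τ q.2)) hne
        rw [Finset.mem_filter, Finset.mem_product] at hq
        refine ⟨q, ⟨hq.1.1, hq.1.2, hq.2.1, hq.2.2⟩, fun q' h => hmax q' ?_⟩
        exact Finset.mem_filter.2 ⟨Finset.mem_product.2 ⟨h.1, h.2.1⟩, h.2.2.1, h.2.2.2⟩
      obtain ⟨w, w'⟩ := q
      simp only at hq1 hq2 hq3 hq4 hmax
      set n := meet L (τ w) (τ w') with hn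
      have hnL : n ≤ L := (meet_spec L _ _).1
      have hagree : ∀ k < n, τ w k = τ w' k := (meet_spec L _ _).2
      set c : ℕ := (x w).val with hc
      have hcp : c ≤ p := (ZMod.val_lt (x w)).le
      have hcx : (c : ZMod p) = x w := by rw [hc]; exact ZMod.natCast_zmod_val (x w)
      set g : W →₀ ZMod p := c • (gen w - gen w') with hg
      have hgw : ∀ v, g v = (if v = w then x w else 0) - (if v = w' then x w else 0) := by
        intro v
        rw [hg, Finsupp.smul_apply, Finsupp.sub_apply, gen_apply, gen_apply, nsmul_eq_mul, hcx,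
          mul_sub, mul_ite, mul_ite, mul_one, mul_zero]
      have hS' : (S.erase w).card = N := by
        rw [Finset.card_erase_of_mem hq1, hS]; rfl
      have hx' : (x - g).support ⊆ S.erase w := by
        intro v hv
        rw [Finsupp.mem_support_iff, Finsupp.sub_apply, hgw] at hv
        rw [Finset.mem_erase]
        constructor
        · rintro rfl
          apply hv
          simp [hq3]
        · by_contra hvS
          apply hv
          have h1 : v ≠ w := fun h => hvS (h ▸ hq1)
          have h2 : v ≠ w' := fun h => hvS (h ▸ hq2)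
          have h3 : x v = 0 := by
            by_contra h
            exact hvS (hx (Finsupp.mem_support_iff.2 h))
          simp [h1, h2, h3]
      have hsum' : ∀ j, ∑ v ∈ (S.erase w).filter (fun v => i v = j), (x - g) v = 0 := by
        intro j
        have e1 : ∑ v ∈ (S.erase w).filter (fun v => i v = j), (x - g) v =
            ∑ v ∈ S.filter (fun v => i v = j), (x - g) v := by
          refine Finset.sum_subset (Finset.filter_subset_filter _ (Finset.erase_subset _ _)) ?_
          intro v hv hv'
          rw [Finset.mem_filter] at hv hv'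
          have hvw : v = w := by
            by_contra h
            exact hv' ⟨Finset.mem_erase.2 ⟨h, hv.1⟩, hv.2⟩
          subst hvw
          rw [Finsupp.sub_apply, hgw]
          simp [hq3]
        rw [e1]
        have e2 : ∑ v ∈ S.filter (fun v => i v = j), (x - g) v =
            ∑ v ∈ S.filter (fun v => i v = j), x v - ∑ v ∈ S.filter (fun v => i v = j), g v := by
          rw [← Finset.sum_sub_distrib]
          rfl
        rw [e2, hsum j, zero_sub, neg_eq_zero]
        simp only [hgw, Finset.sum_sub_distrib, Finset.sum_ite_eq', Finset.mem_filter, hq1, hq2,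
          true_and, hq4]
        simp
      obtain ⟨y, hy1, hy2, hy3⟩ := ih (S.erase w) hS'
        (fun v hv v' hv' => hD v (Finset.mem_of_mem_erase hv) v' (Finset.mem_of_mem_erase hv'))
        (x - g) hx' hsum'
      have hgD : g ∈ nU (D n) p :=
        nU_mono (h0 n) hcp (nsmul_mem_nU (hD w hq1 w' hq2 hq4 n hnL hagree) c)
      refine ⟨fun k => y k + (if k = n then g else 0), ?_, ?_, ?_⟩
      · rw [Finset.sum_add_distrib, ← hy1]
        have : n ∈ Finset.range (L + 1) := Finset.mem_range.2 (by omega)
        simp [this]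
      · intro k hk
        by_cases hkn : k = n
        · subst hkn
          simp only [if_true]
          have h1 : (edges (S.erase w) i τ n).card + 1 ≤ (edges S i τ n).card := by
            have hnot : ((i w, List.ofFn fun k : Fin (n + 1) => τ w k) : ℕ × List ℕ) ∉
                edges (S.erase w) i τ n := by
              intro hmem
              unfold edges at hmem
              rw [Finset.mem_image] at hmem
              obtain ⟨v, hv, hveq⟩ := hmem
              rw [Finset.mem_filter, Finset.mem_erase] at hv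
              obtain ⟨⟨hvw, hvS⟩, -⟩ := hv
              have hi : i v = i w := congrArg Prod.fst hveq
              have hstr := List.ofFn_injective (congrArg Prod.snd hveq)
              have h2 : n + 1 ≤ meet L (τ v) (τ w) := by
                refine le_meet hk fun k hk' => ?_
                exact congrFun hstr ⟨k, hk'⟩
              have h3 := hmax (v, w) ⟨hvS, hq1, hvw, hi⟩
              simp only at h3
              omega
            have hin : ((i w, List.ofFn fun k : Fin (n + 1) => τ w k) : ℕ × List ℕ) ∈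
                edges S i τ n := by
              unfold edges
              refine Finset.mem_image.2 ⟨w, Finset.mem_filter.2 ⟨hq1, w', hq2, hq4.symm, ?_, ?_⟩,
                rfl⟩
              · intro k hk; exact (hagree k hk).symm
              · exact (meet_ne hk).symm
            calc (edges (S.erase w) i τ n).card + 1 =
                (insert ((i w, List.ofFn fun k : Fin (n + 1) => τ w k) : ℕ × List ℕ)
                  (edges (S.erase w) i τ n)).card := (Finset.card_insert_of_notMem hnot).symm
              _ ≤ _ := Finset.card_le_card (Finset.insert_subset hin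
                (edges_mono (Finset.erase_subset _ _) i τ n))
          have h2 := nU_add (hy2 n hk) hgD
          refine nU_mono (h0 n) ?_ h2
          calc p * (edges (S.erase w) i τ n).card + p = p * ((edges (S.erase w) i τ n).card + 1) := by
                ring
            _ ≤ _ := Nat.mul_le_mul_left _ h1
        · simp only [if_neg hkn, add_zero]
          exact nU_mono (h0 k) (Nat.mul_le_mul_left _ (Finset.card_le_card
            (edges_mono (Finset.erase_subset _ _) i τ k))) (hy2 k hk)
      · have h5 : y L ∈ nU (D L) (p * N) := by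
          rw [← hS']; exact hy3
        by_cases hLn : L = n
        · simp only [hLn, if_true]
          rw [← hLn] at hgD ⊢
          have h2 := nU_add h5 hgD
          rw [hS]
          exact nU_mono (h0 L) (le_of_eq (by ring)) h2
        · simp only [if_neg hLn, add_zero]
          rw [hS]
          exact nU_mono (h0 L) (Nat.mul_le_mul_left _ (Nat.le_succ N)) h5
    · -- all points are in different classes
      have hx0 : x = 0 := by
        rw [← Finsupp.support_eq_empty, Finset.eq_empty_iff_forall_notMem]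
        intro w hw
        have hwS := hx hw
        rw [Finsupp.mem_support_iff] at hw
        apply hw
        have h1 := hsum (i w)
        have h2 : S.filter (fun v => i v = i w) = {w} := by
          ext v
          rw [Finset.mem_filter, Finset.mem_singleton]
          constructor
          · rintro ⟨hv, hvi⟩
            by_contra hvw
            exact hpair ⟨(v, w), hv, hwS, hvw, hvi⟩
          · rintro rfl; exact ⟨hwS, rfl⟩
        rw [h2, Finset.sum_singleton] at h1
        exact h1
      subst hx0
      exact ⟨fun _ => 0, by simp, fun n _ => zero_mem_nU (h0 n) _, zero_mem_nU (h0 L) _⟩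

/-- The index of the set of the sequence used at level `k`. -/
def mm (p : ℕ) (β : ℕ → ℕ) (k : ℕ) : ℕ := k + 2 + p * (β (k + 1) + (k + 1))

/-- The ground lemma: elements with vanishing class sums are small. -/
theorem ground_mem {U : ℕ → Set (W →₀ ZMod p)} (h0 : ∀ n, (0 : W →₀ ZMod p) ∈ U n)
    (hadd : ∀ n x y, x ∈ U (n + 1) → y ∈ U (n + 1) → x + y ∈ U n) {β : ℕ → ℕ} (hβ : β 0 = 0)
    {L : ℕ} (hL : 1 ≤ L) {i : W → ℕ} {τ : W → ℕ → ℕ} {S : Finset W} (hSL : S.card ≤ L)
    (hU : ∀ w ∈ S, ∀ w' ∈ S, i w = i w' → ∀ k < L, τ w k = τ w' k →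
      gen w - gen w' ∈ U (mm p β k))
    (hE : ∀ n < L, (edges S i τ n).card ≤ β n) (x : W →₀ ZMod p) (hx : x.support ⊆ S)
    (hsum : ∀ j, ∑ w ∈ S.filter (fun w => i w = j), x w = 0) : x ∈ U 0 := by
  have hD : ∀ w ∈ S, ∀ w' ∈ S, i w = i w' → ∀ n ≤ L, (∀ k < n, τ w k = τ w' k) →
      gen w - gen w' ∈ (fun n => if n = 0 then Set.univ else U (mm p β (n - 1))) n := by
    intro w hw w' hw' hi n hn hk
    by_cases h : n = 0
    · simp [h]
    · simp only [h, if_false]
      exact hU w hw w' hw' hi (n - 1) (by omega) (hk (n - 1) (by omega))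
  obtain ⟨y, hy1, hy2, hy3⟩ := decomp (p := p) L i τ
    (fun n => if n = 0 then Set.univ else U (mm p β (n - 1)))
    (by intro n; by_cases h : n = 0 <;> simp [h, h0]) S.card S rfl hD x hx hsum
  · have key : ∀ k < L + 1, y (0 + k) ∈ U (0 + k + 1) := by
      intro k hk
      rw [zero_add]
      by_cases hk0 : k = 0
      · subst hk0
        have h1 := hy2 0 (by omega)
        have h2 : (edges S i τ 0).card = 0 := by
          have := hE 0 (by omega)
          omega
        rw [h2, mul_zero, nU_zero, Set.mem_singleton_iff] at h1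
        rw [h1]; exact h0 _
      · obtain ⟨j, rfl⟩ := Nat.exists_eq_succ_of_ne_zero hk0
        have hgen : ∀ z : W →₀ ZMod p, ∀ N : ℕ, N ≤ p * (β (j + 1) + (j + 1)) →
            z ∈ nU (U (mm p β j)) N → z ∈ U (j + 2) := by
          intro z N hN hz
          refine nU_pow hadd (p * (β (j + 1) + (j + 1))) (j + 2) ?_
          refine nU_mono (h0 _) (hN.trans Nat.lt_two_pow_self.le) ?_
          exact hz
        rcases Nat.lt_or_ge (j + 1) L with hlt | hge
        · have h1 := hy2 (j + 1) hlt
          simp only [Nat.add_one_ne_zero, if_false, Nat.add_sub_cancel] at h1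
          refine hgen _ _ ?_ h1
          refine Nat.mul_le_mul_left _ ((hE _ hlt).trans ?_)
          omega
        · have hjL : j + 1 = L := by omega
          have h1 := hy3
          rw [← hjL] at h1
          simp only [Nat.add_one_ne_zero, if_false, Nat.add_sub_cancel] at h1
          refine hgen _ _ ?_ h1
          refine Nat.mul_le_mul_left _ ?_
          omega
    have h2 := sum_mem_U h0 hadd y (L + 1) 0 key
    rw [hy1]
    simpa using h2

end ground

end M3
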