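import Pool.Agent.H.MP_8ff4bd_gt.M3.SO

/-!
# Node sums and levels (interface of the ground bijection)
-/

namespace M3

/-- The node sum: the sum of the values of `g` over all points whose branch passes through the
node `s`. -/
noncomputable def nsum {W A : Type} [AddCommMonoid A] (rho : W → ℕ → Bool) (g : W →₀ A)
    (s : List Bool) : A := by
  classical
  exact ∑ x ∈ g.support.filter (fun x => pre rho x s.length = s), g x

/-- The coordinate subgroup of level `m`: the coordinates from `a m` on vanish. -/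
def CL {p : ℕ} (a : ℕ → ℕ) (m : ℕ) : AddSubgroup (ℕ →₀ ZMod p) where
  carrier := {v | ∀ j, a m ≤ j → v j = 0}
  zero_mem' := fun _ _ => rfl
  add_mem' := fun {v w} hv hw j hj => by
    rw [Finsupp.add_apply, hv j hj, hw j hj, add_zero]
  neg_mem' := fun {v} hv j hj => by
    rw [Finsupp.neg_apply, hv j hj, neg_zero]

/-- Admissible level functions. -/
structure Lev (a : ℕ → ℕ) : Prop where
  mono : Monotone a
  zero : a 0 = 0
  unb : ∀ j, ∃ m, j < a m

/-- Locality of a map on finitely supported functions, in terms of node sums. -/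
def NLocal {W A A' : Type} [AddCommMonoid A] [AddCommMonoid A'] (rho : W → ℕ → Bool)
    (f : (W →₀ A) → (W →₀ A')) : Prop :=
  ∀ g g' k, (∀ s : List Bool, s.length ≤ k → nsum rho g s = nsum rho g' s) →
    ∀ s : List Bool, s.length ≤ k → nsum rho (f g) s = nsum rho (f g') s

/-- What is needed of the ground bijection (part IV). -/
def TreeBij (W : Type) (rho : W → ℕ → Bool) : Prop :=
  ∃ a b : ℕ → ℕ, Lev a ∧ Lev b ∧
    ∃ f : (W →₀ (ℕ →₀ ZMod 2)) ≃ (W →₀ (ℕ →₀ ZMod 3)),
      (∀ g s m, nsum rho g s ∈ CL a m → nsum rho (f g) s ∈ CL b m) ∧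
      (∀ g s m, nsum rho (f g) s ∈ CL b m → nsum rho g s ∈ CL a (m + 1)) ∧
      (∀ g s, nsum rho (f g) s = 0 → nsum rho g s = 0) ∧
      NLocal rho f ∧ NLocal rho f.symm

end M3
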