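import Pool.Agent.H.MP_8ff4bd_gt.M3.TransGen

/-!
# Names of finitely supported functions
-/

set_option autoImplicit false

namespace M3.BSet

open Pool.Agent.H.MP_8ff4bd_gt.M3

variable {B : Type} [CompleteBooleanAlgebra B]

/-! ### Numerals and values -/

theorem str_bNum (i : ℕ) (x : BSet B) : (str B).bNum i x = beq x (ofNat i) := by
  induction i generalizing x with
  | zero =>
    show (str B).bEmpty x = beq x (ofNat 0)
    rw [str_bEmpty]; rfl
  | succ n ih =>
    show (⨆ y, (str B).bNum n y ⊓ (str B).bInsert x y y) = beq x (ofNat (n + 1))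
    simp only [ih, str_bInsert]
    rw [iSup_beq (Ext.comp_insert_diag (ext_beq_right x))]
    rfl

theorem str_bLess (m : ℕ) (x : BSet B) : (str B).bLess m x = ⨆ i : Fin m, beq x (ofNat i) := by
  unfold BStr.bLess
  simp only [str_bNum]

theorem str_bVal (x t : BSet B) (i : ℕ) : (str B).bVal x t i = pmem t (ofNat i) x := by
  unfold BStr.bVal
  simp only [str_bNum, str_bRel]
  exact iSup_beq (ext_pmem₂ t x) _

theorem str_bFun (m : ℕ) (w x : BSet B) : (str B).bFun m w x =
    (⨅ p, (bmem p x ⇨ ⨆ t, ⨆ n, bmem t w ⊓ (⨆ i : Fin m, beq n (ofNat i)) ⊓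
      beq p (opair t n))) ⊓
    (⨅ t, (bmem t w ⇨ ⨆ n, pmem t n x)) ⊓
    (⨅ t, ⨅ n, ⨅ n', (pmem t n x ⊓ pmem t n' x ⇨ beq n n')) := by
  unfold BStr.bFun
  simp only [str_bRel, str_bLess, str_bOPair, str_mem, str_eq]

theorem str_bFinSupp (w x : BSet B) : (str B).bFinSupp w x =
    ⨆ s, (str B).bFin s ⊓ ⨅ t, (bmem t w ⊓ (pmem t (ofNat 0) x)ᶜ ⇨ bmem t s) := by
  unfold BStr.bFinSupp
  simp only [str_bVal, str_mem]

theorem ext_bFun (m : ℕ) (w : BSet B) : Ext (fun x => (str B).bFun m w x) := by
  simp only [str_bFun]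
  refine Ext.inf (Ext.inf ?_ ?_) ?_
  · exact Ext.iInf fun p => (ext_bmem_right p).himp (ext_const _)
  · exact Ext.iInf fun t => (ext_const _).himp (Ext.iSup fun n => ext_pmem₃ t n)
  · exact Ext.iInf fun t => Ext.iInf fun n => Ext.iInf fun n' =>
      ((ext_pmem₃ t n).inf (ext_pmem₃ t n')).himp (ext_const _)

theorem ext_bFinSupp (w : BSet B) : Ext (fun x => (str B).bFinSupp w x) := by
  simp only [str_bFinSupp]
  exact Ext.iSup fun s => (ext_const _).inf (Ext.iInf fun t =>
    ((ext_const _).inf (ext_pmem₃ t _).compl).himp (ext_const _))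

/-! ### The traces of finite sets on a family -/

theorem bFin_trace {X : Type} (a : X → BSet B) (s : BSet B) :
    (str B).bFin s ≤ ⨆ F : Finset X, ⨅ z, (bmem z s ⊓ bmem z (fam a) ⇨ bmem z (fs a F)) := by
  classical
  let ψ : BSet B → B := fun y =>
    ⨆ F : Finset X, ⨅ z, (bmem z y ⊓ bmem z (fam a) ⇨ bmem z (fs a F))
  have hψ : Ext ψ := Ext.iSup fun F => Ext.iInf fun z =>
    ((ext_bmem_right z).inf (ext_const _)).himp (ext_const _)
  have key : (str B).bFin s ≤ bmem s (sep ψ (pow s)) := by
    rw [str_bFin]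
    refine bv_mp (iInf_le _ (sep ψ (pow s))) (le_inf ?_ ?_)
    · rw [bmem_sep hψ, bmem_pow]
      refine le_inf ?_ ?_
      · rw [bsub_eq]
        exact le_iInf fun z => bv_imp fun Δ _ h => by
          rw [bmem_empty] at h; exact h.trans bot_le
      · refine bv_intro ∅ (le_iInf fun z => bv_imp fun Δ _ h => ?_)
        have h1 := bv_left h
        rw [bmem_empty] at h1; exact h1.trans bot_le
    · refine le_iInf fun y => le_iInf fun t => bv_imp fun Γ _ h => ?_
      have hy := bv_left h
      have ht : Γ ≤ bmem t s := bv_right h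
      rw [bmem_sep hψ, bmem_pow] at hy ⊢
      refine le_inf ?_ ?_
      · have hy1 := bv_left hy
        rw [bsub_eq] at hy1 ⊢
        refine le_iInf fun z => bv_imp fun Δ hΔ hz => ?_
        rw [bmem_insert] at hz
        refine bv_or hz (fun E hE h1 => ?_) (fun E hE h1 => ?_)
        · exact bmem_congr_left (beq_symm' h1) ((hE.trans hΔ).trans ht)
        · exact bv_mp (bv_all ((hE.trans hΔ).trans hy1) z) h1
      · refine bv_exists (bv_right hy) fun F Δ hΔ hF => ?_
        refine bv_cases (bmem t (fam a)) (fun E hE ht' => ?_) (fun E hE ht' => ?_)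
        · rw [bmem_fam] at ht'
          refine bv_exists ht' fun i G hG hi => bv_intro (Insert.insert i F)
            (le_iInf fun z => bv_imp fun H hH hz => ?_)
          have h1 := bv_left hz
          rw [bmem_insert] at h1
          refine bv_or h1 (fun I hI h2 => ?_) (fun I hI h2 => ?_)
          · refine bmem_congr_left (x := a i) (beq_symm' (beq_trans' h2
              ((hI.trans hH).trans hi))) ?_
            rw [bmem_fs_of_mem a (Finset.mem_insert_self i F)]; exact le_top
          · have h3 := bv_mp (bv_all ((hI.trans (hH.trans (hG.trans hE))).trans hF) z)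
              (le_inf h2 (hI.trans (bv_right hz)))
            rw [bmem_fs] at h3 ⊢
            rw [Finset.iSup_insert]
            exact h3.trans le_sup_right
        · refine bv_intro F (le_iInf fun z => bv_imp fun H hH hz => ?_)
          have h1 := bv_left hz
          rw [bmem_insert] at h1
          refine bv_or h1 (fun I hI h2 => ?_) (fun I hI h2 => ?_)
          · exact bv_absurd (bmem_congr_left h2 (hI.trans (bv_right hz)))
              ((hI.trans hH).trans ht')
          · exact bv_mp (bv_all ((hI.trans (hH.trans hE)).trans hF) z)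
              (le_inf h2 (hI.trans (bv_right hz)))
  rw [bmem_sep hψ] at key
  exact bv_right key

/-! ### The names of finitely supported functions -/

section grp

variable {X : Type} {m : ℕ} [NeZero m]

/-- The name of a finitely supported function with values in the cyclic group of order `m`. -/
def gN (m : ℕ) (a : X → BSet B) (g : X →₀ ZMod m) : BSet B :=
  fam fun i => opair (a i) (ofNat (g i).val)

omit [NeZero m] in
theorem pmem_gN (a : X → BSet B) (g : X →₀ ZMod m) (x y : BSet B) :
    pmem x y (gN m a g) = ⨆ i, beq x (a i) ⊓ beq y (ofNat (g i).val) := by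
  unfold pmem gN
  rw [bmem_fam]
  simp only [beq_opair]

theorem pmem_gN_self (a : X → BSet B) (g : X →₀ ZMod m) (i : X) :
    pmem (a i) (ofNat (g i).val) (gN m a g) = ⊤ := by
  rw [pmem_gN, eq_top_iff]
  exact bv_intro (f := fun j => beq (a i) (a j) ⊓ beq (ofNat (g i).val) (ofNat (g j).val)) i
    (by simp)

theorem pmem_gN_ne {a : X → BSet B} (ha : Discrete a) (g : X →₀ ZMod m) (i : X) {k : ℕ}
    (hk : k ≠ (g i).val) : pmem (a i) (ofNat k) (gN m a g) = ⊥ := by
  rw [pmem_gN, iSup_eq_bot]
  intro j
  by_cases h : i = j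
  · subst h
    rw [ofNat_discrete hk, inf_bot_eq]
  · rw [ha i j h, bot_inf_eq]

theorem gN_discrete {a : X → BSet B} (ha : Discrete a) : Discrete (gN m a) := by
  intro g g' h
  obtain ⟨i, hi⟩ := Finsupp.ne_iff.1 h
  rw [← le_bot_iff]
  have h1 : beq (gN m a g) (gN m a g') ≤ pmem (a i) (ofNat (g i).val) (gN m a g') := by
    refine (ext_pmem₃ (a i) (ofNat (g i).val)).le (x := gN m a g) le_rfl ?_
    rw [pmem_gN_self]; exact le_top
  rw [pmem_gN_ne ha g' i (fun h2 => hi (ZMod.val_injective m h2))] at h1
  exact h1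

theorem bFun_gN {a : X → BSet B} (ha : Discrete a) (g : X →₀ ZMod m) :
    (str B).bFun m (fam a) (gN m a g) = ⊤ := by
  rw [str_bFun, eq_top_iff]
  refine le_inf (le_inf ?_ ?_) ?_
  · refine le_iInf fun p => bv_imp fun Γ _ h => ?_
    unfold gN at h
    rw [bmem_fam] at h
    refine bv_exists h fun i Δ hΔ hi => bv_intro (a i) (bv_intro (ofNat (g i).val)
      (le_inf (le_inf (mem_fam_le a i _) ?_) hi))
    exact bv_intro (⟨(g i).val, ZMod.val_lt _⟩ : Fin m) (by simp)
  · refine le_iInf fun t => bv_imp fun Γ _ h => ?_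
    rw [bmem_fam] at h
    refine bv_exists h fun i Δ hΔ hi => bv_intro (ofNat (g i).val) ?_
    refine (ext_pmem₁ _ _).le (x := a i) (beq_symm' hi) ?_
    rw [pmem_gN_self]; exact le_top
  · refine le_iInf fun t => le_iInf fun k => le_iInf fun k' => bv_imp fun Γ _ h => ?_
    have h1 := bv_left h
    have h2 := bv_right h
    rw [pmem_gN] at h1 h2
    refine bv_exists h1 fun i Δ hΔ hi => bv_exists (hΔ.trans h2) fun j E hE hj => ?_
    have h3 : E ≤ beq (a i) (a j) :=
      beq_trans' (beq_symm' (hE.trans (bv_left hi))) (bv_left hj)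
    by_cases hij : i = j
    · subst hij
      exact beq_trans' (hE.trans (bv_right hi)) (beq_symm' (bv_right hj))
    · rw [ha i j hij] at h3
      exact h3.trans bot_le

theorem bFinSupp_gN (a : X → BSet B) (g : X →₀ ZMod m) :
    (str B).bFinSupp (fam a) (gN m a g) = ⊤ := by
  rw [str_bFinSupp, eq_top_iff]
  refine bv_intro (fs a g.support) (le_inf (by rw [bFin_fs]) (le_iInf fun t =>
    bv_imp fun Γ _ h => ?_))
  have h1 := bv_left h
  rw [bmem_fam] at h1
  refine bv_exists h1 fun i Δ hΔ hi => ?_
  refine bmem_congr_left (beq_symm' hi) ?_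
  by_cases hg : i ∈ g.support
  · rw [bmem_fs_of_mem a hg]; exact le_top
  · refine bv_absurd (a := pmem t (ofNat 0) (gN m a g)) ?_ (hΔ.trans (bv_right h))
    refine (ext_pmem₁ _ _).le (x := a i) (beq_symm' hi) ?_
    have h2 : g i = 0 := Finsupp.notMem_support_iff.1 hg
    have h3 : (g i).val = 0 := by rw [h2]; exact ZMod.val_zero
    have h4 := pmem_gN_self a g i
    rw [h3] at h4
    rw [h4]; exact le_top

theorem bv_finite_choice {Γ : B} (m : ℕ) [NeZero m] (F : Finset X) (f : X → ZMod m → B)
    (h : ∀ i ∈ F, Γ ≤ ⨆ k, f i k) :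
    Γ ≤ ⨆ g : {g : X →₀ ZMod m // ∀ i, i ∉ F → g i = 0}, ⨅ i ∈ F, f i (g.1 i) := by
  classical
  induction F using Finset.induction_on with
  | empty =>
    refine bv_intro ⟨0, fun i _ => rfl⟩ ?_
    simp
  | insert i F hi ih =>
    have h1 := ih (fun j hj => h j (Finset.mem_insert_of_mem hj))
    refine bv_exists h1 fun g Δ hΔ hg => ?_
    refine bv_exists (hΔ.trans (h i (Finset.mem_insert_self i F))) fun k E hE hk => ?_
    refine bv_intro ⟨g.1.update i k, fun j hj => ?_⟩ ?_
    · rw [Finset.mem_insert, not_or] at hj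
      rw [Finsupp.update_apply, if_neg hj.1]
      exact g.2 j hj.2
    · refine le_iInf fun j => le_iInf fun hj => ?_
      show E ≤ f j ((g.1.update i k) j)
      rw [Finsupp.update_apply]
      by_cases hji : j = i
      · subst hji
        rw [if_pos rfl]; exact hk
      · rw [if_neg hji]
        have hjF : j ∈ F := (Finset.mem_insert.1 hj).resolve_left hji
        exact bv_all (bv_all (hE.trans hg) j) hjF

/-- The finitely supported functions on a discrete family. -/
theorem bFun_inf_bFinSupp {a : X → BSet B} (ha : Discrete a) (x : BSet B) :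
    (str B).bFun m (fam a) x ⊓ (str B).bFinSupp (fam a) x = ⨆ g, beq x (gN m a g) := by
  classical
  apply le_antisymm
  · refine le_of_forall_le fun Γ hΓ => ?_
    have hf := bv_left hΓ
    have hs := bv_right hΓ
    rw [str_bFun] at hf
    rw [str_bFinSupp] at hs
    refine bv_exists hs fun s Δ hΔ h => ?_
    refine bv_exists ((bv_left h).trans (bFin_trace a s)) fun F E hE hF => ?_
    have hEΓ : E ≤ Γ := hE.trans hΔ
    -- the values outside of F
    have h0 : ∀ i, i ∉ F → E ≤ pmem (a i) (ofNat 0) x := by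
      intro i hi
      refine bv_contra fun G hG h1 => ?_
      have h2 : G ≤ bmem (a i) s := bv_mp (bv_all ((hG.trans hE).trans (bv_right h)) (a i))
        (le_inf (mem_fam_le a i _) h1)
      have h3 := bv_mp (bv_all (hG.trans hF) (a i)) (le_inf h2 (mem_fam_le a i _))
      rwa [bmem_fs_of_notMem ha hi] at h3
    -- values at arbitrary points
    have h1 : ∀ i, E ≤ ⨆ k : ZMod m, pmem (a i) (ofNat k.val) x := by
      intro i
      have h2 := bv_mp (bv_all ((hEΓ.trans hf).trans (inf_le_left.trans inf_le_right)) (a i))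
        (mem_fam_le a i _)
      refine bv_exists h2 fun k G hG hk => ?_
      have h3 := bv_mp (bv_all ((hG.trans (hEΓ.trans hf)).trans
        (inf_le_left.trans inf_le_left)) (opair (a i) k)) hk
      refine bv_exists h3 fun t H hH ht => bv_exists ht fun k' I hI hk' => ?_
      refine bv_exists (bv_right (bv_left hk')) fun j J hJ hj => ?_
      have h4 : J ≤ beq k (ofNat j) :=
        beq_trans' (opair_inj_right (hJ.trans (bv_right hk'))) hj
      refine bv_intro ((j : ℕ) : ZMod m) ?_
      rw [ZMod.val_natCast, Nat.mod_eq_of_lt j.2]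
      refine (ext_pmem₂ _ _).le h4 ?_
      exact (hJ.trans (hI.trans hH)).trans hk
    refine bv_exists (bv_finite_choice m F (fun i k => pmem (a i) (ofNat k.val) x)
      (fun i _ => h1 i)) fun g G hG hg => bv_intro g.1 ?_
    have hall : ∀ i, G ≤ pmem (a i) (ofNat (g.1 i).val) x := by
      intro i
      by_cases hi : i ∈ F
      · exact bv_all (bv_all hg i) hi
      · rw [g.2 i hi, ZMod.val_zero]
        exact hG.trans (h0 i hi)
    have hGf := hG.trans (hEΓ.trans hf)
    rw [le_beq_iff']
    constructor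
    · intro z
      have hz1 : G ⊓ bmem z x ≤ G := inf_le_left
      have h2 := bv_mp (bv_all ((hz1.trans hGf).trans (inf_le_left.trans inf_le_left)) z)
        inf_le_right
      refine bv_exists h2 fun t H hH ht => bv_exists ht fun k I hI hk => ?_
      have h3 := bv_left (bv_left hk)
      rw [bmem_fam] at h3
      refine bv_exists h3 fun i J hJ hi => ?_
      have hJG : J ≤ G := (hJ.trans (hI.trans hH)).trans inf_le_left
      have h4 : J ≤ pmem (a i) k x := by
        refine (ext_pmem₁ _ _).le hi ?_
        refine (ext_bmem_left x).le (hJ.trans (bv_right hk)) ?_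
        exact (hJ.trans (hI.trans hH)).trans inf_le_right
      have h5 := bv_mp (bv_all (bv_all (bv_all ((hJG.trans hGf).trans inf_le_right) (a i)) k)
        (ofNat (g.1 i).val)) (le_inf h4 (hJG.trans (hall i)))
      unfold gN
      rw [bmem_fam]
      refine bv_intro i (beq_trans' (hJ.trans (bv_right hk)) (opair_congr hi h5))
    · intro z
      unfold gN
      rw [bmem_fam]
      refine bv_exists (inf_le_right : G ⊓ _ ≤ _) fun i J hJ hi => ?_
      refine bmem_congr_left (beq_symm' hi) ?_
      exact (hJ.trans inf_le_left).trans (hall i)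
  · refine iSup_le fun g => le_inf ?_ ?_
    · refine (ext_bFun m (fam a)).le (x := gN m a g) (beq_symm' le_rfl) ?_
      rw [bFun_gN ha]; exact le_top
    · refine (ext_bFinSupp (fam a)).le (x := gN m a g) (beq_symm' le_rfl) ?_
      rw [bFinSupp_gN]; exact le_top

/-- The value of: `G` is the set of finitely supported functions. -/
theorem str_bIsGrp {a : X → BSet B} (ha : Discrete a) (G : BSet B) :
    (str B).bIsGrp m (fam a) G = beq G (fam (gN m a)) := by
  unfold BStr.bIsGrp
  simp only [bFun_inf_bFinSupp ha]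
  exact iInf_bihimp_eq (f := fun x => ⨆ g, beq x (gN m a g)) (fun w => bmem_fam _ _)

omit [NeZero m] in
theorem bAdd_fam (a : X → BSet B) (x y z : BSet B) : (str B).bAdd m (fam a) x y z =
    ⨅ s, ⨆ i : Fin m, ⨆ j : Fin m,
      pmem (a s) (ofNat i) x ⊓ pmem (a s) (ofNat j) y ⊓ pmem (a s) (ofNat ((i + j : ℕ) % m)) z := by
  unfold BStr.bAdd
  simp only [str_bVal, str_mem]
  refine iInf_fam a (φ := fun t => ⨆ i : Fin m, ⨆ j : Fin m,
      pmem t (ofNat i) x ⊓ pmem t (ofNat j) y ⊓ pmem t (ofNat ((i + j : ℕ) % m)) z) ?_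
  exact Ext.iSup fun i => Ext.iSup fun j => ((ext_pmem₁ _ _).inf (ext_pmem₁ _ _)).inf
    (ext_pmem₁ _ _)

/-- The finitely supported functions on a discrete family form a group of names. -/
theorem grpName_gN {a : X → BSet B} (ha : Discrete a) : GrpName m (fam a) (gN m a) where
  disc := gN_discrete ha
  add_eq := fun x y => by
    rw [bAdd_fam, eq_top_iff]
    refine le_iInf fun s => bv_intro (⟨(x s).val, ZMod.val_lt _⟩ : Fin m)
      (bv_intro (⟨(y s).val, ZMod.val_lt _⟩ : Fin m) (le_inf (le_inf ?_ ?_) ?_))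
    · rw [pmem_gN_self]
    · rw [pmem_gN_self]
    · have h1 : ((x s).val + (y s).val) % m = ((x + y) s).val := by
        rw [Finsupp.add_apply, ZMod.val_add]
      show ⊤ ≤ pmem (a s) (ofNat (((x s).val + (y s).val) % m)) (gN m a (x + y))
      rw [h1, pmem_gN_self]
  add_ne := fun x y z h => by
    obtain ⟨s, hs⟩ := Finsupp.ne_iff.1 h
    rw [bAdd_fam, ← le_bot_iff]
    refine (iInf_le _ s).trans (iSup_le fun i => iSup_le fun j => ?_)
    by_cases hi : (i : ℕ) = (x s).val
    · by_cases hj : (j : ℕ) = (y s).val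
      · refine inf_le_right.trans ?_
        rw [pmem_gN_ne ha z s]
        intro h1
        apply hs
        apply ZMod.val_injective m
        rw [← h1, Finsupp.add_apply, ZMod.val_add, hi, hj]
      · refine (inf_le_left.trans inf_le_right).trans ?_
        rw [pmem_gN_ne ha y s hj]
    · refine (inf_le_left.trans inf_le_left).trans ?_
      rw [pmem_gN_ne ha x s hi]

end grp

end M3.BSet
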