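import Pool.Agent.H.MP_8ff4bd_gt.M3.ZFC
import Pool.Agent.H.MP_8ff4bd_gt.M3.S.BVal

/-!
# The Boolean-valued sets form a Boolean-valued model of ZFC
-/

universe u v

namespace M3.BSet

open Pool.Agent.H.MP_8ff4bd_gt.M3

variable (B : Type u) [CompleteBooleanAlgebra B]

/-- The Boolean-valued structure of all names. -/
def str : BStr B (BSet B) where
  mem := bmem
  eq := beq
  eq_refl := beq_refl
  eq_symm := beq_symm
  eq_trans := beq_trans
  mem_congr_left := fun x x' y => beq_inf_bmem_left x x' y
  mem_congr_right := fun x y y' => beq_inf_bmem_right x y y'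

@[simp] theorem str_mem (x y : BSet B) : (str B).mem x y = bmem x y := rfl
@[simp] theorem str_eq (x y : BSet B) : (str B).eq x y = beq x y := rfl

variable {B}

theorem isExt_iff {φ : BSet B → B} : (str B).IsExt φ ↔ Ext φ := Iff.rfl

/-- All axioms of ZFC have value top. -/
theorem bzfc : (str B).BZFC where
  full := fun φ h => maximum h
  ext := fun x y => by
    simp only [str_mem, str_eq]
    rw [beq_eq_iInf_bihimp]
  found := fun x => foundation x
  pair := fun x y => ⟨upair x y, fun w => bmem_upair x y w⟩
  union := fun x => ⟨sUnion x, fun w => bmem_sUnion x w⟩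
  power := fun x => ⟨pow x, fun w => by
    simp only [str_mem]
    rw [bmem_pow, bsub_eq]⟩
  infinity := ⟨omega, empty, empty_mem_omega, bmem_empty, fun x =>
    ⟨insert x x, succ_mem_omega x, fun w => by
      simp only [str_mem, str_eq]
      rw [bmem_insert, sup_comm]⟩⟩
  compr := fun φ h a => ⟨sep φ a, fun x => bmem_sep h a x⟩
  coll := fun φ h1 h2 a => collection h1 h2 a
  choice := fun a => by
    obtain ⟨c, hc⟩ := choice a
    refine ⟨c, ?_⟩
    simp only [str_mem, str_eq]
    refine le_trans ?_ (hc.trans ?_)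
    · refine le_inf inf_le_left (le_iInf fun y => le_iInf fun y' => bv_imp fun Γ hΓ hy => bv_imp
        fun Δ hΔ hz => bv_exists hz fun z E hE hz => ?_)
      have h1 := bv_all (bv_all (bv_all ((hE.trans (hΔ.trans hΓ)).trans inf_le_right) y) y') z
      refine bv_mp h1 (le_inf (le_inf ?_ (bv_left hz)) (bv_right hz))
      exact (hE.trans hΔ).trans hy
    · refine le_iInf fun y => bv_imp fun Γ hΓ hy => ?_
      have h1 := bv_mp (bv_all hΓ y) hy
      refine bv_exists (bv_left h1) fun z Δ hΔ hz => bv_intro (f := fun w => bmem w y ⊓ bmem w c ⊓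
        ⨅ z, (bmem z y ⊓ bmem z c ⇨ beq z w)) z (le_inf hz (le_iInf fun z' => bv_imp
          fun E hE hz' => ?_))
      exact bv_mp (bv_mp (bv_all (bv_all ((hE.trans hΔ).trans (bv_right h1)) z') z) hz')
        (hE.trans hz)

end M3.BSet
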