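import Pool.Agent.H.MP_8ff4bd_gt.M3.NSum
import Pool.Agent.H.MP_8ff4bd_gt.M3.Color

/-!
# The node subgroups `KN` and their countable index
-/

namespace M3

variable {B : Type} [CompleteBooleanAlgebra B] {W : Type} (rho : W → ℕ → Bool)

/-- Value of: for all `m` and all nodes `s` in `R m` the node sum of `z` at `s` is in the coordinate
subgroup of level `m`. -/
noncomputable def KN {p : ℕ} (a : ℕ → ℕ) (R : ℕ → List Bool → B) (z : W →₀ (ℕ →₀ ZMod p)) : B :=
  ⨅ m, ⨅ s, R m s ⇨ pr B (nsum rho z s ∈ CL a m)

theorem pr_and_le {p q r : Prop} (h : p → q → r) : pr B p ⊓ pr B q ≤ pr B r := by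
  refine inf_pr_le fun hq => ?_
  by_cases hp : p
  · rw [pr_true (h hp hq)]; exact le_top
  · rw [pr_false hp]; exact bot_le

theorem KN_bSub {p : ℕ} (a : ℕ → ℕ) (R : ℕ → List Bool → B) :
    bSub (KN (p := p) rho a R) = ⊤ := by
  rw [eq_top_iff]
  refine le_inf ?_ ?_
  · refine le_iInf fun m => le_iInf fun s => ?_
    rw [le_himp_iff, nsum_zero, pr_true (AddSubgroup.zero_mem _)]
    exact le_top
  · refine le_iInf fun x => le_iInf fun y => ?_
    rw [le_himp_iff, top_inf_eq]
    refine le_iInf fun m => le_iInf fun s => ?_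
    rw [le_himp_iff]
    have h1 : KN rho a R x ⊓ R m s ≤ pr B (nsum rho x s ∈ CL a m) :=
      (inf_le_inf_right _ ((iInf_le _ m).trans (iInf_le _ s))).trans himp_inf_le
    have h2 : KN rho a R y ⊓ R m s ≤ pr B (nsum rho y s ∈ CL a m) :=
      (inf_le_inf_right _ ((iInf_le _ m).trans (iInf_le _ s))).trans himp_inf_le
    refine (le_inf ((le_inf (inf_le_left.trans inf_le_left) inf_le_right).trans h1)
      ((le_inf (inf_le_left.trans inf_le_right) inf_le_right).trans h2)).trans ?_
    refine pr_and_le fun hx hy => ?_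
    rw [nsum_add]
    exact AddSubgroup.add_mem _ hx hy

theorem KN_le {p : ℕ} (a : ℕ → ℕ) (R : ℕ → List Bool → B) (z : W →₀ (ℕ →₀ ZMod p)) (m : ℕ)
    (s : List Bool) : KN rho a R z ⊓ R m s ≤ pr B (nsum rho z s ∈ CL a m) :=
  (inf_le_inf_right _ ((iInf_le _ m).trans (iInf_le _ s))).trans himp_inf_le

/-- The lengths of the last nodes form a partition family. -/
theorem last_pf (R : ℕ → List Bool → B) (h0 : ∀ m, R m [] = ⊤)
    (h1 : ∀ m x, ⨆ k, ⨅ j, ⨅ (_ : k < j), (R m (pre rho x j))ᶜ = ⊤) :
    IsPF (fun (ix : ℕ × W) k => Last rho (R ix.1) ix.2 k) := by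
  constructor
  · rintro ⟨m, x⟩
    show ⨆ k, Last rho (R m) x k = ⊤
    rw [eq_top_iff, ← h1 m x]
    refine iSup_le fun k => ?_
    induction k with
    | zero =>
      refine le_iSup_of_le 0 ?_
      unfold Last
      rw [pre_zero, h0 m, top_inf_eq]
    | succ k ih =>
      have : (⨅ j, ⨅ (_ : k + 1 < j), (R m (pre rho x j))ᶜ) ≤
          ((⨅ j, ⨅ (_ : k + 1 < j), (R m (pre rho x j))ᶜ) ⊓ R m (pre rho x (k + 1))) ⊔
          ((⨅ j, ⨅ (_ : k + 1 < j), (R m (pre rho x j))ᶜ) ⊓ (R m (pre rho x (k + 1)))ᶜ) := by
        rw [← inf_sup_left, sup_compl_eq_top, inf_top_eq]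
      refine this.trans (sup_le ?_ ?_)
      · refine le_iSup_of_le (k + 1) ?_
        unfold Last
        exact le_inf inf_le_right inf_le_left
      · refine le_trans ?_ ih
        refine le_iInf fun j => le_iInf fun hj => ?_
        rcases Nat.lt_or_ge (k + 1) j with h | h
        · exact inf_le_left.trans ((iInf_le _ j).trans (iInf_le _ h))
        · have : j = k + 1 := by omega
          rw [this]; exact inf_le_right
  · rintro ⟨m, x⟩ k l hkl
    show Disjoint (Last rho (R m) x k) (Last rho (R m) x l)
    have aux : ∀ k l, k < l → Last rho (R m) x k ⊓ Last rho (R m) x l ≤ ⊥ := by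
      intro k l h
      have e1 : Last rho (R m) x k ≤ (R m (pre rho x l))ᶜ :=
        inf_le_right.trans ((iInf_le _ l).trans (iInf_le _ h))
      have e2 : Last rho (R m) x l ≤ R m (pre rho x l) := inf_le_left
      exact (inf_le_inf e1 e2).trans compl_inf_eq_bot.le
    rw [disjoint_iff_inf_le]
    rcases lt_or_gt_of_ne hkl with h | h
    · exact aux k l h
    · rw [inf_comm]; exact aux l k h

theorem Last_le (R : List Bool → B) (x : W) (k : ℕ) : Last rho R x k ≤ R (pre rho x k) :=
  inf_le_left

theorem Last_inf (R : List Bool → B) (x : W) (k l : ℕ)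
    (h : Last rho R x k ⊓ R (pre rho x l) ≠ ⊥) : l ≤ k := by
  by_contra hc
  apply h
  rw [← le_bot_iff]
  have e1 : Last rho R x k ≤ (R (pre rho x l))ᶜ :=
    inf_le_right.trans ((iInf_le _ l).trans (iInf_le _ (by omega)))
  exact (inf_le_inf_right _ e1).trans compl_inf_eq_bot.le

/-- The level of a coordinate. -/
noncomputable def lv {a : ℕ → ℕ} (ha : Lev a) (j : ℕ) : ℕ := by
  classical
  exact Nat.find (ha.unb j)

theorem lv_spec {a : ℕ → ℕ} (ha : Lev a) (j : ℕ) : j < a (lv ha j) := by
  classical
  exact Nat.find_spec (ha.unb j)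

theorem lv_pos {a : ℕ → ℕ} (ha : Lev a) {j m : ℕ} (h : a m ≤ j) : m < lv ha j := by
  by_contra hc
  have h1 := lv_spec ha j
  have h2 := ha.mono (by omega : lv ha j ≤ m)
  omega

/-- The colours used for the countable index of `KN`. -/
noncomputable def kcol {a : ℕ → ℕ} (ha : Lev a) (u : ℕ × W → ℕ) (w : W × ℕ) :
    ℕ × List (List Bool) :=
  (w.2, (List.range (lv ha w.2)).map (fun i => pre rho w.1 (u (i, w.1))))

theorem mapDomain_congr' {α β M : Type} [AddCommMonoid M] (f f' : α → β) (g : α →₀ M)
    (h : ∀ a ∈ g.support, f a = f' a) : Finsupp.mapDomain f g = Finsupp.mapDomain f' g :=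
  Finsupp.mapDomain_congr h

theorem mem_support_uncurry {p : ℕ} (g : W →₀ (ℕ →₀ ZMod p)) (w : W × ℕ) :
    w ∈ (Finsupp.uncurry g).support ↔ g w.1 w.2 ≠ 0 := by
  rw [Finsupp.mem_support_iff, Finsupp.uncurry_apply]

theorem uncurry_sub {p : ℕ} (g g' : W →₀ (ℕ →₀ ZMod p)) :
    Finsupp.uncurry (g - g') = Finsupp.uncurry g - Finsupp.uncurry g' := by
  ext w
  simp [Finsupp.uncurry_apply]

/-- the finite set of indices needed for `g` -/
noncomputable def kset {p : ℕ} {a : ℕ → ℕ} (ha : Lev a) (g : W →₀ (ℕ →₀ ZMod p)) :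
    Finset (ℕ × W) := by
  classical
  exact (Finset.range ((Finsupp.uncurry g).support.sup (fun w => lv ha w.2) + 1)) ×ˢ g.support

theorem mem_kset {p : ℕ} {a : ℕ → ℕ} (ha : Lev a) (g : W →₀ (ℕ →₀ ZMod p)) {i j : ℕ} {x : W}
    (hx : g x j ≠ 0) (hi : i < lv ha j) : (i, x) ∈ kset ha g := by
  classical
  unfold kset
  rw [Finset.mem_product, Finset.mem_range]
  constructor
  · have h1 : lv ha j ≤ (Finsupp.uncurry g).support.sup (fun w => lv ha w.2) :=
      Finset.le_sup (f := fun w : W × ℕ => lv ha w.2) (b := (x, j))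
        ((mem_support_uncurry g (x, j)).mpr hx)
    show i < _
    omega
  · show x ∈ g.support
    rw [Finsupp.mem_support_iff]
    intro h; rw [h] at hx; exact hx rfl

theorem KN_bIdx {p : ℕ} [NeZero p] {a : ℕ → ℕ} (ha : Lev a) (R : ℕ → List Bool → B)
    (h0 : ∀ m, R m [] = ⊤) (h1 : ∀ m x, ⨆ k, ⨅ j, ⨅ (_ : k < j), (R m (pre rho x j))ᶜ = ⊤) :
    bIdx (KN (p := p) rho a R) = ⊤ := by
  classical
  have hpf := last_pf rho R h0 h1
  refine bIdx_of hpf (KN rho a R) (fun g => kset ha g)
    (fun g u => Finsupp.mapDomain (kcol rho ha u) (Finsupp.uncurry g)) ?_ ?_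
  · intro g u u' huu
    refine mapDomain_congr' _ _ _ fun w hw => ?_
    rw [mem_support_uncurry] at hw
    unfold kcol
    refine Prod.ext rfl ?_
    show (List.range (lv ha w.2)).map _ = (List.range (lv ha w.2)).map _
    refine List.map_congr_left fun i hi => ?_
    rw [List.mem_range] at hi
    rw [huu (i, w.1) (mem_kset ha g hw hi)]
  · intro g g' u Q' hg hg' hφ
    set z := g - g' with hz
    have hz0 : Finsupp.mapDomain (kcol rho ha u) (Finsupp.uncurry z) = 0 := by
      have : Finsupp.mapDomain (kcol rho ha u) (Finsupp.uncurry z) +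
          Finsupp.mapDomain (kcol rho ha u) (Finsupp.uncurry g') =
          Finsupp.mapDomain (kcol rho ha u) (Finsupp.uncurry g) := by
        rw [← Finsupp.mapDomain_add, hz, uncurry_sub, sub_add_cancel]
      rw [hφ] at this
      exact add_eq_right.mp this
    refine le_iInf fun m => le_iInf fun s => ?_
    rw [le_himp_iff]
    refine le_pr fun hns => ?_
    by_contra hne
    rw [le_bot_iff] at hne
    apply hns
    intro j hj
    have hmj : m < lv ha j := lv_pos ha hj
    -- membership in the cone of s is decided by the colour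
    have hdec : ∀ x, z x j ≠ 0 → (pre rho x s.length = s ↔
        ((kcol rho ha u (x, j)).2.getD m []).take s.length = s) := by
      intro x hx
      have hmem : (m, x) ∈ Q' := by
        by_cases hgx : g x j = 0
        · have : g' x j ≠ 0 := fun h => hx (by
            rw [hz, Finsupp.sub_apply, Finsupp.sub_apply, hgx, h, sub_zero])
          exact hg' (mem_kset ha g' this hmj)
        · exact hg (mem_kset ha g hgx hmj)
      have e1 : (kcol rho ha u (x, j)).2.getD m [] = pre rho x (u (m, x)) := by
        unfold kcol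
        rw [List.getD_eq_getElem _ _ (by simpa using hmj)]
        simp
      rw [e1]
      constructor
      · intro hxs
        have hle : s.length ≤ u (m, x) := by
          refine Last_inf rho (R m) x _ _ (fun h => hne ?_)
          rw [← le_bot_iff, ← h, hxs]
          exact inf_le_inf_right _ (DD_le hmem)
        rw [take_pre rho x _ _ hle, hxs]
      · intro ht
        by_cases hle : s.length ≤ u (m, x)
        · rw [take_pre rho x _ _ hle] at ht; exact ht
        · rw [take_pre' rho x _ _ (by omega)] at ht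
          have := congrArg List.length ht
          rw [pre_length] at this
          omega
    -- the sum over the cone is computed from the colours
    let Φ : ((ℕ × List (List Bool)) →₀ ZMod p) → ZMod p := fun v =>
      v.sum (fun k c => if k.1 = j ∧ (k.2.getD m []).take s.length = s then c else 0)
    have e2 : Φ (Finsupp.mapDomain (kcol rho ha u) (Finsupp.uncurry z)) = nsum rho z s j := by
      show Finsupp.sum _ _ = _
      rw [Finsupp.sum_mapDomain_index]
      · rw [nsum, Finsupp.finsetSum_apply, Finsupp.sum]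
        have e3 : ∑ w ∈ (Finsupp.uncurry z).support,
            (if (kcol rho ha u w).1 = j ∧ ((kcol rho ha u w).2.getD m []).take s.length = s
              then Finsupp.uncurry z w else 0) =
            ∑ w ∈ (Finsupp.uncurry z).support.filter (fun w => w.2 = j ∧
              pre rho w.1 s.length = s), z w.1 w.2 := by
          rw [Finset.sum_filter]
          refine Finset.sum_congr rfl fun w hw => ?_
          rw [mem_support_uncurry] at hw
          obtain ⟨x, j'⟩ := w
          by_cases hj' : j' = j
          · subst hj'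
            have := hdec x hw
            by_cases hc : pre rho x s.length = s
            · rw [if_pos ⟨rfl, this.mp hc⟩, if_pos ⟨rfl, hc⟩]; rfl
            · rw [if_neg (fun h => hc (this.mpr h.2)), if_neg (fun h => hc h.2)]
          · rw [if_neg (fun h => hj' h.1), if_neg (fun h => hj' h.1)]
        rw [e3]
        symm
        have e4 : ∑ x ∈ z.support.filter (fun x => pre rho x s.length = s), z x j =
            ∑ x ∈ (z.support.filter (fun x => pre rho x s.length = s)).filter
              (fun x => z x j ≠ 0), z x j := by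
          rw [Finset.sum_filter_ne_zero]
        rw [e4]
        refine Finset.sum_bij (fun x _ => (x, j)) ?_ ?_ ?_ ?_
        · intro x hx
          rw [Finset.mem_filter, Finset.mem_filter] at hx
          rw [Finset.mem_filter, mem_support_uncurry]
          exact ⟨hx.2, rfl, hx.1.2⟩
        · intro x _ y _ hxy
          exact congrArg Prod.fst hxy
        · rintro ⟨x, j'⟩ hw
          rw [Finset.mem_filter, mem_support_uncurry] at hw
          obtain ⟨hw1, hw2, hw3⟩ := hw
          simp only at hw2 hw1 hw3
          subst hw2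
          refine ⟨x, ?_, rfl⟩
          rw [Finset.mem_filter, Finset.mem_filter, Finsupp.mem_support_iff]
          exact ⟨⟨fun h => hw1 (by rw [h]; rfl), hw3⟩, hw1⟩
        · intro x _; rfl
      · intro k; simp
      · intro k c d
        by_cases hc : k.1 = j ∧ (k.2.getD m []).take s.length = s
        · rw [if_pos hc, if_pos hc, if_pos hc]
        · rw [if_neg hc, if_neg hc, if_neg hc, add_zero]
    rw [← e2, hz0]
    show Finsupp.sum _ _ = _
    rw [Finsupp.sum_zero_index]

end M3
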