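import Mathlib

/-!
# Slowly splitting classes (interface for the finest aleph-zero-bounded topology)

For finitely many points `w ∈ S` with classes `i w` and sequences `τ w`, `edges S i τ n` is the set
of all children of splitting nodes of level `n` in the trees of the classes.  `SlowTree B W β` says
that every `B`-valued map from `W` to the Baire space admits a `B`-valued partition of `W` into
countably many classes, such that always at most `β n` such children occur at level `n`.
-/

namespace M3

open Classical

/-- The children of splitting nodes of level `n`, over all classes. -/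
noncomputable def edges {W : Type} (S : Finset W) (i : W → ℕ) (τ : W → ℕ → ℕ) (n : ℕ) :
    Finset (ℕ × List ℕ) :=
  (S.filter fun w => ∃ w' ∈ S, i w' = i w ∧ (∀ k < n, τ w' k = τ w k) ∧ τ w' n ≠ τ w n).image
    fun w => (i w, List.ofFn fun k : Fin (n + 1) => τ w k)

/-- Slowly splitting classes for all `B`-valued maps from `W` to the Baire space. -/
def SlowTree (B : Type) [CompleteBooleanAlgebra B] (W : Type) (β : ℕ → ℕ) : Prop :=
  ∀ φ : W → ℕ → ℕ → B, (∀ w n, ⨆ j, φ w n j = ⊤) →
    (∀ w n j j', j ≠ j' → Disjoint (φ w n j) (φ w n j')) →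
    ∃ c : W → ℕ → B, (∀ w, ⨆ i, c w i = ⊤) ∧ (∀ w i j, i ≠ j → Disjoint (c w i) (c w j)) ∧
      ∀ (S : Finset W) (L : ℕ) (i : W → ℕ) (τ : W → ℕ → ℕ),
        (⨅ w ∈ S, c w (i w) ⊓ ⨅ n, ⨅ _ : n < L, φ w n (τ w n)) ≠ ⊥ →
        ∀ n < L, (edges S i τ n).card ≤ β n

end M3
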