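import Pool.Agent.H.MP_8ff4bd_gt.M3.YesPoset
import Pool.Agent.H.MP_8ff4bd_gt.M3.SlowTree

/-!
# The forcing for node refinements and slowly splitting classes: definitions

Conditions are finite sets of atoms.  A name `N` gives, for a point `w` and a level `n`, deciding
conditions (finite sets of atoms with other names) and the values decided by them.  There are two
kinds of atoms with the name `N`: those of the first kind (`kind = false`) are as in `YesPoset`, they
give the last initial segment of the point in the node refinement of the colouring at level `0`.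
Those of the second kind give the class of the point and the value at the level `lev` (decided by
the deciding condition `idx`).
-/

namespace M3

open Classical

/-- The data of an atom: kind, level, node, class, value, number of the deciding condition. -/
abbrev LDat : Type := Bool × ℕ × List Bool × ℕ × ℕ × ℕ

/-- Names. -/
inductive LName (W : Type) : Type
  | mk (len : W → ℕ → ℕ → ℕ) (nm : (x : W) → (l : ℕ) → (n : ℕ) → Fin (len x l n) → LName W)
      (pt : (x : W) → (l : ℕ) → (n : ℕ) → Fin (len x l n) → W)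
      (dat : (x : W) → (l : ℕ) → (n : ℕ) → Fin (len x l n) → LDat)
      (val : W → ℕ → ℕ → ℕ) : LName W

/-- Atoms of the conditions. -/
structure LAtom (W : Type) where
  /-- the name -/
  nam : LName W
  /-- the point -/
  pt : W
  /-- the kind: `false` for node refinements, `true` for slowly splitting classes -/
  kind : Bool
  /-- the level -/
  lev : ℕ
  /-- the last initial segment of the point (first kind) -/
  node : List Bool
  /-- the class of the point (second kind) -/
  cls : ℕ
  /-- the value -/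
  col : ℕ
  /-- the number of the deciding condition -/
  idx : ℕ

variable {W : Type}

/-- The data of an atom. -/
def LAtom.dat (a : LAtom W) : LDat := (a.kind, a.lev, a.node, a.cls, a.col, a.idx)

theorem LAtom.ext' {a b : LAtom W} (h1 : a.nam = b.nam) (h2 : a.pt = b.pt) (h3 : a.dat = b.dat) :
    a = b := by
  obtain ⟨a1, a2, a3, a4, a5, a6, a7, a8⟩ := a
  obtain ⟨b1, b2, b3, b4, b5, b6, b7, b8⟩ := b
  simp only [LAtom.dat, Prod.mk.injEq] at h1 h2 h3
  obtain ⟨g1, g2, g3, g4, g5, g6⟩ := h3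
  subst h1 h2 g1 g2 g3 g4 g5 g6
  rfl

/-- The deciding conditions of a name. -/
noncomputable def LName.cond : LName W → W → ℕ → ℕ → Finset (LAtom W)
  | .mk _ nm pt dat _, x, l, n => Finset.univ.image fun i =>
      (⟨nm x l n i, pt x l n i, (dat x l n i).1, (dat x l n i).2.1, (dat x l n i).2.2.1,
        (dat x l n i).2.2.2.1, (dat x l n i).2.2.2.2.1, (dat x l n i).2.2.2.2.2⟩ : LAtom W)

/-- The values decided by a name. -/
def LName.val : LName W → W → ℕ → ℕ → ℕ
  | .mk _ _ _ _ v => v

/-- Every family of finite sets of atoms with values comes from a name. -/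
theorem exists_lname (e : W → ℕ → ℕ → Finset (LAtom W)) (v : W → ℕ → ℕ → ℕ) :
    ∃ N : LName W, N.cond = e ∧ N.val = v := by
  refine ⟨.mk (fun x l n => (e x l n).card) (fun x l n i => ((e x l n).equivFin.symm i).1.nam)
    (fun x l n i => ((e x l n).equivFin.symm i).1.pt)
    (fun x l n i => ((e x l n).equivFin.symm i).1.dat) v, ?_, rfl⟩
  funext x l n
  ext a
  simp only [LName.cond, LAtom.dat, Finset.mem_image, Finset.mem_univ, true_and]
  constructor
  · rintro ⟨i, rfl⟩
    exact ((e x l n).equivFin.symm i).2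
  · intro ha
    refine ⟨(e x l n).equivFin ⟨a, ha⟩, ?_⟩
    rw [Equiv.symm_apply_apply]

/-- `M` occurs in `N`. -/
def LOcc (M N : LName W) : Prop := ∃ x l n, ∃ a ∈ N.cond x l n, a.nam = M

theorem lOcc_wf : WellFounded (LOcc (W := W)) := by
  constructor
  intro N
  induction N with
  | mk len nm pt dat val ih =>
    refine Acc.intro _ ?_
    rintro M ⟨x, l, n, a, ha, rfl⟩
    simp only [LName.cond, Finset.mem_image, Finset.mem_univ, true_and] at ha
    obtain ⟨i, rfl⟩ := ha
    exact ih x l n i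

/-- `M` is below `N`. -/
def LBelow (M N : LName W) : Prop := Relation.TransGen LOcc M N

theorem lBelow_wf : WellFounded (LBelow (W := W)) := lOcc_wf.transGen

theorem LBelow.trans {M N K : LName W} (h : LBelow M N) (h' : LBelow N K) : LBelow M K :=
  Relation.TransGen.trans h h'

theorem not_lBelow_self (N : LName W) : ¬ LBelow N N := fun h => lBelow_wf.irrefl.irrefl N h

theorem lBelow_of_mem {N : LName W} {x : W} {l n : ℕ} {a : LAtom W} (h : a ∈ N.cond x l n) :
    LBelow a.nam N := Relation.TransGen.single ⟨x, l, n, a, h, rfl⟩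

/-- The rank of a name. -/
noncomputable def LName.rk (N : LName W) : Ordinal.{0} := (lBelow_wf.apply N).rank

theorem LBelow.rk_lt {M N : LName W} (h : LBelow M N) : M.rk < N.rk :=
  Acc.rank_lt_of_rel (lBelow_wf.apply N) h

/-- The atoms with the name `N`. -/
noncomputable def slice (p : Finset (LAtom W)) (N : LName W) : Finset (LAtom W) :=
  p.filter fun a => a.nam = N

theorem mem_slice {p : Finset (LAtom W)} {N : LName W} {a : LAtom W} :
    a ∈ slice p N ↔ a ∈ p ∧ a.nam = N := by
  unfold slice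
  exact Finset.mem_filter

/-- The points of the atoms of the second kind. -/
noncomputable def pts (s : Finset (LAtom W)) : Finset W :=
  (s.filter fun a => a.kind = true).image LAtom.pt

theorem mem_pts {s : Finset (LAtom W)} {w : W} : w ∈ pts s ↔ ∃ a ∈ s, a.kind = true ∧ a.pt = w := by
  unfold pts
  rw [Finset.mem_image]
  constructor
  · rintro ⟨a, ha, rfl⟩
    obtain ⟨h1, h2⟩ := Finset.mem_filter.1 ha
    exact ⟨a, h1, h2, rfl⟩
  · rintro ⟨a, ha, h1, rfl⟩
    exact ⟨a, Finset.mem_filter.2 ⟨ha, h1⟩, rfl⟩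

/-- The atoms in `s` say that the points `w ∈ S` are in the classes `i w` and have the values
`τ w k`, `k < n`. -/
def Cons (s : Finset (LAtom W)) (S : Finset W) (i : W → ℕ) (τ : W → ℕ → ℕ) (n : ℕ) : Prop :=
  ∀ w ∈ S, ∀ k < n, ∃ a ∈ s, a.kind = true ∧ a.pt = w ∧ a.lev = k ∧ a.cls = i w ∧ a.col = τ w k

/-- The local conditions for the atoms with the name `N`. -/
structure LV (rho : W → ℕ → Bool) (N : LName W) (s : Finset (LAtom W)) : Prop where
  val : ∀ a ∈ s, N.val a.pt a.lev a.idx = a.col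
  uniq : ∀ a ∈ s, ∀ b ∈ s, a.kind = b.kind → a.pt = b.pt → a.lev = b.lev → a = b
  zero : ∀ a ∈ s, a.kind = false → a.lev = 0
  pref : ∀ a ∈ s, a.kind = false → a.node = pre rho a.pt a.node.length
  col : ∀ a ∈ s, ∀ b ∈ s, a.kind = false → b.kind = false → a.node = b.node → a.col = b.col
  last : ∀ a ∈ s, ∀ b ∈ s, a.kind = false → b.kind = false → a.node.length < b.node.length →
    b.node ≠ pre rho a.pt b.node.length
  cls : ∀ a ∈ s, ∀ b ∈ s, a.kind = true → b.kind = true → a.pt = b.pt → a.cls = b.cls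
  len : ∀ w ∈ pts s, ∀ n < (pts s).card, ∃ a ∈ s, a.kind = true ∧ a.pt = w ∧ a.lev = n
  edge : ∀ (S : Finset W) (i : W → ℕ) (τ : W → ℕ → ℕ) (n : ℕ), Cons s S i τ (n + 1) →
    (edges S i τ n).card ≤ n

/-- The finite sets of atoms that are (possibly) conditions. -/
structure LValid (rho : W → ℕ → Bool) (p : Finset (LAtom W)) : Prop where
  sub : ∀ a ∈ p, a.nam.cond a.pt a.lev a.idx ⊆ p
  loc : ∀ N, LV rho N (slice p N)

/-- The name `N` is total: below every valid set of atoms with names below `N` a deciding condition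
can be found, for every point and level. -/
def Tot (rho : W → ℕ → Bool) (N : LName W) : Prop :=
  ∀ q, LValid rho q → (∀ a ∈ q, LBelow a.nam N) → ∀ w n, ∃ k r, LValid rho r ∧
    (∀ a ∈ r, LBelow a.nam N) ∧ q ⊆ r ∧ N.cond w n k ⊆ r

/-- Hereditarily total names. -/
def HGood (rho : W → ℕ → Bool) (N : LName W) : Prop :=
  Tot rho N ∧ ∀ M, LBelow M N → Tot rho M

theorem HGood.below {rho : W → ℕ → Bool} {M N : LName W} (h : HGood rho N) (hM : LBelow M N) :
    HGood rho M :=
  ⟨h.2 M hM, fun K hK => h.2 K (hK.trans hM)⟩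

/-- The conditions: valid sets of atoms with hereditarily total names. -/
def LC (rho : W → ℕ → Bool) (p : Finset (LAtom W)) : Prop :=
  LValid rho p ∧ ∀ a ∈ p, HGood rho a.nam

/-- The poset of conditions. -/
def LP (rho : W → ℕ → Bool) : Type := {p : Finset (LAtom W) // LC rho p}

instance (rho : W → ℕ → Bool) : Preorder (LP rho) where
  le p q := q.1 ⊆ p.1
  le_refl _ := Finset.Subset.refl _
  le_trans _ _ _ h1 h2 := Finset.Subset.trans h2 h1

theorem LP.le_iff {rho : W → ℕ → Bool} {p q : LP rho} : p ≤ q ↔ q.1 ⊆ p.1 := Iff.rfl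

/-! ### Edges -/

theorem mem_edges {S : Finset W} {i : W → ℕ} {τ : W → ℕ → ℕ} {n : ℕ} {x : ℕ × List ℕ} :
    x ∈ edges S i τ n ↔ ∃ w ∈ S, (∃ w' ∈ S, i w' = i w ∧ (∀ k < n, τ w' k = τ w k) ∧
      τ w' n ≠ τ w n) ∧ (i w, List.ofFn fun k : Fin (n + 1) => τ w k) = x := by
  unfold edges
  rw [Finset.mem_image]
  constructor
  · rintro ⟨w, hw, h⟩
    obtain ⟨h1, h2⟩ := Finset.mem_filter.1 hw
    exact ⟨w, h1, h2, h⟩
  · rintro ⟨w, h1, h2, h⟩
    exact ⟨w, Finset.mem_filter.2 ⟨h1, h2⟩, h⟩

theorem edges_card_le (S : Finset W) (i : W → ℕ) (τ : W → ℕ → ℕ) (n : ℕ) :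
    (edges S i τ n).card ≤ S.card := by
  unfold edges
  exact Finset.card_image_le.trans (Finset.card_filter_le _ _)

/-- Edges of a finite set of points which is represented in another one. -/
theorem edges_subset {S S' : Finset W} {i i' : W → ℕ} {τ τ' : W → ℕ → ℕ} {n : ℕ}
    (h : ∀ w ∈ S, ∃ w' ∈ S', i' w' = i w ∧ ∀ k ≤ n, τ' w' k = τ w k) :
    edges S i τ n ⊆ edges S' i' τ' n := by
  intro x hx
  rw [mem_edges] at hx ⊢
  obtain ⟨w, hw, ⟨v, hv, h1, h2, h3⟩, rfl⟩ := hx
  obtain ⟨w', hw', h4, h5⟩ := h w hw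
  obtain ⟨v', hv', h6, h7⟩ := h v hv
  refine ⟨w', hw', ⟨v', hv', ?_, ?_, ?_⟩, ?_⟩
  · rw [h6, h1, h4]
  · intro k hk
    rw [h7 k hk.le, h2 k hk, h5 k hk.le]
  · rw [h7 n le_rfl, h5 n le_rfl]
    exact h3
  · rw [h4]
    congr 1
    congr 1
    funext k
    exact h5 k (Nat.lt_succ_iff.1 k.2)

/-! ### Slices -/

theorem slice_nam {p : Finset (LAtom W)} {N : LName W} : ∀ a ∈ slice p N, a.nam = N :=
  fun _ ha => (mem_slice.1 ha).2

theorem slice_mono {p q : Finset (LAtom W)} (h : p ⊆ q) (N : LName W) : slice p N ⊆ slice q N :=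
  fun _ ha => mem_slice.2 ⟨h (mem_slice.1 ha).1, (mem_slice.1 ha).2⟩

theorem pts_mono {s t : Finset (LAtom W)} (h : s ⊆ t) : pts s ⊆ pts t := by
  intro w hw
  rw [mem_pts] at *
  obtain ⟨a, ha, h1, h2⟩ := hw
  exact ⟨a, h ha, h1, h2⟩

theorem Cons.mono {s t : Finset (LAtom W)} {S : Finset W} {i : W → ℕ} {τ : W → ℕ → ℕ} {n n' : ℕ}
    (h : Cons s S i τ n) (hst : s ⊆ t) (hn : n' ≤ n) : Cons t S i τ n' := by
  intro w hw k hk
  obtain ⟨a, ha, h1⟩ := h w hw k (hk.trans_le hn)
  exact ⟨a, hst ha, h1⟩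

theorem Cons.subset_pts {s : Finset (LAtom W)} {S : Finset W} {i : W → ℕ} {τ : W → ℕ → ℕ} {n : ℕ}
    (h : Cons s S i τ (n + 1)) : S ⊆ pts s := by
  intro w hw
  obtain ⟨a, ha, h1, h2, -⟩ := h w hw 0 (Nat.succ_pos n)
  exact mem_pts.2 ⟨a, ha, h1, h2⟩

/-- The edge condition is automatic at high levels. -/
theorem Cons.edges_le {s : Finset (LAtom W)} {S : Finset W} {i : W → ℕ} {τ : W → ℕ → ℕ} {n : ℕ}
    (h : Cons s S i τ (n + 1)) (hn : (pts s).card ≤ n) : (edges S i τ n).card ≤ n :=
  (edges_card_le S i τ n).trans ((Finset.card_le_card h.subset_pts).trans hn)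

theorem lv_empty (rho : W → ℕ → Bool) (N : LName W) : LV rho N ∅ := by
  refine ⟨by simp, by simp, by simp, by simp, by simp, by simp, by simp, ?_, ?_⟩
  · intro w hw
    obtain ⟨a, ha, -⟩ := mem_pts.1 hw
    exact (Finset.notMem_empty a ha).elim
  · intro S i τ n h
    refine h.edges_le ?_
    have : pts (∅ : Finset (LAtom W)) = ∅ := by
      unfold pts
      rw [Finset.filter_empty, Finset.image_empty]
    rw [this]
    exact Nat.zero_le n

theorem lvalid_empty (rho : W → ℕ → Bool) : LValid rho (∅ : Finset (LAtom W)) := by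
  refine ⟨by simp, fun N => ?_⟩
  have : slice (∅ : Finset (LAtom W)) N = ∅ := by
    unfold slice
    rw [Finset.filter_empty]
  rw [this]
  exact lv_empty rho N

instance (rho : W → ℕ → Bool) : Nonempty (LP rho) := ⟨⟨∅, lvalid_empty rho, by simp⟩⟩

end M3
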