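import Pool.Agent.H.MP_8ff4bd_gt.M3.LocUnion

/-!
# Extensions of conditions

* `LC.below_ext`: a deciding condition can be added, only atoms with names below are added;
* `LC.level_ext`, `LC.levels_ext`: levels of points can be added;
* `LC.newpt_ext`: a new point can be added;
* `LC.node_ext`: a new point of the first kind can be added;
* `LC.long_ext`: all points can be decided at twice as many levels as there are points.
-/

namespace M3

open Classical

variable {W : Type} {rho : W → ℕ → Bool} {N : LName W}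

/-- The restriction to the names below `N`. -/
theorem LValid.restrict {p : Finset (LAtom W)} (hp : LValid rho p) (N : LName W) :
    LValid rho (p.filter fun a => LBelow a.nam N) := by
  refine ⟨?_, ?_⟩
  · intro a ha b hb
    obtain ⟨h1, h2⟩ := Finset.mem_filter.1 ha
    exact Finset.mem_filter.2 ⟨hp.sub a h1 hb, (lBelow_of_mem hb).trans h2⟩
  · intro M
    by_cases h : LBelow M N
    · have : slice (p.filter fun a => LBelow a.nam N) M = slice p M := by
        ext a
        rw [mem_slice, mem_slice, Finset.mem_filter]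
        constructor
        · rintro ⟨⟨h1, -⟩, h2⟩
          exact ⟨h1, h2⟩
        · rintro ⟨h1, h2⟩
          exact ⟨⟨h1, by rw [h2]; exact h⟩, h2⟩
      rw [this]
      exact hp.loc M
    · have : slice (p.filter fun a => LBelow a.nam N) M = ∅ := by
        rw [Finset.eq_empty_iff_forall_notMem]
        intro a ha
        rw [mem_slice, Finset.mem_filter] at ha
        obtain ⟨⟨-, h1⟩, h2⟩ := ha
        rw [h2] at h1
        exact h h1
      rw [this]
      exact lv_empty rho M

/-- Amalgamation of a condition with an extension of its restriction to the names below `N`. -/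
theorem LValid.amalg {p r : Finset (LAtom W)} (hp : LValid rho p) (hr : LValid rho r)
    (hrN : ∀ a ∈ r, LBelow a.nam N) (h : (p.filter fun a => LBelow a.nam N) ⊆ r) :
    LValid rho (p ∪ r) := by
  refine ⟨?_, ?_⟩
  · intro a ha
    rcases Finset.mem_union.1 ha with ha | ha
    · exact (hp.sub a ha).trans Finset.subset_union_left
    · exact (hr.sub a ha).trans Finset.subset_union_right
  · intro M
    by_cases hM : LBelow M N
    · have : slice (p ∪ r) M = slice r M := by
        ext a
        rw [mem_slice, mem_slice, Finset.mem_union]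
        constructor
        · rintro ⟨h1 | h1, h2⟩
          · exact ⟨h (Finset.mem_filter.2 ⟨h1, by rw [h2]; exact hM⟩), h2⟩
          · exact ⟨h1, h2⟩
        · rintro ⟨h1, h2⟩
          exact ⟨Or.inr h1, h2⟩
      rw [this]
      exact hr.loc M
    · have : slice (p ∪ r) M = slice p M := by
        ext a
        rw [mem_slice, mem_slice, Finset.mem_union]
        constructor
        · rintro ⟨h1 | h1, h2⟩
          · exact ⟨h1, h2⟩
          · have h3 := hrN a h1
            rw [h2] at h3
            exact (hM h3).elim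
        · rintro ⟨h1, h2⟩
          exact ⟨Or.inl h1, h2⟩
      rw [this]
      exact hp.loc M

/-- Adding atoms with the name `N`. -/
theorem LValid.add {p T : Finset (LAtom W)} (hp : LValid rho p) (hT : ∀ a ∈ T, a.nam = N)
    (hTs : ∀ a ∈ T, N.cond a.pt a.lev a.idx ⊆ p) (h : LV rho N (slice p N ∪ T)) :
    LValid rho (p ∪ T) := by
  refine ⟨?_, ?_⟩
  · intro a ha
    rcases Finset.mem_union.1 ha with ha | ha
    · exact (hp.sub a ha).trans Finset.subset_union_left
    · rw [hT a ha]
      exact (hTs a ha).trans Finset.subset_union_left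
  · intro M
    by_cases hM : M = N
    · subst hM
      have : slice (p ∪ T) M = slice p M ∪ T := by
        ext a
        rw [mem_slice, Finset.mem_union, Finset.mem_union, mem_slice]
        constructor
        · rintro ⟨h1 | h1, h2⟩
          · exact Or.inl ⟨h1, h2⟩
          · exact Or.inr h1
        · rintro (⟨h1, h2⟩ | h1)
          · exact ⟨Or.inl h1, h2⟩
          · exact ⟨Or.inr h1, hT a h1⟩
      rw [this]
      exact h
    · have : slice (p ∪ T) M = slice p M := by
        ext a
        rw [mem_slice, mem_slice, Finset.mem_union]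
        constructor
        · rintro ⟨h1 | h1, h2⟩
          · exact ⟨h1, h2⟩
          · exact (hM (h2.symm.trans (hT a h1))).elim
        · rintro ⟨h1, h2⟩
          exact ⟨Or.inl h1, h2⟩
      rw [this]
      exact hp.loc M

theorem slice_add {p T : Finset (LAtom W)} (hT : ∀ a ∈ T, a.nam = N) :
    slice (p ∪ T) N = slice p N ∪ T := by
  ext a
  rw [mem_slice, Finset.mem_union, Finset.mem_union, mem_slice]
  constructor
  · rintro ⟨h1 | h1, h2⟩
    · exact Or.inl ⟨h1, h2⟩
    · exact Or.inr h1
  · rintro (⟨h1, h2⟩ | h1)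
    · exact ⟨Or.inl h1, h2⟩
    · exact ⟨Or.inr h1, hT a h1⟩

/-- The slices at names at which nothing is added. -/
theorem slice_eq {p p' : Finset (LAtom W)} (h : p ⊆ p') {M : LName W}
    (hM : ∀ a ∈ p', a ∉ p → a.nam ≠ M) : slice p' M = slice p M := by
  ext a
  rw [mem_slice, mem_slice]
  constructor
  · rintro ⟨h1, h2⟩
    refine ⟨?_, h2⟩
    by_contra h3
    exact hM a h1 h3 h2
  · rintro ⟨h1, h2⟩
    exact ⟨h h1, h2⟩

/-- A deciding condition can be added. -/
theorem LC.below_ext {p : Finset (LAtom W)} (hp : LC rho p) (hN : HGood rho N) (w : W) (n : ℕ) :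
    ∃ k p', LC rho p' ∧ p ⊆ p' ∧ N.cond w n k ⊆ p' ∧ ∀ a ∈ p', a ∉ p → LBelow a.nam N := by
  obtain ⟨k, r, hr, hrN, hpr, hk⟩ := hN.1 _ (hp.1.restrict N)
    (fun a ha => (Finset.mem_filter.1 ha).2) w n
  refine ⟨k, p ∪ r, ⟨hp.1.amalg hr hrN hpr, ?_⟩, Finset.subset_union_left,
    hk.trans Finset.subset_union_right, ?_⟩
  · intro a ha
    rcases Finset.mem_union.1 ha with ha | ha
    · exact hp.2 a ha
    · exact hN.below (hrN a ha)
  · intro a ha hap
    rcases Finset.mem_union.1 ha with ha | ha
    · exact (hap ha).elim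
    · exact hrN a ha

/-- Finitely many deciding conditions can be added, at the levels `< L`. -/
theorem LC.belows_ext {p : Finset (LAtom W)} (hp : LC rho p) (hN : HGood rho N) (w : W) (L : ℕ) :
    ∃ (k : ℕ → ℕ) (p' : Finset (LAtom W)), LC rho p' ∧ p ⊆ p' ∧ (∀ n < L, N.cond w n (k n) ⊆ p') ∧
      ∀ a ∈ p', a ∉ p → LBelow a.nam N := by
  induction L with
  | zero => exact ⟨fun _ => 0, p, hp, subset_rfl, fun n hn => absurd hn (Nat.not_lt_zero n),
      fun a ha h => (h ha).elim⟩
  | succ L ih =>
    obtain ⟨k, p1, hp1, hpp1, hk, hb⟩ := ih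
    obtain ⟨k', p2, hp2, hpp2, hk', hb'⟩ := hp1.below_ext hN w L
    refine ⟨fun n => if n = L then k' else k n, p2, hp2, hpp1.trans hpp2, ?_, ?_⟩
    · intro n hn
      rcases Nat.lt_succ_iff_lt_or_eq.1 hn with hn | rfl
      · simp only [if_neg hn.ne]
        exact (hk n hn).trans hpp2
      · simp only [if_pos rfl]
        exact hk'
    · intro a ha hap
      by_cases h : a ∈ p1
      · exact hb a h hap
      · exact hb' a ha h

/-- A level of a point can be added. -/
theorem LC.level_ext {p : Finset (LAtom W)} (hp : LC rho p) (hN : HGood rho N) {w : W}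
    (hw : w ∈ pts (slice p N)) (n : ℕ) :
    ∃ p', LC rho p' ∧ p ⊆ p' ∧ (∃ a ∈ slice p' N, a.kind = true ∧ a.pt = w ∧ a.lev = n) ∧
      pts (slice p' N) = pts (slice p N) ∧ ∀ a ∈ p', a ∉ p → a.nam = N ∨ LBelow a.nam N := by
  by_cases hex : ∃ a ∈ slice p N, a.kind = true ∧ a.pt = w ∧ a.lev = n
  · exact ⟨p, hp, subset_rfl, hex, rfl, fun a ha h => (h ha).elim⟩
  obtain ⟨k, p1, hp1, hpp1, hk, hb⟩ := hp.below_ext hN w n
  have hsl : slice p1 N = slice p N := slice_eq hpp1 fun a ha h h' => by
    have h1 := hb a ha h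
    rw [h'] at h1
    exact not_lBelow_self N h1
  obtain ⟨a0, ha0, hk0, hw0⟩ := mem_pts.1 hw
  set T : Finset (LAtom W) := {⟨N, w, true, n, [], a0.cls, N.val w n k, k⟩} with hT
  have hTN : ∀ a ∈ T, a.nam = N := by
    intro a ha
    rw [hT, Finset.mem_singleton] at ha
    rw [ha]
  have hLV : LV rho N (slice p1 N ∪ T) := by
    rw [hT, Finset.union_comm, ← Finset.insert_eq, hsl]
    refine lv_level (hp.1.loc N) hw ?_ ?_
    · intro b hb h1 h2
      exact (hp.1.loc N).cls b hb a0 ha0 h1 hk0 (h2.trans hw0.symm)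
    · intro b hb h1 h2 h3
      exact hex ⟨b, hb, h1, h2, h3⟩
  have hval := hp1.1.add hTN (by
    intro a ha
    rw [hT, Finset.mem_singleton] at ha
    rw [ha]
    exact hk) hLV
  refine ⟨p1 ∪ T, ⟨hval, ?_⟩, hpp1.trans Finset.subset_union_left, ?_, ?_, ?_⟩
  · intro a ha
    rcases Finset.mem_union.1 ha with ha | ha
    · exact hp1.2 a ha
    · rw [hTN a ha]
      exact hN
  · refine ⟨⟨N, w, true, n, [], a0.cls, N.val w n k, k⟩, ?_, rfl, rfl, rfl⟩
    rw [slice_add hTN]
    exact Finset.mem_union_right _ (Finset.mem_singleton_self _)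
  · rw [slice_add hTN, pts_union, hsl]
    refine Finset.union_eq_left.2 ?_
    intro v hv
    obtain ⟨a, ha, -, h2⟩ := mem_pts.1 hv
    rw [hT, Finset.mem_singleton] at ha
    rw [← h2, ha]
    exact hw
  · intro a ha hap
    rcases Finset.mem_union.1 ha with ha | ha
    · exact Or.inr (hb a ha hap)
    · exact Or.inl (hTN a ha)

/-- Finitely many levels of points can be added. -/
theorem LC.levels_ext {p : Finset (LAtom W)} (hp : LC rho p) (hN : HGood rho N)
    (S : Finset (W × ℕ)) (hS : ∀ x ∈ S, x.1 ∈ pts (slice p N)) :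
    ∃ p', LC rho p' ∧ p ⊆ p' ∧
      (∀ x ∈ S, ∃ a ∈ slice p' N, a.kind = true ∧ a.pt = x.1 ∧ a.lev = x.2) ∧
      pts (slice p' N) = pts (slice p N) ∧ ∀ a ∈ p', a ∉ p → a.nam = N ∨ LBelow a.nam N := by
  induction S using Finset.induction_on with
  | empty => exact ⟨p, hp, subset_rfl, fun x hx => absurd hx (Finset.notMem_empty x), rfl,
      fun a ha h => (h ha).elim⟩
  | insert x S hx ih =>
    obtain ⟨p1, hp1, hpp1, h1, h2, h3⟩ := ih fun y hy => hS y (Finset.mem_insert_of_mem hy)
    have hxp : x.1 ∈ pts (slice p1 N) := by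
      rw [h2]
      exact hS x (Finset.mem_insert_self _ _)
    obtain ⟨p2, hp2, hpp2, g1, g2, g3⟩ := hp1.level_ext hN hxp x.2
    refine ⟨p2, hp2, hpp1.trans hpp2, ?_, g2.trans h2, ?_⟩
    · intro y hy
      rcases Finset.mem_insert.1 hy with rfl | hy
      · exact g1
      · obtain ⟨a, ha, h⟩ := h1 y hy
        exact ⟨a, slice_mono hpp2 N ha, h⟩
    · intro a ha hap
      by_cases h : a ∈ p1
      · exact h3 a h hap
      · exact g3 a ha h

/-- All points with the name `N` can be decided at the levels `< L`. -/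
theorem LC.upto_ext {p : Finset (LAtom W)} (hp : LC rho p) (hN : HGood rho N) (L : ℕ) :
    ∃ p', LC rho p' ∧ p ⊆ p' ∧
      (∀ w ∈ pts (slice p' N), ∀ n < L, ∃ a ∈ slice p' N, a.kind = true ∧ a.pt = w ∧ a.lev = n) ∧
      pts (slice p' N) = pts (slice p N) ∧ ∀ a ∈ p', a ∉ p → a.nam = N ∨ LBelow a.nam N := by
  obtain ⟨p', hp', hpp, h1, h2, h3⟩ := hp.levels_ext hN
    ((pts (slice p N)).product (Finset.range L)) (by
      intro x hx
      exact (Finset.mem_product.1 hx).1)
  refine ⟨p', hp', hpp, ?_, h2, h3⟩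
  intro w hw n hn
  rw [h2] at hw
  exact h1 (w, n) (Finset.mem_product.2 ⟨hw, Finset.mem_range.2 hn⟩)

/-- A new point of the second kind can be added. -/
theorem LC.newpt_ext {p : Finset (LAtom W)} (hp : LC rho p) (hN : HGood rho N) (w : W) :
    ∃ p', LC rho p' ∧ p ⊆ p' ∧ w ∈ pts (slice p' N) := by
  by_cases hw : w ∈ pts (slice p N)
  · exact ⟨p, hp, subset_rfl, hw⟩
  obtain ⟨p1, hp1, hpp1, h1, h2, -⟩ := hp.upto_ext hN ((pts (slice p N)).card + 1)
  obtain ⟨k, p2, hp2, hpp2, hk, hb⟩ := hp1.belows_ext hN w ((pts (slice p N)).card + 1)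
  have hsl : slice p2 N = slice p1 N := slice_eq hpp2 fun a ha h h' => by
    have h1 := hb a ha h
    rw [h'] at h1
    exact not_lBelow_self N h1
  have hpt : pts (slice p2 N) = pts (slice p N) := by rw [hsl, h2]
  obtain ⟨c, hc⟩ : ∃ c, ∀ b ∈ slice p2 N, b.kind = true → b.cls ≠ c := by
    refine ⟨((slice p2 N).sup fun b => b.cls) + 1, fun b hb _ h => ?_⟩
    have h5 : b.cls ≤ (slice p2 N).sup fun b => b.cls :=
      Finset.le_sup (f := fun b : LAtom W => b.cls) hb
    omega
  have hLV := lv_newpt (hp2.1.loc N) (w := w) (c := c) k (by rw [hpt]; exact hw) hc (by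
    intro v hv
    rw [hpt] at hv ⊢
    obtain ⟨a, ha, h⟩ := h1 v (by rw [h2]; exact hv) _ (Nat.lt_succ_self _)
    exact ⟨a, by rw [hsl]; exact ha, h⟩)
  rw [hpt] at hLV
  set T : Finset (LAtom W) := (Finset.range ((pts (slice p N)).card + 1)).image fun n =>
      (⟨N, w, true, n, [], c, N.val w n (k n), k n⟩ : LAtom W) with hT
  have hTm : ∀ a ∈ T, ∃ n < (pts (slice p N)).card + 1,
      (⟨N, w, true, n, [], c, N.val w n (k n), k n⟩ : LAtom W) = a := by
    intro a ha
    rw [hT, Finset.mem_image] at ha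
    obtain ⟨n, hn, h⟩ := ha
    exact ⟨n, Finset.mem_range.1 hn, h⟩
  have hTN : ∀ a ∈ T, a.nam = N := by
    intro a ha
    obtain ⟨n, -, rfl⟩ := hTm a ha
    rfl
  have hval := hp2.1.add hTN (by
    intro a ha
    obtain ⟨n, hn, rfl⟩ := hTm a ha
    exact hk n hn) hLV
  refine ⟨p2 ∪ T, ⟨hval, ?_⟩, (hpp1.trans hpp2).trans Finset.subset_union_left, ?_⟩
  · intro a ha
    rcases Finset.mem_union.1 ha with ha | ha
    · exact hp2.2 a ha
    · rw [hTN a ha]
      exact hN
  · rw [slice_add hTN]
    refine mem_pts.2 ⟨⟨N, w, true, 0, [], c, N.val w 0 (k 0), k 0⟩, ?_, rfl, rfl⟩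
    refine Finset.mem_union_right _ ?_
    rw [hT, Finset.mem_image]
    exact ⟨0, Finset.mem_range.2 (Nat.succ_pos _), rfl⟩

/-- A new point of the first kind can be added. -/
theorem LC.node_ext (hrho : Function.Injective rho) {p : Finset (LAtom W)} (hp : LC rho p)
    (hN : HGood rho N) (x : W) :
    ∃ p', LC rho p' ∧ p ⊆ p' ∧ ∃ a ∈ slice p' N, a.kind = false ∧ a.pt = x := by
  by_cases hex : ∃ a ∈ slice p N, a.kind = false ∧ a.pt = x
  · exact ⟨p, hp, subset_rfl, hex⟩
  obtain ⟨m, p1, hp1, hpp1, hm, hb⟩ := hp.below_ext hN x 0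
  have hsl : slice p1 N = slice p N := slice_eq hpp1 fun a ha h h' => by
    have h1 := hb a ha h
    rw [h'] at h1
    exact not_lBelow_self N h1
  have hev : ∀ᶠ k in Filter.atTop, ∀ b ∈ slice p N, b.node.length < k ∧
      (b.pt ≠ x → pre rho x k ≠ pre rho b.pt k) := by
    rw [Finset.eventually_all]
    intro b _
    refine (Filter.eventually_gt_atTop _).and ?_
    by_cases hb : b.pt = x
    · exact Filter.Eventually.of_forall fun k h => (h hb).elim
    · have h1 : rho x ≠ rho b.pt := fun h => hb (hrho h).symm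
      obtain ⟨i, hi⟩ := Function.ne_iff.1 h1
      refine (Filter.eventually_gt_atTop i).mono fun k hk _ h => hi (pre_inj h i hk)
  obtain ⟨k, hk⟩ := hev.exists
  set T : Finset (LAtom W) := {⟨N, x, false, 0, pre rho x k, 0, N.val x 0 m, m⟩} with hT
  have hTN : ∀ a ∈ T, a.nam = N := by
    intro a ha
    rw [hT, Finset.mem_singleton] at ha
    rw [ha]
  have hLV : LV rho N (slice p1 N ∪ T) := by
    rw [hT, Finset.union_comm, ← Finset.insert_eq, hsl]
    exact lv_node (hp.1.loc N) (fun b hb h1 h2 => hex ⟨b, hb, h1, h2⟩) hk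
  have hval := hp1.1.add hTN (by
    intro a ha
    rw [hT, Finset.mem_singleton] at ha
    rw [ha]
    exact hm) hLV
  refine ⟨p1 ∪ T, ⟨hval, ?_⟩, hpp1.trans Finset.subset_union_left, ?_⟩
  · intro a ha
    rcases Finset.mem_union.1 ha with ha | ha
    · exact hp1.2 a ha
    · rw [hTN a ha]
      exact hN
  · refine ⟨⟨N, x, false, 0, pre rho x k, 0, N.val x 0 m, m⟩, ?_, rfl, rfl⟩
    rw [slice_add hTN]
    exact Finset.mem_union_right _ (Finset.mem_singleton_self _)

/-- All points with the name `N` are decided at twice as many levels as there are points. -/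
def Long (p : Finset (LAtom W)) (N : LName W) : Prop :=
  ∀ w ∈ pts (slice p N), ∀ n < 2 * (pts (slice p N)).card,
    ∃ a ∈ slice p N, a.kind = true ∧ a.pt = w ∧ a.lev = n

theorem Long.mono {p p' : Finset (LAtom W)} (h : Long p N) (hpp : p ⊆ p')
    (hpt : pts (slice p' N) = pts (slice p N)) : Long p' N := by
  intro w hw n hn
  rw [hpt] at hw hn
  obtain ⟨a, ha, h1⟩ := h w hw n hn
  exact ⟨a, slice_mono hpp N ha, h1⟩

theorem long_of_not {p : Finset (LAtom W)} (h : ∀ a ∈ p, a.nam ≠ N) : Long p N := by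
  intro w hw
  obtain ⟨a, ha, -⟩ := mem_pts.1 hw
  obtain ⟨h1, h2⟩ := mem_slice.1 ha
  exact (h a h1 h2).elim

/-- The inner step: finitely many names of rank `β`. -/
theorem LC.long_aux {p : Finset (LAtom W)} (hp : LC rho p) (β : Ordinal.{0})
    (T : Finset (LName W)) (hT : ∀ N ∈ T, N.rk = β ∧ HGood rho N) :
    ∃ p', LC rho p' ∧ p ⊆ p' ∧ (∀ a ∈ p', a ∉ p → a.nam.rk ≤ β) ∧
      (∀ N : LName W, N.rk = β → pts (slice p' N) = pts (slice p N)) ∧ ∀ N ∈ T, Long p' N := by
  induction T using Finset.induction_on with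
  | empty => exact ⟨p, hp, subset_rfl, fun a ha h => (h ha).elim, fun _ _ => rfl,
      fun N hN => absurd hN (Finset.notMem_empty N)⟩
  | insert N T hNT ih =>
    obtain ⟨p1, hp1, hpp1, h1, h2, h3⟩ := ih fun M hM => hT M (Finset.mem_insert_of_mem hM)
    obtain ⟨hNβ, hNg⟩ := hT N (Finset.mem_insert_self _ _)
    obtain ⟨p2, hp2, hpp2, g1, g2, g3⟩ := hp1.upto_ext hNg (2 * (pts (slice p1 N)).card)
    have hrk : ∀ a ∈ p2, a ∉ p1 → a.nam.rk ≤ β := by
      intro a ha hap
      rcases g3 a ha hap with h | h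
      · rw [h, hNβ]
      · rw [← hNβ]
        exact h.rk_lt.le
    have hpts : ∀ M : LName W, M.rk = β → pts (slice p2 M) = pts (slice p1 M) := by
      intro M hM
      by_cases hMN : M = N
      · rw [hMN]
        exact g2
      · rw [slice_eq hpp2]
        intro a ha hap h
        rcases g3 a ha hap with h' | h'
        · exact hMN (h.symm.trans h')
        · have := h'.rk_lt
          rw [h, hM, hNβ] at this
          exact lt_irrefl _ this
    refine ⟨p2, hp2, hpp1.trans hpp2, ?_, ?_, ?_⟩
    · intro a ha hap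
      by_cases h : a ∈ p1
      · exact h1 a h hap
      · exact hrk a ha h
    · intro M hM
      rw [hpts M hM, h2 M hM]
    · intro M hM
      rcases Finset.mem_insert.1 hM with rfl | hM
      · intro w hw n hn
        rw [g2] at hn
        exact g1 w hw n hn
      · exact (h3 M hM).mono hpp2 (hpts M (hT M (Finset.mem_insert_of_mem hM)).1)

/-- All points can be decided at twice as many levels as there are points (names of rank `< α`). -/
theorem LC.long_rk (α : Ordinal.{0}) : ∀ {p : Finset (LAtom W)}, LC rho p →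
    ∃ p', LC rho p' ∧ p ⊆ p' ∧ (∀ a ∈ p', a ∉ p → a.nam.rk < α) ∧
      ∀ N : LName W, N.rk < α → Long p' N := by
  induction α using Ordinal.induction with
  | h α ih =>
    intro p hp
    set R : Finset (LAtom W) := p.filter fun a => a.nam.rk < α with hR
    rcases R.eq_empty_or_nonempty with h0 | hne
    · refine ⟨p, hp, subset_rfl, fun a ha h => (h ha).elim, fun N hN => long_of_not ?_⟩
      intro a ha h
      have : a ∈ R := Finset.mem_filter.2 ⟨ha, by rw [h]; exact hN⟩
      rw [h0] at this
      exact Finset.notMem_empty a this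
    obtain ⟨a0, ha0, hmax⟩ := R.exists_max_image (fun a => a.nam.rk) hne
    set β := a0.nam.rk with hβ
    have hβα : β < α := (Finset.mem_filter.1 ha0).2
    set T : Finset (LName W) := (p.filter fun a => a.nam.rk = β).image LAtom.nam with hT
    obtain ⟨p1, hp1, hpp1, h1, h2, h3⟩ := hp.long_aux β T (by
      intro N hN
      obtain ⟨a, ha, rfl⟩ := Finset.mem_image.1 hN
      obtain ⟨h1, h2⟩ := Finset.mem_filter.1 ha
      exact ⟨h2, hp.2 a h1⟩)
    obtain ⟨p2, hp2, hpp2, g1, g2⟩ := ih β hβα hp1
    refine ⟨p2, hp2, hpp1.trans hpp2, ?_, ?_⟩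
    · intro a ha hap
      by_cases h : a ∈ p1
      · exact (h1 a h hap).trans_lt hβα
      · exact (g1 a ha h).trans hβα
    · intro N hN
      rcases lt_trichotomy N.rk β with h | h | h
      · exact g2 N h
      · have hsl : slice p2 N = slice p1 N := slice_eq hpp2 fun a ha hap h' => by
          have h4 := g1 a ha hap
          rw [h', h] at h4
          exact lt_irrefl _ h4
        by_cases hNT : N ∈ T
        · exact (h3 N hNT).mono hpp2 (by rw [hsl])
        · intro w hw
          exfalso
          rw [hsl, h2 N h] at hw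
          obtain ⟨a, ha, -⟩ := mem_pts.1 hw
          obtain ⟨h5, h6⟩ := mem_slice.1 ha
          exact hNT (Finset.mem_image.2 ⟨a, Finset.mem_filter.2 ⟨h5, by rw [h6]; exact h⟩, h6⟩)
      · refine long_of_not fun a ha h' => ?_
        by_cases hap1 : a ∈ p1
        · by_cases hap : a ∈ p
          · have h4 := hmax a (Finset.mem_filter.2 ⟨hap, by rw [h']; exact hN⟩)
            rw [h'] at h4
            exact absurd h (not_lt.2 h4)
          · have h4 := h1 a hap1 hap
            rw [h'] at h4
            exact absurd h (not_lt.2 h4)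
        · have h4 := g1 a ha hap1
          rw [h'] at h4
          exact absurd h (not_lt.2 h4.le)

/-- Every condition has an extension in which all points are decided at twice as many levels as
there are points. -/
theorem LC.long_ext {p : Finset (LAtom W)} (hp : LC rho p) :
    ∃ p', LC rho p' ∧ p ⊆ p' ∧ ∀ N : LName W, Long p' N := by
  obtain ⟨α, hα⟩ : ∃ α : Ordinal.{0}, ∀ a ∈ p, a.nam.rk < α := by
    refine ⟨p.sup (fun a => Order.succ a.nam.rk), fun a ha => ?_⟩
    exact (Order.lt_succ _).trans_le (Finset.le_sup (f := fun a : LAtom W => Order.succ a.nam.rk) ha)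
  obtain ⟨p', hp', hpp, h1, h2⟩ := LC.long_rk α hp
  refine ⟨p', hp', hpp, fun N => ?_⟩
  rcases lt_or_ge N.rk α with h | h
  · exact h2 N h
  · refine long_of_not fun a ha h' => ?_
    by_cases hap : a ∈ p
    · have h3 := hα a hap
      rw [h'] at h3
      exact absurd h3 (not_lt.2 h)
    · have h3 := h1 a ha hap
      rw [h'] at h3
      exact absurd h3 (not_lt.2 h)

end M3
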