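import Pool.Agent.H.MP_8ff4bd_gt.M3.LocExt

/-!
# The forcing for node refinements and slowly splitting classes

`lp_ccc`: the countable chain condition; `lp_nodeRef`: node refinements; `lp_slowTree`: slowly
splitting classes.
-/

namespace M3

open Classical

variable {W : Type} {rho : W → ℕ → Bool} {N : LName W}

/-- The poset satisfies the countable chain condition. -/
theorem lp_ccc (rho : W → ℕ → Bool) : RO.CCC (LP rho) := by
  intro A hA
  by_contra hS
  choose E hE1 hE2 hE3 using fun p : LP rho => p.2.long_ext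
  obtain ⟨T1, hT1, hT1c, R1, hR1⟩ :=
    H98m.delta A (fun p : LP rho => (E p).image fun a => (a.nam, a.pt)) hS
  obtain ⟨T2, hT2, hT2c, R2, hR2⟩ :=
    H98m.delta T1 (fun p : LP rho => (E p).image fun a => a.nam) hT1c
  obtain ⟨c, hc⟩ := H98m.pigeon T2 hT2c
    (fun p : LP rho =>
      (fun k => ((E p).filter fun a => (a.nam, a.pt) = k.1).image LAtom.dat,
       fun k => ((pts (slice (E p) k.1)).card,
        (slice (E p) k.1).image fun a => dats (slice (E p) k.1) a.pt)) :
      LP rho → (R1 → Finset LDat) × (R2 → ℕ × Finset (Finset LDat)))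
  have hnt : {p | p ∈ T2 ∧ ((fun k => ((E p).filter fun a => (a.nam, a.pt) = k.1).image LAtom.dat,
       fun k => ((pts (slice (E p) k.1)).card,
        (slice (E p) k.1).image fun a => dats (slice (E p) k.1) a.pt)) :
      (R1 → Finset LDat) × (R2 → ℕ × Finset (Finset LDat))) = c}.Nontrivial := by
    by_contra hn
    exact hc (Set.not_nontrivial_iff.1 hn).countable
  obtain ⟨p, ⟨hp, hpc⟩, q, ⟨hq, hqc⟩, hpq⟩ := hnt
  have h12 := hpc.trans hqc.symm
  have e1 := congrArg Prod.fst h12
  have e2 := congrArg Prod.snd h12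
  have hroot1 := hR1 p (hT2 hp) q (hT2 hq) hpq
  have hroot2 := hR2 p hp q hq hpq
  -- atoms with the same name and point
  have hu0 : ∀ a ∈ E p, ∀ b ∈ E q, a.nam = b.nam → a.pt = b.pt → a ∈ E q ∧ b ∈ E p := by
    intro a ha b hb hn hpt
    have hk : (a.nam, a.pt) ∈ R1 := by
      rw [← hroot1]
      refine (@Finset.mem_inter _ (fun a b => Classical.propDecidable (a = b)) _ _ _).2 ⟨?_, ?_⟩
      · exact Finset.mem_image.2 ⟨a, ha, rfl⟩
      · exact Finset.mem_image.2 ⟨b, hb, by rw [hn, hpt]⟩
    have h4 := congrFun e1 ⟨(a.nam, a.pt), hk⟩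
    simp only at h4
    constructor
    · have h5 : a.dat ∈ ((E p).filter fun b => (b.nam, b.pt) = (a.nam, a.pt)).image LAtom.dat :=
        Finset.mem_image.2 ⟨a, Finset.mem_filter.2 ⟨ha, rfl⟩, rfl⟩
      rw [h4] at h5
      obtain ⟨b', hb', h6⟩ := Finset.mem_image.1 h5
      obtain ⟨hb'q, h7⟩ := Finset.mem_filter.1 hb'
      have h8 : b' = a := LAtom.ext' (congrArg Prod.fst h7) (congrArg Prod.snd h7) h6
      rw [← h8]
      exact hb'q
    · have h5 : b.dat ∈ ((E q).filter fun b => (b.nam, b.pt) = (a.nam, a.pt)).image LAtom.dat :=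
        Finset.mem_image.2 ⟨b, Finset.mem_filter.2 ⟨hb, by rw [hn, hpt]⟩, rfl⟩
      rw [← h4] at h5
      obtain ⟨a', ha', h6⟩ := Finset.mem_image.1 h5
      obtain ⟨ha'p, h7⟩ := Finset.mem_filter.1 ha'
      have h8 : a' = b := LAtom.ext' ((congrArg Prod.fst h7).trans hn)
        ((congrArg Prod.snd h7).trans hpt) h6
      rw [← h8]
      exact ha'p
  have hval : LValid rho (E p ∪ E q) := by
    refine ⟨?_, ?_⟩
    · intro a ha
      rcases Finset.mem_union.1 ha with ha | ha
      · exact ((hE1 p).1.sub a ha).trans Finset.subset_union_left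
      · exact ((hE1 q).1.sub a ha).trans Finset.subset_union_right
    · intro M
      have hsl : slice (E p ∪ E q) M = slice (E p) M ∪ slice (E q) M := by
        ext a
        simp only [mem_slice, Finset.mem_union]
        tauto
      rw [hsl]
      by_cases hMR : M ∈ R2
      · have h4 := congrFun e2 ⟨M, hMR⟩
        simp only [Prod.mk.injEq] at h4
        obtain ⟨hcard, hpat⟩ := h4
        refine lv_union ((hE1 p).1.loc M) ((hE1 q).1.loc M) ?_ ?_ ?_ hcard (hE3 p M) (hE3 q M)
        · intro a ha b hb hpt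
          obtain ⟨ha1, ha2⟩ := mem_slice.1 ha
          obtain ⟨hb1, hb2⟩ := mem_slice.1 hb
          obtain ⟨h5, h6⟩ := hu0 a ha1 b hb1 (ha2.trans hb2.symm) hpt
          exact ⟨mem_slice.2 ⟨h5, ha2⟩, mem_slice.2 ⟨h6, hb2⟩⟩
        · intro b hb
          have h5 : dats (slice (E q) M) b.pt ∈
              (slice (E q) M).image fun a => dats (slice (E q) M) a.pt :=
            Finset.mem_image.2 ⟨b, hb, rfl⟩
          rw [← hpat] at h5
          obtain ⟨a, -, h6⟩ := Finset.mem_image.1 h5
          exact ⟨a.pt, h6⟩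
        · intro a ha
          have h5 : dats (slice (E p) M) a.pt ∈
              (slice (E p) M).image fun a => dats (slice (E p) M) a.pt :=
            Finset.mem_image.2 ⟨a, ha, rfl⟩
          rw [hpat] at h5
          obtain ⟨b, -, h6⟩ := Finset.mem_image.1 h5
          exact ⟨b.pt, h6⟩
      · by_cases hMp : ∃ a ∈ E p, a.nam = M
        · have h5 : slice (E q) M = ∅ := by
            rw [Finset.eq_empty_iff_forall_notMem]
            intro b hb
            obtain ⟨hb1, hb2⟩ := mem_slice.1 hb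
            obtain ⟨a, ha, ha2⟩ := hMp
            apply hMR
            rw [← hroot2, Finset.mem_inter, Finset.mem_image, Finset.mem_image]
            exact ⟨⟨a, ha, ha2⟩, ⟨b, hb1, hb2⟩⟩
          rw [h5, Finset.union_empty]
          exact (hE1 p).1.loc M
        · have h5 : slice (E p) M = ∅ := by
            rw [Finset.eq_empty_iff_forall_notMem]
            intro a ha
            obtain ⟨ha1, ha2⟩ := mem_slice.1 ha
            exact hMp ⟨a, ha1, ha2⟩
          rw [h5, Finset.empty_union]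
          exact (hE1 q).1.loc M
  have hLC : LC rho (E p ∪ E q) := by
    refine ⟨hval, fun a ha => ?_⟩
    rcases Finset.mem_union.1 ha with ha | ha
    · exact (hE1 p).2 a ha
    · exact (hE1 q).2 a ha
  exact hA p (hT1 (hT2 hp)) q (hT1 (hT2 hq)) hpq
    ⟨⟨E p ∪ E q, hLC⟩, (hE2 p).trans Finset.subset_union_left,
      (hE2 q).trans Finset.subset_union_right⟩

/-- The name of a family of countable predense sequences of conditions is hereditarily total. -/
theorem hgood_of {e : W → ℕ → ℕ → LP rho} (hNc : N.cond = fun x l n => (e x l n).1)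
    (hpre : ∀ x l (q : LP rho), ∃ m r, r ≤ q ∧ r ≤ e x l m) : HGood rho N := by
  have hocc : ∀ M, LOcc M N → HGood rho M := by
    rintro M ⟨x, l, n, a, ha, rfl⟩
    rw [hNc] at ha
    exact (e x l n).2.2 a ha
  have hbel : ∀ M, LBelow M N → HGood rho M := by
    intro M hM
    obtain ⟨K, hMK, hK⟩ := Relation.TransGen.tail'_iff.1 hM
    rcases Relation.reflTransGen_iff_eq_or_transGen.1 hMK with h | h
    · subst h
      exact hocc _ hK
    · exact (hocc K hK).below h
  refine ⟨?_, fun M hM => (hbel M hM).1⟩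
  intro q hq hqN w n
  obtain ⟨m, r, hr1, hr2⟩ := hpre w n ⟨q, hq, fun a ha => hbel _ (hqN a ha)⟩
  refine ⟨m, r.1.filter fun a => LBelow a.nam N, r.2.1.restrict N,
    fun a ha => (Finset.mem_filter.1 ha).2, ?_, ?_⟩
  · intro a ha
    exact Finset.mem_filter.2 ⟨hr1 ha, hqN a ha⟩
  · intro a ha
    have h1 : a ∈ r.1 := by
      apply hr2
      rw [hNc] at ha
      exact ha
    exact Finset.mem_filter.2 ⟨h1, lBelow_of_mem ha⟩

/-! ### Node refinements -/

/-- The `B`-valued node set attached to a name. -/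
noncomputable def lR (rho : W → ℕ → Bool) (N : LName W) (s : List Bool) : RO (LP rho) :=
  if s = [] then ⊤ else RO.hull {p | ∃ a ∈ slice p.1 N, a.kind = false ∧ a.node = s}

theorem forces_lR {r : LP rho} {a : LAtom W} (ha : a ∈ slice r.1 N) (hk : a.kind = false) :
    RO.Forces r (lR rho N a.node) := by
  unfold lR
  split_ifs with h
  · exact RO.forces_top r
  · exact RO.forces_hull.2 fun q hq => ⟨q, le_rfl, r, ⟨a, ha, hk, rfl⟩, hq⟩

theorem forces_lR_compl {x : W} {r : LP rho} {a : LAtom W} (ha : a ∈ slice r.1 N)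
    (hk : a.kind = false) (hx : a.pt = x) {j : ℕ} (hj : a.node.length < j) :
    RO.Forces r (lR rho N (pre rho x j))ᶜ := by
  rw [RO.forces_compl]
  intro q hq hf
  have hne : pre rho x j ≠ [] := by
    intro h
    have h1 := pre_length rho x j
    rw [h, List.length_nil] at h1
    omega
  unfold lR at hf
  rw [if_neg hne] at hf
  obtain ⟨t, ht, s, ⟨b, hb, hbk, hbn⟩, hts⟩ := RO.forces_hull.1 hf q le_rfl
  have ha' : a ∈ slice t.1 N := slice_mono (ht.trans hq) N ha
  have hb' : b ∈ slice t.1 N := slice_mono hts N hb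
  have hbl : b.node.length = j := by rw [hbn, pre_length]
  refine (t.2.1.loc N).last a ha' b hb' hk hbk (by rw [hbl]; exact hj) ?_
  rw [hbl, hbn, hx]

theorem eq_of_forces_Last' {x : W} {r : LP rho} {a : LAtom W} (ha : a ∈ slice r.1 N)
    (hk : a.kind = false) (hx : a.pt = x) {k : ℕ}
    (hL : RO.Forces r (Last rho (lR rho N) x k)) : k = a.node.length := by
  unfold Last at hL
  obtain ⟨h1, h2⟩ := RO.forces_inf.1 hL
  rcases lt_trichotomy k a.node.length with h | h | h
  · have h3 := RO.forces_iInf.1 (RO.forces_iInf.1 h2 a.node.length) h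
    have h4 : RO.Forces r (lR rho N (pre rho x a.node.length)) := by
      have h5 := (r.2.1.loc N).pref a ha hk
      rw [hx] at h5
      rw [← h5]
      exact forces_lR ha hk
    exact (RO.forces_compl.1 h3 r le_rfl h4).elim
  · exact h
  · exact (RO.forces_compl.1 (forces_lR_compl ha hk hx h) r le_rfl h1).elim

/-- The poset has node refinements. -/
theorem lp_nodeRef (hrho : Function.Injective rho) : NodeRef (RO (LP rho)) W rho := by
  intro c htot hdis
  choose e v hv hpre using fun x => exists_deciding (lp_ccc rho) (c x) (htot x)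
  obtain ⟨N, hNc, hNv⟩ := exists_lname (fun x (_ : ℕ) n => (e x n).1) (fun x _ n => v x n)
  have hN : HGood rho N := hgood_of (e := fun x _ n => e x n) hNc fun x _ q => hpre x q
  have hext : ∀ (q : LP rho) (x : W), ∃ r, r ≤ q ∧ ∃ a ∈ slice r.1 N, a.kind = false ∧
      a.pt = x := by
    intro q x
    obtain ⟨p', hp', hpp, h⟩ := q.2.node_ext hrho hN x
    exact ⟨⟨p', hp'⟩, hpp, h⟩
  have hforce : ∀ (r : LP rho) (a : LAtom W), a ∈ slice r.1 N →
      RO.Forces r (c a.pt a.col) := by
    intro r a ha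
    obtain ⟨ha1, ha2⟩ := mem_slice.1 ha
    have h1 := r.2.1.sub a ha1
    have h2 := (r.2.1.loc N).val a ha
    rw [ha2, hNc] at h1
    rw [hNv] at h2
    rw [← h2]
    exact (hv a.pt a.idx).mono h1
  refine ⟨lR rho N, by simp [lR], ?_, ?_⟩
  · intro x
    rw [RO.eq_top_iff_forces]
    intro p
    rw [RO.forces_iSup]
    intro q _
    obtain ⟨r, hr, a, ha, hk, hx⟩ := hext q x
    refine ⟨r, hr, a.node.length, ?_⟩
    rw [RO.forces_iInf]
    intro j
    rw [RO.forces_iInf]
    intro hj
    exact forces_lR_compl ha hk hx hj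
  · intro x y k n hxy p hp
    obtain ⟨⟨hLx, hLy⟩, hcx⟩ := hp
    refine RO.forces_of_dense fun q hq => ?_
    obtain ⟨r, hr, a, ha, hak, hax⟩ := hext q x
    obtain ⟨t, ht, b, hb, hbk, hby⟩ := hext r y
    have ha' : a ∈ slice t.1 N := slice_mono ht N ha
    have htp : t ≤ p := ht.trans (hr.trans hq)
    have h1 : k = a.node.length := eq_of_forces_Last' ha' hak hax (hLx.mono htp)
    have h2 : k = b.node.length := eq_of_forces_Last' hb hbk hby (hLy.mono htp)
    have h3 : a.node = b.node := by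
      rw [(t.2.1.loc N).pref a ha' hak, (t.2.1.loc N).pref b hb hbk, ← h1, ← h2, hax, hby, hxy]
    have h4 : a.col = b.col := (t.2.1.loc N).col a ha' b hb hak hbk h3
    have h5 : RO.Forces t (c x a.col) := by
      have := hforce t a ha'
      rwa [hax] at this
    have h6 : RO.Forces t (c y b.col) := by
      have := hforce t b hb
      rwa [hby] at this
    have h7 : n = a.col := by
      by_contra hne
      have h8 := (hdis x n a.col hne).le_bot
      exact RO.not_forces_bot t (h8 t ⟨hcx.mono htp, h5⟩)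
    refine ⟨t, ht.trans hr, ?_⟩
    rw [h7, h4]
    exact h6

/-! ### Slowly splitting classes -/

/-- The `B`-valued class of a point. -/
noncomputable def lCl (rho : W → ℕ → Bool) (N : LName W) (w : W) (i : ℕ) : RO (LP rho) :=
  RO.hull {p | ∃ a ∈ slice p.1 N, a.kind = true ∧ a.pt = w ∧ a.cls = i}

/-- The poset has slowly splitting classes. -/
theorem lp_slowTree : SlowTree (RO (LP rho)) W (fun n => n) := by
  intro φ htot hdis
  choose e v hv hpre using fun x l => exists_deciding (lp_ccc rho) (φ x l) (htot x l)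
  obtain ⟨N, hNc, hNv⟩ := exists_lname (fun x l n => (e x l n).1) v
  have hN : HGood rho N := hgood_of (e := e) hNc hpre
  have hforce : ∀ (r : LP rho) (a : LAtom W), a ∈ slice r.1 N →
      RO.Forces r (φ a.pt a.lev a.col) := by
    intro r a ha
    obtain ⟨ha1, ha2⟩ := mem_slice.1 ha
    have h1 := r.2.1.sub a ha1
    have h2 := (r.2.1.loc N).val a ha
    rw [ha2, hNc] at h1
    rw [hNv] at h2
    rw [← h2]
    exact (hv a.pt a.lev a.idx).mono h1
  refine ⟨lCl rho N, ?_, ?_, ?_⟩
  · intro w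
    rw [RO.eq_top_iff_forces]
    intro p
    rw [RO.forces_iSup]
    intro q _
    obtain ⟨p', hp', hpp, hw⟩ := q.2.newpt_ext hN w
    obtain ⟨a, ha, hk, hx⟩ := mem_pts.1 hw
    refine ⟨⟨p', hp'⟩, hpp, a.cls, ?_⟩
    exact RO.forces_hull.2 fun s hs => ⟨s, le_rfl, ⟨p', hp'⟩, ⟨a, ha, hk, hx, rfl⟩, hs⟩
  · intro w i j hij
    rw [disjoint_iff_inf_le]
    intro p hp
    obtain ⟨h1, h2⟩ := RO.forces_inf.1 hp
    obtain ⟨q, hq, s, ⟨a, ha, hak, hax, hai⟩, hqs⟩ := RO.forces_hull.1 h1 p le_rfl
    obtain ⟨r, hr, t, ⟨b, hb, hbk, hbx, hbj⟩, hrt⟩ := RO.forces_hull.1 h2 q hq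
    exfalso
    apply hij
    rw [← hai, ← hbj]
    exact (r.2.1.loc N).cls a (slice_mono (hr.trans hqs) N ha) b (slice_mono hrt N hb) hak hbk
      (hax.trans hbx.symm)
  · intro S L i τ hne n hn
    obtain ⟨p, hp⟩ := RO.exists_forces_of_ne_bot hne
    have hp1 : ∀ w ∈ S, RO.Forces p (lCl rho N w (i w)) ∧
        ∀ k < L, RO.Forces p (φ w k (τ w k)) := by
      intro w hw
      have h1 := RO.forces_iInf.1 (RO.forces_iInf.1 hp w) hw
      obtain ⟨h2, h3⟩ := RO.forces_inf.1 h1
      exact ⟨h2, fun k hk => RO.forces_iInf.1 (RO.forces_iInf.1 h3 k) hk⟩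
    -- an extension with atoms for all points of `S`
    have hS : ∀ S' ⊆ S, ∃ q, q ≤ p ∧ ∀ w ∈ S', ∃ a ∈ slice q.1 N, a.kind = true ∧ a.pt = w ∧
        a.cls = i w := by
      intro S'
      induction S' using Finset.induction_on with
      | empty => exact fun _ => ⟨p, le_rfl, fun w hw => absurd hw (Finset.notMem_empty w)⟩
      | insert w S' _ ih =>
        intro hsub
        obtain ⟨q, hq, h⟩ := ih ((Finset.subset_insert _ _).trans hsub)
        obtain ⟨r, hr, t, ⟨a, ha, hk, hx, hi⟩, hrt⟩ :=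
          RO.forces_hull.1 (hp1 w (hsub (Finset.mem_insert_self _ _))).1 q hq
        refine ⟨r, hr.trans hq, ?_⟩
        intro u hu
        rcases Finset.mem_insert.1 hu with rfl | hu
        · exact ⟨a, slice_mono hrt N ha, hk, hx, hi⟩
        · obtain ⟨b, hb, h1⟩ := h u hu
          exact ⟨b, slice_mono hr N hb, h1⟩
    obtain ⟨q, hq, hqS⟩ := hS S subset_rfl
    obtain ⟨p', hp', hqp, h1, h2, -⟩ := q.2.upto_ext hN L
    obtain ⟨P', hP'⟩ : ∃ P' : LP rho, P'.1 = p' := ⟨⟨p', hp'⟩, rfl⟩
    have hP'q : P' ≤ q := by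
      rw [LP.le_iff, hP']
      exact hqp
    have hp'p : P' ≤ p := hP'q.trans hq
    have hcons : Cons (slice p' N) S i τ (n + 1) := by
      intro w hw k hk
      obtain ⟨a0, ha0, hk0, hx0, hi0⟩ := hqS w hw
      have ha0' : a0 ∈ slice p' N := slice_mono hqp N ha0
      have hwp : w ∈ pts (slice p' N) := mem_pts.2 ⟨a0, ha0', hk0, hx0⟩
      have hkL : k < L := lt_of_lt_of_le hk hn
      obtain ⟨a, ha, g1, g2, g3⟩ := h1 w hwp k hkL
      refine ⟨a, ha, g1, g2, g3, ?_, ?_⟩
      · rw [← hi0]
        exact (hp'.1.loc N).cls a ha a0 ha0' g1 hk0 (g2.trans hx0.symm)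
      · by_contra hne'
        have h3 := hforce P' a (by rw [hP']; exact ha)
        rw [g2, g3] at h3
        have h4 : RO.Forces P' (φ w k (τ w k)) := ((hp1 w hw).2 k hkL).mono hp'p
        have h8 := (hdis w k a.col (τ w k) hne').le_bot
        exact RO.not_forces_bot P' (h8 P' ⟨h3, h4⟩)
    exact (hp'.1.loc N).edge S i τ n hcons

/-- **Existence of the algebra of the positive model for both questions.** -/
theorem locPoset (rho : W → ℕ → Bool) (hrho : Function.Injective rho) :
    ∃ (B : Type) (_ : CompleteBooleanAlgebra B) (_ : Nontrivial B), BCCC B ∧ NodeRef B W rho ∧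
      SlowTree B W (fun n => n) :=
  ⟨RO (LP rho), inferInstance, inferInstance, RO.bccc (lp_ccc rho), lp_nodeRef hrho, lp_slowTree⟩

end M3
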