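import Pool.Agent.H.MP_8ff4bd_gt.M3.LocDefs

/-!
# Extensions and unions of sets of atoms with one name

* `lv_node`: adding an atom of the first kind;
* `lv_level`: adding a level to a point of the second kind;
* `lv_newpt`: adding a new point of the second kind, with a new class;
* `lv_union`: the union of two sets with the same pattern.
-/

namespace M3

open Classical

variable {W : Type} {rho : W → ℕ → Bool} {N : LName W}

theorem pts_union (s t : Finset (LAtom W)) : pts (s ∪ t) = pts s ∪ pts t := by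
  ext w
  simp only [mem_pts, Finset.mem_union]
  constructor
  · rintro ⟨a, ha | ha, h⟩
    · exact Or.inl ⟨a, ha, h⟩
    · exact Or.inr ⟨a, ha, h⟩
  · rintro (⟨a, ha, h⟩ | ⟨a, ha, h⟩)
    · exact ⟨a, Or.inl ha, h⟩
    · exact ⟨a, Or.inr ha, h⟩

/-- Adding an atom of the first kind. -/
theorem lv_node {s : Finset (LAtom W)} (hs : LV rho N s) {x : W} {k m : ℕ}
    (hx : ∀ b ∈ s, b.kind = false → b.pt ≠ x)
    (hk : ∀ b ∈ s, b.node.length < k ∧ (b.pt ≠ x → pre rho x k ≠ pre rho b.pt k)) :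
    LV rho N (insert ⟨N, x, false, 0, pre rho x k, 0, N.val x 0 m, m⟩ s) := by
  have hp : pts (insert ⟨N, x, false, 0, pre rho x k, 0, N.val x 0 m, m⟩ s) = pts s := by
    ext w
    simp only [mem_pts, Finset.mem_insert]
    constructor
    · rintro ⟨a, rfl | ha, h1, h2⟩
      · exact absurd h1 (by simp)
      · exact ⟨a, ha, h1, h2⟩
    · rintro ⟨a, ha, h⟩
      exact ⟨a, Or.inr ha, h⟩
  refine ⟨?_, ?_, ?_, ?_, ?_, ?_, ?_, ?_, ?_⟩
  · intro a ha
    rcases Finset.mem_insert.1 ha with rfl | ha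
    · rfl
    · exact hs.val a ha
  · intro a ha b hb h1 h2 h3
    rcases Finset.mem_insert.1 ha with rfl | ha <;> rcases Finset.mem_insert.1 hb with rfl | hb
    · rfl
    · exact (hx b hb h1.symm h2.symm).elim
    · exact (hx a ha h1 h2).elim
    · exact hs.uniq a ha b hb h1 h2 h3
  · intro a ha h
    rcases Finset.mem_insert.1 ha with rfl | ha
    · rfl
    · exact hs.zero a ha h
  · intro a ha h
    rcases Finset.mem_insert.1 ha with rfl | ha
    · simp only [pre_length]
    · exact hs.pref a ha h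
  · intro a ha b hb h1 h2 h3
    rcases Finset.mem_insert.1 ha with rfl | ha <;> rcases Finset.mem_insert.1 hb with rfl | hb
    · rfl
    · have h4 := (hk b hb).1
      rw [← h3] at h4
      simp only [pre_length, lt_irrefl] at h4
    · have h4 := (hk a ha).1
      rw [h3] at h4
      simp only [pre_length, lt_irrefl] at h4
    · exact hs.col a ha b hb h1 h2 h3
  · intro a ha b hb h1 h2 h3
    rcases Finset.mem_insert.1 ha with rfl | ha <;> rcases Finset.mem_insert.1 hb with rfl | hb
    · exact (lt_irrefl _ h3).elim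
    · simp only [pre_length] at h3
      exact (lt_asymm h3 (hk b hb).1).elim
    · simp only [pre_length]
      exact (hk a ha).2 (hx a ha h1)
    · exact hs.last a ha b hb h1 h2 h3
  · intro a ha b hb h1 h2 h3
    rcases Finset.mem_insert.1 ha with rfl | ha
    · exact absurd h1 (by simp)
    rcases Finset.mem_insert.1 hb with rfl | hb
    · exact absurd h2 (by simp)
    exact hs.cls a ha b hb h1 h2 h3
  · intro w hw n hn
    rw [hp] at hw hn
    obtain ⟨a, ha, h⟩ := hs.len w hw n hn
    exact ⟨a, Finset.mem_insert_of_mem ha, h⟩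
  · intro S i τ n h
    refine hs.edge S i τ n fun w hw j hj => ?_
    obtain ⟨a, ha, h1, h2⟩ := h w hw j hj
    rcases Finset.mem_insert.1 ha with rfl | ha
    · exact absurd h1 (by simp)
    · exact ⟨a, ha, h1, h2⟩

/-- Adding a level to a point of the second kind. -/
theorem lv_level {s : Finset (LAtom W)} (hs : LV rho N s) {w : W} {n m c : ℕ} (hw : w ∈ pts s)
    (hc : ∀ b ∈ s, b.kind = true → b.pt = w → b.cls = c)
    (hn : ∀ b ∈ s, b.kind = true → b.pt = w → b.lev ≠ n) :
    LV rho N (insert ⟨N, w, true, n, [], c, N.val w n m, m⟩ s) := by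
  have hcard : (pts s).card ≤ n := by
    by_contra h
    obtain ⟨a, ha, h1, h2, h3⟩ := hs.len w hw n (not_le.1 h)
    exact hn a ha h1 h2 h3
  have hp : pts (insert ⟨N, w, true, n, [], c, N.val w n m, m⟩ s) = pts s := by
    ext v
    constructor
    · intro h
      obtain ⟨a, ha, h1, h2⟩ := mem_pts.1 h
      rcases Finset.mem_insert.1 ha with rfl | ha
      · rw [← h2]
        exact hw
      · exact mem_pts.2 ⟨a, ha, h1, h2⟩
    · exact fun h => pts_mono (Finset.subset_insert _ _) h
  refine ⟨?_, ?_, ?_, ?_, ?_, ?_, ?_, ?_, ?_⟩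
  · intro a ha
    rcases Finset.mem_insert.1 ha with rfl | ha
    · rfl
    · exact hs.val a ha
  · intro a ha b hb h1 h2 h3
    rcases Finset.mem_insert.1 ha with rfl | ha <;> rcases Finset.mem_insert.1 hb with rfl | hb
    · rfl
    · exact (hn b hb h1.symm h2.symm h3.symm).elim
    · exact (hn a ha h1 h2 h3).elim
    · exact hs.uniq a ha b hb h1 h2 h3
  · intro a ha h
    rcases Finset.mem_insert.1 ha with rfl | ha
    · exact absurd h (by simp)
    · exact hs.zero a ha h
  · intro a ha h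
    rcases Finset.mem_insert.1 ha with rfl | ha
    · exact absurd h (by simp)
    · exact hs.pref a ha h
  · intro a ha b hb h1 h2 h3
    rcases Finset.mem_insert.1 ha with rfl | ha
    · exact absurd h1 (by simp)
    rcases Finset.mem_insert.1 hb with rfl | hb
    · exact absurd h2 (by simp)
    exact hs.col a ha b hb h1 h2 h3
  · intro a ha b hb h1 h2 h3
    rcases Finset.mem_insert.1 ha with rfl | ha
    · exact absurd h1 (by simp)
    rcases Finset.mem_insert.1 hb with rfl | hb
    · exact absurd h2 (by simp)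
    exact hs.last a ha b hb h1 h2 h3
  · intro a ha b hb h1 h2 h3
    rcases Finset.mem_insert.1 ha with rfl | ha <;> rcases Finset.mem_insert.1 hb with rfl | hb
    · rfl
    · exact (hc b hb h2 h3.symm).symm
    · exact hc a ha h1 h3
    · exact hs.cls a ha b hb h1 h2 h3
  · intro v hv j hj
    rw [hp] at hv hj
    obtain ⟨a, ha, h⟩ := hs.len v hv j hj
    exact ⟨a, Finset.mem_insert_of_mem ha, h⟩
  · intro S i τ j h
    rcases lt_or_ge j n with hj | hj
    · refine hs.edge S i τ j fun v hv l hl => ?_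
      obtain ⟨a, ha, h1, h2, h3, h4⟩ := h v hv l hl
      rcases Finset.mem_insert.1 ha with rfl | ha
      · simp only at h3
        omega
      · exact ⟨a, ha, h1, h2, h3, h4⟩
    · refine h.edges_le ?_
      rw [hp]
      exact hcard.trans hj

/-- Adding a new point of the second kind, with a new class. -/
theorem lv_newpt {s : Finset (LAtom W)} (hs : LV rho N s) {w : W} {c : ℕ} (m : ℕ → ℕ)
    (hw : w ∉ pts s) (hc : ∀ b ∈ s, b.kind = true → b.cls ≠ c)
    (hd : ∀ v ∈ pts s, ∃ a ∈ s, a.kind = true ∧ a.pt = v ∧ a.lev = (pts s).card) :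
    LV rho N (s ∪ (Finset.range ((pts s).card + 1)).image fun n =>
      (⟨N, w, true, n, [], c, N.val w n (m n), m n⟩ : LAtom W)) := by
  set T : Finset (LAtom W) := (Finset.range ((pts s).card + 1)).image fun n =>
      (⟨N, w, true, n, [], c, N.val w n (m n), m n⟩ : LAtom W) with hT
  have hTm : ∀ {a : LAtom W}, a ∈ T ↔ ∃ n < (pts s).card + 1,
      (⟨N, w, true, n, [], c, N.val w n (m n), m n⟩ : LAtom W) = a := by
    intro a
    rw [hT, Finset.mem_image]
    constructor
    · rintro ⟨n, hn, h⟩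
      exact ⟨n, Finset.mem_range.1 hn, h⟩
    · rintro ⟨n, hn, h⟩
      exact ⟨n, Finset.mem_range.2 hn, h⟩
  have hws : ∀ b ∈ s, b.kind = true → b.pt ≠ w := fun b hb h1 h2 =>
    hw (mem_pts.2 ⟨b, hb, h1, h2⟩)
  have hp : pts (s ∪ T) = insert w (pts s) := by
    rw [pts_union]
    have h1 : pts T = {w} := by
      ext v
      rw [mem_pts, Finset.mem_singleton]
      constructor
      · rintro ⟨a, ha, -, h2⟩
        obtain ⟨n, -, rfl⟩ := hTm.1 ha
        exact h2.symm
      · rintro rfl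
        exact ⟨_, hTm.2 ⟨0, Nat.succ_pos _, rfl⟩, rfl, rfl⟩
    rw [h1, Finset.union_comm, Finset.insert_eq]
  have hcard : (pts (s ∪ T)).card = (pts s).card + 1 := by
    rw [hp, Finset.card_insert_of_notMem hw]
  refine ⟨?_, ?_, ?_, ?_, ?_, ?_, ?_, ?_, ?_⟩
  · intro a ha
    rcases Finset.mem_union.1 ha with ha | ha
    · exact hs.val a ha
    · obtain ⟨n, -, rfl⟩ := hTm.1 ha
      rfl
  · intro a ha b hb h1 h2 h3
    rcases Finset.mem_union.1 ha with ha | ha <;> rcases Finset.mem_union.1 hb with hb | hb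
    · exact hs.uniq a ha b hb h1 h2 h3
    · obtain ⟨n, -, rfl⟩ := hTm.1 hb
      exact (hws a ha h1 h2).elim
    · obtain ⟨n, -, rfl⟩ := hTm.1 ha
      exact (hws b hb h1.symm h2.symm).elim
    · obtain ⟨n, -, rfl⟩ := hTm.1 ha
      obtain ⟨n', -, rfl⟩ := hTm.1 hb
      simp only at h3
      subst h3
      rfl
  · intro a ha h
    rcases Finset.mem_union.1 ha with ha | ha
    · exact hs.zero a ha h
    · obtain ⟨n, -, rfl⟩ := hTm.1 ha
      exact absurd h (by simp)
  · intro a ha h
    rcases Finset.mem_union.1 ha with ha | ha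
    · exact hs.pref a ha h
    · obtain ⟨n, -, rfl⟩ := hTm.1 ha
      exact absurd h (by simp)
  · intro a ha b hb h1 h2 h3
    rcases Finset.mem_union.1 ha with ha | ha
    · rcases Finset.mem_union.1 hb with hb | hb
      · exact hs.col a ha b hb h1 h2 h3
      · obtain ⟨n, -, rfl⟩ := hTm.1 hb
        exact absurd h2 (by simp)
    · obtain ⟨n, -, rfl⟩ := hTm.1 ha
      exact absurd h1 (by simp)
  · intro a ha b hb h1 h2 h3
    rcases Finset.mem_union.1 ha with ha | ha
    · rcases Finset.mem_union.1 hb with hb | hb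
      · exact hs.last a ha b hb h1 h2 h3
      · obtain ⟨n, -, rfl⟩ := hTm.1 hb
        exact absurd h2 (by simp)
    · obtain ⟨n, -, rfl⟩ := hTm.1 ha
      exact absurd h1 (by simp)
  · intro a ha b hb h1 h2 h3
    rcases Finset.mem_union.1 ha with ha | ha <;> rcases Finset.mem_union.1 hb with hb | hb
    · exact hs.cls a ha b hb h1 h2 h3
    · obtain ⟨n, -, rfl⟩ := hTm.1 hb
      exact (hws a ha h1 h3).elim
    · obtain ⟨n, -, rfl⟩ := hTm.1 ha
      exact (hws b hb h2 h3.symm).elim
    · obtain ⟨n, -, rfl⟩ := hTm.1 ha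
      obtain ⟨n', -, rfl⟩ := hTm.1 hb
      rfl
  · intro v hv j hj
    rw [hcard] at hj
    rw [hp, Finset.mem_insert] at hv
    rcases hv with rfl | hv
    · exact ⟨_, Finset.mem_union_right _ (hTm.2 ⟨j, hj, rfl⟩), rfl, rfl, rfl⟩
    · rcases Nat.lt_succ_iff_lt_or_eq.1 hj with hj | rfl
      · obtain ⟨a, ha, h⟩ := hs.len v hv j hj
        exact ⟨a, Finset.mem_union_left _ ha, h⟩
      · obtain ⟨a, ha, h⟩ := hd v hv
        exact ⟨a, Finset.mem_union_left _ ha, h⟩
  · intro S i τ j h
    have hs' : Cons s (S.erase w) i τ (j + 1) := by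
      intro v hv l hl
      obtain ⟨hvw, hvS⟩ := Finset.mem_erase.1 hv
      obtain ⟨a, ha, h1, h2, h3⟩ := h v hvS l hl
      rcases Finset.mem_union.1 ha with ha | ha
      · exact ⟨a, ha, h1, h2, h3⟩
      · obtain ⟨n, -, rfl⟩ := hTm.1 ha
        exact (hvw h2.symm).elim
    have hiw : w ∈ S → i w = c := by
      intro hwS
      obtain ⟨a, ha, h1, h2, -, h3, -⟩ := h w hwS 0 (Nat.succ_pos _)
      rcases Finset.mem_union.1 ha with ha | ha
      · exact (hws a ha h1 h2).elim
      · obtain ⟨n, -, rfl⟩ := hTm.1 ha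
        exact h3.symm
    have hiv : ∀ v ∈ S, v ≠ w → i v ≠ c := by
      intro v hv hvw
      obtain ⟨a, ha, h1, h2, -, h3, -⟩ := hs' v (Finset.mem_erase.2 ⟨hvw, hv⟩) 0 (Nat.succ_pos _)
      rw [← h3]
      exact hc a ha h1
    refine le_trans (Finset.card_le_card ?_) (hs.edge (S.erase w) i τ j hs')
    intro x hx
    rw [mem_edges] at hx ⊢
    obtain ⟨v, hv, ⟨u, hu, h1, h2, h3⟩, rfl⟩ := hx
    have hvw : v ≠ w := by
      rintro rfl
      rw [hiw hv] at h1
      by_cases huv : u = v
      · subst huv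
        exact h3 rfl
      · exact hiv u hu huv h1
    have huw : u ≠ w := by
      rintro rfl
      rw [hiw hu] at h1
      exact hiv v hv hvw h1.symm
    exact ⟨v, Finset.mem_erase.2 ⟨hvw, hv⟩, ⟨u, Finset.mem_erase.2 ⟨huw, hu⟩, h1, h2, h3⟩, rfl⟩

/-- The set of the data of the atoms with the point `w`. -/
noncomputable def dats (s : Finset (LAtom W)) (w : W) : Finset LDat :=
  (s.filter fun a => a.pt = w).image LAtom.dat

theorem mem_dats {s : Finset (LAtom W)} {w : W} {d : LDat} :
    d ∈ dats s w ↔ ∃ a ∈ s, a.pt = w ∧ a.dat = d := by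
  unfold dats
  rw [Finset.mem_image]
  constructor
  · rintro ⟨a, ha, h⟩
    obtain ⟨h1, h2⟩ := Finset.mem_filter.1 ha
    exact ⟨a, h1, h2, h⟩
  · rintro ⟨a, ha, h1, h⟩
    exact ⟨a, Finset.mem_filter.2 ⟨ha, h1⟩, h⟩

/-- Partner of an atom. -/
theorem dats_partner {s t : Finset (LAtom W)} {v w : W} (h : dats s v = dats t w) {b : LAtom W}
    (hb : b ∈ t) (hbw : b.pt = w) : ∃ a ∈ s, a.pt = v ∧ a.dat = b.dat := by
  have h1 : b.dat ∈ dats t w := mem_dats.2 ⟨b, hb, hbw, rfl⟩
  rw [← h] at h1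
  exact mem_dats.1 h1

theorem dat_eq {a b : LAtom W} (h : a.dat = b.dat) : a.kind = b.kind ∧ a.lev = b.lev ∧
    a.node = b.node ∧ a.cls = b.cls ∧ a.col = b.col := by
  simp only [LAtom.dat, Prod.mk.injEq] at h
  exact ⟨h.1, h.2.1, h.2.2.1, h.2.2.2.1, h.2.2.2.2.1⟩

/-- The union of two sets of atoms with the same pattern. -/
theorem lv_union {s t : Finset (LAtom W)} (hs : LV rho N s) (ht : LV rho N t)
    (hu : ∀ a ∈ s, ∀ b ∈ t, a.pt = b.pt → a ∈ t ∧ b ∈ s)
    (h1 : ∀ b ∈ t, ∃ v, dats s v = dats t b.pt) (h2 : ∀ a ∈ s, ∃ v, dats t v = dats s a.pt)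
    (hcard : (pts s).card = (pts t).card)
    (hs2 : ∀ w ∈ pts s, ∀ n < 2 * (pts s).card, ∃ a ∈ s, a.kind = true ∧ a.pt = w ∧ a.lev = n)
    (ht2 : ∀ w ∈ pts t, ∀ n < 2 * (pts t).card, ∃ a ∈ t, a.kind = true ∧ a.pt = w ∧ a.lev = n) :
    LV rho N (s ∪ t) := by
  refine ⟨?_, ?_, ?_, ?_, ?_, ?_, ?_, ?_, ?_⟩
  · intro a ha
    rcases Finset.mem_union.1 ha with ha | ha
    · exact hs.val a ha
    · exact ht.val a ha
  · intro a ha b hb g1 g2 g3
    rcases Finset.mem_union.1 ha with ha | ha <;> rcases Finset.mem_union.1 hb with hb | hb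
    · exact hs.uniq a ha b hb g1 g2 g3
    · exact hs.uniq a ha b (hu a ha b hb g2).2 g1 g2 g3
    · exact hs.uniq a (hu b hb a ha g2.symm).2 b hb g1 g2 g3
    · exact ht.uniq a ha b hb g1 g2 g3
  · intro a ha h
    rcases Finset.mem_union.1 ha with ha | ha
    · exact hs.zero a ha h
    · exact ht.zero a ha h
  · intro a ha h
    rcases Finset.mem_union.1 ha with ha | ha
    · exact hs.pref a ha h
    · exact ht.pref a ha h
  · intro a ha b hb g1 g2 g3
    rcases Finset.mem_union.1 ha with ha | ha <;> rcases Finset.mem_union.1 hb with hb | hb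
    · exact hs.col a ha b hb g1 g2 g3
    · obtain ⟨v, hv⟩ := h1 b hb
      obtain ⟨b', hb', -, e⟩ := dats_partner hv hb rfl
      obtain ⟨e1, -, e3, -, e5⟩ := dat_eq e
      rw [← e5]
      exact hs.col a ha b' hb' g1 (e1.trans g2) (g3.trans e3.symm)
    · obtain ⟨v, hv⟩ := h1 a ha
      obtain ⟨a', ha', -, e⟩ := dats_partner hv ha rfl
      obtain ⟨e1, -, e3, -, e5⟩ := dat_eq e
      rw [← e5]
      exact hs.col a' ha' b hb (e1.trans g1) g2 (e3.trans g3)
    · exact ht.col a ha b hb g1 g2 g3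
  · intro a ha b hb g1 g2 g3
    rcases Finset.mem_union.1 ha with ha | ha <;> rcases Finset.mem_union.1 hb with hb | hb
    · exact hs.last a ha b hb g1 g2 g3
    · obtain ⟨v, hv⟩ := h1 b hb
      obtain ⟨b', hb', -, e⟩ := dats_partner hv hb rfl
      obtain ⟨e1, -, e3, -, -⟩ := dat_eq e
      rw [← e3]
      rw [← e3] at g3
      exact hs.last a ha b' hb' g1 (e1.trans g2) g3
    · obtain ⟨v, hv⟩ := h2 b hb
      obtain ⟨b', hb', -, e⟩ := dats_partner hv hb rfl
      obtain ⟨e1, -, e3, -, -⟩ := dat_eq e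
      rw [← e3]
      rw [← e3] at g3
      exact ht.last a ha b' hb' g1 (e1.trans g2) g3
    · exact ht.last a ha b hb g1 g2 g3
  · intro a ha b hb g1 g2 g3
    rcases Finset.mem_union.1 ha with ha | ha <;> rcases Finset.mem_union.1 hb with hb | hb
    · exact hs.cls a ha b hb g1 g2 g3
    · exact hs.cls a ha b (hu a ha b hb g3).2 g1 g2 g3
    · exact hs.cls a (hu b hb a ha g3.symm).2 b hb g1 g2 g3
    · exact ht.cls a ha b hb g1 g2 g3
  · intro w hw n hn
    have hle : (pts (s ∪ t)).card ≤ 2 * (pts s).card := by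
      rw [pts_union, two_mul]
      refine (Finset.card_union_le _ _).trans ?_
      rw [← hcard]
    rw [pts_union, Finset.mem_union] at hw
    rcases hw with hw | hw
    · obtain ⟨a, ha, h⟩ := hs2 w hw n (hn.trans_le hle)
      exact ⟨a, Finset.mem_union_left _ ha, h⟩
    · obtain ⟨a, ha, h⟩ := ht2 w hw n (by rw [← hcard]; exact hn.trans_le hle)
      exact ⟨a, Finset.mem_union_right _ ha, h⟩
  · intro S i τ n h
    -- a representative in `s` for every point of `S`
    have hrep : ∀ w ∈ S, ∃ v, ∀ k < n + 1, ∃ a ∈ s, a.kind = true ∧ a.pt = v ∧ a.lev = k ∧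
        a.cls = i w ∧ a.col = τ w k := by
      intro w hw
      by_cases hws : ∃ a ∈ s, a.pt = w
      · obtain ⟨a0, ha0, hp0⟩ := hws
        refine ⟨w, fun k hk => ?_⟩
        obtain ⟨a, ha, g1, g2, g3⟩ := h w hw k hk
        rcases Finset.mem_union.1 ha with ha | ha
        · exact ⟨a, ha, g1, g2, g3⟩
        · exact ⟨a, (hu a0 ha0 a ha (hp0.trans g2.symm)).2, g1, g2, g3⟩
      · obtain ⟨b, hb, -, g2, -⟩ := h w hw 0 (Nat.succ_pos n)
        have hbt : b ∈ t := by
          rcases Finset.mem_union.1 hb with hb | hb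
          · exact (hws ⟨b, hb, g2⟩).elim
          · exact hb
        obtain ⟨v, hv⟩ := h1 b hbt
        refine ⟨v, fun k hk => ?_⟩
        obtain ⟨a, ha, f1, f2, f3, f4, f5⟩ := h w hw k hk
        have hat : a ∈ t := by
          rcases Finset.mem_union.1 ha with ha | ha
          · exact (hws ⟨a, ha, f2⟩).elim
          · exact ha
        obtain ⟨a', ha', e0, e⟩ := dats_partner hv hat (f2.trans g2.symm)
        obtain ⟨e1, e2, -, e4, e5⟩ := dat_eq e
        exact ⟨a', ha', e1.trans f1, e0, e2.trans f3, e4.trans f4, e5.trans f5⟩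
    choose! f hf using hrep
    set g : W → W := fun v => if hv : ∃ w ∈ S, f w = v then hv.choose else v with hg
    have hgS : ∀ v ∈ S.image f, g v ∈ S ∧ f (g v) = v := by
      intro v hv
      obtain ⟨w, hw, rfl⟩ := Finset.mem_image.1 hv
      have hex : ∃ w' ∈ S, f w' = f w := ⟨w, hw, rfl⟩
      have : g (f w) = hex.choose := by
        rw [hg]
        exact dif_pos hex
      rw [this]
      exact hex.choose_spec
    have hcons : Cons s (S.image f) (fun v => i (g v)) (fun v => τ (g v)) (n + 1) := by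
      intro v hv k hk
      obtain ⟨h3, h4⟩ := hgS v hv
      obtain ⟨a, ha, g1, g2, g3⟩ := hf (g v) h3 k hk
      exact ⟨a, ha, g1, g2.trans h4, g3⟩
    refine le_trans (Finset.card_le_card (edges_subset ?_)) (hs.edge _ _ _ n hcons)
    intro w hw
    have hv : f w ∈ S.image f := Finset.mem_image_of_mem f hw
    obtain ⟨h3, h4⟩ := hgS (f w) hv
    refine ⟨f w, hv, ?_, fun k hk => ?_⟩
    · obtain ⟨a, ha, a1, a2, -, a4, -⟩ := hf w hw 0 (Nat.succ_pos n)
      obtain ⟨b, hb, b1, b2, -, b4, -⟩ := hf (g (f w)) h3 0 (Nat.succ_pos n)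
      rw [← a4, ← b4]
      exact hs.cls b hb a ha b1 a1 (by rw [b2, a2, h4])
    · obtain ⟨a, ha, a1, a2, a3, -, a5⟩ := hf w hw k (Nat.lt_succ_of_le hk)
      obtain ⟨b, hb, b1, b2, b3, -, b5⟩ := hf (g (f w)) h3 k (Nat.lt_succ_of_le hk)
      have e : b = a := hs.uniq b hb a ha (b1.trans a1.symm) (by rw [b2, a2, h4])
        (b3.trans a3.symm)
      rw [← a5, ← b5, e]

end M3
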