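import Pool.Agent.H.MP_8ff4bd_gt.M3.NO

/-!
# The negative model for general neighbourhood filters

The argument of `NO.lean` only uses the following consequence of continuity: every Cohen partition
subgroup contains the image of a set `kap` which contains all sums of two pairs of equally coloured
generators.
-/

set_option autoImplicit false

namespace M3

open Classical H98m

theorem ind_four {W : Type} {x : Finset W} {a b c d : W} (hab : a ≠ b) (hac : a ≠ c)
    (had : a ≠ d) (hbc : b ≠ c) (hbd : b ≠ d) (hcd : c ≠ d) (hx : x = {a, b, c, d}) :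
    ind x = (Finsupp.single a 1 - Finsupp.single b 1) +
      (Finsupp.single c 1 - Finsupp.single d 1) := by
  have hneg : ∀ a : W, (Finsupp.single a 1 : W →₀ ZMod 2) = - Finsupp.single a 1 := by
    intro a
    rw [← Finsupp.single_neg]
    congr 1
  rw [hx, ind, Finset.sum_insert (by simp [hab, hac, had]), Finset.sum_insert
    (by simp [hbc, hbd]), Finset.sum_pair hcd, sub_eq_add_neg, sub_eq_add_neg, ← hneg b,
    ← hneg d]
  abel

/-- What the negative model needs from continuity. -/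
theorem noCont {F : (W1 →₀ ZMod 2) → (W1 →₀ ZMod 3) → BCohen} {p : BCohen} (hp : p ≠ ⊥)
    (hpB : p ≤ bBij F) (y0 : W1 →₀ ZMod 3)
    (hcont : ∀ i, ∀ p' ≤ p, p' ≠ ⊥ → ∃ p2 ≤ p', p2 ≠ ⊥ ∧
      ∃ (kap : (W1 →₀ ZMod 2) → BCohen) (C : W1 → ℕ → BCohen), (∀ a, p2 ≤ ⨆ n, C a n) ∧
        (∀ (a b c d : W1) (m n : ℕ), p2 ⊓ (C a m ⊓ C b m ⊓ (C c n ⊓ C d n)) ≤
          kap ((Finsupp.single a 1 - Finsupp.single b 1) +
            (Finsupp.single c 1 - Finsupp.single d 1))) ∧
        (∀ z w, p2 ⊓ (kap z ⊓ F z w) ≤ lamB i (w - y0))) : False := by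
  have htotal : ∀ x, bBij F ≤ ⨆ y, F x y := fun x =>
    (inf_le_left.trans inf_le_left).trans (iInf_le _ x)
  have hinj : ∀ y x x', x ≠ x' → bBij F ≤ (F x y ⊓ F x' y)ᶜ := fun y x x' hx =>
    (inf_le_right.trans inf_le_right).trans
      ((iInf_le _ y).trans ((iInf_le _ x).trans ((iInf_le _ x').trans (iInf_le _ hx))))
  refine noModel (denseEmb (Set W1 × W1)) W1_uncountable W1_blocks
    (fun x h => F (ind x) (h + y0)) p hp ?_ ?_ ?_
  · intro x
    refine (hpB.trans (htotal (ind x))).trans ?_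
    refine iSup_le fun y => ?_
    refine le_iSup_of_le (y - y0) ?_
    simp
  · intro x x' h hx
    have h1 := hpB.trans (hinj (h + y0) (ind x) (ind x') (fun h => hx (ind_injective h)))
    rw [inf_assoc]
    rw [← le_bot_iff]
    calc p ⊓ (F (ind x) (h + y0) ⊓ F (ind x') (h + y0))
        ≤ (F (ind x) (h + y0) ⊓ F (ind x') (h + y0))ᶜ ⊓
          (F (ind x) (h + y0) ⊓ F (ind x') (h + y0)) := inf_le_inf_right _ h1
      _ = ⊥ := by rw [compl_inf_eq_bot]
      _ ≤ ⊥ := le_rfl
  · intro i p' hp' hne'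
    obtain ⟨p2, hp2, hne2, kap, C, hC1, hC2, hC3⟩ := hcont i p' hp' hne'
    refine ⟨p2, hp2, hne2, C, hC1, ?_⟩
    intro x c hc h g n hsum
    rw [← le_bot_iff]
    obtain ⟨a1, a2, a3, a4, h12, h13, h14, h23, h24, h34, hx, e1, e2⟩ := hc
    have hxi := ind_four h12 h13 h14 h23 h24 h34 hx
    have hk : p2 ⊓ (⨅ a ∈ x, C a (c a)) ≤ kap (ind x) := by
      rw [hxi]
      refine le_trans ?_ (hC2 a1 a2 a3 a4 (c a1) (c a3))
      refine inf_le_inf_left _ (le_inf (le_inf ?_ ?_) (le_inf ?_ ?_))
      · exact iInf₂_le a1 (by rw [hx]; simp)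
      · rw [e1]; exact iInf₂_le a2 (by rw [hx]; simp)
      · exact iInf₂_le a3 (by rw [hx]; simp)
      · rw [e2]; exact iInf₂_le a4 (by rw [hx]; simp)
    have hl : p2 ⊓ (⨅ a ∈ x, C a (c a)) ⊓ F (ind x) (h + y0) ≤ lamB i h := by
      have h1 := hC3 (ind x) (h + y0)
      rw [add_sub_cancel_right] at h1
      refine le_trans ?_ h1
      exact le_inf (inf_le_left.trans inf_le_left) (le_inf (inf_le_left.trans hk) inf_le_right)
    -- contradiction with the values `g`
    refine (inf_le_inf_right _ hl).trans ?_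
    intro q hq
    exfalso
    rw [RO.forces_inf] at hq
    obtain ⟨hq1, hq2⟩ := hq
    simp only [RO.forces_iInf] at hq2
    -- extend so that the values are in the domain
    obtain ⟨s, hs, hd, -, -⟩ := exists_dec₂ i q h h h
    have hval : ∀ a ∈ h.support, s.val (i, a) = g a := by
      intro a ha
      have h1 := (hq2 a ha).mono hs
      obtain ⟨t, hts, ht⟩ := RO.forces_ι.1 h1 s le_rfl
      have h2 := hts.2 _ (hd a ha)
      have h3 := ht.2 (i, a) (by simp [single])
      rw [← h2, h3]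
      rfl
    have hz := (forces_vecVal_of_dec i hd).1 (hq1.mono hs)
    have hz' := DFunLike.congr_fun hz n
    rw [vec_apply] at hz'
    apply hsum
    rw [Finsupp.zero_apply] at hz'
    rw [← hz']
    refine Finset.sum_congr ?_ fun _ _ => rfl
    refine Finset.filter_congr fun a ha => ?_
    rw [hval a ha]

end M3
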