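import Pool.Agent.H.MP_8ff4bd_gt.M3.Ground

/-!
# Elementary facts on node sums and last nodes
-/

namespace M3

section nsum

variable {W A : Type} (rho : W → ℕ → Bool)

theorem pre_length (x : W) (k : ℕ) : (pre rho x k).length = k := by
  simp [pre]

theorem pre_zero (x : W) : pre rho x 0 = [] := by
  simp [pre]

theorem pre_eq_iff (x y : W) (k : ℕ) : pre rho x k = pre rho y k ↔ ∀ i < k, rho x i = rho y i := by
  unfold pre
  rw [List.ofFn_inj]
  constructor
  · intro h i hi
    exact congrFun h ⟨i, hi⟩
  · intro h
    funext i
    exact h i.1 i.2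

theorem take_pre (x : W) (k l : ℕ) (h : l ≤ k) : (pre rho x k).take l = pre rho x l := by
  apply List.ext_getElem
  · simp [pre, h]
  · intro i h1 h2
    simp [pre]

theorem take_pre' (x : W) (k l : ℕ) (h : k ≤ l) : (pre rho x k).take l = pre rho x k := by
  apply List.take_of_length_le
  rw [pre_length]; exact h

variable [AddCommGroup A]

theorem nsum_eq_sum (g : W →₀ A) (s : List Bool) [DecidablePred fun x => pre rho x s.length = s] :
    nsum rho g s = g.sum (fun x v => if pre rho x s.length = s then v else 0) := by
  classical
  rw [nsum, Finsupp.sum, Finset.sum_filter]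
  refine Finset.sum_congr rfl fun x _ => ?_
  congr

theorem nsum_add (g g' : W →₀ A) (s : List Bool) :
    nsum rho (g + g') s = nsum rho g s + nsum rho g' s := by
  classical
  rw [nsum_eq_sum, nsum_eq_sum, nsum_eq_sum]
  apply Finsupp.sum_add_index'
  · intro x; simp
  · intro x v w
    by_cases h : pre rho x s.length = s
    · simp [h]
    · simp [h]

theorem nsum_zero (s : List Bool) : nsum rho (0 : W →₀ A) s = 0 := by
  classical
  rw [nsum_eq_sum]; simp

theorem nsum_neg (g : W →₀ A) (s : List Bool) : nsum rho (-g) s = - nsum rho g s := by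
  have h := nsum_add rho g (-g) s
  rw [add_neg_cancel, nsum_zero] at h
  exact (neg_eq_of_add_eq_zero_right h.symm).symm

theorem nsum_sub (g g' : W →₀ A) (s : List Bool) :
    nsum rho (g - g') s = nsum rho g s - nsum rho g' s := by
  rw [sub_eq_add_neg, nsum_add, nsum_neg, ← sub_eq_add_neg]

theorem nsum_eq_of_subset [DecidableEq W] (g : W →₀ A) (s : List Bool) (S : Finset W)
    (hS : g.support ⊆ S) [DecidablePred fun x => pre rho x s.length = s] :
    nsum rho g s = ∑ x ∈ S.filter (fun x => pre rho x s.length = s), g x := by
  classical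
  rw [nsum_eq_sum, Finsupp.sum, Finset.sum_filter]
  refine Finset.sum_subset hS fun x _ hx => ?_
  rw [Finsupp.notMem_support_iff.mp hx]; simp

end nsum

/-- A sum over a set which is a union of fibres of `κ` vanishes if the sums over the fibres
vanish. -/
theorem sum_eq_zero_of_fibers {W A K : Type} [AddCommGroup A] [DecidableEq K] (U : Finset W)
    (κ : W → K) (v : W → A)
    (h : ∀ y ∈ U, ∑ x ∈ U.filter (fun x => κ x = κ y), v x = 0) : ∑ x ∈ U, v x = 0 := by
  classical
  rw [← Finset.sum_fiberwise_of_maps_to (s := U) (t := U.image κ) (g := κ)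
    (fun x hx => Finset.mem_image_of_mem κ hx)]
  refine Finset.sum_eq_zero fun k hk => ?_
  obtain ⟨y, hy, rfl⟩ := Finset.mem_image.mp hk
  exact h y hy

/-- Sums over all points through the last node of a point vanish for all points, then so do the
sums over all points with the same last node. -/
theorem last_sum_eq_zero {W A : Type} [AddCommGroup A] [DecidableEq W] (rho : W → ℕ → Bool)
    (S : Finset W) (k : W → ℕ) (v : W → A)
    (hP : ∀ x ∈ S, ∀ y ∈ S, pre rho x (k y) = pre rho y (k y) → k y ≤ k x)
    (h0 : ∀ y ∈ S, ∑ x ∈ S.filter (fun x => pre rho x (k y) = pre rho y (k y)), v x = 0) :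
    ∀ y ∈ S, ∑ x ∈ S.filter (fun x => pre rho x (k x) = pre rho y (k y)), v x = 0 := by
  classical
  -- strong induction on `N - k y`
  obtain ⟨N, hN⟩ : ∃ N, ∀ x ∈ S, k x ≤ N := ⟨S.sup k, fun x hx => Finset.le_sup hx⟩
  have main : ∀ n, ∀ y ∈ S, N - k y ≤ n →
      ∑ x ∈ S.filter (fun x => pre rho x (k x) = pre rho y (k y)), v x = 0 := by
    intro n
    induction n with
    | zero =>
      intro y hy hn
      have hky : k y = N := by have := hN y hy; omega
      rw [← h0 y hy]
      refine Finset.sum_congr (Finset.filter_congr fun x hx => ?_) fun _ _ => rfl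
      constructor
      · intro h
        have hl := congrArg List.length h
        rw [pre_length, pre_length] at hl
        rw [← hl]; rw [hl] at h ⊢; exact h
      · intro h
        have h1 := hP x hx y hy h
        have h2 : k x = k y := by have := hN x hx; omega
        rw [h2]; exact h
    | succ n ih =>
      intro y hy hn
      set U := S.filter (fun x => pre rho x (k y) = pre rho y (k y)) with hU
      have e1 : ∑ x ∈ U, v x = 0 := h0 y hy
      have e2 : ∑ x ∈ U, v x = ∑ x ∈ U.filter (fun x => k x = k y), v x +
          ∑ x ∈ U.filter (fun x => ¬ k x = k y), v x := by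
        rw [Finset.sum_filter_add_sum_filter_not]
      have e3 : ∑ x ∈ U.filter (fun x => ¬ k x = k y), v x = 0 := by
        refine sum_eq_zero_of_fibers _ (fun x => pre rho x (k x)) v fun y' hy' => ?_
        rw [Finset.mem_filter, hU, Finset.mem_filter] at hy'
        obtain ⟨⟨hy'S, hy'p⟩, hy'k⟩ := hy'
        have hlt : k y < k y' := by
          have := hP y' hy'S y hy hy'p
          omega
        rw [← ih y' hy'S (by have := hN y' hy'S; omega)]
        refine Finset.sum_congr ?_ fun _ _ => rfl
        ext x
        rw [Finset.mem_filter, Finset.mem_filter, hU, Finset.mem_filter, Finset.mem_filter]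
        constructor
        · rintro ⟨⟨⟨hx, _⟩, _⟩, h⟩; exact ⟨hx, h⟩
        · rintro ⟨hx, h⟩
          have hk : k x = k y' := by
            have hl := congrArg List.length h
            rwa [pre_length, pre_length] at hl
          refine ⟨⟨⟨hx, ?_⟩, by omega⟩, h⟩
          rw [← hy'p, ← take_pre rho x (k x) (k y) (by omega), h, take_pre rho y' (k y') (k y)
            hlt.le]
      rw [e2, e3, add_zero] at e1
      rw [← e1]
      refine Finset.sum_congr ?_ fun _ _ => rfl
      ext x
      rw [Finset.mem_filter, Finset.mem_filter, hU, Finset.mem_filter]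
      constructor
      · rintro ⟨hx, h⟩
        have hk : k x = k y := by
          have hl := congrArg List.length h
          rwa [pre_length, pre_length] at hl
        refine ⟨⟨hx, ?_⟩, hk⟩
        rw [← h, hk]
      · rintro ⟨⟨hx, h⟩, hk⟩
        refine ⟨hx, ?_⟩
        rw [hk]; exact h
  intro y hy
  exact main _ y hy le_rfl

end M3
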