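import Mathlib

/-!
# Delta-systems and the countable chain condition for finite functions into `ℕ`

Part of the treatment of `MP_8ff4bd_gt` (negative model). Everything here is elementary.
-/

set_option autoImplicit false

namespace H98m

open Classical

universe u v w

/-- Countable colourings of an uncountable set are constant on an uncountable subset. -/
theorem pigeon {A : Type u} {C : Type v} [Countable C] (S : Set A) (hS : ¬ S.Countable)
    (f : A → C) : ∃ c, ¬ {a | a ∈ S ∧ f a = c}.Countable := by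
  by_contra h
  push Not at h
  apply hS
  have : S ⊆ ⋃ c, {a | a ∈ S ∧ f a = c} := by
    intro a ha
    exact Set.mem_iUnion.2 ⟨f a, ha, rfl⟩
  exact (Set.countable_iUnion h).mono this

/-- The Delta-system lemma for uncountable families of finite sets of a fixed size. -/
theorem delta_card {A : Type u} {K : Type v} (n : ℕ) :
    ∀ (S : Set A) (D : A → Finset K), ¬ S.Countable → (∀ a ∈ S, (D a).card = n) →
      ∃ T, T ⊆ S ∧ ¬ T.Countable ∧ ∃ R : Finset K, ∀ a ∈ T, ∀ b ∈ T, a ≠ b → D a ∩ D b = R := by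
  induction n with
  | zero =>
    intro S D hS hc
    refine ⟨S, subset_rfl, hS, ∅, ?_⟩
    intro a ha b _ _
    have : D a = ∅ := Finset.card_eq_zero.1 (hc a ha)
    simp [this]
  | succ n ih =>
    intro S D hS hc
    by_cases hk : ∃ k, ¬ {a | a ∈ S ∧ k ∈ D a}.Countable
    · obtain ⟨k, hk⟩ := hk
      obtain ⟨T, hTS, hT, R, hR⟩ := ih {a | a ∈ S ∧ k ∈ D a} (fun a => (D a).erase k) hk (by
        rintro a ⟨ha, hka⟩
        rw [Finset.card_erase_of_mem hka, hc a ha]
        rfl)
      refine ⟨T, fun a ha => (hTS ha).1, hT, insert k R, ?_⟩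
      intro a ha b hb hab
      have h1 := hR a ha b hb hab
      have hka := (hTS ha).2
      have hkb := (hTS hb).2
      rw [← h1]
      ext c
      by_cases hck : c = k
      · subst hck
        simp [hka, hkb]
      · simp [hck]
    · push Not at hk
      -- a maximal subset with pairwise disjoint sets
      obtain ⟨T, hT⟩ := zorn_subset {T : Set A | T ⊆ S ∧ T.PairwiseDisjoint D} (by
        intro c hc hchain
        refine ⟨⋃₀ c, ⟨?_, ?_⟩, fun s hs => Set.subset_sUnion_of_mem hs⟩
        · exact Set.sUnion_subset fun s hs => (hc hs).1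
        · exact (Set.pairwise_sUnion hchain.directedOn).2 fun s hs => (hc hs).2)
      have hTmem : T ⊆ S ∧ T.PairwiseDisjoint D := hT.prop
      refine ⟨T, hTmem.1, ?_, ∅, ?_⟩
      · intro hTc
        apply hS
        have hsub : S ⊆ T ∪ ⋃ b ∈ T, ⋃ k ∈ D b, {a | a ∈ S ∧ k ∈ D a} := by
          intro a ha
          by_cases haT : a ∈ T
          · exact Or.inl haT
          right
          by_contra hnot
          have hmem : insert a T ∈ {T : Set A | T ⊆ S ∧ T.PairwiseDisjoint D} := by
            refine ⟨Set.insert_subset ha hTmem.1, ?_⟩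
            refine Set.PairwiseDisjoint.insert hTmem.2 ?_
            intro b hb _
            rw [Finset.disjoint_left]
            intro k hka hkb
            apply hnot
            simp only [Set.mem_iUnion]
            exact ⟨b, hb, k, hkb, ha, hka⟩
          have := hT.eq_of_subset hmem (Set.subset_insert a T)
          exact haT (this ▸ Set.mem_insert a T)
        refine Set.Countable.mono hsub ?_
        refine hTc.union ?_
        refine hTc.biUnion ?_
        intro b _
        exact (D b).countable_toSet.biUnion fun k _ => hk k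
      · intro a ha b hb hab
        exact Finset.disjoint_iff_inter_eq_empty.1 (hTmem.2 ha hb hab)

/-- The Delta-system lemma for uncountable families of finite sets. -/
theorem delta {A : Type u} {K : Type v} (S : Set A) (D : A → Finset K) (hS : ¬ S.Countable) :
    ∃ T, T ⊆ S ∧ ¬ T.Countable ∧ ∃ R : Finset K, ∀ a ∈ T, ∀ b ∈ T, a ≠ b → D a ∩ D b = R := by
  obtain ⟨n, hn⟩ := pigeon S hS (fun a => (D a).card)
  obtain ⟨T, hT, hTc, R, hR⟩ := delta_card n _ D hn (fun a ha => ha.2)
  exact ⟨T, fun a ha => (hT ha).1, hTc, R, hR⟩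

/-- Functions with finite domain in `K` and values in `ℕ`; values outside `dom` are irrelevant. -/
structure Cond (K : Type v) where
  /-- the domain -/
  dom : Finset K
  /-- the values -/
  val : K → ℕ

/-- `q` extends `p`. -/
def Ext {K : Type v} (q p : Cond K) : Prop := p.dom ⊆ q.dom ∧ ∀ k ∈ p.dom, q.val k = p.val k

/-- `p` and `q` agree on the common part of their domains. -/
def Compat {K : Type v} (p q : Cond K) : Prop := ∀ k ∈ p.dom, k ∈ q.dom → p.val k = q.val k

/-- The condition with one element in its domain. -/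
def single {K : Type v} (k : K) (n : ℕ) : Cond K := ⟨{k}, fun _ => n⟩

section basics
variable {K : Type v} {p q r s : Cond K}

theorem Ext.refl (p : Cond K) : Ext p p := ⟨subset_rfl, fun _ _ => rfl⟩

theorem Ext.trans (h : Ext r q) (h' : Ext q p) : Ext r p :=
  ⟨h'.1.trans h.1, fun k hk => (h.2 k (h'.1 hk)).trans (h'.2 k hk)⟩

theorem Compat.symm (h : Compat p q) : Compat q p := fun k hk hk' => (h k hk' hk).symm

/-- Union of two conditions (values of the first one win). -/
noncomputable def un (p q : Cond K) : Cond K :=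
  ⟨p.dom ∪ q.dom, fun k => if k ∈ p.dom then p.val k else q.val k⟩

theorem mem_un {k : K} : k ∈ (un p q).dom ↔ k ∈ p.dom ∨ k ∈ q.dom := by
  simp [un]

theorem ext_un_left (p q : Cond K) : Ext (un p q) p :=
  ⟨Finset.subset_union_left, fun k hk => by simp [un, hk]⟩

theorem ext_un_right (h : Compat p q) : Ext (un p q) q :=
  ⟨Finset.subset_union_right, fun k hk => by
    by_cases hp : k ∈ p.dom
    · simp [un, hp, h k hp hk]
    · simp [un, hp]⟩

theorem compat_of_ext (h : Ext r p) (h' : Ext r q) : Compat p q :=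
  fun k hk hk' => (h.2 k hk).symm.trans (h'.2 k hk')

/-- Union of a finite family. -/
noncomputable def bigUn {A : Type u} (s : Finset A) (f : A → Cond K) : Cond K :=
  ⟨s.biUnion fun a => (f a).dom,
    fun k => if h : ∃ a, a ∈ s ∧ k ∈ (f a).dom then (f h.choose).val k else 0⟩

theorem mem_bigUn {A : Type u} {s : Finset A} {f : A → Cond K} {k : K} :
    k ∈ (bigUn s f).dom ↔ ∃ a ∈ s, k ∈ (f a).dom := by
  simp [bigUn]

theorem val_bigUn {A : Type u} {s : Finset A} {f : A → Cond K} {k : K}
    (hk : k ∈ (bigUn s f).dom) : ∃ a ∈ s, k ∈ (f a).dom ∧ (bigUn s f).val k = (f a).val k := by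
  have hex : ∃ a, a ∈ s ∧ k ∈ (f a).dom := mem_bigUn.1 hk
  refine ⟨hex.choose, hex.choose_spec.1, hex.choose_spec.2, ?_⟩
  simp only [bigUn, dif_pos hex]

theorem ext_bigUn_of {A : Type u} {s : Finset A} {f : A → Cond K}
    (h : ∀ a ∈ s, Ext r (f a)) : Ext r (bigUn s f) := by
  refine ⟨?_, ?_⟩
  · intro k hk
    obtain ⟨a, ha, hka⟩ := mem_bigUn.1 hk
    exact (h a ha).1 hka
  · intro k hk
    obtain ⟨a, ha, hka, hv⟩ := val_bigUn hk
    rw [hv, (h a ha).2 k hka]

theorem ext_un_of (h1 : Ext r p) (h2 : Ext r q) : Ext r (un p q) := by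
  refine ⟨?_, ?_⟩
  · intro k hk
    rcases mem_un.1 hk with h | h
    · exact h1.1 h
    · exact h2.1 h
  · intro k hk
    by_cases hp : k ∈ p.dom
    · simp [un, hp, h1.2 k hp]
    · have hq : k ∈ q.dom := (mem_un.1 hk).resolve_left hp
      simp [un, hp, h2.2 k hq]

theorem ext_bigUn {A : Type u} (s : Finset A) (f : A → Cond K)
    (h : ∀ a ∈ s, ∀ b ∈ s, a ≠ b → Compat (f a) (f b)) (a : A) (ha : a ∈ s) :
    Ext (bigUn s f) (f a) := by
  refine ⟨?_, ?_⟩
  · intro k hk
    exact Finset.mem_biUnion.2 ⟨a, ha, hk⟩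
  · intro k hk
    have hex : ∃ a, a ∈ s ∧ k ∈ (f a).dom := ⟨a, ha, hk⟩
    have : (bigUn s f).val k = (f hex.choose).val k := by
      simp only [bigUn, dif_pos hex]
    rw [this]
    by_cases hne : hex.choose = a
    · rw [hne]
    · exact h _ hex.choose_spec.1 _ ha hne k hex.choose_spec.2 hk

end basics

/-- Thinning of an uncountable family of conditions. -/
theorem thin {A : Type u} {K : Type v} {C : Type w} [Countable C] (S : Set A)
    (hS : ¬ S.Countable) (f : A → Cond K) (col : A → C) :
    ∃ T, T ⊆ S ∧ ¬ T.Countable ∧ ∃ (R : Finset K) (c : C), (∀ a ∈ T, R ⊆ (f a).dom) ∧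
      (∀ a ∈ T, col a = c) ∧
      ∀ a ∈ T, ∀ b ∈ T, a ≠ b →
        (∀ k ∈ (f a).dom, k ∈ (f b).dom → k ∈ R) ∧ Compat (f a) (f b) := by
  obtain ⟨T, hTS, hT, R, hR⟩ := delta S (fun a => (f a).dom) hS
  obtain ⟨c, hc⟩ := pigeon T hT
    (fun a => (col a, fun r : R => (f a).val r.1) : A → C × (R → ℕ))
  refine ⟨{a | a ∈ T ∧ (col a, fun r : R => (f a).val r.1) = c}, fun a ha => hTS ha.1, hc, R,
    c.1, ?_, ?_, ?_⟩
  · intro a ha
    -- there is another element
    obtain ⟨b, hb, hba⟩ : ∃ b, b ∈ T ∧ b ≠ a := by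
      by_contra hcon
      push Not at hcon
      apply hT
      exact (Set.countable_singleton a).mono (fun b hb => hcon b hb)
    have := hR a ha.1 b hb (Ne.symm hba)
    rw [← this]
    exact Finset.inter_subset_left
  · intro a ha
    have := congrArg Prod.fst ha.2
    exact this
  · intro a ha b hb hab
    have h1 := hR a ha.1 b hb.1 hab
    refine ⟨fun k hka hkb => by
      rw [← h1]
      exact Finset.mem_inter.2 ⟨hka, hkb⟩, ?_⟩
    intro k hka hkb
    have hkR : k ∈ R := by
      rw [← h1]
      exact Finset.mem_inter.2 ⟨hka, hkb⟩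
    have h2 := congrArg Prod.snd (ha.2.trans hb.2.symm)
    exact congrFun h2 ⟨k, hkR⟩

/-- **Countable chain condition**, indexed version. -/
theorem ccc {A : Type u} {K : Type v} (S : Set A) (f : A → Cond K)
    (h : ∀ a ∈ S, ∀ b ∈ S, a ≠ b → ¬ Compat (f a) (f b)) : S.Countable := by
  by_contra hS
  obtain ⟨T, hTS, hT, R, c, -, -, hR⟩ := thin S hS f (fun _ => ())
  obtain ⟨a, ha, b, hb, hab⟩ : ∃ a ∈ T, ∃ b ∈ T, a ≠ b := by
    by_contra hcon
    push Not at hcon
    apply hT
    rcases T.eq_empty_or_nonempty with h0 | ⟨a, ha⟩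
    · rw [h0]; exact Set.countable_empty
    · exact (Set.countable_singleton a).mono (fun b hb => (hcon a ha b hb).symm)
  exact h a (hTS ha) b (hTS hb) hab (hR a ha b hb hab).2

end H98m
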