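import Pool.Agent.H.MP_8ff4bd_gt.M3.NoDelta

/-!
# The fresh block lemma

Part of the treatment of `MP_8ff4bd_gt` (negative model).
-/

set_option autoImplicit false

namespace H98m

open Classical

universe u v w

variable {K : Type u} {B : Type v} [CompleteBooleanAlgebra B]

/-- `io` embeds the conditions densely into the Boolean algebra `B`. -/
structure DenseEmb (io : Cond K → B) : Prop where
  ne_bot : ∀ p, io p ≠ ⊥
  anti : ∀ p q, Ext q p → io q ≤ io p
  inc : ∀ p q, ¬ Compat p q → io p ⊓ io q = ⊥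
  dense : ∀ b, b ≠ ⊥ → ∃ p, io p ≤ b

namespace DenseEmb

variable {io : Cond K → B} (hd : DenseEmb io)
include hd

theorem compat {p q : Cond K} {b : B} (hb : b ≠ ⊥) (h1 : b ≤ io p) (h2 : b ≤ io q) :
    Compat p q := by
  by_contra h
  exact hb (le_bot_iff.1 ((le_inf h1 h2).trans (hd.inc p q h).le))

/-- Deciding a supremum. -/
theorem decide {X : Type w} {C : X → B} {q : Cond K} (h : io q ≤ ⨆ n, C n) :
    ∃ q' n, Ext q' q ∧ io q' ≤ C n := by
  obtain ⟨n, hn⟩ : ∃ n, io q ⊓ C n ≠ ⊥ := by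
    by_contra hcon
    push Not at hcon
    apply hd.ne_bot q
    have : io q = io q ⊓ ⨆ n, C n := (inf_eq_left.2 h).symm
    rw [this, inf_iSup_eq]
    simp [hcon]
  obtain ⟨s, hs⟩ := hd.dense _ hn
  have hc : Compat q s := hd.compat (hd.ne_bot s) (hs.trans inf_le_left) le_rfl
  exact ⟨un q s, n, ext_un_left q s,
    (hd.anti _ _ (ext_un_right hc)).trans (hs.trans inf_le_right)⟩

end DenseEmb

variable {I : Type u} {W : Type u} {X : Type w} {Y : Type w}

/-- For one value `x` there is a countable set of blocks that suffices. -/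
theorem fresh_one {io : Cond (I × W) → B} (hd : DenseEmb io) (G : Y → B) (p0 : Cond (I × W))
    (tot : io p0 ≤ ⨆ h, G h) :
    ∃ J : Set I, J.Countable ∧ ∀ q, Ext q p0 → ∃ s h, (∀ k ∈ s.dom, k.1 ∈ J) ∧ Compat q s ∧
      io s ≤ G h := by
  let D : Set (Cond (I × W)) := {s | Ext s p0 ∧ ∃ h, io s ≤ G h}
  obtain ⟨T, hT⟩ := zorn_subset
    {T : Set (Cond (I × W)) | T ⊆ D ∧ T.Pairwise (fun a b => ¬ Compat a b)} (by
      intro c hc hchain
      refine ⟨⋃₀ c, ⟨?_, ?_⟩, fun s hs => Set.subset_sUnion_of_mem hs⟩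
      · exact Set.sUnion_subset fun s hs => (hc hs).1
      · exact (Set.pairwise_sUnion hchain.directedOn).2 fun s hs => (hc hs).2)
  have hTm : T ⊆ D ∧ T.Pairwise (fun a b => ¬ Compat a b) := hT.prop
  have hTc : T.Countable := ccc T id fun a ha b hb hab => hTm.2 ha hb hab
  refine ⟨⋃ s ∈ T, (Prod.fst '' (s.dom : Set (I × W))), ?_, ?_⟩
  · exact hTc.biUnion fun s _ => (s.dom.countable_toSet).image _
  · intro q hq
    obtain ⟨q', h, hq', hh⟩ := hd.decide ((hd.anti _ _ hq).trans tot)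
    have hq'D : q' ∈ D := ⟨hq'.trans hq, h, hh⟩
    obtain ⟨s, hs, hc⟩ : ∃ s ∈ T, Compat q' s := by
      by_cases hmem : q' ∈ T
      · exact ⟨q', hmem, fun _ _ _ => rfl⟩
      by_contra hcon
      push Not at hcon
      have hins : insert q' T ∈
          {T : Set (Cond (I × W)) | T ⊆ D ∧ T.Pairwise (fun a b => ¬ Compat a b)} := by
        refine ⟨Set.insert_subset hq'D hTm.1, ?_⟩
        refine hTm.2.insert ?_
        intro b hb _
        exact ⟨hcon b hb, fun h => hcon b hb h.symm⟩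
      have := hT.eq_of_subset hins (Set.subset_insert q' T)
      exact hmem (this ▸ Set.mem_insert q' T)
    obtain ⟨h', hh'⟩ := (hTm.1 hs).2
    refine ⟨s, h', ?_, ?_, hh'⟩
    · intro k hk
      simp only [Set.mem_iUnion]
      exact ⟨s, hs, ⟨k, hk, rfl⟩⟩
    · intro k hk hks
      rw [← hq'.2 k hk]
      exact hc k (hq'.1 hk) hks

/-- **Fresh block lemma.** -/
theorem fresh {io : Cond (I × W) → B} (hd : DenseEmb io)
    (hI : ∀ J : X → Set I, (∀ x, (J x).Countable) → ∃ i, ∀ x, i ∉ J x) (F : X → Y → B)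
    [Nonempty X]
    (p0 : Cond (I × W)) (tot : ∀ x, io p0 ≤ ⨆ h, F x h) :
    ∃ i : I, (∀ a, (i, a) ∉ p0.dom) ∧ ∀ x q, Ext q p0 → ∃ s h, (∀ a, (i, a) ∉ s.dom) ∧
      Compat q s ∧ io s ≤ F x h := by
  choose J hJc hJ using fun x => fresh_one hd (F x) p0 (tot x)
  obtain ⟨i, hi⟩ := hI (fun x => J x ∪ Prod.fst '' (p0.dom : Set (I × W)))
    (fun x => (hJc x).union ((p0.dom.countable_toSet).image _))
  refine ⟨i, ?_, ?_⟩
  · intro a ha
    obtain ⟨x⟩ := ‹Nonempty X›
    exact hi x (Or.inr ⟨(i, a), ha, rfl⟩)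
  · intro x q hq
    obtain ⟨s, h, hs, hc, hle⟩ := hJ x q hq
    exact ⟨s, h, fun a ha => hi x (Or.inl (hs _ ha)), hc, hle⟩

/-- Iterated version for finitely many points. -/
theorem fresh_fin {io : Cond (I × W) → B} (hd : DenseEmb io) {F : X → Y → B}
    {p0 : Cond (I × W)} {i : I}
    (h : ∀ x q, Ext q p0 → ∃ s h, (∀ a, (i, a) ∉ s.dom) ∧ Compat q s ∧ io s ≤ F x h)
    (S : Finset X) (q : Cond (I × W)) (hq : Ext q p0) :
    ∃ s, (∀ a, (i, a) ∉ s.dom) ∧ Compat q s ∧ ∀ x ∈ S, ∃ h, io s ≤ F x h := by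
  induction S using Finset.induction_on with
  | empty =>
    refine ⟨⟨∅, fun _ => 0⟩, by simp, ?_, by simp⟩
    intro k _ hk
    simp at hk
  | insert x S hx ih =>
    obtain ⟨s, hs, hc, hS⟩ := ih
    obtain ⟨s', y, hs', hc', hy⟩ := h x (un q s) ((ext_un_left q s).trans hq)
    have hss' : Compat s s' := by
      intro k hk hk'
      have h1 := (ext_un_right hc).2 k hk
      rw [← h1]
      exact hc' k ((ext_un_right hc).1 hk) hk'
    refine ⟨un s s', ?_, ?_, ?_⟩
    · intro a ha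
      rcases mem_un.1 ha with ha | ha
      · exact hs a ha
      · exact hs' a ha
    · intro k hk hk'
      by_cases hks : k ∈ s.dom
      · simp only [un, hks, if_true]
        exact hc k hk hks
      · simp only [un, hks, if_false]
        have hk2 : k ∈ s'.dom := by
          rcases mem_un.1 hk' with h1 | h1
          · exact absurd h1 hks
          · exact h1
        have h1 := (ext_un_left q s).2 k hk
        rw [← h1]
        exact hc' k ((ext_un_left q s).1 hk) hk2
    · intro x' hx'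
      rcases Finset.mem_insert.1 hx' with h1 | h1
      · subst h1
        exact ⟨y, (hd.anti _ _ (ext_un_right hss')).trans hy⟩
      · obtain ⟨y', hy'⟩ := hS x' h1
        exact ⟨y', (hd.anti _ _ (ext_un_left s s')).trans hy'⟩

end H98m
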