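import Pool.Agent.H.MP_8ff4bd_gt.M3.NoFresh

/-!
# Continuity data at a Cohen block and its first consequences

Part of the treatment of `MP_8ff4bd_gt` (negative model).
-/

set_option autoImplicit false

namespace H98m

open Classical

universe u v w

variable {I : Type u} {W : Type u} {B : Type v} [CompleteBooleanAlgebra B]

/-- `x` consists of two disjoint pairs of points of the same colour. -/
def Paired (x : Finset W) (f : W → ℕ) : Prop :=
  ∃ a b c d : W, a ≠ b ∧ a ≠ c ∧ a ≠ d ∧ b ≠ c ∧ b ≠ d ∧ c ≠ d ∧ x = {a, b, c, d} ∧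
    f a = f b ∧ f c = f d

/-- Below `b` the colouring named by `C` witnesses continuity at `0` of the function named
by `F` with respect to the countable partition given by the Cohen block `i`: if `x` consists of two
pairs of points of the same colour, then the value of the function at `x` has
zero sums over the classes of the block `i`. -/
structure ContAt (io : Cond (I × W) → B) (F : Finset W → (W →₀ ZMod 3) → B) (i : I) (b : B)
    (C : W → ℕ → B) : Prop where
  tot : ∀ a, b ≤ ⨆ n, C a n
  bad : ∀ (x : Finset W) (c : W → ℕ), Paired x c →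
    ∀ (h : W →₀ ZMod 3) (g : W → ℕ) (n : ℕ),
      (∑ a ∈ h.support.filter (fun a => g a = n), h a) ≠ 0 →
      b ⊓ (⨅ a ∈ x, C a (c a)) ⊓ F x h ⊓ (⨅ a ∈ h.support, io (single (i, a) (g a))) = ⊥

theorem ext_single {K : Type u} {Q : Cond K} {k : K} {n : ℕ} (hk : k ∈ Q.dom)
    (hn : Q.val k = n) : Ext Q (single k n) := by
  refine ⟨?_, ?_⟩
  · intro k' hk'
    have : k' = k := by simpa [single] using hk'
    rw [this]; exact hk
  · intro k' hk'
    have : k' = k := by simpa [single] using hk'
    rw [this, hn]
    rfl

/-- The key consequence: if a condition decides everything then the block sums vanish. -/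
theorem ContAt.sum_zero {io : Cond (I × W) → B} (hd : DenseEmb io)
    {F : Finset W → (W →₀ ZMod 3) → B} {i : I} {b : B} {C : W → ℕ → B}
    (hC : ContAt io F i b C) {Q : Cond (I × W)} (hQb : io Q ≤ b) {x : Finset W} {c : W → ℕ}
    (hc : Paired x c)
    (hQc : ∀ a ∈ x, io Q ≤ C a (c a)) {h : W →₀ ZMod 3} (hF : io Q ≤ F x h)
    (hdom : ∀ a ∈ h.support, (i, a) ∈ Q.dom) (n : ℕ) :
    (∑ a ∈ h.support.filter (fun a => Q.val (i, a) = n), h a) = 0 := by
  by_contra hne
  have hb := hC.bad x c hc h (fun a => Q.val (i, a)) n hne
  apply hd.ne_bot Q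
  rw [← le_bot_iff, ← hb]
  refine le_inf (le_inf (le_inf hQb ?_) hF) ?_
  · exact le_iInf₂ fun a ha => hQc a ha
  · exact le_iInf₂ fun a ha => hd.anti _ _ (ext_single (hdom a ha) rfl)

/-- The support of the value is contained in the domain of any condition that decides. -/
theorem ContAt.support {io : Cond (I × W) → B} (hd : DenseEmb io)
    {F : Finset W → (W →₀ ZMod 3) → B} {i : I} {b : B} {C : W → ℕ → B}
    (hC : ContAt io F i b C) {Q : Cond (I × W)} (hQb : io Q ≤ b) {x : Finset W} {c : W → ℕ}
    (hc : Paired x c)
    (hQc : ∀ a ∈ x, io Q ≤ C a (c a)) {h : W →₀ ZMod 3} (hF : io Q ≤ F x h) :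
    ∀ a ∈ h.support, (i, a) ∈ Q.dom := by
  intro a ha
  by_contra hna
  set M := Q.dom.sup Q.val + 1 with hM
  let Q' : Cond (I × W) := ⟨Q.dom ∪ h.support.image (fun a => (i, a)),
    fun k => if k ∈ Q.dom then Q.val k else if k = (i, a) then M else M + 1⟩
  have hQQ : Ext Q' Q := by
    refine ⟨?_, ?_⟩
    · intro k hk
      simp [Q', hk]
    · intro k hk
      simp [Q', hk]
  have hle := hd.anti _ _ hQQ
  have hdom : ∀ a' ∈ h.support, (i, a') ∈ Q'.dom := by
    intro a' ha'
    simp only [Q', Finset.mem_union, Finset.mem_image]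
    exact Or.inr ⟨a', ha', rfl⟩
  have hs := hC.sum_zero hd (hle.trans hQb) hc (fun a ha => hle.trans (hQc a ha))
    (hle.trans hF) hdom M
  have hfilter : h.support.filter (fun a' => Q'.val (i, a') = M) = {a} := by
    ext a'
    simp only [Finset.mem_filter, Finset.mem_singleton]
    constructor
    · rintro ⟨ha', hv⟩
      by_cases h1 : (i, a') ∈ Q.dom
      · have h2 : Q'.val (i, a') = Q.val (i, a') := by simp [Q', h1]
        have h3 : Q.val (i, a') ≤ Q.dom.sup Q.val := Finset.le_sup h1
        omega
      · by_cases h2 : (i, a') = (i, a)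
        · exact (Prod.mk.inj h2).2
        · have h3 : Q'.val (i, a') = M + 1 := by
            simp only [Q', if_neg h1, if_neg h2]
          omega
    · rintro rfl
      refine ⟨ha, ?_⟩
      simp [Q', hna]
  rw [hfilter, Finset.sum_singleton] at hs
  exact (Finsupp.mem_support_iff.1 ha) hs

/-- Overwrite a condition on the finite set `{i} × E` by the function `g`. -/
noncomputable def pat (i : I) (E : Finset W) (g : W → ℕ) (u : Cond (I × W)) : Cond (I × W) :=
  ⟨u.dom ∪ E.image (fun a => (i, a)), fun k => if k.1 = i ∧ k.2 ∈ E then g k.2 else u.val k⟩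

theorem mem_pat {i : I} {E : Finset W} {g : W → ℕ} {u : Cond (I × W)} {k : I × W} :
    k ∈ (pat i E g u).dom ↔ k ∈ u.dom ∨ (k.1 = i ∧ k.2 ∈ E) := by
  obtain ⟨j, a⟩ := k
  simp only [pat, Finset.mem_union, Finset.mem_image, Prod.mk.injEq]
  constructor
  · rintro (h | ⟨a', h1, h2, h3⟩)
    · exact Or.inl h
    · subst h2 h3; exact Or.inr ⟨rfl, h1⟩
  · rintro (h | ⟨h1, h2⟩)
    · exact Or.inl h
    · subst h1
      exact Or.inr ⟨a, h2, rfl, rfl⟩

theorem pat_val_in {i : I} {E : Finset W} {g : W → ℕ} {u : Cond (I × W)} {a : W}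
    (ha : a ∈ E) : (pat i E g u).val (i, a) = g a := by
  simp [pat, ha]

theorem pat_val_out {i : I} {E : Finset W} {g : W → ℕ} {u : Cond (I × W)} {k : I × W}
    (hk : ¬ (k.1 = i ∧ k.2 ∈ E)) : (pat i E g u).val k = u.val k := by
  simp only [pat, if_neg hk]

/-- Parity of the colour classes of a four-element set with a colouring that is constant on two
halves. -/
theorem even_classes {a b c d : W} (hab : a ≠ b) (hac : a ≠ c) (had : a ≠ d) (hbc : b ≠ c)
    (hbd : b ≠ d) (hcd : c ≠ d) (f : W → ℕ) (h1 : f a = f b) (h2 : f c = f d) (n : ℕ) :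
    Even ((({a, b, c, d} : Finset W)).filter (fun t => f t = n)).card := by
  by_cases ha : f a = n
  · have hb : f b = n := h1 ▸ ha
    by_cases hc : f c = n
    · have hd : f d = n := h2 ▸ hc
      have : (({a, b, c, d} : Finset W)).filter (fun t => f t = n) = {a, b, c, d} := by
        rw [Finset.filter_eq_self]
        intro t ht
        simp only [Finset.mem_insert, Finset.mem_singleton] at ht
        rcases ht with rfl | rfl | rfl | rfl <;> assumption
      rw [this]
      have : ({a, b, c, d} : Finset W).card = 4 := by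
        rw [Finset.card_insert_of_notMem, Finset.card_insert_of_notMem, Finset.card_pair hcd]
        · simp [hbc, hbd]
        · simp [hab, hac, had]
      rw [this]
      decide
    · have hd : f d ≠ n := h2 ▸ hc
      have : (({a, b, c, d} : Finset W)).filter (fun t => f t = n) = {a, b} := by
        ext t
        simp only [Finset.mem_filter, Finset.mem_insert, Finset.mem_singleton]
        constructor
        · rintro ⟨rfl | rfl | rfl | rfl, h⟩
          · exact Or.inl rfl
          · exact Or.inr rfl
          · exact absurd h hc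
          · exact absurd h hd
        · rintro (rfl | rfl)
          · exact ⟨Or.inl rfl, ha⟩
          · exact ⟨Or.inr (Or.inl rfl), hb⟩
      rw [this, Finset.card_pair hab]
      decide
  · have hb : f b ≠ n := h1 ▸ ha
    by_cases hc : f c = n
    · have hd : f d = n := h2 ▸ hc
      have : (({a, b, c, d} : Finset W)).filter (fun t => f t = n) = {c, d} := by
        ext t
        simp only [Finset.mem_filter, Finset.mem_insert, Finset.mem_singleton]
        constructor
        · rintro ⟨rfl | rfl | rfl | rfl, h⟩
          · exact absurd h ha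
          · exact absurd h hb
          · exact Or.inl rfl
          · exact Or.inr rfl
        · rintro (rfl | rfl)
          · exact ⟨Or.inr (Or.inr (Or.inl rfl)), hc⟩
          · exact ⟨Or.inr (Or.inr (Or.inr rfl)), hd⟩
      rw [this, Finset.card_pair hcd]
      decide
    · have hd : f d ≠ n := h2 ▸ hc
      have : (({a, b, c, d} : Finset W)).filter (fun t => f t = n) = ∅ := by
        rw [Finset.filter_eq_empty_iff]
        intro t ht
        simp only [Finset.mem_insert, Finset.mem_singleton] at ht
        rcases ht with rfl | rfl | rfl | rfl <;> assumption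
      rw [this]
      simp

end H98m
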