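import Pool.Agent.H.MP_8ff4bd_gt.M3.NoThin

/-!
# No injection continuous at zero after adding Cohen reals

Part of the treatment of `MP_8ff4bd_gt` (negative model): in a Boolean algebra in which the
functions with finite domain in `I × W` and values in `ℕ` are dense, with `W` uncountable and `I` larger than `W`, there is no
name of an injective function from the finite subsets of `W` to the finitely supported functions
`W → ZMod 3` which is continuous at zero for the topologies given by countable partitions.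
-/

set_option autoImplicit false

namespace H98m

open Classical

universe u v

variable {I : Type u} {W : Type u} {B : Type v} [CompleteBooleanAlgebra B]

/-- The condition obtained from the common parts `V a` by overwriting them by patterns. -/
noncomputable def tot (i : I) (E : W → Finset W) (V : W → Cond (I × W)) (A : Finset W)
    (S : Cond (I × W)) (g : W → W → ℕ) : Cond (I × W) :=
  un (bigUn A (fun a => pat i (E a) (g a) (V a))) S

section
variable {io : Cond (I × W) → B} {C : W → ℕ → B} {i : I} {u : W → Cond (I × W)} {M : ℕ}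
  {E : W → Finset W} {T : Set W} {V : W → Cond (I × W)} {idx : W → W → ℕ} {n1 n2 : ℕ}

theorem Second.pat_dom (h : Second io C i u M E T V idx n1 n2) {a : W} {g : W → ℕ} {k : I × W}
    (hk : k ∈ (pat i (E a) g (V a)).dom) : k ∈ (V a).dom := by
  rcases mem_pat.1 hk with hk | ⟨h1, h2⟩
  · exact hk
  · obtain ⟨j, e⟩ := k
    simp only at h1 h2
    subst h1
    exact h.dom a e h2

theorem Second.pat_compat (h : Second io C i u M E T V idx n1 n2) {a b : W} (ha : a ∈ T)
    (hb : b ∈ T) (hab : a ≠ b) (g g' : W → ℕ) :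
    Compat (pat i (E a) g (V a)) (pat i (E b) g' (V b)) := by
  intro k hk hk'
  obtain ⟨h1, h2, h3⟩ := h.ne a ha b hb hab k (h.pat_dom hk) (h.pat_dom hk')
  rw [pat_val_out h1, pat_val_out h2, h3]

theorem Second.compat_V (h : Second io C i u M E T V idx n1 n2) {a b : W} (ha : a ∈ T)
    (hb : b ∈ T) (hab : a ≠ b) : Compat (V a) (V b) := fun k hk hk' =>
  (h.ne a ha b hb hab k hk hk').2.2

variable {A : Finset W} {S : Cond (I × W)}

/-- The total condition extends all its pieces. -/
theorem Second.tot_ext (h : Second io C i u M E T V idx n1 n2) (hA : ∀ a ∈ A, a ∈ T)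
    (hS : ∀ a, (i, a) ∉ S.dom) (hc : Compat (bigUn A V) S) (g : W → W → ℕ) :
    (∀ a ∈ A, Ext (tot i E V A S g) (pat i (E a) (g a) (V a))) ∧ Ext (tot i E V A S g) S := by
  have hV : ∀ a ∈ A, Ext (bigUn A V) (V a) := ext_bigUn A V (fun a ha b hb hab =>
    h.compat_V (hA a ha) (hA b hb) hab)
  have hP : ∀ a ∈ A, Ext (bigUn A (fun a => pat i (E a) (g a) (V a)))
      (pat i (E a) (g a) (V a)) := ext_bigUn A (fun a => pat i (E a) (g a) (V a))
    (fun a ha b hb hab => h.pat_compat (hA a ha) (hA b hb) hab _ _)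
  have hcomp : Compat (bigUn A (fun a => pat i (E a) (g a) (V a))) S := by
    intro k hk hkS
    obtain ⟨a, ha, hka, hval⟩ := val_bigUn hk
    rw [hval]
    have hki : k.1 ≠ i := by
      rintro rfl
      exact hS k.2 hkS
    rw [pat_val_out (fun h => hki h.1)]
    have hkV : k ∈ (V a).dom := h.pat_dom hka
    rw [← (hV a ha).2 k hkV]
    exact hc k ((hV a ha).1 hkV) hkS
  refine ⟨fun a ha => (ext_un_left _ _).trans (hP a ha), ext_un_right hcomp⟩

end

/-- Sums over the part of `E` with a given index. -/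
noncomputable def yy (E : W → Finset W) (idx : W → W → ℕ) (h : W →₀ ZMod 3) (a : W) (j : ℕ) :
    ZMod 3 := ∑ e ∈ (E a).filter (fun e => idx a e = j), h e

/-- The contradiction after a fresh block has been found. -/
theorem core {io : Cond (I × W) → B} (hd : DenseEmb io) (hW : ¬ (Set.univ : Set W).Countable)
    {F : Finset W → (W →₀ ZMod 3) → B} {b : B}
    (inj : ∀ x x' h, x ≠ x' → b ⊓ F x h ⊓ F x' h = ⊥)
    {i : I} {C : W → ℕ → B} (hC : ContAt io F i b C) (p1 : Cond (I × W)) (hp1 : io p1 ≤ b)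
    (fr : ∀ x q, Ext q p1 → ∃ s h, (∀ a, (i, a) ∉ s.dom) ∧ Compat q s ∧ io s ≤ F x h) :
    False := by
  have htot : ∀ a, io p1 ≤ ⨆ n, C a n := fun a => hp1.trans (hC.tot a)
  obtain ⟨T0, u, n0, M, R, hF⟩ := exists_first hd hW htot
  obtain ⟨T, V, idx, n1, n2, hTT0, hS2⟩ := exists_second hd htot hF i
  set E : W → Finset W := fun a => newE i R (u a) with hE
  -- an infinite sequence of points of `T`
  have hTinf : T.Infinite := fun hfin => hS2.unc hfin.countable
  obtain ⟨e, heinj, heT⟩ : ∃ e : ℕ → W, Function.Injective e ∧ ∀ n, e n ∈ T :=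
    ⟨fun n => (hTinf.natEmbedding T n : W), fun m n hmn =>
      (hTinf.natEmbedding T).injective (Subtype.ext hmn), fun n => (hTinf.natEmbedding T n).2⟩
  have hene : ∀ {m n : ℕ}, m ≠ n → e m ≠ e n := fun hmn h => hmn (heinj h)
  obtain ⟨N, hN⟩ : ∃ N, 3 ^ R.card < N := ⟨_, Nat.lt_succ_self _⟩
  set A : Finset W := (Finset.range (N + 3)).image e with hA
  have hAT : ∀ a ∈ A, a ∈ T := by
    intro a ha
    obtain ⟨n, -, rfl⟩ := Finset.mem_image.1 ha
    exact heT n
  let x : ℕ → Finset W := fun t => {e 0, e 1, e 2, e (3 + t)}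
  have hxA : ∀ t < N, x t ⊆ A := by
    intro t ht a ha
    simp only [x, Finset.mem_insert, Finset.mem_singleton] at ha
    simp only [hA, Finset.mem_image, Finset.mem_range]
    rcases ha with rfl | rfl | rfl | rfl
    · exact ⟨0, by omega, rfl⟩
    · exact ⟨1, by omega, rfl⟩
    · exact ⟨2, by omega, rfl⟩
    · exact ⟨3 + t, by omega, rfl⟩
  have hxne : ∀ s t, s ≠ t → x s ≠ x t := by
    intro s t hst hx
    have h1 : e (3 + s) ∈ x t := by
      rw [← hx]
      simp [x]
    simp only [x, Finset.mem_insert, Finset.mem_singleton] at h1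
    rcases h1 with h1 | h1 | h1 | h1
    · exact hene (by omega) h1
    · exact hene (by omega) h1
    · exact hene (by omega) h1
    · exact hene (by omega) h1
  -- the base condition
  have hVcompat : ∀ a ∈ A, ∀ b ∈ A, a ≠ b → Compat (V a) (V b) := fun a ha b hb hab =>
    hS2.compat_V (hAT a ha) (hAT b hb) hab
  have hVext : ∀ a ∈ A, Ext (bigUn A V) (V a) := ext_bigUn A V hVcompat
  have he0A : e 0 ∈ A := Finset.mem_image.2 ⟨0, Finset.mem_range.2 (by omega), rfl⟩
  have he1A : e 1 ∈ A := Finset.mem_image.2 ⟨1, Finset.mem_range.2 (by omega), rfl⟩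
  -- the domain of `p1` is in `R`, hence off `E`
  have hp1R : p1.dom ⊆ R := by
    intro k hk
    exact hF.inter (e 0) (hTT0 (heT 0)) (e 1) (hTT0 (heT 1)) (hene (by omega)) k
      ((hF.ext (e 0)).1 hk) ((hF.ext (e 1)).1 hk)
  have hnotE : ∀ a k, k ∈ R → ¬ (k.1 = i ∧ k.2 ∈ E a) := by
    rintro a ⟨j, f⟩ hk ⟨h1, h2⟩
    simp only at h1 h2
    subst h1
    exact (mem_newE.1 h2).2 hk
  have hVu : ∀ a, ∀ k ∈ (u a).dom, ¬ (k.1 = i ∧ k.2 ∈ E a) →
      k ∈ (V a).dom ∧ (V a).val k = (u a).val k := by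
    intro a k hk hkE
    have h1 := (hS2.ext0 a).1 hk
    have h2 := (hS2.ext0 a).2 k hk
    rw [pat_val_out hkE] at h2
    exact ⟨hS2.pat_dom h1, h2⟩
  have hVp1 : Ext (V (e 0)) p1 := by
    refine ⟨?_, ?_⟩
    · intro k hk
      exact (hVu (e 0) k ((hF.ext (e 0)).1 hk) (hnotE _ k (hp1R hk))).1
    · intro k hk
      rw [(hVu (e 0) k ((hF.ext (e 0)).1 hk) (hnotE _ k (hp1R hk))).2]
      exact (hF.ext (e 0)).2 k hk
  obtain ⟨S, hSi, hSc, hSF⟩ := fresh_fin hd fr ((Finset.range N).image x) (bigUn A V)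
    ((hVext _ he0A).trans hVp1)
  have hSF' : ∀ t, ∃ h, t < N → io S ≤ F (x t) h := by
    intro t
    by_cases ht : t < N
    · obtain ⟨h, hh⟩ := hSF (x t) (Finset.mem_image.2 ⟨t, Finset.mem_range.2 ht, rfl⟩)
      exact ⟨h, fun _ => hh⟩
    · exact ⟨0, fun h => absurd h ht⟩
  choose h hh using hSF'
  -- the patterns
  let g0 : W → W → ℕ := fun a f => (u a).val (i, f)
  have hQ := fun g : W → W → ℕ => hS2.tot_ext hAT hSi hSc g
  -- the total condition is below `b`
  have hQb : ∀ g, io (tot i E V A S g) ≤ b := by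
    intro g
    refine (hd.anti _ _ ?_).trans hp1
    refine ((hQ g).1 (e 0) he0A).trans ?_
    refine ⟨?_, ?_⟩
    · intro k hk
      exact mem_pat.2 (Or.inl (hVp1.1 hk))
    · intro k hk
      rw [pat_val_out (hnotE _ k (hp1R hk))]
      exact hVp1.2 k hk
  -- support of the values
  have hsupp : ∀ t < N, ∀ f ∈ (h t).support, ∃ a ∈ x t, (i, f) ∈ (u a).dom := by
    intro t ht
    have hext0 : ∀ a ∈ x t, Ext (tot i E V A S g0) (u a) := fun a ha =>
      ((hQ g0).1 a (hxA t ht ha)).trans (hS2.ext0 a)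
    have hcu : ∀ a ∈ x t, ∀ b ∈ x t, a ≠ b → Compat (u a) (u b) := fun a ha b hb _ =>
      compat_of_ext (hext0 a ha) (hext0 b hb)
    have hext1 : ∀ a ∈ x t, Ext (bigUn (x t) u) (u a) := ext_bigUn (x t) u hcu
    have hc1 : Compat (bigUn (x t) u) S := compat_of_ext (ext_bigUn_of hext0) (hQ g0).2
    set Q0 := un (bigUn (x t) u) S with hQ0
    have hQ0u : ∀ a ∈ x t, Ext Q0 (u a) := fun a ha => (ext_un_left _ _).trans (hext1 a ha)
    have hQ0S : Ext Q0 S := ext_un_right hc1
    have he0x : e 0 ∈ x t := by simp [x]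
    have hQ0b : io Q0 ≤ b :=
      (hd.anti _ _ ((hQ0u _ he0x).trans (hF.ext _))).trans hp1
    have hev : Paired (x t) (fun _ : W => n0) :=
      ⟨e 0, e 1, e 2, e (3 + t), hene (by omega), hene (by omega), hene (by omega),
        hene (by omega), hene (by omega), hene (by omega), rfl, rfl, rfl⟩
    have hcol : ∀ a ∈ x t, io Q0 ≤ C a ((fun _ : W => n0) a) := fun a ha =>
      (hd.anti _ _ (hQ0u a ha)).trans (hF.col a (hTT0 (hAT a (hxA t ht ha))))
    intro f hf
    have := hC.support hd hQ0b hev hcol ((hd.anti _ _ hQ0S).trans (hh t ht)) f hf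
    rcases mem_un.1 this with h1 | h1
    · exact mem_bigUn.1 h1
    · exact absurd h1 (hSi f)
  -- disjointness of the sets `E`
  have hEdisj : ∀ a ∈ T, ∀ b ∈ T, a ≠ b → ∀ f, f ∈ E a → f ∉ E b := by
    intro a ha b hb hab f hfa hfb
    have h1 := mem_newE.1 hfa
    have h2 := mem_newE.1 hfb
    exact h1.2 (hF.inter a (hTT0 ha) b (hTT0 hb) hab _ h1.1 h2.1)
  -- the pair lemma
  have hpair : ∀ t < N, ∀ a b c d : W, x t = {a, b, c, d} → a ≠ b → a ≠ c → a ≠ d → b ≠ c →
      b ≠ d → c ≠ d → ∀ j, yy E idx (h t) a j + yy E idx (h t) b j = 0 := by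
    intro t ht a b' c d hx hab hac had hbc hbd hcd j
    have hax : a ∈ x t := by rw [hx]; simp
    have hbx : b' ∈ x t := by rw [hx]; simp
    have haT := hAT a (hxA t ht hax)
    have hbT := hAT b' (hxA t ht hbx)
    let g : W → W → ℕ := fun z => if z = a ∨ z = b' then (fun f => M + 2 * idx z f) else
      (fun f => M + 2 * idx z f + 1)
    let cc : W → ℕ := fun z => if z = a ∨ z = b' then n1 else n2
    set Q := tot i E V A S g with hQdef
    have hQpat := (hQ g).1
    have hQS := (hQ g).2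
    have hev : Paired (x t) cc := by
      refine ⟨a, b', c, d, hab, hac, had, hbc, hbd, hcd, hx, ?_, ?_⟩
      · simp [cc]
      · simp [cc, hac.symm, had.symm, hbc.symm, hbd.symm]
    have hcol : ∀ z ∈ x t, io Q ≤ C z (cc z) := by
      intro z hz
      have hzA := hxA t ht hz
      refine (hd.anti _ _ (hQpat z hzA)).trans ?_
      by_cases h1 : z = a ∨ z = b'
      · simp only [g, cc, if_pos h1]
        exact hS2.col1 z (hAT z hzA)
      · simp only [g, cc, if_neg h1]
        exact hS2.col2 z (hAT z hzA)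
    have hdomQ : ∀ f ∈ (h t).support, (i, f) ∈ Q.dom := by
      intro f hf
      obtain ⟨z, hz, hzf⟩ := hsupp t ht f hf
      have h1 := (hS2.ext0 z).1 hzf
      have h2 := hS2.pat_dom h1
      exact (hQpat z (hxA t ht hz)).1 (mem_pat.2 (Or.inl h2))
    have hsum := hC.sum_zero hd (hQb g) hev hcol ((hd.anti _ _ hQS).trans (hh t ht)) hdomQ
      (M + 2 * j)
    -- values of `Q` on `E z`
    have hval : ∀ z ∈ x t, ∀ f ∈ E z, Q.val (i, f) = g z f := by
      intro z hz f hf
      rw [(hQpat z (hxA t ht hz)).2 (i, f) (mem_pat.2 (Or.inr ⟨rfl, hf⟩)), pat_val_in hf]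
    have hvalR : ∀ f, (i, f) ∈ R → Q.val (i, f) < M := by
      intro f hf
      have hzA : a ∈ A := hxA t ht hax
      have hu : (i, f) ∈ (u a).dom := hF.sub a (hTT0 haT) hf
      have hv := hVu a (i, f) hu (hnotE a _ hf)
      rw [(hQpat a hzA).2 (i, f) (mem_pat.2 (Or.inl hv.1)), pat_val_out (hnotE a _ hf), hv.2]
      exact hF.lt a (hTT0 haT) _ hf
    have hU : (∑ f ∈ (h t).support.filter (fun f => Q.val (i, f) = M + 2 * j), (h t) f) =
        ∑ f ∈ (E a).filter (fun f => idx a f = j) ∪ (E b').filter (fun f => idx b' f = j),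
          (h t) f := by
      refine Finset.sum_subset ?_ ?_
      · intro f hf
        obtain ⟨hf1, hf2⟩ := Finset.mem_filter.1 hf
        obtain ⟨z, hz, hzf⟩ := hsupp t ht f hf1
        have hfR : (i, f) ∉ R := by
          intro hR
          have := hvalR f hR
          omega
        have hfE : f ∈ E z := mem_newE.2 ⟨hzf, hfR⟩
        have hv := hval z hz f hfE
        rw [hf2] at hv
        by_cases h1 : z = a ∨ z = b'
        · simp only [g, if_pos h1] at hv
          have hj : idx z f = j := by omega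
          rcases h1 with h1 | h1
          · subst h1
            exact Finset.mem_union_left _ (Finset.mem_filter.2 ⟨hfE, hj⟩)
          · subst h1
            exact Finset.mem_union_right _ (Finset.mem_filter.2 ⟨hfE, hj⟩)
        · simp only [g, if_neg h1] at hv
          omega
      · intro f hf hnf
        by_contra hne
        apply hnf
        refine Finset.mem_filter.2 ⟨Finsupp.mem_support_iff.2 hne, ?_⟩
        rcases Finset.mem_union.1 hf with h1 | h1
        · obtain ⟨h2, h3⟩ := Finset.mem_filter.1 h1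
          rw [hval a hax f h2]
          simp [g, h3]
        · obtain ⟨h2, h3⟩ := Finset.mem_filter.1 h1
          rw [hval b' hbx f h2]
          simp [g, h3]
    rw [hU, Finset.sum_union] at hsum
    · exact hsum
    · rw [Finset.disjoint_left]
      intro f hf1 hf2
      exact hEdisj a haT b' hbT hab f (Finset.mem_filter.1 hf1).1 (Finset.mem_filter.1 hf2).1
  -- arithmetic in `ZMod 3`
  have harith : ∀ p q r : ZMod 3, p + q = 0 → p + r = 0 → q + r = 0 → p = 0 := by decide
  have hzero : ∀ t < N, ∀ a ∈ x t, ∀ j, yy E idx (h t) a j = 0 := by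
    intro t ht a ha j
    have h01 : e 0 ≠ e 1 := hene (by omega)
    have h02 : e 0 ≠ e 2 := hene (by omega)
    have h03 : e 0 ≠ e (3 + t) := hene (by omega)
    have h12 : e 1 ≠ e 2 := hene (by omega)
    have h13 : e 1 ≠ e (3 + t) := hene (by omega)
    have h23 : e 2 ≠ e (3 + t) := hene (by omega)
    have p01 := hpair t ht (e 0) (e 1) (e 2) (e (3 + t)) rfl h01 h02 h03 h12 h13 h23 j
    have p02 := hpair t ht (e 0) (e 2) (e 1) (e (3 + t)) (by
      ext z; simp only [x, Finset.mem_insert, Finset.mem_singleton]; tauto)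
      h02 h01 h03 h12.symm h23 h13 j
    have p03 := hpair t ht (e 0) (e (3 + t)) (e 1) (e 2) (by
      ext z; simp only [x, Finset.mem_insert, Finset.mem_singleton]; tauto)
      h03 h01 h02 h13.symm h23.symm h12 j
    have p12 := hpair t ht (e 1) (e 2) (e 0) (e (3 + t)) (by
      ext z; simp only [x, Finset.mem_insert, Finset.mem_singleton]; tauto)
      h12 h01.symm h13 h02.symm h23 h03 j
    have z0 := harith _ _ _ p01 p02 p12
    rw [z0, zero_add] at p01 p02 p03
    simp only [x, Finset.mem_insert, Finset.mem_singleton] at ha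
    rcases ha with rfl | rfl | rfl | rfl
    · exact z0
    · exact p01
    · exact p02
    · exact p03
  have hvan : ∀ t < N, ∀ f, (i, f) ∉ R → h t f = 0 := by
    intro t ht f hfR
    by_contra hne
    obtain ⟨z, hz, hzf⟩ := hsupp t ht f (Finsupp.mem_support_iff.2 hne)
    have hfE : f ∈ E z := mem_newE.2 ⟨hzf, hfR⟩
    have hy := hzero t ht z hz (idx z f)
    have : (E z).filter (fun f' => idx z f' = idx z f) = {f} := by
      ext f'
      simp only [Finset.mem_filter, Finset.mem_singleton]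
      constructor
      · rintro ⟨h1, h2⟩
        exact hS2.inj z h1 hfE h2
      · rintro rfl
        exact ⟨hfE, rfl⟩
    unfold yy at hy
    rw [this, Finset.sum_singleton] at hy
    exact hne hy
  -- pigeonhole
  obtain ⟨s, t, hst, hval⟩ := Fintype.exists_ne_map_eq_of_card_lt
    (fun t : Fin N => (fun r : R => h t.1 r.1.2 : R → ZMod 3)) (by
      rw [Fintype.card_fun, Fintype.card_coe, ZMod.card, Fintype.card_fin]
      exact hN)
  have hst' : s.1 ≠ t.1 := fun h => hst (Fin.ext h)
  have heq : h s.1 = h t.1 := by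
    ext f
    by_cases hf : (i, f) ∈ R
    · have := congrFun hval ⟨(i, f), hf⟩
      simp only at this
      rw [this]
    · rw [hvan s.1 s.2 f hf, hvan t.1 t.2 f hf]
  have hbad := inj (x s.1) (x t.1) (h s.1) (hxne _ _ hst')
  apply hd.ne_bot (tot i E V A S g0)
  rw [← le_bot_iff, ← hbad]
  refine le_inf (le_inf (hQb g0) ?_) ?_
  · exact (hd.anti _ _ (hQ g0).2).trans (hh s.1 s.2)
  · rw [heq]
    exact (hd.anti _ _ (hQ g0).2).trans (hh t.1 t.2)

/-- **The negative model, combinatorial form.** -/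
theorem noModel {io : Cond (I × W) → B} (hd : DenseEmb io)
    (hW : ¬ (Set.univ : Set W).Countable)
    (hI : ∀ J : Finset W → Set I, (∀ x, (J x).Countable) → ∃ i, ∀ x, i ∉ J x)
    (F : Finset W → (W →₀ ZMod 3) → B) (p : B) (hp : p ≠ ⊥)
    (tot : ∀ x, p ≤ ⨆ h, F x h)
    (inj : ∀ x x' h, x ≠ x' → p ⊓ F x h ⊓ F x' h = ⊥)
    (cont : ∀ i, ∀ p' ≤ p, p' ≠ ⊥ → ∃ p'' ≤ p', p'' ≠ ⊥ ∧ ∃ C : W → ℕ → B,
      ContAt io F i p'' C) : False := by
  obtain ⟨p0, hp0⟩ := hd.dense p hp
  obtain ⟨i, -, hfr⟩ := fresh (X := Finset W) (Y := (W →₀ ZMod 3)) hd hI F p0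
    (fun x => hp0.trans (tot x))
  obtain ⟨p'', hp'', hne, C, hC⟩ := cont i (io p0) hp0 (hd.ne_bot p0)
  obtain ⟨p1', hp1'⟩ := hd.dense p'' hne
  have hcomp : Compat p0 p1' :=
    hd.compat (hd.ne_bot p1') (hp1'.trans hp'') le_rfl
  refine core hd hW (F := F) (b := p'') ?_ hC (un p0 p1')
    ((hd.anti _ _ (ext_un_right hcomp)).trans hp1') ?_
  · intro x x' h hx
    have := inj x x' h hx
    rw [← le_bot_iff] at this ⊢
    refine le_trans ?_ this
    exact inf_le_inf_right _ (inf_le_inf_right _ (hp''.trans hp0))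
  · intro x q hq
    exact hfr x q (hq.trans (ext_un_left _ _))

end H98m
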