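import Pool.Agent.H.MP_8ff4bd_gt.M3.NoKey

/-!
# The two thinnings

Part of the treatment of `MP_8ff4bd_gt` (negative model).
-/

set_option autoImplicit false

namespace H98m

open Classical

universe u v

variable {I : Type u} {W : Type u} {B : Type v} [CompleteBooleanAlgebra B]

/-- An uncountable set has an element different from a given one. -/
theorem exists_ne_of_unc {A : Type u} {T : Set A} (hT : ¬ T.Countable) (a : A) :
    ∃ b ∈ T, b ≠ a := by
  by_contra hcon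
  push Not at hcon
  exact hT ((Set.countable_singleton a).mono (fun b hb => hcon b hb))

/-- The data after the first thinning. -/
structure First (io : Cond (I × W) → B) (C : W → ℕ → B) (p1 : Cond (I × W))
    (T : Set W) (u : W → Cond (I × W)) (n0 M : ℕ) (R : Finset (I × W)) : Prop where
  unc : ¬ T.Countable
  ext : ∀ a, Ext (u a) p1
  col : ∀ a ∈ T, io (u a) ≤ C a n0
  sub : ∀ a ∈ T, R ⊆ (u a).dom
  lt : ∀ a ∈ T, ∀ k ∈ R, (u a).val k < M
  inter : ∀ a ∈ T, ∀ b ∈ T, a ≠ b → ∀ k ∈ (u a).dom, k ∈ (u b).dom → k ∈ R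

theorem exists_first {io : Cond (I × W) → B} (hd : DenseEmb io)
    (hW : ¬ (Set.univ : Set W).Countable) {C : W → ℕ → B} {p1 : Cond (I × W)}
    (tot : ∀ a, io p1 ≤ ⨆ n, C a n) : ∃ T u n0 M R, First io C p1 T u n0 M R := by
  choose u n hu hn using fun a => hd.decide (tot a)
  obtain ⟨T, -, hT, R, c, hsub, hc, hR⟩ := thin Set.univ hW u n
  obtain ⟨a0, ha0⟩ : T.Nonempty := by
    by_contra h
    rw [Set.not_nonempty_iff_eq_empty] at h
    exact hT (h ▸ Set.countable_empty)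
  refine ⟨T, u, c, R.sup (u a0).val + 1, R, hT, hu, ?_, hsub, ?_, ?_⟩
  · intro a ha
    rw [← hc a ha]
    exact hn a
  · intro a ha k hk
    have h1 : (u a).val k = (u a0).val k := by
      by_cases h : a = a0
      · rw [h]
      · exact (hR a ha a0 ha0 h).2 k (hsub a ha hk) (hsub a0 ha0 hk)
    rw [h1]
    exact Nat.lt_succ_of_le (Finset.le_sup hk)
  · intro a ha b hb hab
    exact (hR a ha b hb hab).1

/-- The new elements of the block `i` used by the condition `u`. -/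
noncomputable def newE (i : I) (R : Finset (I × W)) (u : Cond (I × W)) : Finset W :=
  ((u.dom.filter (fun k => k ∉ R)).filter (fun k => k.1 = i)).image Prod.snd

theorem mem_newE {i : I} {R : Finset (I × W)} {u : Cond (I × W)} {a : W} :
    a ∈ newE i R u ↔ (i, a) ∈ u.dom ∧ (i, a) ∉ R := by
  simp only [newE, Finset.mem_image, Finset.mem_filter]
  constructor
  · rintro ⟨⟨j, a'⟩, ⟨⟨h1, h2⟩, h3⟩, h4⟩
    simp only at h3 h4
    subst h3 h4
    exact ⟨h1, h2⟩
  · rintro ⟨h1, h2⟩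
    exact ⟨(i, a), ⟨⟨h1, h2⟩, rfl⟩, rfl⟩

/-- The data after the second thinning. -/
structure Second (io : Cond (I × W) → B) (C : W → ℕ → B) (i : I) (u : W → Cond (I × W)) (M : ℕ)
    (E : W → Finset W) (T : Set W) (V : W → Cond (I × W)) (idx : W → W → ℕ) (n1 n2 : ℕ) :
    Prop where
  unc : ¬ T.Countable
  inj : ∀ a, Set.InjOn (idx a) (E a)
  dom : ∀ a, ∀ e ∈ E a, (i, e) ∈ (V a).dom
  ext0 : ∀ a, Ext (pat i (E a) (fun e => (u a).val (i, e)) (V a)) (u a)
  col1 : ∀ a ∈ T, io (pat i (E a) (fun e => M + 2 * idx a e) (V a)) ≤ C a n1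
  col2 : ∀ a ∈ T, io (pat i (E a) (fun e => M + 2 * idx a e + 1) (V a)) ≤ C a n2
  ne : ∀ a ∈ T, ∀ b ∈ T, a ≠ b → ∀ k ∈ (V a).dom, k ∈ (V b).dom →
    ¬ (k.1 = i ∧ k.2 ∈ E a) ∧ ¬ (k.1 = i ∧ k.2 ∈ E b) ∧ (V a).val k = (V b).val k

theorem exists_second {io : Cond (I × W) → B} (hd : DenseEmb io) {C : W → ℕ → B}
    {p1 : Cond (I × W)} (tot : ∀ a, io p1 ≤ ⨆ n, C a n) {T : Set W} {u : W → Cond (I × W)}
    {n0 M : ℕ} {R : Finset (I × W)} (hF : First io C p1 T u n0 M R) (i : I) :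
    ∃ T' V idx n1 n2, T' ⊆ T ∧
      Second io C i u M (fun a => newE i R (u a)) T' V idx n1 n2 := by
  set E : W → Finset W := fun a => newE i R (u a) with hE
  have hinj : ∀ a, ∃ f : W → ℕ, Set.InjOn f (E a) := fun a =>
    Set.countable_iff_exists_injOn.1 (E a).countable_toSet
  choose idx hidx using hinj
  -- the domain of `p1` is contained in the root
  have hp1R : p1.dom ⊆ R := by
    obtain ⟨a, ha⟩ : T.Nonempty := by
      by_contra h
      rw [Set.not_nonempty_iff_eq_empty] at h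
      exact hF.unc (h ▸ Set.countable_empty)
    obtain ⟨b, hb, hba⟩ := exists_ne_of_unc hF.unc a
    intro k hk
    exact hF.inter a ha b hb (Ne.symm hba) k ((hF.ext a).1 hk) ((hF.ext b).1 hk)
  have hnotE : ∀ a k, k ∈ R → ¬ (k.1 = i ∧ k.2 ∈ E a) := by
    rintro a ⟨j, e⟩ hk ⟨h1, h2⟩
    simp only at h1 h2
    subst h1
    exact (mem_newE.1 h2).2 hk
  -- first pattern
  have hv1 : ∀ a, ∃ v n, Ext v (pat i (E a) (fun e => M + 2 * idx a e) (u a)) ∧
      io v ≤ C a n := by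
    intro a
    refine hd.decide (le_trans (hd.anti p1 _ ?_) (tot a))
    refine ⟨?_, ?_⟩
    · intro k hk
      exact mem_pat.2 (Or.inl ((hF.ext a).1 hk))
    · intro k hk
      rw [pat_val_out (hnotE a k (hp1R hk))]
      exact (hF.ext a).2 k hk
  choose v1 m1 hv1e hv1c using hv1
  have hv1p : ∀ a, Ext (v1 a) p1 := by
    intro a
    refine (hv1e a).trans ?_
    refine ⟨?_, ?_⟩
    · intro k hk
      exact mem_pat.2 (Or.inl ((hF.ext a).1 hk))
    · intro k hk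
      rw [pat_val_out (hnotE a k (hp1R hk))]
      exact (hF.ext a).2 k hk
  -- second pattern
  have hv2 : ∀ a, ∃ v n, Ext v (pat i (E a) (fun e => M + 2 * idx a e + 1) (v1 a)) ∧
      io v ≤ C a n := by
    intro a
    refine hd.decide (le_trans (hd.anti p1 _ ?_) (tot a))
    refine ⟨?_, ?_⟩
    · intro k hk
      exact mem_pat.2 (Or.inl ((hv1p a).1 hk))
    · intro k hk
      rw [pat_val_out (hnotE a k (hp1R hk))]
      exact (hv1p a).2 k hk
  choose v2 m2 hv2e hv2c using hv2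
  obtain ⟨T1, hT1T, hT1, R1, c, hsub, hc, hR⟩ := thin T hF.unc v2
    (fun a => ((m1 a, m2 a) : ℕ × ℕ))
  obtain ⟨z, hz⟩ := pigeon T1 hT1
    (fun a => (fun r : R1 => decide (r.1.1 = i ∧ r.1.2 ∈ E a) : R1 → Bool))
  set T' := {a | a ∈ T1 ∧ (fun r : R1 => decide (r.1.1 = i ∧ r.1.2 ∈ E a) : R1 → Bool) = z}
    with hT'
  -- the sets `E a` are disjoint from the second root
  have hR1 : ∀ a ∈ T', ∀ k ∈ R1, ¬ (k.1 = i ∧ k.2 ∈ E a) := by
    intro a ha k hk h
    obtain ⟨b, hb, hba⟩ := exists_ne_of_unc hz a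
    have h1 := congrFun (ha.2.trans hb.2.symm) ⟨k, hk⟩
    have h2 : (k.1 = i ∧ k.2 ∈ E b) := by
      have : decide (k.1 = i ∧ k.2 ∈ E a) = decide (k.1 = i ∧ k.2 ∈ E b) := h1
      rw [decide_eq_decide] at this
      exact this.1 h
    obtain ⟨j, e⟩ := k
    simp only at h h2
    have h3 := mem_newE.1 h.2
    have h4 := mem_newE.1 h2.2
    apply h3.2
    exact hF.inter a (hT1T ha.1) b (hT1T hb.1) (Ne.symm hba) _ h3.1 h4.1
  -- domains
  have hdv1 : ∀ a, ∀ e ∈ E a, (i, e) ∈ (v1 a).dom := fun a e he =>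
    (hv1e a).1 (mem_pat.2 (Or.inr ⟨rfl, he⟩))
  have hdv2 : ∀ a, ∀ e ∈ E a, (i, e) ∈ (v2 a).dom := fun a e he =>
    (hv2e a).1 (mem_pat.2 (Or.inr ⟨rfl, he⟩))
  -- values of v2 off E
  have hoff1 : ∀ a, ∀ k ∈ (v1 a).dom, ¬ (k.1 = i ∧ k.2 ∈ E a) →
      (v2 a).val k = (v1 a).val k := by
    intro a k hk hkE
    rw [(hv2e a).2 k (mem_pat.2 (Or.inl hk)), pat_val_out hkE]
  have hoff0 : ∀ a, ∀ k ∈ (u a).dom, ¬ (k.1 = i ∧ k.2 ∈ E a) →
      (v1 a).val k = (u a).val k := by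
    intro a k hk hkE
    rw [(hv1e a).2 k (mem_pat.2 (Or.inl hk)), pat_val_out hkE]
  have hsub1 : ∀ a, (u a).dom ⊆ (v1 a).dom := fun a k hk =>
    (hv1e a).1 (mem_pat.2 (Or.inl hk))
  have hsub2 : ∀ a, (v1 a).dom ⊆ (v2 a).dom := fun a k hk =>
    (hv2e a).1 (mem_pat.2 (Or.inl hk))
  have hcc : ∀ a ∈ T1, m1 a = c.1 ∧ m2 a = c.2 := by
    intro a ha
    have := hc a ha
    exact ⟨congrArg Prod.fst this, congrArg Prod.snd this⟩
  refine ⟨T', v2, idx, c.1, c.2, fun a ha => hT1T ha.1, hz, hidx, hdv2, ?_, ?_, ?_, ?_⟩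
  · intro a
    refine ⟨?_, ?_⟩
    · intro k hk
      exact mem_pat.2 (Or.inl (hsub2 a (hsub1 a hk)))
    · intro k hk
      by_cases hkE : k.1 = i ∧ k.2 ∈ E a
      · obtain ⟨j, e⟩ := k
        obtain ⟨h1, h2⟩ := hkE
        simp only at h1 h2
        subst h1
        rw [pat_val_in h2]
      · rw [pat_val_out hkE, hoff1 a k (hsub1 a hk) hkE, hoff0 a k hk hkE]
  · intro a ha
    rw [← (hcc a ha.1).1]
    refine le_trans (hd.anti _ _ ?_) (hv1c a)
    refine ⟨?_, ?_⟩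
    · intro k hk
      exact mem_pat.2 (Or.inl (hsub2 a hk))
    · intro k hk
      by_cases hkE : k.1 = i ∧ k.2 ∈ E a
      · obtain ⟨j, e⟩ := k
        obtain ⟨h1, h2⟩ := hkE
        simp only at h1 h2
        subst h1
        rw [pat_val_in h2, (hv1e a).2 _ (mem_pat.2 (Or.inr ⟨rfl, h2⟩)), pat_val_in h2]
      · rw [pat_val_out hkE, hoff1 a k hk hkE]
  · intro a ha
    rw [← (hcc a ha.1).2]
    refine le_trans (hd.anti _ _ ?_) (hv2c a)
    refine ⟨?_, ?_⟩
    · intro k hk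
      exact mem_pat.2 (Or.inl hk)
    · intro k hk
      by_cases hkE : k.1 = i ∧ k.2 ∈ E a
      · obtain ⟨j, e⟩ := k
        obtain ⟨h1, h2⟩ := hkE
        simp only at h1 h2
        subst h1
        rw [pat_val_in h2, (hv2e a).2 _ (mem_pat.2 (Or.inr ⟨rfl, h2⟩)), pat_val_in h2]
      · rw [pat_val_out hkE]
  · intro a ha b hb hab k hka hkb
    have hk : k ∈ R1 := (hR a ha.1 b hb.1 hab).1 k hka hkb
    exact ⟨hR1 a ha k hk, hR1 b hb k hk, (hR a ha.1 b hb.1 hab).2 k hka hkb⟩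

end H98m
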