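import Pool.Agent.H.MP_8ff4bd_gt.M3.SO

/-!
# Families of partitions of unity in a complete Boolean algebra

A partition family `h : P → V → B` is a name of a function from `P` to `V`.  For a finite set
`Q` of indices and a (ground) function `u`, `DD h Q u` is the value of: the function agrees with `u`
on `Q`.
-/

namespace M3

variable {B : Type} [CompleteBooleanAlgebra B]

/-- The value of a ground proposition. -/
def pr (B : Type) [CompleteBooleanAlgebra B] (p : Prop) : B := ⨆ (_ : p), ⊤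

theorem pr_true {p : Prop} (h : p) : pr B p = ⊤ := by simp [pr, h]

theorem pr_false {p : Prop} (h : ¬ p) : pr B p = ⊥ := by simp [pr, h]

theorem le_pr {p : Prop} {b : B} (h : ¬ p → b ≤ ⊥) : b ≤ pr B p := by
  by_cases hp : p
  · rw [pr_true hp]; exact le_top
  · exact (h hp).trans bot_le

theorem inf_pr_le {p : Prop} {b c : B} (h : p → b ≤ c) : b ⊓ pr B p ≤ c := by
  by_cases hp : p
  · exact inf_le_left.trans (h hp)
  · rw [pr_false hp, inf_bot_eq]; exact bot_le

/-- A family of partitions of unity. -/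
structure IsPF {P V : Type} (h : P → V → B) : Prop where
  tot : ∀ a, ⨆ v, h a v = ⊤
  dis : ∀ a v w, v ≠ w → Disjoint (h a v) (h a w)

/-- The value of: the function named by `h` agrees with `u` on `Q`. -/
def DD {P V : Type} (h : P → V → B) (Q : Finset P) (u : P → V) : B := Q.inf (fun a => h a (u a))

variable {P V : Type} {h : P → V → B}

theorem DD_le {Q : Finset P} {u : P → V} {a : P} (ha : a ∈ Q) : DD h Q u ≤ h a (u a) :=
  Finset.inf_le ha

theorem le_DD {Q : Finset P} {u : P → V} {b : B} (hb : ∀ a ∈ Q, b ≤ h a (u a)) : b ≤ DD h Q u :=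
  Finset.le_inf hb

theorem DD_mono {Q Q' : Finset P} (hQ : Q ⊆ Q') (u : P → V) : DD h Q' u ≤ DD h Q u :=
  Finset.inf_mono hQ

theorem DD_congr {Q : Finset P} {u u' : P → V} (hu : ∀ a ∈ Q, u a = u' a) :
    DD h Q u = DD h Q u' :=
  Finset.inf_congr rfl (fun a ha => by rw [hu a ha])

theorem DD_inf_eq_bot (hh : IsPF h) {Q Q' : Finset P} {u u' : P → V} {a : P} (ha : a ∈ Q)
    (ha' : a ∈ Q') (hne : u a ≠ u' a) : DD h Q u ⊓ DD h Q' u' = ⊥ :=
  le_bot_iff.mp ((inf_le_inf (DD_le ha) (DD_le ha')).trans (hh.dis a _ _ hne).le_bot)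

theorem DD_agree (hh : IsPF h) {Q Q' : Finset P} {u u' : P → V}
    (hne : DD h Q u ⊓ DD h Q' u' ≠ ⊥) : ∀ a ∈ Q, a ∈ Q' → u a = u' a := by
  intro a ha ha'
  by_contra hc
  exact hne (DD_inf_eq_bot hh ha ha' hc)

/-- The cover lemma: the function named by `h` takes some values on `Q`. -/
theorem DD_cover [Nonempty V] (hh : IsPF h) (Q : Finset P) : ⨆ u, DD h Q u = ⊤ := by
  classical
  induction Q using Finset.induction_on with
  | empty =>
    have : Nonempty (P → V) := ⟨fun _ => Classical.arbitrary V⟩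
    simp [DD]
  | insert a Q ha ih =>
    have h1 : (⊤ : B) = (⨆ v, h a v) ⊓ (⨆ u, DD h Q u) := by rw [hh.tot a, ih, inf_top_eq]
    rw [eq_top_iff, h1, iSup_inf_eq]
    refine iSup_le fun v => ?_
    rw [inf_iSup_eq]
    refine iSup_le fun u => ?_
    refine le_iSup_of_le (Function.update u a v) ?_
    refine le_DD fun b hb => ?_
    rcases Finset.mem_insert.mp hb with rfl | hb
    · simp
    · have hne : b ≠ a := fun h => ha (h ▸ hb)
      rw [Function.update_of_ne hne]
      exact inf_le_right.trans (DD_le hb)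

/-- Case distinction on the values on a finite set. -/
theorem le_of_cover [Nonempty V] (hh : IsPF h) (Q : Finset P) {b c : B}
    (H : ∀ u, b ⊓ DD h Q u ≤ c) : b ≤ c := by
  have : b = b ⊓ ⨆ u, DD h Q u := by rw [DD_cover hh, inf_top_eq]
  rw [this, inf_iSup_eq]
  exact iSup_le H

/-- Case distinction, only non-zero cases. -/
theorem le_of_cover' [Nonempty V] (hh : IsPF h) (Q : Finset P) {b c : B}
    (H : ∀ u, b ⊓ DD h Q u ≠ ⊥ → b ⊓ DD h Q u ≤ c) : b ≤ c :=
  le_of_cover hh Q fun u => by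
    by_cases hu : b ⊓ DD h Q u = ⊥
    · rw [hu]; exact bot_le
    · exact H u hu

/-- The name of a value computed from finitely many values of a named function. -/
def EE {X : Type} (h : P → V → B) (Q : Finset P) (φ : (P → V) → X) (x : X) : B :=
  ⨆ u, DD h Q u ⊓ pr B (φ u = x)

/-- `φ` depends only on the values on `Q`. -/
def DepOn {X : Type} (Q : Finset P) (φ : (P → V) → X) : Prop :=
  ∀ u u', (∀ a ∈ Q, u a = u' a) → φ u = φ u'

theorem DD_le_EE {X : Type} {Q Q' : Finset P} (hQ : Q ⊆ Q') (φ : (P → V) → X) (u : P → V) :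
    DD h Q' u ≤ EE h Q φ (φ u) := by
  refine le_iSup_of_le u ?_
  rw [pr_true rfl, inf_top_eq]
  exact DD_mono hQ u

theorem EE_inf_DD {X : Type} (hh : IsPF h) {Q Q' : Finset P} (hQ : Q ⊆ Q') {φ : (P → V) → X}
    (hφ : DepOn Q φ) {x : X} {u : P → V} (hne : EE h Q φ x ⊓ DD h Q' u ≠ ⊥) : φ u = x := by
  by_contra hc
  apply hne
  rw [← le_bot_iff, EE, iSup_inf_eq]
  refine iSup_le fun u' => ?_
  rw [inf_assoc, inf_comm (pr B _), ← inf_assoc]
  refine inf_pr_le fun hx => ?_
  by_cases hb : DD h Q u' ⊓ DD h Q' u = ⊥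
  · rw [hb]
  · exact absurd ((hφ u u' fun a ha => (DD_agree hh hb a ha (hQ ha)).symm).trans hx) hc

theorem EE_tot {X : Type} [Nonempty V] (hh : IsPF h) (Q : Finset P) (φ : (P → V) → X) :
    ⨆ x, EE h Q φ x = ⊤ := by
  rw [eq_top_iff, ← DD_cover hh Q]
  exact iSup_le fun u => le_iSup_of_le (φ u) (DD_le_EE (Finset.Subset.refl Q) φ u)

theorem EE_dis {X : Type} [Nonempty V] (hh : IsPF h) {Q : Finset P} {φ : (P → V) → X}
    (hφ : DepOn Q φ) {x y : X} (hxy : x ≠ y) : Disjoint (EE h Q φ x) (EE h Q φ y) := by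
  rw [disjoint_iff_inf_le]
  refine le_of_cover' hh Q fun u hu => ?_
  have h1 : EE h Q φ x ⊓ DD h Q u ≠ ⊥ := fun h0 => hu (by
    rw [← le_bot_iff, ← h0]; exact inf_le_inf_right _ inf_le_left)
  have h2 : EE h Q φ y ⊓ DD h Q u ≠ ⊥ := fun h0 => hu (by
    rw [← le_bot_iff, ← h0]; exact inf_le_inf_right _ inf_le_right)
  exact absurd ((EE_inf_DD hh (Finset.Subset.refl Q) hφ h1).symm.trans
    (EE_inf_DD hh (Finset.Subset.refl Q) hφ h2)) hxy

/-- Countable index from a finitely determined invariant with values in a countable type. -/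
theorem bIdx_of {G X : Type} [AddCommGroup G] [Countable X] [Nonempty V] (hh : IsPF h)
    (kap : G → B) (Q : G → Finset P) (φ : G → (P → V) → X) (hφ : ∀ g, DepOn (Q g) (φ g))
    (key : ∀ g g' u (Q' : Finset P), Q g ⊆ Q' → Q g' ⊆ Q' → φ g u = φ g' u →
      DD h Q' u ≤ kap (g - g')) : bIdx kap = ⊤ := by
  classical
  obtain ⟨enc, henc⟩ := exists_injective_nat X
  rw [eq_top_iff]
  refine le_iSup_of_le (fun g n => EE h (Q g) (fun u => enc (φ g u)) n) ?_
  have hd : ∀ g, DepOn (Q g) (fun u => enc (φ g u)) := fun g u u' hu => by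
    show enc (φ g u) = enc (φ g u')
    rw [hφ g u u' hu]
  refine le_inf ?_ ?_
  · refine le_iInf fun g => ?_
    rw [EE_tot hh]
  · refine le_iInf fun g => le_iInf fun g' => le_iInf fun n => ?_
    rw [le_himp_iff, top_inf_eq]
    refine le_of_cover' hh (Q g ∪ Q g') fun u hu => ?_
    have h1 : EE h (Q g) (fun u => enc (φ g u)) n ⊓ DD h (Q g ∪ Q g') u ≠ ⊥ := fun h0 => hu (by
      rw [← le_bot_iff, ← h0]; exact inf_le_inf_right _ inf_le_left)
    have h2 : EE h (Q g') (fun u => enc (φ g' u)) n ⊓ DD h (Q g ∪ Q g') u ≠ ⊥ := fun h0 => hu (by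
      rw [← le_bot_iff, ← h0]; exact inf_le_inf_right _ inf_le_right)
    have e1 := EE_inf_DD hh Finset.subset_union_left (hd g) h1
    have e2 := EE_inf_DD hh Finset.subset_union_right (hd g') h2
    exact inf_le_right.trans (key g g' u _ Finset.subset_union_left Finset.subset_union_right
      (henc (e1.trans e2.symm)))

end M3
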