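import Pool.Agent.H.MP_8ff4bd_gt.M3.Val
import Pool.Agent.H.MP_8ff4bd_gt.M3.SO

/-!
# Translation of the notions of the statement for discrete families of names

`n : K → BSet B` is a discrete family of names indexed by an additive group `K` on which the value
of the addition is the addition of `K`.
-/

set_option autoImplicit false

namespace M3.BSet

open Pool.Agent.H.MP_8ff4bd_gt.M3

variable {B : Type} [CompleteBooleanAlgebra B]

/-! ### Extensionality of the notions -/

theorem ext_bVal_left (t : BSet B) (i : ℕ) : Ext (fun x => (str B).bVal x t i) := by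
  unfold BStr.bVal
  simp only [str_bRel]
  exact Ext.iSup fun k => (ext_const _).inf (ext_pmem₃ t k)

theorem ext_bVal_right (x : BSet B) (i : ℕ) : Ext (fun t => (str B).bVal x t i) := by
  unfold BStr.bVal
  simp only [str_bRel]
  exact Ext.iSup fun k => (ext_const _).inf (ext_pmem₁ k x)

theorem ext_bAdd₀ (m : ℕ) (x y z : BSet B) : Ext (fun w => (str B).bAdd m w x y z) := by
  unfold BStr.bAdd
  simp only [str_mem]
  exact Ext.iInf fun t => (ext_bmem_right t).himp (ext_const _)

theorem ext_bAdd₁ (m : ℕ) (w y z : BSet B) : Ext (fun x => (str B).bAdd m w x y z) := by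
  unfold BStr.bAdd
  exact Ext.iInf fun t => (ext_const _).himp (Ext.iSup fun i => Ext.iSup fun j =>
    ((ext_bVal_left t i).inf (ext_const _)).inf (ext_const _))

theorem ext_bAdd₂ (m : ℕ) (w x z : BSet B) : Ext (fun y => (str B).bAdd m w x y z) := by
  unfold BStr.bAdd
  exact Ext.iInf fun t => (ext_const _).himp (Ext.iSup fun i => Ext.iSup fun j =>
    ((ext_const _).inf (ext_bVal_left t j)).inf (ext_const _))

theorem ext_bAdd₃ (m : ℕ) (w x y : BSet B) : Ext (fun z => (str B).bAdd m w x y z) := by
  unfold BStr.bAdd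
  exact Ext.iInf fun t => (ext_const _).himp (Ext.iSup fun i => Ext.iSup fun j =>
    ((ext_const _).inf (ext_const _)).inf (ext_bVal_left t _))

theorem bAdd_congr {m : ℕ} {w x y z x' y' z' : BSet B} {c : B} (hx : c ≤ beq x x')
    (hy : c ≤ beq y y') (hz : c ≤ beq z z') (h : c ≤ (str B).bAdd m w x y z) :
    c ≤ (str B).bAdd m w x' y' z' :=
  (ext_bAdd₃ m w x' y').le hz ((ext_bAdd₂ m w x' z).le hy ((ext_bAdd₁ m w y z).le hx h))

/-! ### Quantifiers over the natural numbers -/

theorem mem_fam_le {X : Type} (a : X → BSet B) (i : X) (c : B) : c ≤ bmem (a i) (fam a) := by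
  rw [mem_fam]; exact le_top

theorem mem_omega_le (k : ℕ) (c : B) : c ≤ bmem (ofNat k) (omega : BSet B) := by
  rw [ofNat_mem_omega]; exact le_top

theorem discrete_ofNat : Discrete (ofNat : ℕ → BSet B) := fun _ _ h => ofNat_discrete h

/-! ### Groups of names -/

/-- The family `n` names an additive group, the value of the addition (modulo `m`, on the index set
`w`) being the addition of `K`. -/
structure GrpName (m : ℕ) (w : BSet B) {K : Type} [AddCommGroup K] (n : K → BSet B) : Prop where
  disc : Discrete n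
  add_eq : ∀ x y, (str B).bAdd m w (n x) (n y) (n (x + y)) = ⊤
  add_ne : ∀ x y z, z ≠ x + y → (str B).bAdd m w (n x) (n y) (n z) = ⊥

section one

variable {m : ℕ} {w : BSet B} {K : Type} [AddCommGroup K] {n : K → BSet B}

theorem GrpName.elim (hn : GrpName m w n) {x y z : K} {Γ c : B}
    (h : Γ ≤ (str B).bAdd m w (n x) (n y) (n z)) (k : z = x + y → Γ ≤ c) : Γ ≤ c := by
  by_cases hz : z = x + y
  · exact k hz
  · rw [hn.add_ne x y z hz] at h
    exact h.trans bot_le

theorem GrpName.le_add (hn : GrpName m w n) (x y : K) (Γ : B) :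
    Γ ≤ (str B).bAdd m w (n x) (n y) (n (x + y)) := by
  rw [hn.add_eq]; exact le_top

/-- Subgroups. -/
theorem bSubgrp_eq (hn : GrpName m w n) (l : BSet B) :
    (str B).bSubgrp m w (fam n) l = bsub l (fam n) ⊓ bSub (fun g => bmem (n g) l) := by
  apply le_antisymm
  · unfold BStr.bSubgrp
    rw [str_bSubset]
    refine le_inf (inf_le_left.trans inf_le_left) ?_
    unfold bSub
    refine le_inf ?_ ?_
    · have h1 : (⨅ o, ((str B).mem o (fam n) ⊓ (str B).bAdd m w o o o ⇨ (str B).mem o l)) ≤
          bmem (n 0) l := by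
        refine bv_mp (iInf_le _ (n 0)) (le_inf (mem_fam_le n 0 _) ?_)
        have := hn.le_add 0 0 (⨅ o, ((str B).mem o (fam n) ⊓ (str B).bAdd m w o o o ⇨
          (str B).mem o l))
        rwa [add_zero] at this
      exact (inf_le_left.trans inf_le_right).trans h1
    · refine le_iInf fun x => le_iInf fun y => bv_imp fun Δ hΔ h => ?_
      have h1 := bv_all (bv_all (bv_all (bv_right hΔ) (n x)) (n y)) (n (x + y))
      exact bv_mp h1 (le_inf (le_inf h (mem_fam_le n _ _)) (hn.le_add x y _))
  · unfold BStr.bSubgrp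
    rw [str_bSubset]
    refine le_inf (le_inf inf_le_left ?_) ?_
    · refine le_iInf fun o => bv_imp fun Δ hΔ h => ?_
      have h1 : Δ ≤ bmem o (fam n) := bv_left h
      rw [bmem_fam] at h1
      refine bv_exists h1 fun g E hE hg => ?_
      have h2 : E ≤ (str B).bAdd m w (n g) (n g) (n g) :=
        bAdd_congr hg hg hg (hE.trans (bv_right h))
      refine hn.elim h2 fun h3 => ?_
      have h4 : g = 0 := by
        have : g + 0 = g + g := by rw [add_zero]; exact h3
        exact (add_left_cancel this).symm
      subst h4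
      refine bmem_congr_left (beq_symm' hg) ?_
      exact (hE.trans hΔ).trans (inf_le_right.trans inf_le_left)
    · refine le_iInf fun x => le_iInf fun y => le_iInf fun z => bv_imp fun Δ hΔ h => ?_
      have hx : Δ ≤ bmem x l := bv_left (bv_left (bv_left h))
      have hy : Δ ≤ bmem y l := bv_right (bv_left (bv_left h))
      have hz : Δ ≤ bmem z (fam n) := bv_right (bv_left h)
      have hadd : Δ ≤ (str B).bAdd m w x y z := bv_right h
      have hs : Δ ≤ bsub l (fam n) := bv_left hΔ
      have hx' : Δ ≤ bmem x (fam n) := (le_inf hs hx).trans (bsub_inf_bmem x l _)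
      have hy' : Δ ≤ bmem y (fam n) := (le_inf hs hy).trans (bsub_inf_bmem y l _)
      rw [bmem_fam] at hx' hy' hz
      refine bv_exists hx' fun a E hE ha => bv_exists (hE.trans hy') fun b E' hE' hb =>
        bv_exists (hE'.trans (hE.trans hz)) fun c E₂ hE₂ hc => ?_
      have hEΔ : E₂ ≤ Δ := hE₂.trans (hE'.trans hE)
      have ha' : E₂ ≤ beq x (n a) := (hE₂.trans hE').trans ha
      have hb' : E₂ ≤ beq y (n b) := hE₂.trans hb
      have h2 : E₂ ≤ (str B).bAdd m w (n a) (n b) (n c) :=
        bAdd_congr ha' hb' hc (hEΔ.trans hadd)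
      refine hn.elim h2 fun h3 => ?_
      subst h3
      refine bmem_congr_left (beq_symm' hc) ?_
      have h4 := bv_right (hEΔ.trans hΔ)
      unfold bSub at h4
      refine bv_mp (bv_all (bv_all (bv_right h4) a) b) (le_inf ?_ ?_)
      · exact bmem_congr_left ha' (hEΔ.trans hx)
      · exact bmem_congr_left hb' (hEΔ.trans hy)

/-- Differences. -/
theorem iSup_diff (hn : GrpName m w n) {l : BSet B} {Γ : B} (hl : Γ ≤ bsub l (fam n)) (x y : K)
    (h : Γ ≤ ⨆ z, (str B).mem z l ⊓ (str B).bAdd m w (n y) z (n x)) :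
    Γ ≤ bmem (n (x - y)) l := by
  refine bv_exists h fun z Δ hΔ hz => ?_
  have hz' : Δ ≤ bmem z (fam n) :=
    (le_inf (hΔ.trans hl) (bv_left hz)).trans (bsub_inf_bmem z l _)
  rw [bmem_fam] at hz'
  refine bv_exists hz' fun c E hE hc => ?_
  have h2 : E ≤ (str B).bAdd m w (n y) (n c) (n x) :=
    bAdd_congr (by rw [beq_refl]; exact le_top) hc (by rw [beq_refl]; exact le_top)
      (hE.trans (bv_right hz))
  refine hn.elim h2 fun h3 => ?_
  have h4 : x - y = c := by rw [h3]; abel
  rw [h4]
  exact bmem_congr_left hc (hE.trans (bv_left hz))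

theorem iSup_diff' (hn : GrpName m w n) {l : BSet B} {Γ : B} (x y : K)
    (h : Γ ≤ bmem (n (x - y)) l) :
    Γ ≤ ⨆ z, (str B).mem z l ⊓ (str B).bAdd m w (n y) z (n x) := by
  refine bv_intro (n (x - y)) (le_inf h ?_)
  have h1 := hn.le_add y (x - y) Γ
  rwa [add_sub_cancel] at h1

/-- Countable index. -/
theorem bCIdx_le (hn : GrpName m w n) {l : BSet B} {Γ : B} (hl : Γ ≤ bsub l (fam n))
    (h : Γ ≤ (str B).bCIdx m w (fam n) l) : Γ ≤ bIdx (fun g => bmem (n g) l) := by
  unfold BStr.bCIdx at h
  refine bv_exists h fun o Δ hΔ ho => bv_exists ho fun r E hE hr => ?_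
  have hEΓ : E ≤ Γ := hE.trans hΔ
  have h0 : E ≤ beq o omega := by
    rw [← str_bOmega]; exact bv_left (bv_left hr)
  have h1 := bv_right (bv_left hr)
  have h2 := bv_right hr
  unfold bIdx
  refine bv_intro (fun x k => pmem (n x) (ofNat k) r) (le_inf (le_iInf fun x => ?_)
    (le_iInf fun x => le_iInf fun y => le_iInf fun k => bv_imp fun F hF hxy => ?_))
  · have h3 := bv_mp (bv_all h1 (n x)) (mem_fam_le n x _)
    refine bv_exists h3 fun k F hF hk => ?_
    have h4 : F ≤ bmem k omega := bmem_congr_right (hF.trans h0) (bv_left hk)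
    rw [bmem_omega] at h4
    refine bv_exists h4 fun j G hG hj => bv_intro j ?_
    refine (ext_pmem₂ (n x) r).le hj ?_
    rw [← str_bRel]
    exact hG.trans (bv_right hk)
  · have h3 := bv_mp (bv_all (bv_all (bv_all (hF.trans h2) (n x)) (n y)) (ofNat k)) (le_inf
      (le_inf (le_inf (le_inf (mem_fam_le n x _) (mem_fam_le n y _)) ?_) ?_) ?_)
    · exact iSup_diff hn ((hF.trans hEΓ).trans hl) x y h3
    · exact bmem_congr_right (beq_symm' (hF.trans h0)) (mem_omega_le k _)
    · rw [str_bRel]; exact bv_left hxy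
    · rw [str_bRel]; exact bv_right hxy

theorem le_bCIdx (hn : GrpName m w n) {l : BSet B} {Γ : B}
    (h : Γ ≤ bIdx (fun g => bmem (n g) l)) : Γ ≤ (str B).bCIdx m w (fam n) l := by
  unfold bIdx at h
  refine bv_exists h fun ρ Δ hΔ hρ => ?_
  unfold BStr.bCIdx
  refine bv_intro omega (bv_intro (relName n ofNat ρ) (le_inf (le_inf ?_ ?_) ?_))
  · rw [str_bOmega, beq_refl]; exact le_top
  · refine le_iInf fun x => bv_imp fun E hE hx => ?_
    have hx' : E ≤ bmem x (fam n) := hx
    rw [bmem_fam] at hx'
    refine bv_exists hx' fun a F hF ha => ?_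
    have h1 := bv_all (hF.trans (hE.trans (bv_left hρ))) a
    refine bv_exists h1 fun k G hG hk => bv_intro (ofNat k) (le_inf (mem_omega_le k _) ?_)
    rw [str_bRel]
    refine (ext_pmem₁ (ofNat k) _).le (x := n a) (beq_symm' (hG.trans ha)) ?_
    rw [pmem_relName_of_discrete hn.disc discrete_ofNat]
    exact hk
  · refine le_iInf fun x => le_iInf fun y => le_iInf fun k => bv_imp fun E hE hh => ?_
    have hx : E ≤ bmem x (fam n) := bv_left (bv_left (bv_left (bv_left hh)))
    have hy : E ≤ bmem y (fam n) := bv_right (bv_left (bv_left (bv_left hh)))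
    have hk : E ≤ bmem k omega := bv_right (bv_left (bv_left hh))
    have hxk : E ≤ pmem x k (relName n ofNat ρ) := by
      rw [← str_bRel]; exact bv_right (bv_left hh)
    have hyk : E ≤ pmem y k (relName n ofNat ρ) := by
      rw [← str_bRel]; exact bv_right hh
    rw [bmem_fam] at hx hy
    rw [bmem_omega] at hk
    refine bv_exists hx fun a F hF ha => bv_exists (hF.trans hy) fun b F' hF' hb =>
      bv_exists (hF'.trans (hF.trans hk)) fun j G hG hj => ?_
    have hGE : G ≤ E := hG.trans (hF'.trans hF)
    have ha' : G ≤ beq x (n a) := (hG.trans hF').trans ha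
    have hb' : G ≤ beq y (n b) := hG.trans hb
    have h1 : G ≤ ρ a j := by
      rw [← pmem_relName_of_discrete hn.disc discrete_ofNat ρ a j]
      exact (ext_pmem₂ (n a) _).le hj ((ext_pmem₁ k _).le ha' (hGE.trans hxk))
    have h2 : G ≤ ρ b j := by
      rw [← pmem_relName_of_discrete hn.disc discrete_ofNat ρ b j]
      exact (ext_pmem₂ (n b) _).le hj ((ext_pmem₁ k _).le hb' (hGE.trans hyk))
    have h3 := bv_mp (bv_all (bv_all (bv_all ((hGE.trans hE).trans (bv_right hρ)) a) b) j)
      (le_inf h1 h2)
    refine bv_exists (iSup_diff' hn a b h3) fun z H hH hz => bv_intro z (le_inf (bv_left hz) ?_)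
    exact bAdd_congr (beq_symm' (hH.trans hb')) (by rw [beq_refl]; exact le_top)
      (beq_symm' (hH.trans ha')) (bv_right hz)

end one

/-! ### Bijections and continuity -/

section two

variable {m m' : ℕ} {w : BSet B} {K K' : Type} [AddCommGroup K] [AddCommGroup K']
  {n : K → BSet B} {n' : K' → BSet B}

theorem bBijection_eq (hn : GrpName m w n) (hn' : GrpName m' w n') (f : BSet B) :
    (str B).bBijection (fam n) (fam n') f = bBij (fun x y => pmem (n x) (n' y) f) := by
  apply le_antisymm
  · unfold BStr.bBijection bBij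
    simp only [str_bRel, str_mem, str_eq]
    refine le_of_forall_le fun Γ hΓ => ?_
    refine le_inf (le_inf ?_ ?_) (le_inf ?_ ?_)
    · refine le_iInf fun x => ?_
      have h1 := bv_mp (bv_all (hΓ.trans (inf_le_left.trans (inf_le_left.trans inf_le_left)))
        (n x)) (mem_fam_le n x _)
      refine bv_exists h1 fun y Δ hΔ hy => ?_
      have h2 := bv_left hy
      rw [bmem_fam] at h2
      exact bv_exists h2 fun b E hE hb => bv_intro b
        ((ext_pmem₂ (n x) f).le hb (hE.trans (bv_right hy)))
    · refine le_iInf fun x => le_iInf fun y => le_iInf fun y' => le_iInf fun hne =>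
        bv_not fun Δ hΔ h => ?_
      refine le_trans ?_ (hn'.disc y y' hne).le
      have h1 := (hΔ.trans hΓ).trans (inf_le_left.trans (inf_le_left.trans inf_le_right))
      exact bv_mp (bv_all (bv_all (bv_all h1 (n x)) (n' y)) (n' y'))
        (le_inf (le_inf (le_inf (le_inf (mem_fam_le n x _) (mem_fam_le n' y _))
        (mem_fam_le n' y' _)) (bv_left h)) (bv_right h))
    · refine le_iInf fun y => ?_
      have h1 := bv_mp (bv_all (hΓ.trans (inf_le_left.trans inf_le_right)) (n' y))
        (mem_fam_le n' y _)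
      refine bv_exists h1 fun x Δ hΔ hx => ?_
      have h2 := bv_left hx
      rw [bmem_fam] at h2
      exact bv_exists h2 fun a E hE ha => bv_intro a
        ((ext_pmem₁ (n' y) f).le ha (hE.trans (bv_right hx)))
    · refine le_iInf fun y => le_iInf fun x => le_iInf fun x' => le_iInf fun hne =>
        bv_not fun Δ hΔ h => ?_
      refine le_trans ?_ (hn.disc x x' hne).le
      have h1 := (hΔ.trans hΓ).trans inf_le_right
      exact bv_mp (bv_all (bv_all (bv_all h1 (n' y)) (n x)) (n x'))
        (le_inf (le_inf (le_inf (le_inf (mem_fam_le n' y _) (mem_fam_le n x _))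
        (mem_fam_le n x' _)) (bv_left h)) (bv_right h))
  · unfold BStr.bBijection bBij
    simp only [str_bRel, str_mem, str_eq]
    refine le_inf (le_inf (le_inf ?_ ?_) ?_) ?_
    · refine le_iInf fun x => bv_imp fun Δ hΔ hx => ?_
      rw [bmem_fam] at hx
      refine bv_exists hx fun a E hE ha => ?_
      have h1 := bv_all (hE.trans (hΔ.trans (inf_le_left.trans inf_le_left))) a
      refine bv_exists h1 fun b F hF hb => bv_intro (n' b) (le_inf (mem_fam_le n' b _) ?_)
      exact (ext_pmem₁ (n' b) f).le (beq_symm' (hF.trans ha)) hb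
    · refine le_iInf fun x => le_iInf fun y => le_iInf fun y' => bv_imp fun Δ hΔ h => ?_
      have hx := bv_left (bv_left (bv_left (bv_left h)))
      have hy := bv_right (bv_left (bv_left (bv_left h)))
      have hy' := bv_right (bv_left (bv_left h))
      have hxy := bv_right (bv_left h)
      have hxy' := bv_right h
      rw [bmem_fam] at hx hy hy'
      refine bv_exists hx fun a E hE ha => bv_exists (hE.trans hy) fun b F hF hb =>
        bv_exists (hF.trans (hE.trans hy')) fun b' G hG hb' => ?_
      have hGΔ : G ≤ Δ := hG.trans (hF.trans hE)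
      have ha' : G ≤ beq x (n a) := (hG.trans hF).trans ha
      have hb2 : G ≤ beq y (n' b) := hG.trans hb
      by_cases hbb : b = b'
      · subst hbb
        exact beq_trans' hb2 (beq_symm' hb')
      · have h1 := bv_all (bv_all (bv_all (bv_all ((hGΔ.trans hΔ).trans
          (inf_le_left.trans inf_le_right)) a) b) b') hbb
        refine bv_absurd (le_inf ?_ ?_) h1
        · exact (ext_pmem₂ (n a) f).le hb2 ((ext_pmem₁ y f).le ha' (hGΔ.trans hxy))
        · exact (ext_pmem₂ (n a) f).le hb' ((ext_pmem₁ y' f).le ha' (hGΔ.trans hxy'))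
    · refine le_iInf fun y => bv_imp fun Δ hΔ hy => ?_
      rw [bmem_fam] at hy
      refine bv_exists hy fun b E hE hb => ?_
      have h1 := bv_all (hE.trans (hΔ.trans (inf_le_right.trans inf_le_left))) b
      refine bv_exists h1 fun a F hF ha => bv_intro (n a) (le_inf (mem_fam_le n a _) ?_)
      exact (ext_pmem₂ (n a) f).le (beq_symm' (hF.trans hb)) ha
    · refine le_iInf fun y => le_iInf fun x => le_iInf fun x' => bv_imp fun Δ hΔ h => ?_
      have hy := bv_left (bv_left (bv_left (bv_left h)))
      have hx := bv_right (bv_left (bv_left (bv_left h)))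
      have hx' := bv_right (bv_left (bv_left h))
      have hxy := bv_right (bv_left h)
      have hxy' := bv_right h
      rw [bmem_fam] at hx hy hx'
      refine bv_exists hy fun b E hE hb => bv_exists (hE.trans hx) fun a F hF ha =>
        bv_exists (hF.trans (hE.trans hx')) fun a' G hG ha' => ?_
      have hGΔ : G ≤ Δ := hG.trans (hF.trans hE)
      have hb' : G ≤ beq y (n' b) := (hG.trans hF).trans hb
      have ha2 : G ≤ beq x (n a) := hG.trans ha
      by_cases hbb : a = a'
      · subst hbb
        exact beq_trans' ha2 (beq_symm' ha')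
      · have h1 := bv_all (bv_all (bv_all (bv_all ((hGΔ.trans hΔ).trans
          (inf_le_right.trans inf_le_right)) b) a) a') hbb
        refine bv_absurd (le_inf ?_ ?_) h1
        · exact (ext_pmem₂ (n a) f).le hb' ((ext_pmem₁ y f).le ha2 (hGΔ.trans hxy))
        · exact (ext_pmem₂ (n a') f).le hb' ((ext_pmem₁ y f).le ha' (hGΔ.trans hxy'))

theorem ext_bGraph_left (sw : Bool) (f y : BSet B) : Ext (fun x => (str B).bGraph sw f x y) := by
  cases sw
  · unfold BStr.bGraph
    simp only [str_bRel]
    exact ext_pmem₁ y f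
  · unfold BStr.bGraph
    simp only [str_bRel]
    exact ext_pmem₂ y f

theorem ext_bGraph_right (sw : Bool) (f x : BSet B) : Ext (fun y => (str B).bGraph sw f x y) := by
  cases sw
  · unfold BStr.bGraph
    simp only [str_bRel]
    exact ext_pmem₂ x f
  · unfold BStr.bGraph
    simp only [str_bRel]
    exact ext_pmem₁ x f

omit [AddCommGroup K] in
theorem bmem_subName_fun (hn : Discrete n) (lam : K → B) :
    (fun g => bmem (n g) (subName n lam)) = lam := by
  funext g
  exact bmem_subName_of_discrete hn lam g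

theorem bContinuous_eq (hn : GrpName m w n) (hn' : GrpName m' w n') (sw : Bool) (f : BSet B) :
    (str B).bContinuous sw m m' w (fam n) (fam n') f =
      bCont (fun x y => (str B).bGraph sw f (n x) (n' y)) := by
  apply le_antisymm
  · unfold BStr.bContinuous bCont
    refine le_iInf fun x => le_iInf fun y => bv_imp fun Γ hΓ hxy => le_iInf fun lam =>
      bv_imp fun Δ hΔ hlam => ?_
    have h1 := bv_mp (bv_all (bv_all hΓ (n x)) (n' y))
      (le_inf (le_inf (mem_fam_le n x _) (mem_fam_le n' y _)) hxy)
    have hl1 : Δ ≤ (str B).bSubgrp m' w (fam n') (subName n' lam) := by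
      rw [bSubgrp_eq hn', subName_sub, top_inf_eq, bmem_subName_fun hn'.disc]
      exact bv_left hlam
    have hl2 : Δ ≤ (str B).bCIdx m' w (fam n') (subName n' lam) := by
      refine le_bCIdx hn' ?_
      rw [bmem_subName_fun hn'.disc]
      exact bv_right hlam
    have h2 := bv_mp (bv_all (hΔ.trans h1) (subName n' lam)) (le_inf hl1 hl2)
    refine bv_exists h2 fun k E hE hk => ?_
    have hk1 := bv_left (bv_left hk)
    rw [bSubgrp_eq hn] at hk1
    have hk2 := bCIdx_le hn (bv_left hk1) (bv_right (bv_left hk))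
    refine bv_intro (fun g => bmem (n g) k) (le_inf (le_inf (bv_right hk1) hk2)
      (le_iInf fun z => le_iInf fun v => bv_imp fun F hF hzv => ?_))
    have h3 := bv_mp (bv_all (bv_all (bv_all (hF.trans (bv_right hk)) (n z)) (n (x + z)))
      (n' v)) (le_inf (le_inf (le_inf (le_inf (bv_left hzv) (mem_fam_le n _ _))
        (mem_fam_le n' _ _)) (hn.le_add x z _)) (bv_right hzv))
    have h4 := iSup_diff hn' (l := subName n' lam) (by rw [subName_sub]; exact le_top) v y h3
    rwa [bmem_subName_of_discrete hn'.disc] at h4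
  · unfold BStr.bContinuous bCont
    refine le_iInf fun x => le_iInf fun y => bv_imp fun Γ hΓ hxy => le_iInf fun l =>
      bv_imp fun Δ hΔ hl => ?_
    have hx : Γ ≤ bmem x (fam n) := bv_left (bv_left hxy)
    have hy : Γ ≤ bmem y (fam n') := bv_right (bv_left hxy)
    rw [bmem_fam] at hx hy
    refine bv_exists (hΔ.trans hx) fun a E hE ha => bv_exists (hE.trans (hΔ.trans hy))
      fun b F hF hb => ?_
    have hFΔ : F ≤ Δ := hF.trans hE
    have ha' : F ≤ beq x (n a) := hF.trans ha
    have hl1 := bv_left (hFΔ.trans hl)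
    rw [bSubgrp_eq hn'] at hl1
    have hl2 := bCIdx_le hn' (bv_left hl1) (bv_right (hFΔ.trans hl))
    have hg : F ≤ (str B).bGraph sw f (n a) (n' b) :=
      (ext_bGraph_right sw f (n a)).le hb ((ext_bGraph_left sw f y).le ha'
        ((hFΔ.trans hΔ).trans (bv_right hxy)))
    have h1 := bv_mp (bv_all (bv_mp (bv_all (bv_all ((hFΔ.trans hΔ).trans hΓ) a) b) hg)
      (fun g => bmem (n' g) l)) (le_inf (bv_right hl1) hl2)
    refine bv_exists h1 fun kap G hG hkap => ?_
    refine bv_intro (subName n kap) (le_inf (le_inf ?_ ?_) ?_)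
    · rw [bSubgrp_eq hn, subName_sub, top_inf_eq, bmem_subName_fun hn.disc]
      exact bv_left (bv_left hkap)
    · refine le_bCIdx hn ?_
      rw [bmem_subName_fun hn.disc]
      exact bv_right (bv_left hkap)
    · refine le_iInf fun z => le_iInf fun u => le_iInf fun v => bv_imp fun H hH hh => ?_
      have hz : H ≤ bmem z (subName n kap) := bv_left (bv_left (bv_left (bv_left hh)))
      have hu : H ≤ bmem u (fam n) := bv_right (bv_left (bv_left (bv_left hh)))
      have hv : H ≤ bmem v (fam n') := bv_right (bv_left (bv_left hh))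
      have hadd : H ≤ (str B).bAdd m w x z u := bv_right (bv_left hh)
      have hgr : H ≤ (str B).bGraph sw f u v := bv_right hh
      have hz' := hz
      rw [bmem_subName] at hz'
      rw [bmem_fam] at hu hv
      refine bv_exists hz' fun c I hI hc => bv_exists (hI.trans hu) fun d J hJ hd =>
        bv_exists (hJ.trans (hI.trans hv)) fun e L hL he => ?_
      have hLH : L ≤ H := hL.trans (hJ.trans hI)
      have hLF : L ≤ F := (hLH.trans hH).trans hG
      have hc' : L ≤ beq z (n c) := (hL.trans hJ).trans (bv_right hc)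
      have hd' : L ≤ beq u (n d) := hL.trans hd
      have h2 : L ≤ (str B).bAdd m w (n a) (n c) (n d) :=
        bAdd_congr (hLF.trans ha') hc' hd' (hLH.trans hadd)
      refine hn.elim h2 fun h3 => ?_
      subst h3
      have h4 := bv_mp (bv_all (bv_all ((hLH.trans hH).trans (bv_right hkap)) c) e)
        (le_inf ((hL.trans hJ).trans (bv_left hc))
          ((ext_bGraph_right sw f (n (a + c))).le he
            ((ext_bGraph_left sw f v).le hd' (hLH.trans hgr))))
      refine bv_intro (n' (e - b)) (le_inf h4 ?_)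
      refine bAdd_congr (x := n' b) (y := n' (e - b)) (z := n' e) (beq_symm' (hLF.trans hb))
        (by rw [beq_refl]; exact le_top) (beq_symm' he) ?_
      have h5 := hn'.le_add b (e - b) L
      rwa [add_sub_cancel] at h5

end two

end M3.BSet
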