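import Mathlib
import Pool.Agent.H.MP_8ff4bd_gt.M3.Ground
import Pool.Agent.H.MP_8ff4bd_gt.M3.BijZMod

/-!
# The ground bijection (part IV): `TreeBij W rho` for every injective `rho`
-/

namespace M3

open Bij

/-- The branch through the node `s`. -/
def brn (s : List Bool) : ℕ → Bool := fun k => s.getD k false

theorem pre_eq_iff {W : Type} (rho : W → ℕ → Bool) (x : W) (s : List Bool) :
    pre rho x s.length = s ↔ Ag (rho x) (brn s) s.length := by
  unfold pre brn
  constructor
  · intro h k hk
    have h1 : (List.ofFn (fun i : Fin s.length => rho x i)).getD k false = s.getD k false := by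
      rw [h]
    change rho x k = s.getD k false
    rw [← h1, List.getD_eq_getElem _ _ (by simpa using hk)]
    simp
  · intro h
    refine List.ext_getElem (by simp) fun k h1 h2 => ?_
    rw [List.getElem_ofFn]
    have h3 : rho x k = s.getD k false := h k h2
    rw [List.getD_eq_getElem _ _ h2] at h3
    exact h3

theorem nsum_eq_ns {W A : Type} [AddCommGroup A] (rho : W → ℕ → Bool) (g : W →₀ A)
    (s : List Bool) : nsum rho g s = ns rho g (brn s) s.length := by
  classical
  unfold nsum
  rw [ns_eq_sum_filter rho (Finset.Subset.refl _)]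
  refine Finset.sum_congr (Finset.filter_congr fun x _ => ?_) fun _ _ => rfl
  exact pre_eq_iff rho x s

theorem mem_CL_iff {p : ℕ} [NeZero p] {b : ℕ → ℕ} {n m : ℕ} (h : b m = cut n)
    (v : ℕ →₀ ZMod p) : v ∈ CL b m ↔ v ∈ (cutFilt (ZMod p)).L n := by
  change (∀ j, b m ≤ j → v j = 0) ↔ v ∈ Finsupp.supported (ZMod p) ℤ {i : ℕ | i < cut n}
  rw [Finsupp.mem_supported]
  constructor
  · intro h1 i hi
    by_contra hc
    have h2 : cut n ≤ i := Nat.le_of_not_lt hc
    exact (Finsupp.mem_support_iff.mp (Finset.mem_coe.mp hi)) (h1 i (h ▸ h2))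
  · intro h1 j hj
    by_contra hc
    have h2 : j < cut n := h1 (Finset.mem_coe.mpr (Finsupp.mem_support_iff.mpr hc))
    omega

theorem nlocal_equiv {W : Type} {A A' : Type} [AddCommGroup A] [AddCommGroup A']
    (D : SB A A') {rho : W → ℕ → Bool} (hrho : Function.Injective rho) :
    NLocal rho (D.equiv hrho) := by
  intro g g' k h s hs
  rw [nsum_eq_ns, nsum_eq_ns]
  refine D.equiv_local hrho fun j hj => ?_
  -- the prefix of length `j` of `s`
  have h1 : (s.take j).length = j := by rw [List.length_take]; omega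
  have h2 := h (s.take j) (by omega)
  rw [nsum_eq_ns, nsum_eq_ns, h1] at h2
  have h3 : Ag (brn (s.take j)) (brn s) j := by
    intro i hi
    unfold brn
    rw [List.getD_eq_getElem _ _ (by omega : i < (s.take j).length),
      List.getD_eq_getElem _ _ (by omega : i < s.length)]
    simp
  rwa [ns_congr rho h3, ns_congr rho h3] at h2

/-- The levels on the side of `ZMod 2`. -/
def lva (m : ℕ) : ℕ := cut (2 * m)

/-- The levels on the side of `ZMod 3`. -/
def lvb : ℕ → ℕ
  | 0 => 0
  | m + 1 => cut (2 * (m + 1) + 1)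

theorem lev_lva : Lev lva where
  mono := fun m n h => cut_mono (by omega)
  zero := rfl
  unb := fun j => ⟨j + 1, by
    have := le_cut (2 * (j + 1))
    unfold lva
    omega⟩

theorem lev_lvb : Lev lvb where
  mono := by
    refine monotone_nat_of_le_succ fun n => ?_
    cases n with
    | zero => exact Nat.zero_le _
    | succ n => exact cut_mono (by omega)
  zero := rfl
  unb := fun j => ⟨j + 1, by
    have := le_cut (2 * (j + 1) + 1)
    change j < cut (2 * (j + 1) + 1)
    omega⟩

/-- PART IV: the ground bijection. -/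
theorem treeBij' {W : Type} (rho : W → ℕ → Bool) (h : Function.Injective rho) :
    TreeBij W rho := by
  refine ⟨lva, lvb, lev_lva, lev_lvb, sb23.equiv h, ?_, ?_, ?_, nlocal_equiv _ h, ?_⟩
  · intro g s m hm
    have hr : (cutFilt (ZMod 2)).RR (cutFilt (ZMod 3)) (nsum rho g s)
        (nsum rho (sb23.equiv h g) s) := by
      rw [nsum_eq_ns, nsum_eq_ns]; exact sb23.equiv_rel h g (brn s) s.length
    rw [mem_CL_iff (b := lva) (n := 2 * m) rfl] at hm
    cases m with
    | zero =>
      rw [mem_CL_iff (b := lvb) (m := 0) (n := 0) rfl, (cutFilt (ZMod 3)).zero, AddSubgroup.mem_bot]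
      rw [(cutFilt (ZMod 2)).zero, AddSubgroup.mem_bot] at hm
      exact hr.1.mp hm
    | succ m =>
      rw [mem_CL_iff (b := lvb) (m := m + 1) (n := 2 * (m + 1) + 1) rfl, ← Filt.lev_le_iff]
      rw [← Filt.lev_le_iff] at hm
      have := hr.2.2
      omega
  · intro g s m hm
    have hr : (cutFilt (ZMod 2)).RR (cutFilt (ZMod 3)) (nsum rho g s)
        (nsum rho (sb23.equiv h g) s) := by
      rw [nsum_eq_ns, nsum_eq_ns]; exact sb23.equiv_rel h g (brn s) s.length
    cases m with
    | zero =>
      rw [mem_CL_iff (b := lvb) (m := 0) (n := 0) rfl, (cutFilt (ZMod 3)).zero, AddSubgroup.mem_bot] at hm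
      rw [hr.1.mpr hm]
      exact (CL lva (0 + 1)).zero_mem
    | succ m =>
      rw [mem_CL_iff (b := lvb) (m := m + 1) (n := 2 * (m + 1) + 1) rfl, ← Filt.lev_le_iff] at hm
      rw [mem_CL_iff (b := lva) (m := m + 1 + 1) (n := 2 * (m + 1 + 1)) rfl, ← Filt.lev_le_iff]
      have := hr.2.1
      omega
  · intro g s hg
    rw [nsum_eq_ns] at hg ⊢
    exact (sb23.hz (sb23.equiv_rel h g (brn s) s.length)).mpr hg
  · rw [SB.equiv_symm]
    exact nlocal_equiv _ h

end M3
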