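import Pool.Agent.H.MP_8ff4bd_gt.M3.Ground

/-!
# Counting the coordinate subgroups
-/

set_option autoImplicit false

namespace M3

/-- The cuts of the levels. -/
def cc : ℕ → ℕ
  | 0 => 0
  | n + 1 => 3 * cc n + 3

theorem lev_cc : Lev cc where
  mono := monotone_nat_of_le_succ fun n => by
    show cc n ≤ 3 * cc n + 3
    omega
  zero := rfl
  unb := fun j => by
    refine ⟨j + 1, ?_⟩
    induction j with
    | zero => show 0 < 3 * cc 0 + 3; omega
    | succ j ih => show j + 1 < 3 * cc (j + 1) + 3; omega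

/-- The coordinates of an element of the coordinate subgroup. -/
noncomputable def clEquiv (p m : ℕ) : CL (p := p) cc m ≃ (Fin (cc m) → ZMod p) := by
  classical
  refine Equiv.ofBijective (fun v i => v.1 i) ⟨?_, ?_⟩
  · intro v w h
    apply Subtype.ext
    ext j
    by_cases hj : j < cc m
    · exact congrFun h ⟨j, hj⟩
    · rw [v.2 j (by omega), w.2 j (by omega)]
  · intro f
    refine ⟨⟨Finsupp.onFinset (Finset.range (cc m))
      (fun j => if h : j < cc m then f ⟨j, h⟩ else 0) (fun j hj => ?_), fun j hj => ?_⟩, ?_⟩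
    · rw [Finset.mem_range]
      by_contra h
      exact hj (dif_neg h)
    · rw [Finsupp.onFinset_apply, dif_neg (by omega)]
    · funext i
      simp

theorem finite_CL (p m : ℕ) [NeZero p] : ((CL (p := p) cc m : Set (ℕ →₀ ZMod p))).Finite := by
  have : Finite (CL (p := p) cc m) := Finite.of_equiv _ (clEquiv p m).symm
  exact Set.toFinite _

theorem ncard_CL (p m : ℕ) [NeZero p] :
    ((CL (p := p) cc m : Set (ℕ →₀ ZMod p))).ncard = p ^ cc m := by
  rw [← Nat.card_coe_set_eq]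
  show Nat.card (CL (p := p) cc m) = _
  rw [Nat.card_congr (clEquiv p m), Nat.card_eq_fintype_card, Fintype.card_fun, ZMod.card,
    Fintype.card_fin]

theorem card_target (p m n : ℕ) [NeZero p] (t : ℕ →₀ ZMod p) :
    p ^ cc m ≤ ({y : ℕ →₀ ZMod p | y ∈ CL (p := p) cc m ∧ y ∉ CL (p := p) cc n ∧
      t - y ∉ CL (p := p) cc n}).ncard + 2 * p ^ cc n := by
  classical
  set S := {y : ℕ →₀ ZMod p | y ∈ CL (p := p) cc m ∧ y ∉ CL (p := p) cc n ∧
      t - y ∉ CL (p := p) cc n} with hS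
  set C : Set (ℕ →₀ ZMod p) := (CL (p := p) cc n : Set (ℕ →₀ ZMod p)) with hC
  have h1 : (CL (p := p) cc m : Set (ℕ →₀ ZMod p)) ⊆ S ∪ (C ∪ (fun y => t - y) '' C) := by
    intro y hy
    by_cases h2 : y ∈ CL (p := p) cc n
    · exact Or.inr (Or.inl h2)
    · by_cases h3 : t - y ∈ CL (p := p) cc n
      · exact Or.inr (Or.inr ⟨t - y, h3, by simp⟩)
      · exact Or.inl ⟨hy, h2, h3⟩
  have hfC : C.Finite := finite_CL p n
  have hfS : S.Finite := (finite_CL p m).subset fun y hy => hy.1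
  have h2 := Set.ncard_le_ncard h1 (hfS.union (hfC.union (hfC.image _)))
  have h3 := Set.ncard_union_le S (C ∪ (fun y => t - y) '' C)
  have h4 := Set.ncard_union_le C ((fun y => t - y) '' C)
  have h5 := Set.ncard_image_le (f := fun y => t - y) hfC
  have h6 : C.ncard = p ^ cc n := ncard_CL p n
  rw [ncard_CL] at h2
  omega

theorem exists_embedding_bool (p q m m' n : ℕ) [NeZero p] [NeZero q] (t : ℕ →₀ ZMod p)
    (h : 2 * q ^ cc m' + 2 * p ^ cc n ≤ p ^ cc m) :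
    Nonempty ((CL (p := q) cc m') × Bool ↪ {y : ℕ →₀ ZMod p // y ∈ CL (p := p) cc m ∧
      y ∉ CL (p := p) cc n ∧ t - y ∉ CL (p := p) cc n}) := by
  classical
  have h1 := card_target p m n t
  have hfS : ({y : ℕ →₀ ZMod p | y ∈ CL (p := p) cc m ∧ y ∉ CL (p := p) cc n ∧
      t - y ∉ CL (p := p) cc n}).Finite := (finite_CL p m).subset fun y hy => hy.1
  have hF : Finite {y : ℕ →₀ ZMod p // y ∈ CL (p := p) cc m ∧ y ∉ CL (p := p) cc n ∧
      t - y ∉ CL (p := p) cc n} := hfS.to_subtype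
  have hF2 : Finite (CL (p := q) cc m') := Finite.of_equiv _ (clEquiv q m').symm
  let := Fintype.ofFinite {y : ℕ →₀ ZMod p // y ∈ CL (p := p) cc m ∧ y ∉ CL (p := p) cc n ∧
      t - y ∉ CL (p := p) cc n}
  let := Fintype.ofFinite (CL (p := q) cc m')
  apply Function.Embedding.nonempty_of_card_le
  rw [Fintype.card_prod, Fintype.card_bool, ← Nat.card_eq_fintype_card,
    ← Nat.card_eq_fintype_card]
  have h2 : Nat.card (CL (p := q) cc m') = q ^ cc m' := ncard_CL q m'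
  have h3 : Nat.card {y : ℕ →₀ ZMod p // y ∈ CL (p := p) cc m ∧ y ∉ CL (p := p) cc n ∧
      t - y ∉ CL (p := p) cc n} = ({y : ℕ →₀ ZMod p | y ∈ CL (p := p) cc m ∧
      y ∉ CL (p := p) cc n ∧ t - y ∉ CL (p := p) cc n}).ncard := Nat.card_coe_set_eq _
  rw [h2, h3]
  omega

theorem emb23 (t : ℕ →₀ ZMod 3) (n : ℕ) : Nonempty ((CL (p := 2) cc (n+1)) × Bool ↪
    {y : ℕ →₀ ZMod 3 // y ∈ CL (p := 3) cc (n+1) ∧ y ∉ CL (p := 3) cc n ∧
      t - y ∉ CL (p := 3) cc n}) := by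
  apply exists_embedding_bool
  have h1 : cc (n + 1) = 3 * cc n + 3 := rfl
  rw [h1]
  generalize cc n = d
  have h2 : (2 : ℕ) ^ (3 * d + 3) = 8 * 8 ^ d := by rw [pow_add, pow_mul]; ring
  have h3 : (3 : ℕ) ^ (3 * d + 3) = 27 * 27 ^ d := by rw [pow_add, pow_mul]; ring
  rw [h2, h3]
  have h4 : (8 : ℕ) ^ d ≤ 27 ^ d := Nat.pow_le_pow_left (by norm_num) d
  have h5 : (3 : ℕ) ^ d ≤ 27 ^ d := Nat.pow_le_pow_left (by norm_num) d
  omega

theorem emb32 (s : ℕ →₀ ZMod 2) (n : ℕ) : Nonempty ((CL (p := 3) cc (n+1)) × Bool ↪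
    {y : ℕ →₀ ZMod 2 // y ∈ CL (p := 2) cc (n+2) ∧ y ∉ CL (p := 2) cc (n+1) ∧
      s - y ∉ CL (p := 2) cc (n+1)}) := by
  apply exists_embedding_bool
  have h1 : cc (n + 2) = 3 * cc (n + 1) + 3 := rfl
  rw [h1]
  generalize cc (n + 1) = d
  have h2 : (2 : ℕ) ^ (3 * d + 3) = 8 * 8 ^ d := by rw [pow_add, pow_mul]; ring
  rw [h2]
  have h4 : (3 : ℕ) ^ d ≤ 8 ^ d := Nat.pow_le_pow_left (by norm_num) d
  have h5 : (2 : ℕ) ^ d ≤ 8 ^ d := Nat.pow_le_pow_left (by norm_num) d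
  omega

end M3
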