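import Pool.Agent.H.MP_8ff4bd_gt.M3.Ground

/-!
# Node sums and the recursion over the binary tree

Nodes are lists of bits; in the recursion the lists are reversed (the last bit of the node comes
first).
-/

set_option autoImplicit false

namespace M3

/-! ### The recursion -/

section rec

variable {A A' : Type} [AddCommGroup A] [AddCommGroup A']

/-- An additive function on the (reversed) nodes. -/
def AddN (σ : List Bool → A) : Prop := ∀ r, σ r = σ (false :: r) + σ (true :: r)

variable (c : A → A' → A ≃ A')

/-- The transfer of node functions. -/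
def nodeT (σ : List Bool → A) : List Bool → A'
  | [] => c 0 0 (σ [])
  | false :: r => c (σ r) (nodeT σ r) (σ (false :: r))
  | true :: r => nodeT σ r - c (σ r) (nodeT σ r) (σ (false :: r))

/-- The inverse transfer of node functions. -/
def nodeT' (τ : List Bool → A') : List Bool → A
  | [] => (c 0 0).symm (τ [])
  | false :: r => (c (nodeT' τ r) (τ r)).symm (τ (false :: r))
  | true :: r => nodeT' τ r - (c (nodeT' τ r) (τ r)).symm (τ (false :: r))

theorem addN_nodeT (σ : List Bool → A) : AddN (nodeT c σ) := fun r => by
  simp [nodeT]

theorem addN_nodeT' (τ : List Bool → A') : AddN (nodeT' c τ) := fun r => by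
  simp [nodeT']

theorem nodeT'_nodeT (σ : List Bool → A) (h : AddN σ) (r : List Bool) :
    nodeT' c (nodeT c σ) r = σ r := by
  induction r with
  | nil => simp [nodeT', nodeT]
  | cons b r ih =>
    cases b
    · simp [nodeT', nodeT, ih]
    · have := h r
      simp [nodeT', nodeT, ih]
      rw [this]; abel

theorem nodeT_nodeT' (τ : List Bool → A') (h : AddN τ) (r : List Bool) :
    nodeT c (nodeT' c τ) r = τ r := by
  induction r with
  | nil => simp [nodeT', nodeT]
  | cons b r ih =>
    cases b
    · simp [nodeT', nodeT, ih]
    · have := h r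
      simp [nodeT', nodeT, ih]
      rw [this]; abel

variable {c}

theorem ok_nodeT {OK : A → A' → Prop} (h00 : OK 0 0)
    (hc : ∀ s t, OK s t → ∀ k, OK k (c s t k) ∧ OK (s - k) (t - c s t k))
    (σ : List Bool → A) (h : AddN σ) (r : List Bool) : OK (σ r) (nodeT c σ r) := by
  induction r with
  | nil => exact (hc 0 0 h00 (σ [])).1
  | cons b r ih =>
    have h1 := hc _ _ ih (σ (false :: r))
    cases b
    · exact h1.1
    · have h2 := h1.2
      rw [h r, add_sub_cancel_left] at h2
      rw [← h r] at h2
      exact h2

theorem ok_nodeT' {OK : A → A' → Prop} (h00 : OK 0 0)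
    (hc : ∀ s t, OK s t → ∀ k, OK k (c s t k) ∧ OK (s - k) (t - c s t k))
    (τ : List Bool → A') (h : AddN τ) (r : List Bool) : OK (nodeT' c τ r) (τ r) := by
  have h1 := ok_nodeT h00 hc (nodeT' c τ) (addN_nodeT' c τ) r
  rwa [nodeT_nodeT' c τ h] at h1

theorem nodeT_congr (σ σ' : List Bool → A) (k : ℕ) (h : ∀ r, r.length ≤ k → σ r = σ' r)
    (r : List Bool) (hr : r.length ≤ k) : nodeT c σ r = nodeT c σ' r := by
  induction r with
  | nil => simp only [nodeT]; rw [h [] hr]
  | cons b r ih =>
    have h1 : r.length ≤ k := by
      simp only [List.length_cons] at hr; omega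
    have h2 : (false :: r).length ≤ k := by
      simp only [List.length_cons] at hr ⊢; omega
    cases b
    · simp only [nodeT]; rw [ih h1, h r h1, h _ h2]
    · simp only [nodeT]; rw [ih h1, h r h1, h _ h2]

theorem nodeT'_congr (τ τ' : List Bool → A') (k : ℕ) (h : ∀ r, r.length ≤ k → τ r = τ' r)
    (r : List Bool) (hr : r.length ≤ k) : nodeT' c τ r = nodeT' c τ' r := by
  induction r with
  | nil => simp only [nodeT']; rw [h [] hr]
  | cons b r ih =>
    have h1 : r.length ≤ k := by
      simp only [List.length_cons] at hr; omega
    have h2 : (false :: r).length ≤ k := by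
      simp only [List.length_cons] at hr ⊢; omega
    cases b
    · simp only [nodeT']; rw [ih h1, h r h1, h _ h2]
    · simp only [nodeT']; rw [ih h1, h r h1, h _ h2]

end rec

/-! ### Initial segments -/

section pre

variable {W : Type} (rho : W → ℕ → Bool)

theorem pre_length (x : W) (k : ℕ) : (pre rho x k).length = k := by
  unfold pre; exact List.length_ofFn

theorem pre_succ (x : W) (k : ℕ) : pre rho x (k + 1) = pre rho x k ++ [rho x k] := by
  unfold pre
  rw [List.ofFn_succ_last]
  simp

theorem pre_eq_iff (x y : W) (k : ℕ) : pre rho x k = pre rho y k ↔ ∀ i < k, rho x i = rho y i := by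
  unfold pre
  rw [List.ofFn_inj]
  constructor
  · intro h i hi
    exact congrFun h ⟨i, hi⟩
  · intro h
    funext i
    exact h i i.2

theorem pre_eq_of_le {x y : W} {k l : ℕ} (hkl : k ≤ l) (h : pre rho x l = pre rho y l) :
    pre rho x k = pre rho y k := by
  rw [pre_eq_iff] at *
  exact fun i hi => h i (by omega)

theorem pre_append_iff (x : W) (s : List Bool) (b : Bool) :
    pre rho x (s ++ [b]).length = s ++ [b] ↔ pre rho x s.length = s ∧ rho x s.length = b := by
  rw [List.length_append, List.length_singleton, pre_succ]
  constructor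
  · intro h
    have := List.append_inj' h rfl
    exact ⟨this.1, by simpa using this.2⟩
  · rintro ⟨h1, h2⟩
    rw [h1, h2]

/-- A finite set of points is separated by the initial segments of a certain length. -/
theorem exists_sep (h : Function.Injective rho) (F : Finset W) :
    ∃ k0, ∀ x ∈ F, ∀ y ∈ F, ∀ k, k0 ≤ k → pre rho x k = pre rho y k → x = y := by
  classical
  have h1 : ∀ p : W × W, ∃ n, p.1 ≠ p.2 → rho p.1 n ≠ rho p.2 n := by
    intro p
    by_cases hp : p.1 = p.2
    · exact ⟨0, fun h => absurd hp h⟩
    · have : rho p.1 ≠ rho p.2 := fun hh => hp (h hh)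
      obtain ⟨n, hn⟩ := Function.ne_iff.1 this
      exact ⟨n, fun _ => hn⟩
  choose d hd using h1
  refine ⟨(F ×ˢ F).sup d + 1, fun x hx y hy k hk hxy => ?_⟩
  by_contra hne
  rw [pre_eq_iff] at hxy
  have h2 : d (x, y) ≤ (F ×ˢ F).sup d := Finset.le_sup (f := d) (Finset.mk_mem_product hx hy)
  exact hd (x, y) hne (hxy _ (by omega))

end pre

/-! ### Node sums -/

section nsum

variable {W : Type} (rho : W → ℕ → Bool) {A : Type} [AddCommMonoid A]

theorem nsum_eq [DecidableEq (List Bool)] (g : W →₀ A) (F : Finset W) (hF : g.support ⊆ F)
    (s : List Bool) :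
    nsum rho g s = ∑ x ∈ F, if pre rho x s.length = s then g x else 0 := by
  classical
  unfold nsum
  rw [Finset.sum_filter]
  have h1 : ∑ x ∈ F, (if pre rho x s.length = s then g x else 0) =
      ∑ x ∈ g.support, (if pre rho x s.length = s then g x else 0) := by
    symm
    refine Finset.sum_subset hF fun x _ hx => ?_
    rw [Finsupp.notMem_support_iff.1 hx]
    simp
  rw [h1]
  refine Finset.sum_congr rfl fun x _ => ?_
  congr

theorem nsum_add_nodes (g : W →₀ A) (s : List Bool) :
    nsum rho g s = nsum rho g (s ++ [false]) + nsum rho g (s ++ [true]) := by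
  classical
  rw [nsum_eq rho g g.support (Finset.Subset.refl _), nsum_eq rho g g.support (Finset.Subset.refl _),
    nsum_eq rho g g.support (Finset.Subset.refl _), ← Finset.sum_add_distrib]
  refine Finset.sum_congr rfl fun x _ => ?_
  simp only [pre_append_iff]
  by_cases h : pre rho x s.length = s
  · cases hb : rho x s.length <;> simp [h]
  · simp [h]

theorem exists_of_nsum_ne_zero (g : W →₀ A) (s : List Bool) (h : nsum rho g s ≠ 0) :
    ∃ x ∈ g.support, pre rho x s.length = s := by
  classical
  by_contra hcon
  push Not at hcon
  apply h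
  rw [nsum_eq rho g g.support (Finset.Subset.refl _)]
  exact Finset.sum_eq_zero fun x hx => if_neg (hcon x hx)

/-- The node sums determine the function. -/
theorem nsum_injective (hrho : Function.Injective rho) (g g' : W →₀ A)
    (h : ∀ s, nsum rho g s = nsum rho g' s) : g = g' := by
  classical
  ext x
  set F : Finset W := insert x (g.support ∪ g'.support) with hF
  obtain ⟨k0, hk0⟩ := exists_sep rho hrho F
  have hx : x ∈ F := Finset.mem_insert_self _ _
  have key : ∀ u : W →₀ A, u.support ⊆ F → nsum rho u (pre rho x k0) = u x := by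
    intro u hu
    rw [nsum_eq rho u F hu, Finset.sum_eq_single x]
    · rw [pre_length, if_pos rfl]
    · intro y hy hyx
      rw [pre_length, if_neg]
      intro hh
      exact hyx (hk0 y hy x hx k0 le_rfl hh)
    · intro hh
      exact absurd hx hh
  rw [← key g, ← key g', h]
  · exact (Finset.subset_union_right).trans (Finset.subset_insert _ _)
  · exact (Finset.subset_union_left).trans (Finset.subset_insert _ _)

/-- Reconstruction of a finitely supported function from an additive node function. -/
theorem exists_nsum (hrho : Function.Injective rho) (τ : List Bool → A)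
    (hτ : ∀ s, τ s = τ (s ++ [false]) + τ (s ++ [true])) (F : Finset W)
    (hF : ∀ s, τ s ≠ 0 → ∃ x ∈ F, pre rho x s.length = s) :
    ∃ h : W →₀ A, ∀ s, nsum rho h s = τ s := by
  classical
  obtain ⟨k0, hk0⟩ := exists_sep rho hrho F
  -- the value at the branches is eventually constant
  have h1 : ∀ x ∈ F, ∀ k, k0 ≤ k → τ (pre rho x k) = τ (pre rho x k0) := by
    intro x hx k hk
    induction k, hk using Nat.le_induction with
    | base => rfl
    | succ k hk ih =>
      rw [← ih, hτ (pre rho x k), pre_succ]
      have h2 : τ (pre rho x k ++ [!(rho x k)]) = 0 := by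
        by_contra h3
        obtain ⟨y, hy, hxy⟩ := hF _ h3
        rw [pre_append_iff, pre_length] at hxy
        have h4 := hk0 y hy x hx k hk hxy.1
        rw [h4] at hxy
        simp at hxy
      cases hb : rho x k
      · rw [hb] at h2
        simp only [Bool.not_false] at h2
        rw [h2, add_zero]
      · rw [hb] at h2
        simp only [Bool.not_true] at h2
        rw [h2, zero_add]
  set h : W →₀ A := Finsupp.onFinset F (fun x => if x ∈ F then τ (pre rho x k0) else 0)
    (fun x hx => by
      by_contra hcon
      exact hx (if_neg hcon)) with hh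
  have hsupp : h.support ⊆ F := Finsupp.support_onFinset_subset
  have hval : ∀ x ∈ F, h x = τ (pre rho x k0) := by
    intro x hx
    rw [hh, Finsupp.onFinset_apply, if_pos hx]
  refine ⟨h, ?_⟩
  have h2 : ∀ s : List Bool, k0 ≤ s.length → nsum rho h s = τ s := by
    intro s hs
    rw [nsum_eq rho h F hsupp]
    by_cases hex : ∃ x ∈ F, pre rho x s.length = s
    · obtain ⟨x, hx, hxs⟩ := hex
      rw [Finset.sum_eq_single x]
      · rw [if_pos hxs, hval x hx, ← h1 x hx s.length hs, hxs]
      · intro y hy hyx
        rw [if_neg]
        intro hh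
        exact hyx (hk0 y hy x hx _ hs (hh.trans hxs.symm))
      · intro hh
        exact absurd hx hh
    · rw [Finset.sum_eq_zero]
      · by_contra h3
        exact hex (hF s (fun h4 => h3 h4.symm))
      · intro x hx
        exact if_neg fun h3 => hex ⟨x, hx, h3⟩
  have h3 : ∀ m : ℕ, ∀ s : List Bool, k0 ≤ s.length + m → nsum rho h s = τ s := by
    intro m
    induction m with
    | zero => exact fun s hs => h2 s hs
    | succ m ih =>
      intro s hs
      rw [nsum_add_nodes, hτ s, ih, ih]
      · simp only [List.length_append, List.length_singleton]; omega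
      · simp only [List.length_append, List.length_singleton]; omega
  exact fun s => h3 k0 s (by omega)

end nsum

end M3
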