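import Pool.Agent.H.MP_8ff4bd_gt.M3.TreeMatch
import Pool.Agent.H.MP_8ff4bd_gt.M3.TreeRec
import Pool.Agent.H.MP_8ff4bd_gt.M3.TreeCount

/-!
# The ground bijection
-/

set_option autoImplicit false

namespace M3

/-! ### The level functions -/

theorem exists_mem_CL {p : ℕ} (v : ℕ →₀ ZMod p) : ∃ m, v ∈ CL (p := p) cc m := by
  obtain ⟨m, hm⟩ : ∃ m, ∀ j ∈ v.support, j < cc m := by
    have h1 := lev_cc
    choose f hf using h1.unb
    refine ⟨v.support.sup f, fun j hj => ?_⟩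
    exact lt_of_lt_of_le (hf j) (h1.mono (Finset.le_sup hj))
  refine ⟨m, fun j hj => ?_⟩
  by_contra h
  have := hm j (Finsupp.mem_support_iff.2 h)
  omega

open Classical in
/-- The level of an element: the least `m` with `v` in the `m`-th coordinate subgroup. -/
noncomputable def lvT {p : ℕ} (v : ℕ →₀ ZMod p) : ℕ := Nat.find (exists_mem_CL v)

theorem mem_CL_lvT {p : ℕ} (v : ℕ →₀ ZMod p) : v ∈ CL (p := p) cc (lvT v) := by
  classical
  exact Nat.find_spec (exists_mem_CL v)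

theorem CL_mono {p : ℕ} {m n : ℕ} (h : m ≤ n) {v : ℕ →₀ ZMod p} (hv : v ∈ CL (p := p) cc m) :
    v ∈ CL (p := p) cc n := fun j hj => hv j (le_trans (lev_cc.mono h) hj)

theorem lvT_le_iff {p : ℕ} (v : ℕ →₀ ZMod p) (m : ℕ) : lvT v ≤ m ↔ v ∈ CL (p := p) cc m := by
  classical
  constructor
  · intro h
    exact CL_mono h (mem_CL_lvT v)
  · intro h
    exact Nat.find_min' (exists_mem_CL v) h

theorem levelFn_lvT (p : ℕ) : LevelFn (lvT : (ℕ →₀ ZMod p) → ℕ) where
  zero_iff := fun x => by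
    rw [← Nat.le_zero, lvT_le_iff]
    constructor
    · intro h
      ext j
      exact h j (by rw [lev_cc.zero]; omega)
    · rintro rfl
      exact zero_mem _
  sub_le := fun x y => by
    rw [lvT_le_iff]
    exact sub_mem (CL_mono (le_max_left _ _) (mem_CL_lvT x))
      (CL_mono (le_max_right _ _) (mem_CL_lvT y))

theorem lv_eq_succ {p : ℕ} {v : ℕ →₀ ZMod p} {n : ℕ} (h1 : v ∈ CL (p := p) cc (n + 1))
    (h2 : v ∉ CL (p := p) cc n) : lvT v = n + 1 := by
  have h3 := (lvT_le_iff v (n + 1)).2 h1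
  have h4 : ¬ lvT v ≤ n := fun h => h2 ((lvT_le_iff v n).1 h)
  omega

theorem lv_sub_eq {p : ℕ} {t y : ℕ →₀ ZMod p} {n : ℕ} (h1 : y ∈ CL (p := p) cc (n + 1))
    (h2 : y ∉ CL (p := p) cc n) (h3 : t - y ∉ CL (p := p) cc n) :
    lvT (t - y) = max (lvT t) (n + 1) := by
  have h4 := lv_eq_succ h1 h2
  have hL := levelFn_lvT p
  have h5 : ¬ lvT (t - y) ≤ n := fun h => h3 ((lvT_le_iff _ n).1 h)
  have h6 := hL.sub_le t y
  have h7 := hL.le_of_sub t y
  omega

/-- From embeddings of the levels to functions. -/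
theorem exists_levelwise {A A' : Type} [Zero A'] (lev : A → ℕ) (P : ℕ → A' → Prop)
    (H : ∀ n, Nonempty ({x : A // lev x ≤ n + 1} × Bool ↪ {y : A' // P (n + 1) y})) :
    ∃ e : ℕ → A → Bool → A',
      (∀ n, 1 ≤ n → ∀ x x' b b', lev x ≤ n → lev x' ≤ n → e n x b = e n x' b' →
        x = x' ∧ b = b') ∧
      (∀ n, 1 ≤ n → ∀ x b, lev x ≤ n → P n (e n x b)) := by
  classical
  have E := fun n => (H n).some
  refine ⟨fun n x b => match n with
    | 0 => 0
    | n + 1 => if h : lev x ≤ n + 1 then (E n (⟨x, h⟩, b)).1 else 0, ?_, ?_⟩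
  · intro n hn x x' b b' hx hx' hee
    obtain ⟨n, rfl⟩ : ∃ m, n = m + 1 := ⟨n - 1, by omega⟩
    simp only [dif_pos hx, dif_pos hx'] at hee
    have h1 := (E n).injective (Subtype.ext hee)
    simp only [Prod.mk.injEq, Subtype.mk.injEq] at h1
    exact h1
  · intro n hn x b hx
    obtain ⟨n, rfl⟩ : ∃ m, n = m + 1 := ⟨n - 1, by omega⟩
    simp only [dif_pos hx]
    exact (E n (⟨x, hx⟩, b)).2

theorem exists_c (s : ℕ →₀ ZMod 2) (t : ℕ →₀ ZMod 3) :
    ∃ c : (ℕ →₀ ZMod 2) ≃ (ℕ →₀ ZMod 3), OKr lvT lvT s t →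
      ∀ k, OKr lvT lvT k (c k) ∧ OKr lvT lvT (s - k) (t - c k) := by
  have h2 := levelFn_lvT 2
  have h3 := levelFn_lvT 3
  -- embeddings
  obtain ⟨e, he, he'⟩ := exists_levelwise (lvT : (ℕ →₀ ZMod 2) → ℕ)
    (fun n (y : ℕ →₀ ZMod 3) => lvT y = n ∧ lvT (t - y) = max (lvT t) n) (fun n => by
      obtain ⟨f⟩ := emb23 t n
      refine ⟨⟨fun q => ⟨(f (⟨q.1.1, (lvT_le_iff _ _).1 q.1.2⟩, q.2)).1, ?_⟩, ?_⟩⟩
      · obtain ⟨g1, g2, g3⟩ := (f (⟨q.1.1, (lvT_le_iff _ _).1 q.1.2⟩, q.2)).2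
        exact ⟨lv_eq_succ g1 g2, lv_sub_eq g1 g2 g3⟩
      · rintro ⟨⟨x, hx⟩, b⟩ ⟨⟨x', hx'⟩, b'⟩ hh
        simp only [Subtype.mk.injEq] at hh
        have := f.injective (Subtype.ext hh)
        simpa using this)
  obtain ⟨e2, he2, he2'⟩ := exists_levelwise (lvT : (ℕ →₀ ZMod 3) → ℕ)
    (fun n (y : ℕ →₀ ZMod 2) => lvT y = n + 1 ∧ lvT (s - y) = max (lvT s) (n + 1)) (fun n => by
      obtain ⟨f⟩ := emb32 s n
      refine ⟨⟨fun q => ⟨(f (⟨q.1.1, (lvT_le_iff _ _).1 q.1.2⟩, q.2)).1, ?_⟩, ?_⟩⟩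
      · obtain ⟨g1, g2, g3⟩ := (f (⟨q.1.1, (lvT_le_iff _ _).1 q.1.2⟩, q.2)).2
        exact ⟨lv_eq_succ g1 g2, lv_sub_eq g1 g2 g3⟩
      · rintro ⟨⟨x, hx⟩, b⟩ ⟨⟨x', hx'⟩, b'⟩ hh
        simp only [Subtype.mk.injEq] at hh
        have := f.injective (Subtype.ext hh)
        simpa using this)
  by_cases hst : OKr lvT lvT s t
  · obtain ⟨c, hc⟩ := exists_matching h2 h3 s t hst e he he' e2 he2 he2'
    exact ⟨c, fun _ => hc⟩
  · obtain ⟨e0, he0, he0'⟩ := exists_levelwise (lvT : (ℕ →₀ ZMod 2) → ℕ)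
      (fun n (y : ℕ →₀ ZMod 3) => lvT y = n ∧ lvT (0 - y) = max (lvT (0 : ℕ →₀ ZMod 3)) n) (fun n => by
        obtain ⟨f⟩ := emb23 0 n
        refine ⟨⟨fun q => ⟨(f (⟨q.1.1, (lvT_le_iff _ _).1 q.1.2⟩, q.2)).1, ?_⟩, ?_⟩⟩
        · obtain ⟨g1, g2, g3⟩ := (f (⟨q.1.1, (lvT_le_iff _ _).1 q.1.2⟩, q.2)).2
          exact ⟨lv_eq_succ g1 g2, lv_sub_eq g1 g2 g3⟩
        · rintro ⟨⟨x, hx⟩, b⟩ ⟨⟨x', hx'⟩, b'⟩ hh
          simp only [Subtype.mk.injEq] at hh
          have := f.injective (Subtype.ext hh)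
          simpa using this)
    obtain ⟨e3, he3, he3'⟩ := exists_levelwise (lvT : (ℕ →₀ ZMod 3) → ℕ)
      (fun n (y : ℕ →₀ ZMod 2) => lvT y = n + 1 ∧
        lvT (0 - y) = max (lvT (0 : ℕ →₀ ZMod 2)) (n + 1)) (fun n => by
        obtain ⟨f⟩ := emb32 0 n
        refine ⟨⟨fun q => ⟨(f (⟨q.1.1, (lvT_le_iff _ _).1 q.1.2⟩, q.2)).1, ?_⟩, ?_⟩⟩
        · obtain ⟨g1, g2, g3⟩ := (f (⟨q.1.1, (lvT_le_iff _ _).1 q.1.2⟩, q.2)).2
          exact ⟨lv_eq_succ g1 g2, lv_sub_eq g1 g2 g3⟩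
        · rintro ⟨⟨x, hx⟩, b⟩ ⟨⟨x', hx'⟩, b'⟩ hh
          simp only [Subtype.mk.injEq] at hh
          have := f.injective (Subtype.ext hh)
          simpa using this)
    obtain ⟨c, -⟩ := exists_matching h2 h3 0 0 (OKr.zero h2 h3) e0 he0 he0' e3 he3 he3'
    exact ⟨c, fun h => absurd h hst⟩

/-! ### The bijection -/

theorem treeBij {W : Type} (rho : W → ℕ → Bool) (hrho : Function.Injective rho) :
    TreeBij W rho := by
  classical
  choose c hc using exists_c
  have h00 : OKr lvT lvT (0 : ℕ →₀ ZMod 2) (0 : ℕ →₀ ZMod 3) :=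
    OKr.zero (levelFn_lvT 2) (levelFn_lvT 3)
  -- node functions in the reversed form
  have hadd2 : ∀ g : W →₀ (ℕ →₀ ZMod 2), AddN (fun r => nsum rho g r.reverse) := by
    intro g r
    simp only [List.reverse_cons]
    exact nsum_add_nodes rho g r.reverse
  have hadd3 : ∀ g : W →₀ (ℕ →₀ ZMod 3), AddN (fun r => nsum rho g r.reverse) := by
    intro g r
    simp only [List.reverse_cons]
    exact nsum_add_nodes rho g r.reverse
  -- the maps
  have hf : ∀ g : W →₀ (ℕ →₀ ZMod 2), ∃ h : W →₀ (ℕ →₀ ZMod 3), ∀ s,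
      nsum rho h s = nodeT c (fun r => nsum rho g r.reverse) s.reverse := by
    intro g
    refine exists_nsum rho hrho _ ?_ g.support ?_
    · intro s
      simp only [List.reverse_append, List.reverse_cons, List.reverse_nil, List.nil_append,
        List.singleton_append]
      exact addN_nodeT c _ _
    · intro s hs
      have h1 := ok_nodeT h00 hc _ (hadd2 g) s.reverse
      have h2 : nsum rho g s ≠ 0 := by
        intro h3
        apply hs
        apply h1.1.1
        simp only [List.reverse_reverse]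
        exact h3
      exact exists_of_nsum_ne_zero rho g s h2
  have hf' : ∀ g : W →₀ (ℕ →₀ ZMod 3), ∃ h : W →₀ (ℕ →₀ ZMod 2), ∀ s,
      nsum rho h s = nodeT' c (fun r => nsum rho g r.reverse) s.reverse := by
    intro g
    refine exists_nsum rho hrho _ ?_ g.support ?_
    · intro s
      simp only [List.reverse_append, List.reverse_cons, List.reverse_nil, List.nil_append,
        List.singleton_append]
      exact addN_nodeT' c _ _
    · intro s hs
      have h1 := ok_nodeT' h00 hc _ (hadd3 g) s.reverse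
      have h2 : nsum rho g s ≠ 0 := by
        intro h3
        apply hs
        apply h1.1.2
        simp only [List.reverse_reverse]
        exact h3
      exact exists_of_nsum_ne_zero rho g s h2
  choose f hf using hf
  choose f' hf' using hf'
  have hfr : ∀ g, (fun r : List Bool => nsum rho (f g) r.reverse) =
      nodeT c (fun r => nsum rho g r.reverse) := by
    intro g
    funext r
    rw [hf, List.reverse_reverse]
  have hfr' : ∀ g, (fun r : List Bool => nsum rho (f' g) r.reverse) =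
      nodeT' c (fun r => nsum rho g r.reverse) := by
    intro g
    funext r
    rw [hf', List.reverse_reverse]
  have hl : Function.LeftInverse f' f := by
    intro g
    refine nsum_injective rho hrho _ _ fun s => ?_
    rw [hf', hfr, nodeT'_nodeT c _ (hadd2 g), List.reverse_reverse]
  have hr : Function.RightInverse f' f := by
    intro g
    refine nsum_injective rho hrho _ _ fun s => ?_
    rw [hf, hfr', nodeT_nodeT' c _ (hadd3 g), List.reverse_reverse]
  have hok : ∀ g s, OKr lvT lvT (nsum rho g s) (nsum rho (f g) s) := by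
    intro g s
    have h1 := ok_nodeT h00 hc _ (hadd2 g) s.reverse
    rw [hf]
    simpa only [List.reverse_reverse] using h1
  refine ⟨cc, cc, lev_cc, lev_cc, ⟨f, f', hl, hr⟩, ?_, ?_, ?_, ?_, ?_⟩
  · intro g s m hm
    rw [← lvT_le_iff] at hm ⊢
    exact (hok g s).2.1.trans hm
  · intro g s m hm
    rw [← lvT_le_iff] at hm ⊢
    exact (hok g s).2.2.trans (Nat.succ_le_succ hm)
  · intro g s h0
    exact (hok g s).1.2 h0
  · intro g g' k hk s hs
    show nsum rho (f g) s = nsum rho (f g') s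
    rw [hf, hf]
    refine nodeT_congr _ _ k (fun r hr => hk _ ?_) _ ?_
    · rw [List.length_reverse]; exact hr
    · rw [List.length_reverse]; exact hs
  · intro g g' k hk s hs
    show nsum rho (f' g) s = nsum rho (f' g') s
    rw [hf', hf']
    refine nodeT'_congr _ _ k (fun r hr => hk _ ?_) _ ?_
    · rw [List.length_reverse]; exact hr
    · rw [List.length_reverse]; exact hs

end M3
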