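import Mathlib

/-!
# The matching lemma for two groups with level functions
-/

set_option autoImplicit false

namespace M3

/-- An ultrametric level function on an abelian group. -/
structure LevelFn {A : Type} [AddCommGroup A] (lev : A → ℕ) : Prop where
  zero_iff : ∀ x, lev x = 0 ↔ x = 0
  sub_le : ∀ x y, lev (x - y) ≤ max (lev x) (lev y)

namespace LevelFn

variable {A : Type} [AddCommGroup A] {lev : A → ℕ}

theorem zero (h : LevelFn lev) : lev 0 = 0 := (h.zero_iff 0).2 rfl

theorem neg (h : LevelFn lev) (x : A) : lev (-x) = lev x := by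
  have key : ∀ y, lev (-y) ≤ lev y := fun y => by
    have := h.sub_le 0 y
    rw [zero_sub, h.zero] at this
    simpa using this
  apply le_antisymm (key x)
  have := key (-x)
  rwa [neg_neg] at this

theorem symm (h : LevelFn lev) (x y : A) : lev (x - y) = lev (y - x) := by
  rw [← h.neg (x - y), neg_sub]

theorem le_of_sub (h : LevelFn lev) (x y : A) : lev x ≤ max (lev (x - y)) (lev y) := by
  have := h.sub_le (x - y) (-y)
  rw [h.neg] at this
  simpa using this

theorem le_of_sub' (h : LevelFn lev) (x y : A) : lev y ≤ max (lev x) (lev (x - y)) := by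
  have := h.sub_le x (x - y)
  simpa using this

theorem pos (h : LevelFn lev) {x : A} (hx : x ≠ 0) : 1 ≤ lev x := by
  rcases Nat.eq_zero_or_pos (lev x) with h0 | h0
  · exact absurd ((h.zero_iff x).1 h0) hx
  · exact h0

theorem ne_zero (h : LevelFn lev) {x : A} (hx : 1 ≤ lev x) : x ≠ 0 := by
  intro h0
  rw [h0, h.zero] at hx
  omega

end LevelFn

/-- The one-sided matching: an injection respecting the levels of `x` and of `s - x`, shifted by
`d`. -/
theorem exists_level_inj {A A' : Type} [AddCommGroup A] [AddCommGroup A'] {lev : A → ℕ}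
    {lev' : A' → ℕ} (h : LevelFn lev) (h' : LevelFn lev') (d : ℕ) (s : A) (t : A')
    (hst : s = 0 ↔ t = 0) (e : ℕ → A → Bool → A')
    (he : ∀ n, 1 ≤ n → ∀ x x' b b', lev x ≤ n → lev x' ≤ n → e n x b = e n x' b' →
      x = x' ∧ b = b')
    (he' : ∀ n, 1 ≤ n → ∀ x b, lev x ≤ n → lev' (e n x b) = n + d ∧
      lev' (t - e n x b) = max (lev' t) (n + d)) :
    ∃ i : A → A', Function.Injective i ∧ i 0 = 0 ∧ i s = t ∧ ∀ x, x ≠ 0 → x ≠ s →
      (lev x ≤ lev (s - x) ∧ lev' (i x) = lev x + d ∧
        lev' (t - i x) = max (lev' t) (lev x + d)) ∨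
      (lev (s - x) < lev x ∧ lev' (t - i x) = lev (s - x) + d ∧
        lev' (i x) = max (lev' t) (lev (s - x) + d)) := by
  classical
  let i : A → A' := fun x =>
    if x = 0 then 0 else if x = s then t else
      if lev x ≤ lev (s - x) then e (lev x) x false else
        if lev (s - x) + d < lev' t then t - e (lev (s - x)) (s - x) true else
          e (lev (s - x)) (s - x) true
  have i0 : i 0 = 0 := by simp [i]
  have is : i s = t := by
    by_cases hs : s = 0
    · rw [hs, i0, (hst.1 hs)]
    · simp [i, hs]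
  have i1 : ∀ x, x ≠ 0 → x ≠ s → lev x ≤ lev (s - x) → i x = e (lev x) x false := by
    intro x h0 h1 h2
    simp only [i, if_neg h0, if_neg h1, if_pos h2]
  have i2 : ∀ x, x ≠ 0 → x ≠ s → ¬ lev x ≤ lev (s - x) → lev (s - x) + d < lev' t →
      i x = t - e (lev (s - x)) (s - x) true := by
    intro x h0 h1 h2 h3
    simp only [i, if_neg h0, if_neg h1, if_neg h2, if_pos h3]
  have i3 : ∀ x, x ≠ 0 → x ≠ s → ¬ lev x ≤ lev (s - x) → ¬ lev (s - x) + d < lev' t →
      i x = e (lev (s - x)) (s - x) true := by
    intro x h0 h1 h2 h3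
    simp only [i, if_neg h0, if_neg h1, if_neg h2, if_neg h3]
  have hlev : ∀ x, x ≠ 0 → x ≠ s →
      (lev x ≤ lev (s - x) ∧ lev' (i x) = lev x + d ∧
        lev' (t - i x) = max (lev' t) (lev x + d)) ∨
      (lev (s - x) < lev x ∧ lev' (t - i x) = lev (s - x) + d ∧
        lev' (i x) = max (lev' t) (lev (s - x) + d)) := by
    intro x h0 h1
    have hn : 1 ≤ lev x := h.pos h0
    have hm : 1 ≤ lev (s - x) := h.pos (fun hh => h1 (sub_eq_zero.1 hh).symm)
    by_cases h2 : lev x ≤ lev (s - x)
    · left
      rw [i1 x h0 h1 h2]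
      exact ⟨h2, he' _ hn x false le_rfl⟩
    · right
      refine ⟨by omega, ?_⟩
      obtain ⟨h3, h4⟩ := he' _ hm (s - x) true le_rfl
      by_cases h5 : lev (s - x) + d < lev' t
      · rw [i2 x h0 h1 h2 h5, sub_sub_cancel]
        exact ⟨h3, h4⟩
      · rw [i3 x h0 h1 h2 h5]
        rw [max_eq_right (by omega)] at h4 ⊢
        exact ⟨h4, h3⟩
  -- the smaller of the two levels
  have hmin : ∀ x, x ≠ 0 → x ≠ s →
      min (lev' (i x)) (lev' (t - i x)) = min (lev x) (lev (s - x)) + d ∧
      1 ≤ min (lev x) (lev (s - x)) := by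
    intro x h0 h1
    have hn : 1 ≤ lev x := h.pos h0
    have hm : 1 ≤ lev (s - x) := h.pos (fun hh => h1 (sub_eq_zero.1 hh).symm)
    rcases hlev x h0 h1 with ⟨h2, h3, h4⟩ | ⟨h2, h3, h4⟩ <;> omega
  have hnot : ∀ x, x ≠ 0 → x ≠ s → i x ≠ 0 ∧ i x ≠ t := by
    intro x h0 h1
    obtain ⟨h2, h3⟩ := hmin x h0 h1
    constructor
    · intro h4
      rw [h4, h'.zero] at h2
      omega
    · intro h4
      rw [h4, sub_self, h'.zero] at h2
      omega
  refine ⟨i, ?_, i0, is, hlev⟩
  intro x y hxy
  by_cases x0 : x = 0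
  · by_cases y0 : y = 0
    · rw [x0, y0]
    · rw [x0, i0] at hxy
      by_cases ys : y = s
      · rw [ys, is] at hxy
        rw [x0, ys, hst.2 hxy.symm]
      · exact absurd hxy.symm (hnot y y0 ys).1
  · by_cases xs : x = s
    · rw [xs, is] at hxy
      by_cases y0 : y = 0
      · rw [y0, i0] at hxy
        rw [xs, y0, hst.2 hxy]
      · by_cases ys : y = s
        · rw [xs, ys]
        · exact absurd hxy.symm (hnot y y0 ys).2
    · by_cases y0 : y = 0
      · rw [y0, i0] at hxy
        exact absurd hxy (hnot x x0 xs).1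
      · by_cases ys : y = s
        · rw [ys, is] at hxy
          exact absurd hxy (hnot x x0 xs).2
        · -- the main case
          obtain ⟨mx, px⟩ := hmin x x0 xs
          obtain ⟨my, py⟩ := hmin y y0 ys
          rw [hxy] at mx
          have hlx := hlev x x0 xs
          have hly := hlev y y0 ys
          rw [hxy] at hlx
          by_cases h1 : lev x ≤ lev (s - x)
          · by_cases h2 : lev y ≤ lev (s - y)
            · have h3 : lev x = lev y := by omega
              rw [i1 x x0 xs h1, i1 y y0 ys h2, h3] at hxy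
              exact (he (lev y) (h.pos y0) x y false false (by omega) le_rfl hxy).1
            · by_cases h4 : lev (s - y) + d < lev' t
              · exfalso
                omega
              · have h3 : lev x = lev (s - y) := by omega
                rw [i1 x x0 xs h1, i3 y y0 ys h2 h4, h3] at hxy
                have := (he (lev (s - y)) (by omega) x (s - y) false true (by omega) le_rfl hxy).2
                simp at this
          · by_cases h2 : lev y ≤ lev (s - y)
            · by_cases h4 : lev (s - x) + d < lev' t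
              · exfalso
                omega
              · have h3 : lev y = lev (s - x) := by omega
                rw [i3 x x0 xs h1 h4, i1 y y0 ys h2, h3] at hxy
                have := (he (lev (s - x)) (by omega) (s - x) y true false le_rfl (by omega) hxy).2
                simp at this
            · have h3 : lev (s - x) = lev (s - y) := by omega
              by_cases h4 : lev (s - y) + d < lev' t
              · rw [i2 x x0 xs h1 (by omega), i2 y y0 ys h2 h4, h3] at hxy
                have h5 := sub_right_injective hxy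
                have := (he (lev (s - y)) (by omega) (s - x) (s - y) true true (by omega) le_rfl
                  h5).1
                exact sub_right_injective this
              · rw [i3 x x0 xs h1 (by omega), i3 y y0 ys h2 h4, h3] at hxy
                have := (he (lev (s - y)) (by omega) (s - x) (s - y) true true (by omega) le_rfl
                  hxy).1
                exact sub_right_injective this

/-- The relation between the node sums of `g` and of its image. -/
def OKr {A A' : Type} [AddCommGroup A] [AddCommGroup A'] (lev : A → ℕ) (lev' : A' → ℕ) (s : A)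
    (t : A') : Prop := (s = 0 ↔ t = 0) ∧ lev' t ≤ lev s ∧ lev s ≤ lev' t + 1

theorem OKr.zero {A A' : Type} [AddCommGroup A] [AddCommGroup A'] {lev : A → ℕ} {lev' : A' → ℕ}
    (h : LevelFn lev) (h' : LevelFn lev') : OKr lev lev' 0 0 := by
  refine ⟨by simp, ?_, ?_⟩ <;> simp [h.zero, h'.zero]

/-- The matching lemma. -/
theorem exists_matching {A A' : Type} [AddCommGroup A] [AddCommGroup A'] {lev : A → ℕ}
    {lev' : A' → ℕ} (h : LevelFn lev) (h' : LevelFn lev') (s : A) (t : A')
    (hst : OKr lev lev' s t) (e : ℕ → A → Bool → A')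
    (he : ∀ n, 1 ≤ n → ∀ x x' b b', lev x ≤ n → lev x' ≤ n → e n x b = e n x' b' →
      x = x' ∧ b = b')
    (he' : ∀ n, 1 ≤ n → ∀ x b, lev x ≤ n → lev' (e n x b) = n ∧
      lev' (t - e n x b) = max (lev' t) n)
    (e2 : ℕ → A' → Bool → A)
    (he2 : ∀ n, 1 ≤ n → ∀ x x' b b', lev' x ≤ n → lev' x' ≤ n → e2 n x b = e2 n x' b' →
      x = x' ∧ b = b')
    (he2' : ∀ n, 1 ≤ n → ∀ x b, lev' x ≤ n → lev (e2 n x b) = n + 1 ∧
      lev (s - e2 n x b) = max (lev s) (n + 1)) :
    ∃ c : A ≃ A', ∀ k, OKr lev lev' k (c k) ∧ OKr lev lev' (s - k) (t - c k) := by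
  obtain ⟨i, hi, i0, is, hil⟩ := exists_level_inj h h' 0 s t hst.1 e he he'
  obtain ⟨j, hj, j0, js, hjl⟩ := exists_level_inj h' h 1 t s hst.1.symm e2 he2 he2'
  have h00 := OKr.zero h h'
  have hp1 : ∀ k, OKr lev lev' k (i k) ∧ OKr lev lev' (s - k) (t - i k) := by
    intro k
    by_cases k0 : k = 0
    · rw [k0, i0, sub_zero, sub_zero]
      exact ⟨h00, hst⟩
    · by_cases ks : k = s
      · rw [ks, is, sub_self, sub_self]
        exact ⟨hst, h00⟩
      · have hk := h.pos k0
        have hsk0 : s - k ≠ 0 := fun hh => ks (sub_eq_zero.1 hh).symm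
        have hsk := h.pos hsk0
        obtain ⟨-, h1, h2⟩ := hst
        have u1 := h.le_of_sub s k
        have u2 := h.sub_le s k
        have u3 := h.le_of_sub' s k
        rcases hil k k0 ks with ⟨g1, g2, g3⟩ | ⟨g1, g2, g3⟩
        · have v1 : i k ≠ 0 := h'.ne_zero (by omega)
          have v2 : t - i k ≠ 0 := h'.ne_zero (by omega)
          refine ⟨⟨by simp [k0, v1], by omega, by omega⟩, ⟨by simp [hsk0, v2], by omega, by omega⟩⟩
        · have v1 : i k ≠ 0 := h'.ne_zero (by omega)
          have v2 : t - i k ≠ 0 := h'.ne_zero (by omega)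
          refine ⟨⟨by simp [k0, v1], by omega, by omega⟩, ⟨by simp [hsk0, v2], by omega, by omega⟩⟩
  have hp2 : ∀ l, OKr lev lev' (j l) l ∧ OKr lev lev' (s - j l) (t - l) := by
    intro l
    by_cases l0 : l = 0
    · rw [l0, j0, sub_zero, sub_zero]
      exact ⟨h00, hst⟩
    · by_cases lt : l = t
      · rw [lt, js, sub_self, sub_self]
        exact ⟨hst, h00⟩
      · have hk := h'.pos l0
        have hsk0 : t - l ≠ 0 := fun hh => lt (sub_eq_zero.1 hh).symm
        have hsk := h'.pos hsk0
        obtain ⟨-, h1, h2⟩ := hst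
        have u1 := h'.le_of_sub t l
        have u2 := h'.sub_le t l
        have u3 := h'.le_of_sub' t l
        rcases hjl l l0 lt with ⟨g1, g2, g3⟩ | ⟨g1, g2, g3⟩
        · have v1 : j l ≠ 0 := h.ne_zero (by omega)
          have v2 : s - j l ≠ 0 := h.ne_zero (by omega)
          refine ⟨⟨by simp [l0, v1], by omega, by omega⟩, ⟨by simp [hsk0, v2], by omega, by omega⟩⟩
        · have v1 : j l ≠ 0 := h.ne_zero (by omega)
          have v2 : s - j l ≠ 0 := h.ne_zero (by omega)
          refine ⟨⟨by simp [l0, v1], by omega, by omega⟩, ⟨by simp [hsk0, v2], by omega, by omega⟩⟩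
  obtain ⟨c, hc, hR⟩ := Function.Embedding.schroeder_bernstein_of_rel hi hj
    (fun k l => OKr lev lev' k l ∧ OKr lev lev' (s - k) (t - l)) hp1 hp2
  exact ⟨Equiv.ofBijective c hc, hR⟩

end M3
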