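import Pool.Agent.H.MP_8ff4bd_gt.M3.SO
import Pool.Agent.H.MP_8ff4bd_gt.M3.RO
import Pool.Agent.H.MP_8ff4bd_gt.M3.NoDelta

/-!
# The forcing that gives node refinements (positive model)

Conditions are finite sets of atoms.  An atom says that the point `pt` has, in the node refinement
attached to the colouring with the name `nam`, the node `node` as its last initial segment, that
this point has the colour `col`, and that this is decided by the deciding condition with number
`idx` of the name.  Names are trees: a name consists of the deciding conditions, which are finite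
sets of atoms with other names.
-/

namespace M3

open Classical

/-- Names of colourings: for every point `x` a sequence of deciding conditions, each of them a
finite list of atoms, and the colour that it decides. -/
inductive NName (W : Type) : Type
  | mk (len : W → ℕ → ℕ) (nm : (x : W) → (n : ℕ) → Fin (len x n) → NName W)
      (pt : (x : W) → (n : ℕ) → Fin (len x n) → W)
      (lab : (x : W) → (n : ℕ) → Fin (len x n) → List Bool × ℕ × ℕ)
      (val : W → ℕ → ℕ) : NName W

/-- Atoms of the conditions. -/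
structure YAtom (W : Type) where
  /-- the name of the colouring -/
  nam : NName W
  /-- the point -/
  pt : W
  /-- the last initial segment of the point -/
  node : List Bool
  /-- the colour of the point -/
  col : ℕ
  /-- the number of the deciding condition -/
  idx : ℕ

variable {W : Type}

/-- The deciding conditions of a name. -/
noncomputable def NName.cond : NName W → W → ℕ → Finset (YAtom W)
  | .mk _ nm pt lab _, x, n => Finset.univ.image fun i =>
      (⟨nm x n i, pt x n i, (lab x n i).1, (lab x n i).2.1, (lab x n i).2.2⟩ : YAtom W)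

/-- The values decided by a name. -/
def NName.val : NName W → W → ℕ → ℕ
  | .mk _ _ _ _ v => v

/-- Every family of finite sets of atoms with values comes from a name. -/
theorem exists_nname (e : W → ℕ → Finset (YAtom W)) (v : W → ℕ → ℕ) :
    ∃ N : NName W, N.cond = e ∧ N.val = v := by
  refine ⟨.mk (fun x n => (e x n).card) (fun x n i => ((e x n).equivFin.symm i).1.nam)
    (fun x n i => ((e x n).equivFin.symm i).1.pt)
    (fun x n i => (((e x n).equivFin.symm i).1.node, ((e x n).equivFin.symm i).1.col,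
      ((e x n).equivFin.symm i).1.idx)) v, ?_, rfl⟩
  funext x n
  ext a
  simp only [NName.cond, Finset.mem_image, Finset.mem_univ, true_and]
  constructor
  · rintro ⟨i, rfl⟩
    exact ((e x n).equivFin.symm i).2
  · intro ha
    refine ⟨(e x n).equivFin ⟨a, ha⟩, ?_⟩
    rw [Equiv.symm_apply_apply]

/-- The finite sets of atoms that are conditions. -/
structure YValid (rho : W → ℕ → Bool) (p : Finset (YAtom W)) : Prop where
  pref : ∀ a ∈ p, a.node = pre rho a.pt a.node.length
  val : ∀ a ∈ p, a.nam.val a.pt a.idx = a.col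
  sub : ∀ a ∈ p, a.nam.cond a.pt a.idx ⊆ p
  uniq : ∀ a ∈ p, ∀ b ∈ p, a.nam = b.nam → a.pt = b.pt → a = b
  col : ∀ a ∈ p, ∀ b ∈ p, a.nam = b.nam → a.node = b.node → a.col = b.col
  last : ∀ a ∈ p, ∀ b ∈ p, a.nam = b.nam → a.node.length < b.node.length →
    b.node ≠ pre rho a.pt b.node.length

/-- The poset of conditions. -/
def YP (rho : W → ℕ → Bool) : Type := {p : Finset (YAtom W) // YValid rho p}

instance (rho : W → ℕ → Bool) : Preorder (YP rho) where
  le p q := q.1 ⊆ p.1
  le_refl _ := Finset.Subset.refl _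
  le_trans _ _ _ h1 h2 := Finset.Subset.trans h2 h1

theorem YP.le_iff {rho : W → ℕ → Bool} {p q : YP rho} : p ≤ q ↔ q.1 ⊆ p.1 := Iff.rfl

instance (rho : W → ℕ → Bool) : Nonempty (YP rho) :=
  ⟨⟨∅, by simp, by simp, by simp, by simp, by simp, by simp⟩⟩

/-- Amalgamation of two conditions. -/
theorem YValid.union {rho : W → ℕ → Bool} {p q : Finset (YAtom W)} (hp : YValid rho p)
    (hq : YValid rho q) (h1 : ∀ a ∈ p, ∀ b ∈ q, a.nam = b.nam → a.pt = b.pt → a = b)
    (h2 : ∀ a ∈ p, ∀ b ∈ q, a.nam = b.nam →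
      ∃ a' ∈ p, a'.nam = b.nam ∧ a'.node = b.node ∧ a'.col = b.col)
    (h3 : ∀ a ∈ p, ∀ b ∈ q, a.nam = b.nam →
      ∃ b' ∈ q, b'.nam = a.nam ∧ b'.node = a.node ∧ b'.col = a.col) :
    YValid rho (p ∪ q) := by
  refine ⟨?_, ?_, ?_, ?_, ?_, ?_⟩
  · intro a ha
    rcases Finset.mem_union.1 ha with ha | ha
    · exact hp.pref a ha
    · exact hq.pref a ha
  · intro a ha
    rcases Finset.mem_union.1 ha with ha | ha
    · exact hp.val a ha
    · exact hq.val a ha
  · intro a ha
    rcases Finset.mem_union.1 ha with ha | ha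
    · exact (hp.sub a ha).trans Finset.subset_union_left
    · exact (hq.sub a ha).trans Finset.subset_union_right
  · intro a ha b hb hn hpt
    rcases Finset.mem_union.1 ha with ha | ha <;> rcases Finset.mem_union.1 hb with hb | hb
    · exact hp.uniq a ha b hb hn hpt
    · exact h1 a ha b hb hn hpt
    · exact (h1 b hb a ha hn.symm hpt.symm).symm
    · exact hq.uniq a ha b hb hn hpt
  · intro a ha b hb hn hnode
    rcases Finset.mem_union.1 ha with ha | ha <;> rcases Finset.mem_union.1 hb with hb | hb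
    · exact hp.col a ha b hb hn hnode
    · obtain ⟨a', ha', e1, e2, e3⟩ := h2 a ha b hb hn
      rw [← e3]
      exact hp.col a ha a' ha' (hn.trans e1.symm) (hnode.trans e2.symm)
    · obtain ⟨a', ha', e1, e2, e3⟩ := h2 b hb a ha hn.symm
      rw [← e3]
      exact hp.col a' ha' b hb (e1.trans hn) (e2.trans hnode)
    · exact hq.col a ha b hb hn hnode
  · intro a ha b hb hn hlen
    rcases Finset.mem_union.1 ha with ha | ha <;> rcases Finset.mem_union.1 hb with hb | hb
    · exact hp.last a ha b hb hn hlen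
    · obtain ⟨a', ha', e1, e2, e3⟩ := h2 a ha b hb hn
      rw [← e2]
      rw [← e2] at hlen
      exact hp.last a ha a' ha' (hn.trans e1.symm) hlen
    · obtain ⟨b', hb', e1, e2, e3⟩ := h3 b hb a ha hn.symm
      rw [← e2]
      rw [← e2] at hlen
      exact hq.last a ha b' hb' (hn.trans e1.symm) hlen
    · exact hq.last a ha b hb hn hlen

/-- The poset satisfies the countable chain condition. -/
theorem yp_ccc (rho : W → ℕ → Bool) : RO.CCC (YP rho) := by
  intro A hA
  by_contra hS
  obtain ⟨T1, hT1, hT1c, R1, hR1⟩ :=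
    H98m.delta A (fun p : YP rho => p.1.image fun a => (a.nam, a.pt)) hS
  obtain ⟨T2, hT2, hT2c, R2, hR2⟩ :=
    H98m.delta T1 (fun p : YP rho => p.1.image fun a => a.nam) hT1c
  obtain ⟨c, hc⟩ := H98m.pigeon T2 hT2c
    (fun p : YP rho =>
      (fun k => (p.1.filter fun a => (a.nam, a.pt) = k.1).image fun a => (a.node, a.col, a.idx),
       fun k => (p.1.filter fun a => a.nam = k.1).image fun a => (a.node, a.col, a.idx)) :
      YP rho → (R1 → Finset (List Bool × ℕ × ℕ)) × (R2 → Finset (List Bool × ℕ × ℕ)))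
  have hnt : {p | p ∈ T2 ∧ ((fun k => (p.1.filter fun a => (a.nam, a.pt) = k.1).image
        fun a => (a.node, a.col, a.idx),
       fun k => (p.1.filter fun a => a.nam = k.1).image fun a => (a.node, a.col, a.idx)) :
      (R1 → Finset (List Bool × ℕ × ℕ)) × (R2 → Finset (List Bool × ℕ × ℕ))) = c}.Nontrivial := by
    by_contra hn
    exact hc (Set.not_nontrivial_iff.1 hn).countable
  obtain ⟨p, ⟨hp, hpc⟩, q, ⟨hq, hqc⟩, hpq⟩ := hnt
  have h12 := hpc.trans hqc.symm
  have e1 := congrArg Prod.fst h12
  have e2 := congrArg Prod.snd h12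
  have hroot1 := hR1 p (hT2 hp) q (hT2 hq) hpq
  have hroot2 := hR2 p hp q hq hpq
  have hval : YValid rho (p.1 ∪ q.1) := by
    refine p.2.union q.2 ?_ ?_ ?_
    · intro a ha b hb hn hpt
      have hk : (a.nam, a.pt) ∈ R1 := by
        rw [← hroot1]
        refine (@Finset.mem_inter _ (fun a b => Classical.propDecidable (a = b)) _ _ _).2 ⟨?_, ?_⟩
        · exact Finset.mem_image.2 ⟨a, ha, rfl⟩
        · exact Finset.mem_image.2 ⟨b, hb, by rw [hn, hpt]⟩
      have h4 := congrFun e1 ⟨(a.nam, a.pt), hk⟩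
      simp only at h4
      have h5 : (a.node, a.col, a.idx) ∈ (q.1.filter fun b => (b.nam, b.pt) = (a.nam, a.pt)).image
          fun a => (a.node, a.col, a.idx) := by
        rw [← h4]
        exact Finset.mem_image.2 ⟨a, Finset.mem_filter.2 ⟨ha, rfl⟩, rfl⟩
      obtain ⟨b', hb', h6⟩ := Finset.mem_image.1 h5
      obtain ⟨hb'q, h7⟩ := Finset.mem_filter.1 hb'
      have h8 : b' = b := q.2.uniq b' hb'q b hb ((congrArg Prod.fst h7).trans hn)
        ((congrArg Prod.snd h7).trans hpt)
      rw [h8] at h6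
      obtain ⟨an, ap, ano, ac, ai⟩ := a
      obtain ⟨bn, bp, bno, bc, bi⟩ := b
      simp only [Prod.mk.injEq] at h6 hn hpt
      obtain ⟨g1, g2, g3⟩ := h6
      subst hn hpt g1 g2 g3
      rfl
    · intro a ha b hb hn
      have hk : a.nam ∈ R2 := by
        rw [← hroot2, Finset.mem_inter, Finset.mem_image, Finset.mem_image]
        exact ⟨⟨a, ha, rfl⟩, ⟨b, hb, hn.symm⟩⟩
      have h4 := congrFun e2 ⟨a.nam, hk⟩
      simp only at h4
      have h5 : (b.node, b.col, b.idx) ∈ (p.1.filter fun b => b.nam = a.nam).image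
          fun a => (a.node, a.col, a.idx) := by
        rw [h4]
        exact Finset.mem_image.2 ⟨b, Finset.mem_filter.2 ⟨hb, hn.symm⟩, rfl⟩
      obtain ⟨b', hb', h6⟩ := Finset.mem_image.1 h5
      obtain ⟨hb'q, h7⟩ := Finset.mem_filter.1 hb'
      simp only [Prod.mk.injEq] at h6
      exact ⟨b', hb'q, h7.trans hn, h6.1, h6.2.1⟩
    · intro a ha b hb hn
      have hk : a.nam ∈ R2 := by
        rw [← hroot2, Finset.mem_inter, Finset.mem_image, Finset.mem_image]
        exact ⟨⟨a, ha, rfl⟩, ⟨b, hb, hn.symm⟩⟩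
      have h4 := congrFun e2 ⟨a.nam, hk⟩
      simp only at h4
      have h5 : (a.node, a.col, a.idx) ∈ (q.1.filter fun b => b.nam = a.nam).image
          fun a => (a.node, a.col, a.idx) := by
        rw [← h4]
        exact Finset.mem_image.2 ⟨a, Finset.mem_filter.2 ⟨ha, rfl⟩, rfl⟩
      obtain ⟨b', hb', h6⟩ := Finset.mem_image.1 h5
      obtain ⟨hb'q, h7⟩ := Finset.mem_filter.1 hb'
      simp only [Prod.mk.injEq] at h6
      exact ⟨b', hb'q, h7, h6.1, h6.2.1⟩
  exact hA p (hT1 (hT2 hp)) q (hT1 (hT2 hq)) hpq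
    ⟨⟨p.1 ∪ q.1, hval⟩, Finset.subset_union_left, Finset.subset_union_right⟩

theorem pre_length (rho : W → ℕ → Bool) (x : W) (k : ℕ) : (pre rho x k).length = k := by
  unfold pre; exact List.length_ofFn

theorem pre_inj {rho : W → ℕ → Bool} {x y : W} {k : ℕ} (h : pre rho x k = pre rho y k) (i : ℕ)
    (hi : i < k) : rho x i = rho y i :=
  congrFun (List.ofFn_injective h) ⟨i, hi⟩

/-- Every condition that contains a deciding condition for `x` can be extended by an atom with the
point `x`. -/
theorem yp_extend {rho : W → ℕ → Bool} (hrho : Function.Injective rho) (N : NName W) (x : W)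
    (q : YP rho) (m : ℕ) (hm : N.cond x m ⊆ q.1) :
    ∃ r : YP rho, r ≤ q ∧ ∃ a ∈ r.1, a.nam = N ∧ a.pt = x := by
  by_cases hex : ∃ a ∈ q.1, a.nam = N ∧ a.pt = x
  · exact ⟨q, le_rfl, hex⟩
  have hev : ∀ᶠ k in Filter.atTop, ∀ b ∈ q.1, b.node.length < k ∧
      (b.pt ≠ x → pre rho x k ≠ pre rho b.pt k) := by
    rw [Finset.eventually_all]
    intro b _
    refine (Filter.eventually_gt_atTop _).and ?_
    by_cases hb : b.pt = x
    · exact Filter.Eventually.of_forall fun k h => (h hb).elim
    · have h1 : rho x ≠ rho b.pt := fun h => hb (hrho h).symm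
      obtain ⟨i, hi⟩ := Function.ne_iff.1 h1
      refine (Filter.eventually_gt_atTop i).mono fun k hk _ h => hi (pre_inj h i hk)
  obtain ⟨k, hk⟩ := hev.exists
  have hne : ∀ b ∈ q.1, b.nam = N → b.pt ≠ x := fun b hb hn hx => hex ⟨b, hb, hn, hx⟩
  have hval : YValid rho (insert ⟨N, x, pre rho x k, N.val x m, m⟩ q.1) := by
    refine ⟨?_, ?_, ?_, ?_, ?_, ?_⟩
    · intro a ha
      rcases Finset.mem_insert.1 ha with rfl | ha
      · simp only [pre_length]
      · exact q.2.pref a ha
    · intro a ha
      rcases Finset.mem_insert.1 ha with rfl | ha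
      · rfl
      · exact q.2.val a ha
    · intro a ha
      rcases Finset.mem_insert.1 ha with rfl | ha
      · exact hm.trans (Finset.subset_insert _ _)
      · exact (q.2.sub a ha).trans (Finset.subset_insert _ _)
    · intro a ha b hb hn hpt
      rcases Finset.mem_insert.1 ha with rfl | ha <;> rcases Finset.mem_insert.1 hb with rfl | hb
      · rfl
      · exact (hne b hb hn.symm hpt.symm).elim
      · exact (hne a ha hn hpt).elim
      · exact q.2.uniq a ha b hb hn hpt
    · intro a ha b hb hn hnode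
      rcases Finset.mem_insert.1 ha with rfl | ha <;> rcases Finset.mem_insert.1 hb with rfl | hb
      · rfl
      · have h1 := (hk b hb).1
        rw [← hnode] at h1
        simp only [pre_length, lt_irrefl] at h1
      · have h1 := (hk a ha).1
        rw [hnode] at h1
        simp only [pre_length, lt_irrefl] at h1
      · exact q.2.col a ha b hb hn hnode
    · intro a ha b hb hn hlen
      rcases Finset.mem_insert.1 ha with rfl | ha <;> rcases Finset.mem_insert.1 hb with rfl | hb
      · exact (lt_irrefl _ hlen).elim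
      · simp only [pre_length] at hlen
        exact (lt_asymm hlen (hk b hb).1).elim
      · simp only [pre_length]
        exact (hk a ha).2 (hne a ha hn)
      · exact q.2.last a ha b hb hn hlen
  exact ⟨⟨_, hval⟩, Finset.subset_insert _ _, _, Finset.mem_insert_self _ _, rfl, rfl⟩

/-- Countable maximal antichains of deciding conditions. -/
theorem exists_deciding {P : Type} [Preorder P] [Nonempty P] (hP : RO.CCC P) (c : ℕ → RO P)
    (hc : ⨆ n, c n = ⊤) : ∃ (e : ℕ → P) (v : ℕ → ℕ), (∀ m, RO.Forces (e m) (c (v m))) ∧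
      ∀ q : P, ∃ m r, r ≤ q ∧ r ≤ e m := by
  have hdense : ∀ q : P, ∃ r, r ≤ q ∧ ∃ n, RO.Forces r (c n) := by
    intro q
    have h1 : RO.Forces q (⨆ n, c n) := by rw [hc]; exact RO.forces_top q
    exact RO.forces_iSup.1 h1 q le_rfl
  obtain ⟨A, hA⟩ := zorn_subset {A : Set P | (∀ p ∈ A, ∃ n, RO.Forces p (c n)) ∧
      A.Pairwise fun p q => ¬ RO.Compat p q} (by
    intro C hC hchain
    refine ⟨⋃₀ C, ⟨?_, ?_⟩, fun s hs => Set.subset_sUnion_of_mem hs⟩
    · rintro p ⟨s, hs, hp⟩
      exact (hC hs).1 p hp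
    · exact (Set.pairwise_sUnion hchain.directedOn).2 fun s hs => (hC hs).2)
  have hAm : (∀ p ∈ A, ∃ n, RO.Forces p (c n)) ∧ A.Pairwise fun p q => ¬ RO.Compat p q := hA.prop
  have hpre : ∀ q : P, ∃ p ∈ A, ∃ r, r ≤ q ∧ r ≤ p := by
    intro q
    obtain ⟨r, hr, n, hn⟩ := hdense q
    by_cases hrA : r ∈ A
    · exact ⟨r, hrA, r, hr, le_rfl⟩
    by_contra hcon
    have hins : insert r A ∈ {A : Set P | (∀ p ∈ A, ∃ n, RO.Forces p (c n)) ∧
        A.Pairwise fun p q => ¬ RO.Compat p q} := by
      refine ⟨?_, ?_⟩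
      · rintro p (rfl | hp)
        · exact ⟨n, hn⟩
        · exact hAm.1 p hp
      · refine hAm.2.insert fun p hp _ => ⟨?_, ?_⟩
        · rintro ⟨s, hs1, hs2⟩
          exact hcon ⟨p, hp, s, hs1.trans hr, hs2⟩
        · rintro ⟨s, hs1, hs2⟩
          exact hcon ⟨p, hp, s, hs2.trans hr, hs1⟩
    have h2 := hA.eq_of_subset hins (Set.subset_insert r A)
    exact hrA (h2 ▸ Set.mem_insert r A)
  have hcount : A.Countable := hP A fun p hp q hq hne => hAm.2 hp hq hne
  have hne : A.Nonempty := by
    obtain ⟨p, hp, _⟩ := hpre (Classical.arbitrary P)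
    exact ⟨p, hp⟩
  obtain ⟨e, he⟩ := hcount.exists_eq_range hne
  have hmem : ∀ m, e m ∈ A := fun m => by rw [he]; exact Set.mem_range_self m
  choose v hv using fun m => hAm.1 (e m) (hmem m)
  refine ⟨e, v, hv, fun q => ?_⟩
  obtain ⟨p, hp, r, h1, h2⟩ := hpre q
  rw [he] at hp
  obtain ⟨m, rfl⟩ := hp
  exact ⟨m, r, h1, h2⟩

/-- The `B`-valued node set attached to a name. -/
noncomputable def yR (rho : W → ℕ → Bool) (N : NName W) (s : List Bool) : RO (YP rho) :=
  if s = [] then ⊤ else RO.hull {p | ∃ a ∈ p.1, a.nam = N ∧ a.node = s}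

theorem forces_yR {rho : W → ℕ → Bool} {N : NName W} {r : YP rho} {a : YAtom W} (ha : a ∈ r.1)
    (hN : a.nam = N) : RO.Forces r (yR rho N a.node) := by
  unfold yR
  split_ifs with h
  · exact RO.forces_top r
  · exact RO.forces_hull.2 fun q hq => ⟨q, le_rfl, r, ⟨a, ha, hN, rfl⟩, hq⟩

theorem forces_yR_compl {rho : W → ℕ → Bool} {N : NName W} {x : W} {r : YP rho} {a : YAtom W}
    (ha : a ∈ r.1) (hN : a.nam = N) (hx : a.pt = x) {j : ℕ} (hj : a.node.length < j) :
    RO.Forces r (yR rho N (pre rho x j))ᶜ := by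
  rw [RO.forces_compl]
  intro q hq hf
  have hne : pre rho x j ≠ [] := by
    intro h
    have h1 := pre_length rho x j
    rw [h, List.length_nil] at h1
    omega
  unfold yR at hf
  rw [if_neg hne] at hf
  obtain ⟨t, ht, s, ⟨b, hb, hbN, hbn⟩, hts⟩ := RO.forces_hull.1 hf q le_rfl
  have ha' : a ∈ t.1 := ht (hq ha)
  have hb' : b ∈ t.1 := hts hb
  have hbl : b.node.length = j := by rw [hbn, pre_length]
  refine t.2.last a ha' b hb' (hN.trans hbN.symm) (by rw [hbl]; exact hj) ?_
  rw [hbl, hbn, hx]

theorem eq_of_forces_Last {rho : W → ℕ → Bool} {N : NName W} {x : W} {r : YP rho} {a : YAtom W}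
    (ha : a ∈ r.1) (hN : a.nam = N) (hx : a.pt = x) {k : ℕ}
    (hL : RO.Forces r (Last rho (yR rho N) x k)) : k = a.node.length := by
  unfold Last at hL
  obtain ⟨h1, h2⟩ := RO.forces_inf.1 hL
  rcases lt_trichotomy k a.node.length with h | h | h
  · have h3 := RO.forces_iInf.1 (RO.forces_iInf.1 h2 a.node.length) h
    have h4 : RO.Forces r (yR rho N (pre rho x a.node.length)) := by
      have h5 := r.2.pref a ha
      rw [hx] at h5
      rw [← h5]
      exact forces_yR ha hN
    exact (RO.forces_compl.1 h3 r le_rfl h4).elim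
  · exact h
  · exact (RO.forces_compl.1 (forces_yR_compl ha hN hx h) r le_rfl h1).elim

/-- **The poset has node refinements.** -/
theorem yp_nodeRef {rho : W → ℕ → Bool} (hrho : Function.Injective rho) :
    NodeRef (RO (YP rho)) W rho := by
  intro c htot hdis
  choose e v hv hpre using fun x => exists_deciding (yp_ccc rho) (c x) (htot x)
  obtain ⟨N, hNc, hNv⟩ := exists_nname (fun x n => (e x n).1) v
  have hext : ∀ (q : YP rho) (x : W), ∃ r, r ≤ q ∧ ∃ a ∈ r.1, a.nam = N ∧ a.pt = x := by
    intro q x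
    obtain ⟨m, r, hr1, hr2⟩ := hpre x q
    have hm : N.cond x m ⊆ r.1 := by rw [hNc]; exact hr2
    obtain ⟨t, ht, ha⟩ := yp_extend hrho N x r m hm
    exact ⟨t, ht.trans hr1, ha⟩
  have hforce : ∀ (r : YP rho) (a : YAtom W), a ∈ r.1 → a.nam = N →
      RO.Forces r (c a.pt a.col) := by
    intro r a ha hN
    have h1 := r.2.sub a ha
    have h2 := r.2.val a ha
    rw [hN, hNc] at h1
    rw [hN, hNv] at h2
    rw [← h2]
    exact (hv a.pt a.idx).mono h1
  refine ⟨yR rho N, by simp [yR], ?_, ?_⟩
  · intro x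
    rw [RO.eq_top_iff_forces]
    intro p
    rw [RO.forces_iSup]
    intro q _
    obtain ⟨r, hr, a, ha, hN, hx⟩ := hext q x
    refine ⟨r, hr, a.node.length, ?_⟩
    rw [RO.forces_iInf]
    intro j
    rw [RO.forces_iInf]
    intro hj
    exact forces_yR_compl ha hN hx hj
  · intro x y k n hxy p hp
    obtain ⟨⟨hLx, hLy⟩, hcx⟩ := hp
    refine RO.forces_of_dense fun q hq => ?_
    obtain ⟨r, hr, a, ha, haN, hax⟩ := hext q x
    obtain ⟨t, ht, b, hb, hbN, hby⟩ := hext r y
    have ha' : a ∈ t.1 := ht ha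
    have htp : t ≤ p := ht.trans (hr.trans hq)
    have h1 : k = a.node.length := eq_of_forces_Last ha' haN hax (hLx.mono htp)
    have h2 : k = b.node.length := eq_of_forces_Last hb hbN hby (hLy.mono htp)
    have h3 : a.node = b.node := by
      rw [t.2.pref a ha', t.2.pref b hb, ← h1, ← h2, hax, hby, hxy]
    have h4 : a.col = b.col := t.2.col a ha' b hb (haN.trans hbN.symm) h3
    have h5 : RO.Forces t (c x a.col) := by
      have := hforce t a ha' haN
      rwa [hax] at this
    have h6 : RO.Forces t (c y b.col) := by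
      have := hforce t b hb hbN
      rwa [hby] at this
    have h7 : n = a.col := by
      by_contra hne
      have h8 := (hdis x n a.col hne).le_bot
      exact RO.not_forces_bot t (h8 t ⟨hcx.mono htp, h5⟩)
    refine ⟨t, ht.trans hr, ?_⟩
    rw [h7, h4]
    exact h6

/-- **Existence of the algebra of the positive model.** -/
theorem yesPoset (rho : W → ℕ → Bool) (hrho : Function.Injective rho) :
    ∃ (B : Type) (_ : CompleteBooleanAlgebra B) (_ : Nontrivial B), BCCC B ∧ NodeRef B W rho :=
  ⟨RO (YP rho), inferInstance, inferInstance, RO.bccc (yp_ccc rho), yp_nodeRef hrho⟩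

end M3
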