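import Pool.Agent.H.MP_8ff4bd_gt.M3.YesAsm
import Pool.Agent.H.MP_8ff4bd_gt.M3.YesPoset
import Pool.Agent.H.MP_8ff4bd_gt.M3.Cont
import Pool.Agent.H.MP_8ff4bd_gt.M3.TreeMain

/-!
# The positive model: the value of the homeomorphism statement is `⊤`
-/

set_option autoImplicit false

namespace M3

/-- The statement used by the final theorem. -/
theorem YES : ∃ (B : Type) (_ : CompleteBooleanAlgebra B) (_ : Nontrivial B), BCCC B ∧
    bHomeo B (W1 →₀ ZMod 2) (W1 →₀ ZMod 3) = ⊤ :=
  YES_of (fun _ rho hrho => yesPoset rho hrho)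
    (fun _ _ _ rho hN _ _ _ _ _ _ ha hb f hOK hloc => cont_of rho ha hb f hOK hloc hN)
    (fun _ rho hrho => treeBij rho hrho)

end M3
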