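import Pool.Agent.H.MP_8ff4bd_gt.M3.YES
import Pool.Agent.H.MP_8ff4bd_gt.M3.SO1
import Pool.Agent.H.MP_8ff4bd_gt.M3.GR

/-!
# The positive model for the first question

In a Boolean algebra with node refinements and slowly splitting classes the value of the
homeomorphism statement is `⊤` for the pro-countable topologies and for the finest `ℵ₀`-bounded
group topologies.
-/

set_option autoImplicit false

namespace M3

variable {B : Type} [CompleteBooleanAlgebra B]

/-- Every neighbourhood of zero in the finest `ℵ₀`-bounded group topology contains a subgroup of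
countable index. -/
theorem grStmt {W : Type} {p : ℕ} [NeZero p] {β : ℕ → ℕ} (hβ : β 0 = 0) (hS : SlowTree B W β) :
    GRstmt B (W →₀ ZMod p) := by
  intro V
  obtain ⟨r, hr⟩ := bGSeq_even V
  have h := gr (p := p) hβ hS (fun n => V (2 * n)) r
  refine le_trans ?_ h
  refine hr.trans ?_
  unfold bUWit
  exact le_inf (le_inf ((inf_le_left.trans inf_le_left).trans inf_le_left)
    (inf_le_left.trans inf_le_right)) inf_le_right

/-- The positive model for both questions, from a Boolean algebra with node refinements and slowly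
splitting classes. -/
theorem YES1_of {β : ℕ → ℕ} (hβ : β 0 = 0)
    (hyes : ∀ (rho : W1 → ℕ → Bool), Function.Injective rho →
      ∃ (B : Type) (_ : CompleteBooleanAlgebra B) (_ : Nontrivial B), BCCC B ∧
        NodeRef B W1 rho ∧ SlowTree B W1 β) :
    ∃ (B : Type) (_ : CompleteBooleanAlgebra B) (_ : Nontrivial B), BCCC B ∧
      bHomeo B (W1 →₀ ZMod 2) (W1 →₀ ZMod 3) = ⊤ ∧
      bGHomeo B (W1 →₀ ZMod 2) (W1 →₀ ZMod 3) = ⊤ := by
  obtain ⟨rho, hrho⟩ := exists_rho
  obtain ⟨e⟩ := nonempty_W1_prod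
  obtain ⟨B, iB, iN, hB, hN, hS⟩ := hyes rho hrho
  have h1 : bHomeo B (W1 →₀ ZMod 2) (W1 →₀ ZMod 3) = ⊤ := by
    rw [eq_top_iff, ← bHomeo_tree
      (fun _ _ _ _ _ _ ha hb f hOK hloc => cont_of rho ha hb f hOK hloc hN) (treeBij rho hrho)]
    exact bHomeo_transport (groupEquiv 2 e) (groupEquiv 3 e)
  refine ⟨B, iB, iN, hB, h1, ?_⟩
  rw [eq_top_iff, ← h1]
  refine bHomeo_le_bGHomeo ⟨2, by norm_num, fun x => ?_⟩ ⟨3, by norm_num, fun x => ?_⟩
    (grStmt hβ hS) (grStmt hβ hS)
  · ext a
    rw [Finsupp.smul_apply, Finsupp.zero_apply]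
    exact (by decide : ∀ z : ZMod 2, 2 • z = 0) (x a)
  · ext a
    rw [Finsupp.smul_apply, Finsupp.zero_apply]
    exact (by decide : ∀ z : ZMod 3, 3 • z = 0) (x a)

end M3
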