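import Pool.Agent.H.MP_8ff4bd_gt.M3.PF
import Pool.Agent.H.MP_8ff4bd_gt.M3.Ground
import Pool.Agent.H.MP_8ff4bd_gt.M3.W1Facts
import Pool.Agent.H.MP_8ff4bd_gt.M3.RO

/-!
# Assembly of the positive model

Transport of the homeomorphism statement along additive equivalences, the statement for the
bijection given by `TreeBij`, and the reduction of the groups `W1 →₀ ZMod m` to
`W1 →₀ (ℕ →₀ ZMod m)`.
-/

set_option autoImplicit false

namespace M3

variable {B : Type} [CompleteBooleanAlgebra B]

section transport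

variable {G G' H H' : Type} [AddCommGroup G] [AddCommGroup G'] [AddCommGroup H] [AddCommGroup H']

theorem bSub_comp_le (e : G →+ G') (lam : G' → B) : bSub lam ≤ bSub (fun x => lam (e x)) := by
  unfold bSub
  refine le_inf ?_ ?_
  · beta_reduce
    rw [map_zero]
    exact inf_le_left
  · refine le_iInf fun x => le_iInf fun y => ?_
    beta_reduce
    rw [map_add]
    exact inf_le_right.trans ((iInf_le _ (e x)).trans (iInf_le _ (e y)))

theorem bIdx_comp_le (e : G →+ G') (lam : G' → B) : bIdx lam ≤ bIdx (fun x => lam (e x)) := by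
  unfold bIdx
  refine iSup_le fun r => le_iSup_of_le (fun x n => r (e x) n) ?_
  refine le_inf ?_ ?_
  · refine le_iInf fun x => ?_
    exact inf_le_left.trans (iInf_le _ (e x))
  · refine le_iInf fun x => le_iInf fun y => le_iInf fun n => ?_
    beta_reduce
    rw [map_sub]
    exact inf_le_right.trans ((iInf_le _ (e x)).trans ((iInf_le _ (e y)).trans (iInf_le _ n)))

theorem bBij_transport (e : G ≃+ G') (e' : H ≃+ H') (F : G → H → B) :
    bBij F ≤ bBij (fun x y => F (e.symm x) (e'.symm y)) := by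
  unfold bBij
  refine le_inf (le_inf ?_ ?_) (le_inf ?_ ?_)
  · refine le_iInf fun x => ?_
    refine (inf_le_left.trans inf_le_left).trans ((iInf_le _ (e.symm x)).trans ?_)
    refine iSup_le fun y => le_iSup_of_le (e' y) ?_
    beta_reduce
    rw [AddEquiv.symm_apply_apply]
  · refine le_iInf fun x => le_iInf fun y => le_iInf fun y' => le_iInf fun hy => ?_
    exact (inf_le_left.trans inf_le_right).trans ((iInf_le _ (e.symm x)).trans
      ((iInf_le _ (e'.symm y)).trans ((iInf_le _ (e'.symm y')).trans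
        (iInf_le _ (fun h => hy (e'.symm.injective h))))))
  · refine le_iInf fun y => ?_
    refine (inf_le_right.trans inf_le_left).trans ((iInf_le _ (e'.symm y)).trans ?_)
    refine iSup_le fun x => le_iSup_of_le (e x) ?_
    beta_reduce
    rw [AddEquiv.symm_apply_apply]
  · refine le_iInf fun y => le_iInf fun x => le_iInf fun x' => le_iInf fun hx => ?_
    exact (inf_le_right.trans inf_le_right).trans ((iInf_le _ (e'.symm y)).trans
      ((iInf_le _ (e.symm x)).trans ((iInf_le _ (e.symm x')).trans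
        (iInf_le _ (fun h => hx (e.symm.injective h))))))

theorem bCont_transport (e : G ≃+ G') (e' : H ≃+ H') (F : G → H → B) :
    bCont F ≤ bCont (fun x y => F (e.symm x) (e'.symm y)) := by
  refine le_iInf fun x => le_iInf fun y => ?_
  have h1 : bCont F ≤ F (e.symm x) (e'.symm y) ⇨ ⨅ lam : H → B, (bSub lam ⊓ bIdx lam) ⇨
      ⨆ kap : G → B, bSub kap ⊓ bIdx kap ⊓
        ⨅ z, ⨅ w, (kap z ⊓ F (e.symm x + z) w) ⇨ lam (w - e'.symm y) :=
    (iInf_le _ (e.symm x)).trans (iInf_le _ (e'.symm y))
  refine h1.trans (himp_le_himp_left ?_)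
  refine le_iInf fun lam => ?_
  refine (iInf_le _ (fun w => lam (e' w))).trans ?_
  refine (himp_le_himp_right (inf_le_inf (bSub_comp_le e'.toAddMonoidHom lam)
    (bIdx_comp_le e'.toAddMonoidHom lam))).trans ?_
  refine himp_le_himp_left ?_
  refine iSup_le fun kap => le_iSup_of_le (fun z => kap (e.symm z)) ?_
  refine inf_le_inf (inf_le_inf (bSub_comp_le e.symm.toAddMonoidHom kap)
    (bIdx_comp_le e.symm.toAddMonoidHom kap)) ?_
  refine le_iInf fun z => le_iInf fun w => ?_
  refine (iInf_le _ (e.symm z)).trans ((iInf_le _ (e'.symm w)).trans ?_)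
  beta_reduce
  rw [← map_add, ← map_sub, AddEquiv.apply_symm_apply]

/-- The value of the homeomorphism statement does not change under additive equivalences. -/
theorem bHomeo_transport (e : G ≃+ G') (e' : H ≃+ H') : bHomeo B G H ≤ bHomeo B G' H' := by
  unfold bHomeo
  refine iSup_le fun F => le_iSup_of_le (fun x y => F (e.symm x) (e'.symm y)) ?_
  exact inf_le_inf (inf_le_inf (bBij_transport e e' F) (bCont_transport e e' F))
    (bCont_transport e' e (fun y x => F x y))

end transport

/-- The graph of a ground bijection. -/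
theorem bBij_equiv {G H : Type} [AddCommGroup G] [AddCommGroup H] (f : G ≃ H) :
    bBij (B := B) (fun g h => pr B (f g = h)) = ⊤ := by
  rw [eq_top_iff]
  unfold bBij
  refine le_inf (le_inf ?_ ?_) (le_inf ?_ ?_)
  · exact le_iInf fun x => le_iSup_of_le (f x) (by beta_reduce; rw [pr_true rfl])
  · refine le_iInf fun x => le_iInf fun y => le_iInf fun y' => le_iInf fun hy => ?_
    beta_reduce
    by_cases h : f x = y
    · have h' : ¬ f x = y' := fun h' => hy (h.symm.trans h')
      rw [pr_false h', inf_bot_eq, compl_bot]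
    · rw [pr_false h, bot_inf_eq, compl_bot]
  · exact le_iInf fun y => le_iSup_of_le (f.symm y) (by
      beta_reduce
      rw [pr_true (f.apply_symm_apply y)])
  · refine le_iInf fun y => le_iInf fun x => le_iInf fun x' => le_iInf fun hx => ?_
    beta_reduce
    by_cases h : f x = y
    · have h' : ¬ f x' = y := fun h' => hx (f.injective (h.trans h'.symm))
      rw [pr_false h', inf_bot_eq, compl_bot]
    · rw [pr_false h, bot_inf_eq, compl_bot]

/-- The continuity theorem (file Cont), as a statement. -/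
def ContOf (B : Type) [CompleteBooleanAlgebra B] (W : Type) (rho : W → ℕ → Bool) : Prop :=
  ∀ (p q : ℕ) [NeZero p] [NeZero q] (a b : ℕ → ℕ), Lev a → Lev b →
    ∀ f : (W →₀ (ℕ →₀ ZMod p)) → (W →₀ (ℕ →₀ ZMod q)),
      (∀ g s m, nsum rho g s ∈ CL a m → nsum rho (f g) s ∈ CL b m) →
      NLocal rho f → bCont (B := B) (fun g h => pr B (f g = h)) = ⊤

theorem Lev.shift {b : ℕ → ℕ} (hb : Lev b) : Lev (fun m => b (m - 1)) where
  mono := fun _ _ h => hb.mono (Nat.sub_le_sub_right h 1)
  zero := hb.zero
  unb := fun j => by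
    obtain ⟨m, hm⟩ := hb.unb j
    exact ⟨m + 1, hm⟩

theorem mem_CL_zero {p : ℕ} {a : ℕ → ℕ} (ha : Lev a) (v : ℕ →₀ ZMod p) :
    v ∈ CL a 0 ↔ v = 0 := by
  constructor
  · intro h
    ext j
    exact h j (by rw [ha.zero]; exact Nat.zero_le j)
  · rintro rfl
    exact AddSubgroup.zero_mem _

/-- The value for the groups of finitely supported functions with values in the direct sums. -/
theorem bHomeo_tree {W : Type} {rho : W → ℕ → Bool} (hc : ContOf B W rho)
    (ht : TreeBij W rho) : bHomeo B (W →₀ (ℕ →₀ ZMod 2)) (W →₀ (ℕ →₀ ZMod 3)) = ⊤ := by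
  obtain ⟨a, b, ha, hb, f, h1, h2, h3, h4, h5⟩ := ht
  rw [eq_top_iff]
  unfold bHomeo
  refine le_iSup_of_le (fun g h => pr B (f g = h)) ?_
  refine le_inf (le_inf ?_ ?_) ?_
  · rw [bBij_equiv]
  · rw [hc 2 3 a b ha hb f h1 h4]
  · have h6 : (fun (y : W →₀ (ℕ →₀ ZMod 3)) (x : W →₀ (ℕ →₀ ZMod 2)) => pr B (f x = y)) =
        fun y x => pr B (f.symm y = x) := by
      funext y x
      congr 1
      apply propext
      rw [f.symm_apply_eq]
      exact eq_comm
    rw [h6, hc 3 2 (fun m => b (m - 1)) a hb.shift ha f.symm ?_ h5]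
    intro h s m hm
    cases m with
    | zero =>
      rw [mem_CL_zero hb.shift] at hm
      rw [mem_CL_zero ha]
      apply h3
      rw [f.apply_symm_apply]
      exact hm
    | succ m =>
      apply h2
      rw [f.apply_symm_apply]
      exact hm

theorem nonempty_W1_prod : Nonempty (W1 ≃ W1 × ℕ) := by
  rw [← Cardinal.eq, Cardinal.mk_prod, Cardinal.lift_id, Cardinal.lift_id, Cardinal.mk_nat,
    Cardinal.mul_aleph0_eq]
  rw [mk_W1]
  exact Cardinal.aleph0_le_aleph 1

theorem exists_rho : ∃ rho : W1 → ℕ → Bool, Function.Injective rho := by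
  have h : Cardinal.mk W1 ≤ Cardinal.mk (ℕ → Bool) := by
    rw [mk_W1]
    refine Cardinal.aleph_one_le_continuum.trans ?_
    simp
  obtain ⟨f⟩ := h
  exact ⟨f, f.injective⟩

/-- The groups of the problem are additively equivalent to the groups of the ground bijection. -/
noncomputable def groupEquiv (p : ℕ) (e : W1 ≃ W1 × ℕ) :
    (W1 →₀ (ℕ →₀ ZMod p)) ≃+ (W1 →₀ ZMod p) :=
  ((Finsupp.domCongr e).trans Finsupp.curryAddEquiv).symm

/-- **The positive model**, from the three inputs. -/
theorem YES_of (hyes : ∀ (W : Type) (rho : W → ℕ → Bool), Function.Injective rho →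
      ∃ (B : Type) (_ : CompleteBooleanAlgebra B) (_ : Nontrivial B), BCCC B ∧ NodeRef B W rho)
    (hcont : ∀ (B : Type) [CompleteBooleanAlgebra B] (W : Type) (rho : W → ℕ → Bool),
      NodeRef B W rho → ContOf B W rho)
    (htree : ∀ (W : Type) (rho : W → ℕ → Bool), Function.Injective rho → TreeBij W rho) :
    ∃ (B : Type) (_ : CompleteBooleanAlgebra B) (_ : Nontrivial B), BCCC B ∧
      bHomeo B (W1 →₀ ZMod 2) (W1 →₀ ZMod 3) = ⊤ := by
  obtain ⟨rho, hrho⟩ := exists_rho
  obtain ⟨e⟩ := nonempty_W1_prod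
  obtain ⟨B, iB, iN, hB, hN⟩ := hyes W1 rho hrho
  refine ⟨B, iB, iN, hB, ?_⟩
  rw [eq_top_iff, ← bHomeo_tree (hcont B W1 rho hN) (htree W1 rho hrho)]
  exact bHomeo_transport (groupEquiv 2 e) (groupEquiv 3 e)

end M3
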