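import Pool.Agent.H.MP_8ff4bd_gt.M3.Core

/-!
# Boolean-valued sets: the axioms of ZFC

Every axiom is stated in `B`-valued form; the schemas are for arbitrary extensional
`B`-valued predicates.
-/

universe u v

namespace M3

/-! ### Reasoning in a complete Boolean algebra with a context -/

section context

variable {B : Type u} [CompleteBooleanAlgebra B]

theorem bv_exists {ι : Sort v} {Γ c : B} {f : ι → B} (h : Γ ≤ ⨆ i, f i)
    (k : ∀ i, ∀ Δ ≤ Γ, Δ ≤ f i → Δ ≤ c) : Γ ≤ c := by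
  have : Γ = ⨆ i, Γ ⊓ f i := by rw [← inf_iSup_eq, inf_eq_left.2 h]
  rw [this]
  exact iSup_le fun i => k i _ inf_le_left inf_le_right

theorem bv_or {Γ a b c : B} (h : Γ ≤ a ⊔ b) (k : ∀ Δ ≤ Γ, Δ ≤ a → Δ ≤ c)
    (k' : ∀ Δ ≤ Γ, Δ ≤ b → Δ ≤ c) : Γ ≤ c := by
  have : Γ = (Γ ⊓ a) ⊔ (Γ ⊓ b) := by rw [← inf_sup_left, inf_eq_left.2 h]
  rw [this]
  exact sup_le (k _ inf_le_left inf_le_right) (k' _ inf_le_left inf_le_right)

theorem bv_imp {Γ a b : B} (k : ∀ Δ ≤ Γ, Δ ≤ a → Δ ≤ b) : Γ ≤ a ⇨ b := by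
  rw [le_himp_iff]; exact k _ inf_le_left inf_le_right

theorem bv_mp {Γ a b : B} (h : Γ ≤ a ⇨ b) (h' : Γ ≤ a) : Γ ≤ b :=
  (le_inf h h').trans himp_inf_le

theorem bv_em (Γ a : B) : Γ ≤ a ⊔ aᶜ := by rw [sup_compl_eq_top]; exact le_top

theorem bv_cases (a : B) {Γ c : B} (k : ∀ Δ ≤ Γ, Δ ≤ a → Δ ≤ c)
    (k' : ∀ Δ ≤ Γ, Δ ≤ aᶜ → Δ ≤ c) : Γ ≤ c := bv_or (bv_em Γ a) k k'

theorem bv_not {Γ a : B} (k : ∀ Δ ≤ Γ, Δ ≤ a → Δ ≤ ⊥) : Γ ≤ aᶜ := by
  rw [← himp_bot]; exact bv_imp k

theorem bv_absurd {Γ a c : B} (h : Γ ≤ a) (h' : Γ ≤ aᶜ) : Γ ≤ c := by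
  have : Γ ≤ ⊥ := (le_inf h h').trans (by rw [inf_compl_self])
  exact this.trans bot_le

theorem bv_contra {Γ a : B} (k : ∀ Δ ≤ Γ, Δ ≤ aᶜ → Δ ≤ ⊥) : Γ ≤ a :=
  bv_cases a (fun _ _ h => h) (fun Δ h h' => (k Δ h h').trans bot_le)

theorem bv_all {ι : Sort v} {Γ : B} {f : ι → B} (h : Γ ≤ ⨅ i, f i) (i : ι) : Γ ≤ f i :=
  h.trans (iInf_le _ i)

theorem bv_left {Γ a b : B} (h : Γ ≤ a ⊓ b) : Γ ≤ a := h.trans inf_le_left

theorem bv_right {Γ a b : B} (h : Γ ≤ a ⊓ b) : Γ ≤ b := h.trans inf_le_right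

theorem bv_intro {ι : Sort v} {Γ : B} {f : ι → B} (i : ι) (h : Γ ≤ f i) : Γ ≤ ⨆ i, f i :=
  h.trans (le_iSup f i)

/-- The forcing characterisation of a supremum. -/
theorem le_iSup_iff_dense {ι : Sort v} {Γ : B} {f : ι → B} :
    Γ ≤ ⨆ i, f i ↔ ∀ q ≤ Γ, q ≠ ⊥ → ∃ r ≤ q, r ≠ ⊥ ∧ ∃ i, r ≤ f i := by
  constructor
  · intro h q hq hq0
    by_contra hcon
    push Not at hcon
    apply hq0
    rw [← le_bot_iff]
    refine bv_exists (hq.trans h) fun i Δ hΔ hi => ?_
    by_contra h0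
    exact hcon Δ hΔ (fun h => h0 (by rw [h])) i hi
  · intro h
    by_contra hcon
    have h0 : Γ ⊓ (⨆ i, f i)ᶜ ≠ ⊥ := by
      intro h1
      apply hcon
      rw [← le_bot_iff, ← le_himp_iff, himp_bot, compl_compl] at h1
      exact h1
    obtain ⟨r, hr, hr0, i, hi⟩ := h _ inf_le_left h0
    apply hr0
    rw [← le_bot_iff]
    exact bv_absurd (bv_intro i hi) (hr.trans inf_le_right)

end context

namespace BSet

variable {B : Type u} [CompleteBooleanAlgebra B]

/-! ### The empty set, pairs, unions, power sets, separation -/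

/-- The empty name. -/
def empty : BSet B := mk PEmpty (fun a => a.elim) (fun a => a.elim)

@[simp] theorem bmem_empty (z : BSet B) : bmem z empty = ⊥ := by
  unfold bmem
  rw [iSup_eq_bot]
  rintro ⟨⟩

theorem beq_empty (x : BSet B) : beq x empty = ⨅ z, (bmem z x)ᶜ := by
  rw [beq_eq_iInf]
  simp

/-- Comprehension. -/
def sep (φ : BSet B → B) (x : BSet B) : BSet B :=
  mk x.Idx x.elt (fun a => x.bv a ⊓ φ (x.elt a))

theorem bmem_sep {φ : BSet B → B} (h : Ext φ) (x z : BSet B) :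
    bmem z (sep φ x) = bmem z x ⊓ φ z := by
  apply le_antisymm
  · unfold bmem
    refine iSup_le fun a => ?_
    show x.bv a ⊓ φ (x.elt a) ⊓ beq z (x.elt a) ≤ _
    refine le_inf (bv_intro a ?_) ?_
    · exact le_inf (inf_le_left.trans inf_le_left) inf_le_right
    · exact h.le (x := x.elt a) (beq_symm' inf_le_right) (inf_le_left.trans inf_le_right)
  · unfold bmem
    rw [iSup_inf_eq]
    refine iSup_le fun a => bv_intro (f := fun a => x.bv a ⊓ φ (x.elt a) ⊓ beq z (x.elt a)) a ?_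
    refine le_inf (le_inf (inf_le_left.trans inf_le_left) ?_) (inf_le_left.trans inf_le_right)
    exact h.le (x := z) (inf_le_left.trans inf_le_right) inf_le_right

/-- Unordered pair. -/
def upair (x y : BSet B) : BSet B :=
  mk (ULift Bool) (fun b => if b.down then x else y) (fun _ => ⊤)

theorem bmem_upair (x y z : BSet B) : bmem z (upair x y) = beq z x ⊔ beq z y := by
  unfold bmem upair
  apply le_antisymm
  · refine iSup_le ?_
    rintro ⟨_ | _⟩
    · simp
    · simp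
  · refine sup_le ?_ ?_
    · exact bv_intro (f := fun a : ULift Bool => (⊤ : B) ⊓ beq z (if a.down then x else y))
        ⟨true⟩ (by simp)
    · exact bv_intro (f := fun a : ULift Bool => (⊤ : B) ⊓ beq z (if a.down then x else y))
        ⟨false⟩ (by simp)

/-- Insertion of an element. -/
def insert (x y : BSet B) : BSet B :=
  mk (Option y.Idx) (fun o => o.elim x y.elt) (fun o => o.elim ⊤ y.bv)

theorem bmem_insert (x y z : BSet B) : bmem z (insert x y) = beq z x ⊔ bmem z y := by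
  apply le_antisymm
  · unfold insert
    conv_lhs => unfold bmem
    refine iSup_le ?_
    rintro (_ | a)
    · show (⊤ : B) ⊓ beq z x ≤ _
      simp
    · show y.bv a ⊓ beq z (y.elt a) ≤ _
      exact le_sup_of_le_right (bv_intro (f := fun a => y.bv a ⊓ beq z (y.elt a)) a le_rfl)
  · unfold insert
    refine sup_le ?_ ?_
    · conv_rhs => unfold bmem
      refine bv_intro (none : Option y.Idx) ?_
      show _ ≤ (⊤ : B) ⊓ beq z x
      simp
    · unfold bmem
      refine iSup_le fun a => ?_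
      exact bv_intro (some a : Option y.Idx) le_rfl

/-- Union of a set. -/
def sUnion (x : BSet B) : BSet B :=
  mk (Σ a : x.Idx, (x.elt a).Idx) (fun p => (x.elt p.1).elt p.2)
    (fun p => x.bv p.1 ⊓ (x.elt p.1).bv p.2)

theorem bmem_sUnion' (x z : BSet B) : bmem z (sUnion x) = ⨆ a, x.bv a ⊓ bmem z (x.elt a) := by
  unfold bmem
  show (⨆ p : Σ a : x.Idx, (x.elt a).Idx, x.bv p.1 ⊓ (x.elt p.1).bv p.2 ⊓
    beq z ((x.elt p.1).elt p.2)) = _
  rw [iSup_sigma]
  congr 1
  ext a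
  rw [inf_iSup_eq]
  simp only [inf_assoc]

theorem bmem_sUnion (x z : BSet B) : bmem z (sUnion x) = ⨆ y, bmem y x ⊓ bmem z y := by
  rw [bmem_sUnion']
  exact iSup_idx (ext_bmem_right z) x

/-- Power set. -/
def pow (x : BSet B) : BSet B :=
  mk (x.Idx → B) (fun f => mk x.Idx x.elt (fun a => x.bv a ⊓ f a)) (fun _ => ⊤)

theorem bmem_pow (x z : BSet B) : bmem z (pow x) = bsub z x := by
  apply le_antisymm
  · unfold bmem
    refine iSup_le fun f => ?_
    show (⊤ : B) ⊓ beq z (mk x.Idx x.elt (fun a => x.bv a ⊓ f a)) ≤ _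
    rw [top_inf_eq]
    refine (ext_bsub_left x).le (x := mk x.Idx x.elt (fun a => x.bv a ⊓ f a))
      (beq_symm' le_rfl) ?_
    refine le_trans le_top ?_
    unfold bsub
    refine le_iInf fun a => bv_imp fun Δ _ h => ?_
    exact (h.trans inf_le_left).trans (bv_le_bmem x a)
  · have h : Ext (fun w => bmem w z) := ext_bmem_left z
    unfold bmem
    refine bv_intro (f := fun f : x.Idx → B =>
      (⊤ : B) ⊓ beq z (mk x.Idx x.elt (fun a => x.bv a ⊓ f a))) (fun a => bmem (x.elt a) z) ?_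
    rw [top_inf_eq]
    show bsub z x ≤ beq z (sep (fun w => bmem w z) x)
    rw [le_beq_iff']
    constructor
    · intro w
      rw [bmem_sep h]
      exact le_inf (bsub_inf_bmem w z x) inf_le_right
    · intro w
      rw [bmem_sep h]
      exact inf_le_right.trans inf_le_right

/-! ### Foundation -/

/-- Induction on membership in `B`-valued form. -/
theorem mem_induction {φ : BSet B → B} (h : Ext φ) (z : BSet B) :
    (⨅ x, (⨅ y, bmem y x ⇨ φ y) ⇨ φ x) ≤ φ z := by
  induction z using induct with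
  | h z ih =>
    refine bv_mp (iInf_le _ z) ?_
    rw [← iInf_idx h]
    refine le_iInf fun a => ?_
    exact (ih a).trans le_himp

/-- Foundation: a nonempty set has a minimal element. -/
theorem foundation (x : BSet B) :
    (⨆ y, bmem y x) ≤ ⨆ y, bmem y x ⊓ ⨅ z, bmem z x ⇨ (bmem z y)ᶜ := by
  set R : B := ⨆ y, bmem y x ⊓ ⨅ z, bmem z x ⇨ (bmem z y)ᶜ with hR
  have hext : Ext (fun y : BSet B => bmem y x ⇨ R) := (ext_bmem_left x).himp (ext_const _)
  refine iSup_le fun y => ?_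
  have key : (⨅ z, bmem z x ⇨ R) ≤ R ∨ True := Or.inr trivial
  have h1 := mem_induction hext y
  have h2 : (⊤ : B) ≤ ⨅ z, (⨅ y, bmem y z ⇨ (bmem y x ⇨ R)) ⇨ (bmem z x ⇨ R) := by
    refine le_iInf fun z => bv_imp fun Δ _ hΔ => bv_imp fun Δ' hΔ' hz => ?_
    refine bv_cases R (fun _ _ h => h) fun Δ'' h'' hn => ?_
    refine bv_intro (f := fun y => bmem y x ⊓ ⨅ z, bmem z x ⇨ (bmem z y)ᶜ) z ?_
    refine le_inf (h''.trans hz) (le_iInf fun w => bv_imp fun E hE hw => bv_not fun E' hE' hw' => ?_)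
    refine bv_absurd (a := R) ?_ ((hE'.trans hE).trans hn)
    refine bv_mp (bv_mp (bv_all ((hE'.trans (hE.trans (h''.trans hΔ'))).trans hΔ) w) hw') ?_
    exact hE'.trans hw
  have h3 : (⊤ : B) ≤ bmem y x ⇨ R := h2.trans h1
  exact bv_mp (le_top.trans h3) le_rfl

/-! ### Collection and replacement -/

/-- Collection for arbitrary extensional `B`-valued relations. -/
theorem collection {φ : BSet B → BSet B → B} (h1 : ∀ y, Ext (fun x => φ x y))
    (h2 : ∀ x, Ext (φ x)) (x : BSet B) :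
    ∃ c : BSet B, ∀ z, bmem z x ⊓ (⨆ y, φ z y) ≤ ⨆ y, bmem y c ⊓ φ z y := by
  choose g hg using fun a : x.Idx => maximum (h2 (x.elt a))
  refine ⟨mk x.Idx g (fun _ => ⊤), fun z => ?_⟩
  conv_lhs => unfold bmem
  rw [iSup_inf_eq]
  refine iSup_le fun a => ?_
  refine bv_intro (f := fun y => bmem y (mk x.Idx g (fun _ => ⊤)) ⊓ φ z y) (g a) ?_
  refine le_inf ?_ ?_
  · exact le_top.trans (bv_le_bmem (mk x.Idx g (fun _ => ⊤)) a)
  · refine (h1 (g a)).le (x := x.elt a)
      (beq_symm' (inf_le_left.trans inf_le_right)) ?_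
    rw [hg a]
    have : Ext (fun x => ⨆ y, φ x y) := Ext.iSup fun y => h1 y
    exact this.le (x := z) (inf_le_left.trans inf_le_right) inf_le_right

/-- The image of a set under a `B`-valued relation that is functional (at most one value). -/
theorem replacement {φ : BSet B → BSet B → B} (h1 : ∀ y, Ext (fun x => φ x y))
    (h2 : ∀ x, Ext (φ x)) (x : BSet B) :
    ∃ c : BSet B, (⨅ z, bmem z x ⇨ ⨅ y, ⨅ y', (φ z y ⊓ φ z y') ⇨ beq y y') ≤
      ⨅ y, bihimp (bmem y c) (⨆ z, bmem z x ⊓ φ z y) := by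
  obtain ⟨c, hc⟩ := collection h1 h2 x
  have hext : Ext (fun y => ⨆ z, bmem z x ⊓ φ z y) :=
    Ext.iSup fun z => (ext_const _).inf (h2 z)
  refine ⟨sep (fun y => ⨆ z, bmem z x ⊓ φ z y) c, ?_⟩
  refine le_iInf fun y => ?_
  rw [bmem_sep hext]
  unfold bihimp
  refine le_inf ?_ ?_
  · refine bv_imp fun Δ hΔ hy => le_inf ?_ hy
    refine bv_exists hy fun z Δ' hΔ' hz => ?_
    have h3 : Δ' ≤ ⨆ y, bmem y c ⊓ φ z y := by
      refine le_trans ?_ (hc z)
      exact le_inf (bv_left hz) (bv_intro (f := fun y => φ z y) y (bv_right hz))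
    refine bv_exists h3 fun y' Δ'' h'' hy' => ?_
    refine (ext_bmem_left c).le (x := y') ?_ (bv_left hy')
    have h4 := bv_all (bv_all (bv_mp (bv_all ((h''.trans hΔ').trans hΔ) z)
      (h''.trans (bv_left hz))) y') y
    exact bv_mp h4 (le_inf (bv_right hy') (h''.trans (bv_right hz)))
  · refine bv_imp fun Δ _ hy => bv_right hy

/-! ### Infinity -/

/-- The finite ordinals as names. -/
def ofNat : ℕ → BSet B
  | 0 => empty
  | n + 1 => insert (ofNat n) (ofNat n)

/-- The name of the first infinite ordinal. -/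
def omega : BSet B := mk (ULift ℕ) (fun n => ofNat n.down) (fun _ => ⊤)

theorem bmem_omega (z : BSet B) : bmem z omega = ⨆ n : ℕ, beq z (ofNat n) := by
  unfold bmem omega
  apply le_antisymm
  · exact iSup_le fun n => bv_intro (f := fun n : ℕ => beq z (ofNat n)) n.down inf_le_right
  · refine iSup_le fun n => bv_intro
      (f := fun n : ULift ℕ => (⊤ : B) ⊓ beq z (ofNat n.down)) ⟨n⟩ (by simp)

theorem ofNat_mem_omega (n : ℕ) : bmem (ofNat n) (omega : BSet B) = ⊤ := by
  rw [bmem_omega, eq_top_iff]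
  exact bv_intro (f := fun m : ℕ => beq (ofNat n) (ofNat m)) n (by simp)

theorem insert_congr {x y x' y' : BSet B} {c : B} (h1 : c ≤ beq x x') (h2 : c ≤ beq y y') :
    c ≤ beq (insert x y) (insert x' y') := by
  rw [le_beq_iff']
  constructor
  · intro z
    rw [bmem_insert, bmem_insert, inf_sup_left]
    refine sup_le_sup ?_ ?_
    · exact beq_trans' (y := x) inf_le_right (inf_le_left.trans h1)
    · exact bmem_congr_right (y := y) (inf_le_left.trans h2) inf_le_right
  · intro z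
    rw [bmem_insert, bmem_insert, inf_sup_left]
    refine sup_le_sup ?_ ?_
    · exact beq_trans' (y := x') inf_le_right (beq_symm' (inf_le_left.trans h1))
    · exact bmem_congr_right (y := y') (beq_symm' (inf_le_left.trans h2)) inf_le_right

/-- Infinity: the empty set belongs to `omega`, which is closed under successors. -/
theorem empty_mem_omega : bmem empty (omega : BSet B) = ⊤ := ofNat_mem_omega 0

theorem succ_mem_omega (x : BSet B) : bmem x omega ≤ bmem (insert x x) (omega : BSet B) := by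
  rw [bmem_omega, bmem_omega]
  refine iSup_le fun n => ?_
  refine bv_intro (f := fun m : ℕ => beq (insert x x) (ofNat m)) (n + 1) ?_
  exact insert_congr le_rfl le_rfl

/-! ### Choice -/

/-- Choice: a family `x` of nonempty pairwise disjoint sets has a transversal `c`. -/
theorem choice (x : BSet B) : ∃ c : BSet B,
    (⨅ y, bmem y x ⇨ ⨆ z, bmem z y) ⊓
      (⨅ y, ⨅ y', (bmem y x ⊓ bmem y' x) ⇨ (⨆ z, bmem z y ⊓ bmem z y') ⇨ beq y y') ≤
    ⨅ y, bmem y x ⇨ ((⨆ z, bmem z y ⊓ bmem z c) ⊓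
      (⨅ z, ⨅ z', (bmem z y ⊓ bmem z c) ⇨ (bmem z' y ⊓ bmem z' c) ⇨ beq z z')) := by
  classical
  -- the index type of the union, well ordered
  let J : Type u := Σ a : x.Idx, (x.elt a).Idx
  let e : J → BSet B := fun p => (x.elt p.1).elt p.2
  let m : J → B := fun p => x.bv p.1 ⊓ (x.elt p.1).bv p.2
  obtain ⟨r, hr⟩ : ∃ r : J → J → Prop, IsWellOrder J r := ⟨WellOrderingRel, inferInstance⟩
  let same : BSet B → BSet B → B := fun w w' => ⨆ y, bmem y x ⊓ (bmem w y ⊓ bmem w' y)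
  let val : J → B := fun j => m j ⊓ ⨅ i : {i // r i j}, (m i.1 ⊓ same (e i.1) (e j))ᶜ
  let c : BSet B := mk J e val
  refine ⟨c, le_iInf fun y => bv_imp fun Γ hΓ hy => ?_⟩
  have hne : Γ ≤ ⨆ z, bmem z y := bv_mp (bv_all (bv_left hΓ) y) hy
  have hdisj := bv_right hΓ
  refine le_inf ?_ ?_
  · -- existence
    have key : ∀ j : J, ∀ Δ ≤ Γ, Δ ≤ m j → Δ ≤ bmem (e j) y → Δ ≤ ⨆ z, bmem z y ⊓ bmem z c := by
      intro j
      induction j using hr.wf.induction with
      | _ j ih =>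
        intro Δ hΔ hm hj
        refine bv_cases (⨅ i : {i // r i j}, (m i.1 ⊓ same (e i.1) (e j))ᶜ) ?_ ?_
        · intro Δ' hΔ' h
          refine bv_intro (f := fun z => bmem z y ⊓ bmem z c) (e j) ?_
          refine le_inf (hΔ'.trans hj) ?_
          refine le_trans ?_ (bv_le_bmem c j)
          exact le_inf (hΔ'.trans hm) h
        · intro Δ' hΔ' h
          rw [compl_iInf] at h
          refine bv_exists h fun i Δ'' h'' hi => ?_
          rw [compl_compl] at hi
          refine bv_exists (bv_right hi) fun y' Δ₃ h₃ hy' => ?_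
          have h5 : Δ₃ ≤ beq y y' := by
            have h6 := bv_all (bv_all ((h₃.trans (h''.trans (hΔ'.trans hΔ))).trans hdisj) y) y'
            refine bv_mp (bv_mp h6 (le_inf ?_ (bv_left hy'))) ?_
            · exact (h₃.trans (h''.trans (hΔ'.trans hΔ))).trans hy
            · refine bv_intro (f := fun z => bmem z y ⊓ bmem z y') (e j) (le_inf ?_ ?_)
              · exact (h₃.trans (h''.trans hΔ')).trans hj
              · exact bv_right (bv_right hy')
          refine ih i.1 i.2 Δ₃ (h₃.trans (h''.trans (hΔ'.trans hΔ))) (h₃.trans (bv_left hi)) ?_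
          exact bmem_congr_right (y := y') (beq_symm' h5) (bv_left (bv_right hy'))
    refine bv_exists hne fun z Δ hΔ hz => ?_
    have h1 : Δ ≤ bmem z (sUnion x) := by
      rw [bmem_sUnion]
      exact bv_intro (f := fun y => bmem y x ⊓ bmem z y) y (le_inf (hΔ.trans hy) hz)
    unfold bmem at h1
    refine bv_exists h1 fun j Δ' hΔ' hj => ?_
    refine key j Δ' (hΔ'.trans hΔ) (bv_left hj) ?_
    exact bmem_congr_left (x := z) (bv_right hj) (hΔ'.trans hz)
  · -- uniqueness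
    have key : ∀ i j : J, r i j → Γ ⊓ (val i ⊓ val j ⊓ (bmem (e i) y ⊓ bmem (e j) y)) ≤ ⊥ := by
      intro i j hij
      refine bv_absurd (a := m i ⊓ same (e i) (e j)) ?_ ?_
      · refine le_inf ?_ ?_
        · exact inf_le_right.trans (inf_le_left.trans (inf_le_left.trans inf_le_left))
        · refine bv_intro (f := fun y => bmem y x ⊓ (bmem (e i) y ⊓ bmem (e j) y)) y ?_
          exact le_inf (inf_le_left.trans hy) (inf_le_right.trans inf_le_right)
      · have h1 : val j ≤ (m i ⊓ same (e i) (e j))ᶜ :=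
          inf_le_right.trans (iInf_le (fun i : {i // r i j} => (m i.1 ⊓ same (e i.1) (e j))ᶜ) ⟨i, hij⟩)
        exact (inf_le_right.trans (inf_le_left.trans inf_le_right)).trans h1
    refine le_iInf fun z => le_iInf fun z' => bv_imp fun Δ hΔ hz => bv_imp fun Δ' hΔ' hz' => ?_
    have h1 : Δ' ≤ bmem z c := hΔ'.trans (bv_right hz)
    have h2 : Δ' ≤ bmem z' c := bv_right hz'
    unfold bmem at h1 h2
    refine bv_exists h1 fun i Δ₂ hΔ₂ hi => ?_
    refine bv_exists (hΔ₂.trans h2) fun j Δ₃ hΔ₃ hj => ?_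
    have hi1 : Δ₃ ≤ val i := hΔ₃.trans (bv_left hi)
    have hi2 : Δ₃ ≤ beq z (e i) := hΔ₃.trans (bv_right hi)
    have hj1 : Δ₃ ≤ val j := bv_left hj
    have hj2 : Δ₃ ≤ beq z' (e j) := bv_right hj
    have h3Γ : Δ₃ ≤ Γ := hΔ₃.trans (hΔ₂.trans (hΔ'.trans hΔ))
    have hi3 : Δ₃ ≤ bmem (e i) y :=
      bmem_congr_left (x := z) hi2 ((hΔ₃.trans (hΔ₂.trans hΔ')).trans (bv_left hz))
    have hj3 : Δ₃ ≤ bmem (e j) y :=
      bmem_congr_left (x := z') hj2 ((hΔ₃.trans hΔ₂).trans (bv_left hz'))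
    rcases trichotomous_of r i j with h | h | h
    · refine le_trans ?_ bot_le
      exact (le_inf h3Γ (le_inf (le_inf hi1 hj1) (le_inf hi3 hj3))).trans (key i j h)
    · subst h
      exact beq_trans' hi2 (beq_symm' hj2)
    · refine le_trans ?_ bot_le
      exact (le_inf h3Γ (le_inf (le_inf hj1 hi1) (le_inf hj3 hi3))).trans (key j i h)

end BSet

end M3
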